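import Pool.Agent.Lib.MP_653dc2_an.Basic

set_option autoImplicit false
open Set MeasureTheory Filter Topology
open scoped ENNReal

namespace Pool.Agent.Lib.MP_653dc2_an

/-- the averaging operator is symmetric -/
theorem avg_adj {ψ F : ℝ → ℝ} {B B' : ℝ} (hψ : BM ψ B) (hF : BM F B')
    (h0 : ∀ x, x ∉ Ioo (-6 : ℝ) 6 → ψ x = 0) {ρ : ℝ} (hρ : 0 < ρ) (hρ1 : ρ ≤ 1) :
    ∫ x in (-7 : ℝ)..7, ψ x * avg F x ρ = ∫ t in (-7 : ℝ)..7, F t * avg ψ t ρ := by
  rw [intervalIntegral.integral_of_le (by norm_num), intervalIntegral.integral_of_le (by norm_num)]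
  set k : ℝ → ℝ → ℝ := fun x t => if |x - t| < ρ then ψ x * F t else 0 with hk
  have hψm := hψ.meas
  have hFm := hF.meas
  have hint : Integrable (Function.uncurry k)
      ((volume.restrict (Ioc (-7 : ℝ) 7)).prod (volume.restrict (Ioc (-7 : ℝ) 7))) := by
    refine Integrable.of_bound (C := B * B') ?_ (Eventually.of_forall fun z => ?_)
    · apply Measurable.aestronglyMeasurable
      apply Measurable.ite
      · exact measurableSet_lt (by fun_prop) measurable_const
      · exact (hψm.comp measurable_fst).mul (hFm.comp measurable_snd)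
      · exact measurable_const
    · simp only [Function.uncurry, hk]
      split_ifs
      · rw [norm_mul]
        exact mul_le_mul (hψ.bdd _) (hF.bdd _) (norm_nonneg _) hψ.nonneg
      · rw [norm_zero]
        exact mul_nonneg hψ.nonneg hF.nonneg
  have e1 : ∀ x ∈ Ioc (-7 : ℝ) 7, ψ x * avg F x ρ =
      (2 * ρ)⁻¹ * ∫ t in Ioc (-7 : ℝ) 7, k x t := by
    intro x _
    by_cases hx : x ∈ Ioo (-6 : ℝ) 6
    · have h1 : ∀ t, k x t = (Ioo (x - ρ) (x + ρ)).indicator (fun t => ψ x * F t) t := by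
        intro t
        simp only [hk, indicator, mem_Ioo]
        congr 1
        rw [abs_lt]
        apply propext
        constructor <;> rintro ⟨h1, h2⟩ <;> constructor <;> linarith
      have hsub : Ioo (x - ρ) (x + ρ) ⊆ Ioc (-7 : ℝ) 7 := fun t ht =>
        ⟨by linarith [ht.1, hx.1], by linarith [ht.2, hx.2]⟩
      simp only [h1]
      rw [setIntegral_indicator measurableSet_Ioo, inter_eq_right.2 hsub,
        ← integral_Ioc_eq_integral_Ioo,
        ← intervalIntegral.integral_of_le (by linarith), intervalIntegral.integral_const_mul, avg]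
      ring
    · have h1 : ∀ t, k x t = 0 := by
        intro t
        simp only [hk, h0 x hx, zero_mul, ite_self]
      simp only [h1, h0 x hx, zero_mul, integral_zero, mul_zero]
  have e2 : ∀ t ∈ Ioc (-7 : ℝ) 7, F t * avg ψ t ρ =
      (2 * ρ)⁻¹ * ∫ x in Ioc (-7 : ℝ) 7, k x t := by
    intro t _
    have h1 : ∀ x, k x t = (Ioo (t - ρ) (t + ρ)).indicator (fun x => ψ x * F t) x := by
      intro x
      simp only [hk, indicator, mem_Ioo]
      congr 1
      rw [abs_lt]
      apply propext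
      constructor <;> rintro ⟨h1, h2⟩ <;> constructor <;> linarith
    simp only [h1]
    have h2 : ∫ x in Ioo (t - ρ) (t + ρ), ψ x * F t =
        ∫ x in Ioc (-7 : ℝ) 7 ∩ Ioo (t - ρ) (t + ρ), ψ x * F t := by
      apply setIntegral_eq_of_subset_of_forall_sdiff_eq_zero measurableSet_Ioo inter_subset_right
      intro x hx
      have : ψ x = 0 := h0 x fun hx' => hx.2 ⟨⟨by linarith [hx'.1], by linarith [hx'.2]⟩, hx.1⟩
      rw [this, zero_mul]
    rw [setIntegral_indicator measurableSet_Ioo, ← h2, ← integral_Ioc_eq_integral_Ioo,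
      ← intervalIntegral.integral_of_le (by linarith), intervalIntegral.integral_mul_const, avg]
    ring
  rw [setIntegral_congr_fun measurableSet_Ioc e1, setIntegral_congr_fun measurableSet_Ioc e2,
    integral_const_mul, integral_const_mul, integral_integral_swap hint]

/-- the cut-off function -/
noncomputable def psi (x : ℝ) : ℝ := (max (36 - x ^ 2) 0) ^ 2

theorem psi_nonneg (x : ℝ) : 0 ≤ psi x := sq_nonneg _

theorem psi_le (x : ℝ) : psi x ≤ 1296 := by
  unfold psi
  have h1 : max (36 - x ^ 2) 0 ≤ 36 := max_le (by nlinarith [sq_nonneg x]) (by norm_num)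
  have h2 : 0 ≤ max (36 - x ^ 2) 0 := le_max_right _ _
  nlinarith

theorem psi_ge {x : ℝ} (h1 : -4 ≤ x) (h2 : x ≤ 4) : 400 ≤ psi x := by
  unfold psi
  have h3 : 20 ≤ 36 - x ^ 2 := by nlinarith
  have h4 : 20 ≤ max (36 - x ^ 2) 0 := le_max_of_le_left h3
  nlinarith

theorem psi_eq_zero {x : ℝ} (hx : x ∉ Ioo (-6 : ℝ) 6) : psi x = 0 := by
  unfold psi
  have : 36 ≤ x ^ 2 := by
    simp only [mem_Ioo, not_and_or, not_lt] at hx
    rcases hx with h | h <;> nlinarith
  rw [max_eq_right (by linarith)]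
  norm_num

theorem continuous_psi : Continuous psi := by unfold psi; fun_prop

theorem psi_BM : BM psi 1296 :=
  ⟨continuous_psi.measurable, fun x => by rw [abs_of_nonneg (psi_nonneg x)]; exact psi_le x⟩

theorem hsq (u v : ℝ) : |(max v 0) ^ 2 - (max u 0) ^ 2 - 2 * max u 0 * (v - u)| ≤ (v - u) ^ 2 := by
  rw [abs_le]
  rcases le_total u 0 with hu | hu <;> rcases le_total v 0 with hv | hv
  · rw [max_eq_right hu, max_eq_right hv]
    constructor <;> nlinarith [sq_nonneg (v - u)]
  · rw [max_eq_right hu, max_eq_left hv]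
    constructor <;> nlinarith [sq_nonneg (v - u), mul_nonneg hv (neg_nonneg.2 hu)]
  · rw [max_eq_left hu, max_eq_right hv]
    constructor <;> nlinarith [sq_nonneg (v - u), mul_nonneg hu (neg_nonneg.2 hv)]
  · rw [max_eq_left hu, max_eq_left hv]
    constructor <;> nlinarith [sq_nonneg (v - u)]

theorem psi_taylor {y t : ℝ} (hy : |y| ≤ 7) (ht : |t - y| ≤ 1) :
    |psi t - psi y - (-4 * y * max (36 - y ^ 2) 0) * (t - y)| ≤ 300 * (t - y) ^ 2 := by
  have h1 := hsq (36 - y ^ 2) (36 - t ^ 2)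
  have hM0 : 0 ≤ max (36 - y ^ 2) 0 := le_max_right _ _
  have hM1 : max (36 - y ^ 2) 0 ≤ 36 := max_le (by nlinarith [sq_nonneg y]) (by norm_num)
  set m := max (36 - y ^ 2) 0 with hm
  have e : psi t - psi y - (-4 * y * m) * (t - y) =
      ((max (36 - t ^ 2) 0) ^ 2 - m ^ 2 - 2 * m * ((36 - t ^ 2) - (36 - y ^ 2))) -
        2 * m * (t - y) ^ 2 := by
    unfold psi
    rw [← hm]
    ring
  rw [e]
  rw [abs_le] at hy ht h1 ⊢
  have h2 : ((36 - t ^ 2) - (36 - y ^ 2)) ^ 2 ≤ 225 * (t - y) ^ 2 := by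
    have : ((36 - t ^ 2) - (36 - y ^ 2)) ^ 2 = (t + y) ^ 2 * (t - y) ^ 2 := by ring
    rw [this]
    have h3 : (t + y) ^ 2 ≤ 225 := by
      have : -15 ≤ t + y := by linarith
      have : t + y ≤ 15 := by linarith
      nlinarith
    nlinarith [sq_nonneg (t - y)]
  have h4 : 0 ≤ 2 * m * (t - y) ^ 2 := by positivity
  have h5 : 2 * m * (t - y) ^ 2 ≤ 72 * (t - y) ^ 2 := by
    nlinarith [sq_nonneg (t - y)]
  constructor
  · nlinarith [sq_nonneg (t - y)]
  · nlinarith [sq_nonneg (t - y)]

/-- the average of the cut-off function is close to the cut-off function -/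
theorem avg_psi {y ρ : ℝ} (hy : |y| ≤ 7) (hρ : 0 < ρ) (hρ1 : ρ ≤ 1) :
    |avg psi y ρ - psi y| ≤ 300 * ρ ^ 2 := by
  set A := -4 * y * max (36 - y ^ 2) 0 with hA
  have hlin : avg (fun t => A * t + (psi y - A * y)) y ρ = psi y := by
    rw [avg_linear _ _ _ hρ]; ring
  have key : ∀ t ∈ Ioo (y - ρ) (y + ρ), |psi t - (A * t + (psi y - A * y))| ≤ 300 * ρ ^ 2 := by
    intro t ht
    have h1 : |t - y| ≤ ρ := by rw [abs_le]; constructor <;> linarith [ht.1, ht.2]
    have h2 := psi_taylor hy (h1.trans hρ1)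
    have h3 : (t - y) ^ 2 ≤ ρ ^ 2 := by
      rw [← sq_abs]
      exact pow_le_pow_left₀ (abs_nonneg _) h1 2
    have e : psi t - (A * t + (psi y - A * y)) = psi t - psi y - A * (t - y) := by ring
    rw [e]
    exact h2.trans (by linarith)
  have hi1 : IntervalIntegrable psi volume (y - ρ) (y + ρ) := psi_BM.intervalIntegrable _ _
  have hi2 : IntervalIntegrable (fun t => A * t + (psi y - A * y)) volume (y - ρ) (y + ρ) :=
    (by fun_prop : Continuous fun t => A * t + (psi y - A * y)).intervalIntegrable _ _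
  have e2 : avg psi y ρ - psi y =
      (2 * ρ)⁻¹ * ∫ t in (y - ρ)..(y + ρ), (psi t - (A * t + (psi y - A * y))) := by
    rw [intervalIntegral.integral_sub hi1 hi2, mul_sub]
    change avg psi y ρ - psi y = avg psi y ρ - avg (fun t => A * t + (psi y - A * y)) y ρ
    rw [hlin]
  rw [e2, abs_mul, abs_of_pos (by positivity : 0 < (2 * ρ)⁻¹), inv_mul_le_iff₀ (by positivity)]
  have h4 := intervalIntegral.norm_integral_le_of_norm_le_const (a := y - ρ) (b := y + ρ)
    (f := fun t => psi t - (A * t + (psi y - A * y))) (C := 300 * ρ ^ 2) (fun t ht => ?_)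
  · rw [Real.norm_eq_abs] at h4
    refine h4.trans (le_of_eq ?_)
    rw [abs_of_pos (by linarith)]
    ring
  · rw [uIoc_of_le (by linarith)] at ht
    have h1 : |t - y| ≤ ρ := by rw [abs_le]; constructor <;> linarith [ht.1, ht.2]
    have h2 := psi_taylor hy (h1.trans hρ1)
    have h3 : (t - y) ^ 2 ≤ ρ ^ 2 := by
      rw [← sq_abs]
      exact pow_le_pow_left₀ (abs_nonneg _) h1 2
    have e : psi t - (A * t + (psi y - A * y)) = psi t - psi y - A * (t - y) := by ring
    rw [Real.norm_eq_abs, e]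
    exact h2.trans (by linarith)

/-- C2 -/
theorem cut : ∃ C : ℝ, 0 ≤ C ∧ ∀ F : ℝ → ℝ, Measurable F → (∀ x, 0 ≤ F x ∧ F x ≤ 1) →
    ∀ ρ : ℝ, 0 < ρ → ρ ≤ 1 → ∫ x in (-3 : ℝ)..4, |avg F x ρ - F x| ≤
      C * ((∫ x in (-6 : ℝ)..6, max (avg F x ρ - F x) 0) + ρ ^ 2) := by
  refine ⟨20, by norm_num, fun F hF hb ρ hρ hρ1 => ?_⟩
  have hFB : BM F 1 := ⟨hF, fun x => by rw [abs_le]; constructor <;> linarith [(hb x).1, (hb x).2]⟩
  have hAB : BM (fun x => avg F x ρ) 1 :=
    ⟨(continuous_avg_left hFB hρ).measurable, fun x => abs_avg_le hFB hρ⟩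
  have hPB : BM (fun x => avg psi x ρ) 1296 :=
    ⟨(continuous_avg_left psi_BM hρ).measurable, fun x => abs_avg_le psi_BM hρ⟩
  set W : ℝ → ℝ := fun x => avg F x ρ - F x with hW
  have hWB : BM W 2 := by
    have := hAB.sub hFB
    norm_num at this
    exact this
  have hmul : ∀ {u v : ℝ → ℝ} {B B' : ℝ}, BM u B → BM v B' → BM (fun x => u x * v x) (B * B') := by
    intro u v B B' hu hv
    refine ⟨hu.meas.mul hv.meas, fun x => ?_⟩
    rw [abs_mul]
    exact mul_le_mul (hu.bdd x) (hv.bdd x) (abs_nonneg _) hu.nonneg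
  have hWabs : BM (fun x => |W x|) 2 := ⟨hWB.meas.abs, fun x => by rw [abs_abs]; exact hWB.bdd x⟩
  have hWmax : BM (fun x => max (W x) 0) 2 := ⟨hWB.meas.max measurable_const, fun x => by
    rw [abs_of_nonneg (le_max_right _ _)]
    exact max_le ((le_abs_self _).trans (hWB.bdd x)) (by norm_num)⟩
  -- step 1
  have s1 : ∫ x in (-3 : ℝ)..4, |W x| ≤ (400 : ℝ)⁻¹ * ∫ x in (-6 : ℝ)..6, psi x * |W x| := by
    rw [← intervalIntegral.integral_const_mul]
    calc ∫ x in (-3 : ℝ)..4, |W x| ≤ ∫ x in (-3 : ℝ)..4, (400 : ℝ)⁻¹ * (psi x * |W x|) := by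
          apply intervalIntegral.integral_mono_on (by norm_num) (hWabs.intervalIntegrable _ _)
            (((hmul psi_BM hWabs).intervalIntegrable _ _).const_mul _)
          intro x hx
          have h1 := psi_ge (x := x) (by linarith [hx.1]) hx.2
          have h2 := abs_nonneg (W x)
          nlinarith
      _ ≤ ∫ x in (-6 : ℝ)..6, (400 : ℝ)⁻¹ * (psi x * |W x|) := by
          apply intervalIntegral.integral_mono_interval (by norm_num) (by norm_num) (by norm_num)
          · exact Eventually.of_forall fun x =>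
              mul_nonneg (by norm_num) (mul_nonneg (psi_nonneg x) (abs_nonneg _))
          · exact ((hmul psi_BM hWabs).intervalIntegrable _ _).const_mul _
  -- step 2
  have s2 : ∫ x in (-6 : ℝ)..6, psi x * |W x| =
      2 * (∫ x in (-6 : ℝ)..6, psi x * max (W x) 0) - ∫ x in (-6 : ℝ)..6, psi x * W x := by
    rw [← intervalIntegral.integral_const_mul, ← intervalIntegral.integral_sub
      (((hmul psi_BM hWmax).intervalIntegrable _ _).const_mul _)
      ((hmul psi_BM hWB).intervalIntegrable _ _)]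
    congr 1
    funext x
    rcases le_total 0 (W x) with h | h
    · rw [abs_of_nonneg h, max_eq_left h]; ring
    · rw [abs_of_nonpos h, max_eq_right h]; ring
  have s3 : ∫ x in (-6 : ℝ)..6, psi x * max (W x) 0 ≤ 1296 * ∫ x in (-6 : ℝ)..6, max (W x) 0 := by
    rw [← intervalIntegral.integral_const_mul]
    apply intervalIntegral.integral_mono_on (by norm_num)
      ((hmul psi_BM hWmax).intervalIntegrable _ _) ((hWmax.intervalIntegrable _ _).const_mul _)
    intro x _
    exact mul_le_mul_of_nonneg_right (psi_le x) (le_max_right _ _)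
  -- step 3
  have hext : ∀ {v : ℝ → ℝ} {B : ℝ}, BM v B →
      ∫ x in (-6 : ℝ)..6, psi x * v x = ∫ x in (-7 : ℝ)..7, psi x * v x := by
    intro v B hv
    have hi : ∀ a b : ℝ, IntervalIntegrable (fun x => psi x * v x) volume a b := fun a b =>
      (hmul psi_BM hv).intervalIntegrable a b
    have h1 : ∫ x in (-7 : ℝ)..(-6), psi x * v x = 0 := by
      rw [intervalIntegral.integral_congr (g := fun _ => (0 : ℝ))]
      · simp
      · intro x hx
        rw [uIcc_of_le (by norm_num)] at hx
        have : psi x = 0 := psi_eq_zero fun h => by linarith [hx.2, h.1]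
        simp [this]
    have h2 : ∫ x in (6 : ℝ)..7, psi x * v x = 0 := by
      rw [intervalIntegral.integral_congr (g := fun _ => (0 : ℝ))]
      · simp
      · intro x hx
        rw [uIcc_of_le (by norm_num)] at hx
        have : psi x = 0 := psi_eq_zero fun h => by linarith [hx.1, h.2]
        simp [this]
    rw [← intervalIntegral.integral_add_adjacent_intervals (hi (-7) (-6)) (hi (-6) 7),
      ← intervalIntegral.integral_add_adjacent_intervals (hi (-6) 6) (hi 6 7), h1, h2]
    ring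
  have s4 : ∫ x in (-6 : ℝ)..6, psi x * W x =
      ∫ t in (-7 : ℝ)..7, F t * (avg psi t ρ - psi t) := by
    rw [hext hWB]
    have e1 : ∫ x in (-7 : ℝ)..7, psi x * W x =
        (∫ x in (-7 : ℝ)..7, psi x * avg F x ρ) - ∫ x in (-7 : ℝ)..7, psi x * F x := by
      rw [← intervalIntegral.integral_sub ((hmul psi_BM hAB).intervalIntegrable _ _)
        ((hmul psi_BM hFB).intervalIntegrable _ _)]
      congr 1
      funext x
      simp only [hW]
      ring
    rw [e1, avg_adj psi_BM hFB (fun x hx => psi_eq_zero hx) hρ hρ1,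
      ← intervalIntegral.integral_sub ((hmul hFB hPB).intervalIntegrable _ _)
        ((hmul psi_BM hFB).intervalIntegrable _ _)]
    congr 1
    funext x
    ring
  have s5 : |∫ x in (-6 : ℝ)..6, psi x * W x| ≤ 4200 * ρ ^ 2 := by
    rw [s4]
    have h4 := intervalIntegral.norm_integral_le_of_norm_le_const (a := -7) (b := 7)
      (f := fun t => F t * (avg psi t ρ - psi t)) (C := 300 * ρ ^ 2) (fun t ht => ?_)
    · rw [Real.norm_eq_abs] at h4
      refine h4.trans (le_of_eq ?_)
      norm_num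
      ring
    · rw [uIoc_of_le (by norm_num)] at ht
      rw [Real.norm_eq_abs, abs_mul]
      have h1 := avg_psi (y := t) (by rw [abs_le]; constructor <;> linarith [ht.1, ht.2]) hρ hρ1
      have h2 := hFB.bdd t
      nlinarith [abs_nonneg (F t), abs_nonneg (avg psi t ρ - psi t)]
  have hM : 0 ≤ ∫ x in (-6 : ℝ)..6, max (W x) 0 :=
    intervalIntegral.integral_nonneg (by norm_num) fun x _ => le_max_right _ _
  have s6 := neg_le_of_abs_le s5
  change ∫ x in (-3 : ℝ)..4, |W x| ≤ 20 * ((∫ x in (-6 : ℝ)..6, max (W x) 0) + ρ ^ 2)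
  rw [s2] at s1
  nlinarith [sq_nonneg ρ]

end Pool.Agent.Lib.MP_653dc2_an
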