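import Pool.Agent.Lib.MP_653dc2_an.Basic

set_option autoImplicit false
open Set MeasureTheory Filter Topology
open scoped ENNReal

namespace Pool.Agent.Lib.MP_653dc2_an

section

variable {g : ℝ → ℝ} {m : Measure ℝ} {E : Set ℝ} {ε : ℝ}

theorem CHyp.g_nonneg (h : CHyp g m E ε) {x : ℝ} (hx : x ∈ E) : 0 ≤ g x := by
  rw [← h.g_left]; exact h.mono (h.sub hx).1.le

theorem CHyp.g_le_one (h : CHyp g m E ε) {x : ℝ} (hx : x ∈ E) : g x ≤ 1 := by
  rw [← h.g_right]; exact h.mono (h.sub hx).2.le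

theorem CHyp.eps_nonneg (h : CHyp g m E ε) : 0 ≤ ε := ENNReal.toReal_nonneg.trans h.gap

theorem Lf_bdd (h : CHyp g m E ε) (x : ℝ) : BddAbove (insert 0 (g '' (E ∩ Iio x))) := by
  refine ⟨1, ?_⟩
  rintro _ (rfl | ⟨e, he, rfl⟩)
  · norm_num
  · exact h.g_le_one he.1

theorem Lf_nonneg (h : CHyp g m E ε) (x : ℝ) : 0 ≤ Lf g E x :=
  le_csSup (Lf_bdd h x) (mem_insert _ _)

theorem le_Lf (h : CHyp g m E ε) {e x : ℝ} (he : e ∈ E) (hx : e < x) : g e ≤ Lf g E x :=
  le_csSup (Lf_bdd h x) (mem_insert_of_mem _ ⟨e, ⟨he, hx⟩, rfl⟩)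

theorem Lf_le {x c : ℝ} (hc : 0 ≤ c) (hh : ∀ e ∈ E, e < x → g e ≤ c) : Lf g E x ≤ c := by
  refine csSup_le ⟨0, mem_insert _ _⟩ ?_
  rintro _ (rfl | ⟨e, he, rfl⟩)
  · exact hc
  · exact hh e he.1 he.2

theorem Lf_le_one (h : CHyp g m E ε) (x : ℝ) : Lf g E x ≤ 1 :=
  Lf_le zero_le_one fun _ he _ => h.g_le_one he

theorem exists_lt_Lf {x c : ℝ} (hc : 0 ≤ c) (hx : c < Lf g E x) : ∃ e ∈ E, e < x ∧ c < g e := by
  by_contra hcon
  push Not at hcon
  exact absurd (Lf_le hc hcon) (not_le.mpr hx)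

theorem Lf_mono (h : CHyp g m E ε) : Monotone (Lf g E) := by
  intro x y hxy
  exact Lf_le (Lf_nonneg h y) fun e he hx => le_Lf h he (hx.trans_le hxy)

theorem Lf_const (h : CHyp g m E ε) {x y : ℝ} (hxy : x ≤ y) (hE : ∀ e ∈ E, ¬ (x ≤ e ∧ e < y)) :
    Lf g E y = Lf g E x := by
  refine le_antisymm ?_ (Lf_mono h hxy)
  refine Lf_le (Lf_nonneg h x) fun e he hy => ?_
  have : e < x := by
    by_contra hcon
    exact hE e he ⟨not_lt.mp hcon, hy⟩
  exact le_Lf h he this

theorem Lf_lsc (h : CHyp g m E ε) : LowerSemicontinuous (Lf g E) := by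
  intro x c hc
  rcases lt_or_ge c 0 with hc0 | hc0
  · exact Eventually.of_forall fun t => hc0.trans_le (Lf_nonneg h t)
  · obtain ⟨e, he, hex, hge⟩ := exists_lt_Lf hc0 hc
    filter_upwards [lt_mem_nhds hex] with t ht
    exact hge.trans_le (le_Lf h he ht)

theorem Lf_le_g (h : CHyp g m E ε) {x : ℝ} (hx : -8 ≤ x) : Lf g E x ≤ g x := by
  refine Lf_le ?_ fun e _ hex => h.mono hex.le
  rw [← h.g_left]; exact h.mono hx

theorem Lf_left (h : CHyp g m E ε) {x : ℝ} (hx : x ≤ -8) : Lf g E x = 0 := by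
  refine le_antisymm (Lf_le le_rfl fun e he hex => ?_) (Lf_nonneg h x)
  exact absurd (h.sub he).1 (not_lt.mpr (hex.le.trans hx))

theorem meas_le_eps (h : CHyp g m E ε) [IsFiniteMeasure m] {u x : ℝ} (hu : -8 ≤ u) (hx : x ≤ 8)
    (hE : ∀ e ∈ E, ¬ (u < e ∧ e < x)) : (m (Ioc u x)).toReal ≤ ε := by
  refine le_trans ?_ h.gap
  refine ENNReal.toReal_mono (measure_ne_top _ _) ?_
  have hsub : Ioc u x ⊆ (Ioc (-8) 8 \ E) ∪ (E ∩ {x}) := by
    intro t ht
    by_cases htE : t ∈ E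
    · right
      refine ⟨htE, ?_⟩
      rcases lt_or_eq_of_le ht.2 with h1 | h1
      · exact absurd ⟨ht.1, h1⟩ (hE t htE)
      · exact h1
    · left
      exact ⟨⟨lt_of_le_of_lt hu ht.1, ht.2.trans hx⟩, htE⟩
  have h0 : m (E ∩ {x}) = 0 := by
    by_cases hxE : x ∈ E
    · exact measure_mono_null inter_subset_right (h.noatom x hxE)
    · have : E ∩ {x} = ∅ := by
        ext t
        simp only [mem_inter_iff, mem_singleton_iff, mem_empty_iff_false, iff_false, not_and]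
        rintro ht rfl
        exact hxE ht
      rw [this]; exact measure_empty
  calc m (Ioc u x) ≤ m ((Ioc (-8) 8 \ E) ∪ (E ∩ {x})) := measure_mono hsub
    _ ≤ m (Ioc (-8) 8 \ E) + m (E ∩ {x}) := measure_union_le _ _
    _ = m (Ioc (-8) 8 \ E) := by rw [h0, add_zero]

theorem g_sub_Lf_le (h : CHyp g m E ε) [IsFiniteMeasure m] {x : ℝ} (hx : x ∈ Icc (-8 : ℝ) 8) :
    g x - Lf g E x ≤ ε := by
  by_cases hne : (E ∩ Iio x).Nonempty
  · have hbdd : BddAbove (E ∩ Iio x) := ⟨x, fun t ht => ht.2.le⟩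
    set u := sSup (E ∩ Iio x) with hu
    have huE : u ∈ E := by
      have h1 : u ∈ closure (E ∩ Iio x) := csSup_mem_closure hne hbdd
      exact h.comp.isClosed.closure_subset_iff.mpr inter_subset_left h1
    have hux : u ≤ x := csSup_le hne fun t ht => ht.2.le
    rcases lt_or_eq_of_le hux with hlt | heq
    · have h1 := le_Lf h huE hlt
      have h2 := h.g_eq u x (h.sub huE).1.le hux hx.2
      have h3 := meas_le_eps h (h.sub huE).1.le hx.2 (u := u) (x := x) (by
        rintro e he ⟨h4, h5⟩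
        exact absurd (le_csSup hbdd ⟨he, h5⟩) (not_le.mpr h4))
      linarith
    · obtain ⟨s, hsm, hst, hsS⟩ := exists_seq_tendsto_sSup hne hbdd
      rw [← hu, heq] at hst
      have hlim : Tendsto (fun n => m (Ioc (s n) x)) atTop (𝓝 (m (⋂ n, Ioc (s n) x))) := by
        refine tendsto_measure_iInter_atTop (fun n => measurableSet_Ioc.nullMeasurableSet) ?_ ?_
        · intro i j hij
          exact Ioc_subset_Ioc_left (hsm hij)
        · exact ⟨0, measure_ne_top _ _⟩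
      have hint : (⋂ n, Ioc (s n) x) = {x} := by
        ext t
        simp only [mem_iInter, mem_Ioc, mem_singleton_iff]
        constructor
        · intro ht
          have h1 : t ≤ x := (ht 0).2
          have h2 : x ≤ t := le_of_tendsto' hst fun n => (ht n).1.le
          exact le_antisymm h1 h2
        · rintro rfl n
          exact ⟨(hsS n).2, le_rfl⟩
      rw [hint, h.noatom x (heq ▸ huE)] at hlim
      have hlim2 : Tendsto (fun n => (m (Ioc (s n) x)).toReal) atTop (𝓝 0) := by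
        have := (ENNReal.tendsto_toReal (a := 0) (by simp)).comp hlim
        rw [ENNReal.toReal_zero] at this
        exact this
      have hlim3 : Tendsto (fun n => g x - (m (Ioc (s n) x)).toReal) atTop (𝓝 (g x)) := by
        simpa using tendsto_const_nhds.sub hlim2
      have : g x ≤ Lf g E x := by
        refine le_of_tendsto' hlim3 fun n => ?_
        rw [← h.g_eq (s n) x (h.sub (hsS n).1).1.le (hsS n).2.le hx.2]
        have := le_Lf h (hsS n).1 (hsS n).2
        linarith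
      linarith [h.eps_nonneg]
  · have h2 := h.g_eq (-8) x le_rfl hx.1 hx.2
    have h3 := meas_le_eps h le_rfl hx.2 (u := -8) (x := x) (by
      rintro e he ⟨h4, h5⟩
      exact hne ⟨e, he, h5⟩)
    rw [h.g_left] at h2
    linarith [Lf_nonneg h x]

/-! ### the minorant -/

variable {N : NNReal}

theorem Ff_bddBelow (h : CHyp g m E ε) (x : ℝ) :
    BddBelow (range fun y : Iic x => Lf g E y + N * (x - y)) := by
  refine ⟨0, ?_⟩
  rintro _ ⟨y, rfl⟩
  have h1 := Lf_nonneg h y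
  have h2 : (0 : ℝ) ≤ N * (x - y) := mul_nonneg N.2 (sub_nonneg.mpr y.2)
  show 0 ≤ Lf g E y + N * (x - y)
  linarith

theorem Ff_le_at (h : CHyp g m E ε) {x y : ℝ} (hy : y ≤ x) :
    Ff g E N x ≤ Lf g E y + N * (x - y) :=
  ciInf_le (Ff_bddBelow h x) (⟨y, hy⟩ : Iic x)

theorem le_Ff {x c : ℝ} (hh : ∀ y ≤ x, c ≤ Lf g E y + N * (x - y)) : c ≤ Ff g E N x := by
  have : Nonempty (Iic x) := ⟨⟨x, le_refl x⟩⟩
  exact le_ciInf fun y => hh y y.2

theorem Ff_le_Lf (h : CHyp g m E ε) (x : ℝ) : Ff g E N x ≤ Lf g E x := by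
  have := Ff_le_at (N := N) h (le_refl x)
  simpa using this

theorem Ff_mono (h : CHyp g m E ε) : Monotone (Ff g E N) := by
  intro x x' hxx
  refine le_Ff fun y hy => ?_
  rcases le_total y x with hyx | hyx
  · refine (Ff_le_at h hyx).trans ?_
    have : (N : ℝ) * (x - y) ≤ N * (x' - y) := mul_le_mul_of_nonneg_left (by linarith) N.2
    linarith
  · refine (Ff_le_Lf h x).trans ((Lf_mono h hyx).trans ?_)
    have : (0 : ℝ) ≤ N * (x' - y) := mul_nonneg N.2 (sub_nonneg.mpr hy)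
    linarith

theorem Ff_lip_right (h : CHyp g m E ε) {x x' : ℝ} (hxx : x ≤ x') :
    Ff g E N x' ≤ Ff g E N x + N * (x' - x) := by
  rw [← sub_le_iff_le_add]
  refine le_Ff fun y hy => ?_
  have := Ff_le_at (N := N) h (hy.trans hxx)
  have e : (N : ℝ) * (x' - y) = N * (x' - x) + N * (x - y) := by ring
  linarith

theorem Ff_lipschitz (h : CHyp g m E ε) : LipschitzWith N (Ff g E N) := by
  have key : ∀ x x' : ℝ, x ≤ x' → |Ff g E N x - Ff g E N x'| ≤ N * |x - x'| := by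
    intro x x' hxx
    have h1 := Ff_mono (N := N) h hxx
    have h2 := Ff_lip_right (N := N) h hxx
    rw [abs_of_nonpos (by linarith), abs_of_nonpos (by linarith)]
    linarith
  refine LipschitzWith.of_dist_le_mul fun x x' => ?_
  rw [Real.dist_eq, Real.dist_eq]
  rcases le_total x x' with hxx | hxx
  · exact key x x' hxx
  · rw [abs_sub_comm, abs_sub_comm x x']
    exact key x' x hxx

theorem Ff_nonneg (h : CHyp g m E ε) (x : ℝ) : 0 ≤ Ff g E N x :=
  le_Ff fun y hy => add_nonneg (Lf_nonneg h y) (mul_nonneg N.2 (sub_nonneg.mpr hy))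

theorem Ff_left (h : CHyp g m E ε) {x : ℝ} (hx : x ≤ -8) : Ff g E N x = 0 :=
  le_antisymm ((Ff_le_Lf h x).trans (Lf_left h hx).le) (Ff_nonneg h x)

/-- the infimum defining `Ff` is attained -/
theorem Ff_attained (h : CHyp g m E ε) {x : ℝ} (hx : -8 ≤ x) :
    ∃ y ≤ x, Ff g E N x = Lf g E y + N * (x - y) ∧ Ff g E N y = Lf g E y := by
  have hl : LowerSemicontinuousOn (fun y => Lf g E y + (N : ℝ) * (x - y)) (Icc (-8) x) := by
    have h1 : LowerSemicontinuous fun y => (N : ℝ) * (x - y) :=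
      (show Continuous fun y => (N : ℝ) * (x - y) by fun_prop).lowerSemicontinuous
    exact ((Lf_lsc h).add h1).lowerSemicontinuousOn _
  obtain ⟨y, hy, hmin⟩ := hl.exists_isMinOn (nonempty_Icc.mpr hx) isCompact_Icc
  have e1 : Ff g E N x = Lf g E y + N * (x - y) := by
    refine le_antisymm (Ff_le_at h hy.2) (le_Ff fun z hz => ?_)
    rcases le_total (-8) z with h8 | h8
    · exact hmin ⟨h8, hz⟩
    · have h1 : Lf g E y + (N : ℝ) * (x - y) ≤ Lf g E (-8) + N * (x - (-8)) :=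
        hmin ⟨le_rfl, hx⟩
      rw [Lf_left h le_rfl] at h1
      rw [Lf_left h h8]
      have h2 : (N : ℝ) * (x - (-8)) ≤ N * (x - z) := mul_le_mul_of_nonneg_left (by linarith) N.2
      linarith
  refine ⟨y, hy.2, e1, ?_⟩
  have h1 := Ff_lip_right (N := N) h hy.2
  have h2 := Ff_le_Lf (N := N) h y
  linarith

end

theorem Ff_basic {g : ℝ → ℝ} {m : Measure ℝ} {E : Set ℝ} {ε : ℝ} [IsFiniteMeasure m]
    (h : CHyp g m E ε) {N : NNReal} (hN : 1 ≤ N) :
    Monotone (Lf g E) ∧ (∀ x ∈ Icc (-8 : ℝ) 8, Lf g E x ≤ g x) ∧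
    (∀ x ∈ Icc (-8 : ℝ) 8, g x - Lf g E x ≤ ε) ∧
    Monotone (Ff g E N) ∧ LipschitzWith N (Ff g E N) ∧ (∀ x, 0 ≤ Ff g E N x ∧ Ff g E N x ≤ 1) ∧
    (∀ x, Ff g E N x ≤ Lf g E x) ∧ (∀ x, Lf g E (x - 1 / N) ≤ Ff g E N x) := by
  refine ⟨Lf_mono h, fun x hx => Lf_le_g h hx.1, fun x hx => g_sub_Lf_le h hx, Ff_mono h,
    Ff_lipschitz h, fun x => ⟨Ff_nonneg h x, (Ff_le_Lf h x).trans (Lf_le_one h x)⟩,
    fun x => Ff_le_Lf h x, fun x => le_Ff fun y hy => ?_⟩
  have hN0 : (0 : ℝ) < N := lt_of_lt_of_le one_pos (by exact_mod_cast hN)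
  rcases le_total (x - 1 / N) y with h1 | h1
  · refine (Lf_mono h h1).trans ?_
    have : (0 : ℝ) ≤ N * (x - y) := mul_nonneg N.2 (sub_nonneg.mpr hy)
    linarith
  · have h2 : 1 ≤ (N : ℝ) * (x - y) := by
      have h3 : (N : ℝ) * (1 / N) ≤ N * (x - y) := mul_le_mul_of_nonneg_left (by linarith) N.2
      rwa [mul_one_div_cancel hN0.ne'] at h3
    linarith [Lf_le_one h (x - 1 / N), Lf_nonneg h y]

theorem isOpen_busy {g : ℝ → ℝ} {m : Measure ℝ} {E : Set ℝ} {ε : ℝ} [IsFiniteMeasure m]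
    (h : CHyp g m E ε) {N : NNReal} (_hN : 1 ≤ N) : IsOpen {x | Ff g E N x < Lf g E x} := by
  rw [isOpen_iff_mem_nhds]
  intro x hx
  obtain ⟨e, he, hex, hge⟩ := exists_lt_Lf (Ff_nonneg (N := N) h x) hx
  filter_upwards [lt_mem_nhds hex,
    (Ff_lipschitz (N := N) h).continuous.continuousAt.eventually (gt_mem_nhds hge)] with t h1 h2
  exact lt_of_lt_of_le h2 (le_Lf h he h1)

theorem Ff_busy {g : ℝ → ℝ} {m : Measure ℝ} {E : Set ℝ} {ε : ℝ} [IsFiniteMeasure m]
    (h : CHyp g m E ε) {N : NNReal} (hN : 1 ≤ N) (x : ℝ) (hx : Ff g E N x < Lf g E x) :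
    ∃ α < x, α ∈ E ∧ Ff g E N α = Lf g E α ∧
      (∀ t ∈ Icc α x, Ff g E N t = Ff g E N α + N * (t - α)) ∧
      ∀ t ∈ Ioc α x, Ff g E N t < Lf g E t := by
  obtain ⟨e, he, hex, hge⟩ := exists_lt_Lf (Ff_nonneg (N := N) h x) hx
  have hx8 : -8 ≤ x := ((h.sub he).1.trans hex).le
  set Z := {y | Ff g E N y < Lf g E y}ᶜ ∩ Iic x with hZ
  have hZc : IsClosed Z := (isOpen_busy h hN).isClosed_compl.inter isClosed_Iic
  have hZne : Z.Nonempty := by
    refine ⟨-8, ?_, hx8⟩
    show ¬ (Ff g E N (-8) < Lf g E (-8))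
    rw [Lf_left h le_rfl]
    exact not_lt.mpr (Ff_nonneg h _)
  have hZb : BddAbove Z := ⟨x, fun t ht => ht.2⟩
  set α := sSup Z with hα
  have hαZ : α ∈ Z := hZc.csSup_mem hZne hZb
  have hαx : α < x := by
    refine lt_of_le_of_ne hαZ.2 ?_
    intro heq
    exact hαZ.1 (heq ▸ hx)
  have hbusy : ∀ t ∈ Ioc α x, Ff g E N t < Lf g E t := by
    intro t ht
    by_contra hcon
    exact absurd (le_csSup hZb ⟨hcon, ht.2⟩) (not_le.mpr ht.1)
  have hαeq : Ff g E N α = Lf g E α := le_antisymm (Ff_le_Lf h α) (not_lt.mp hαZ.1)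
  have hα8 : -8 ≤ α := le_csSup hZb (by
    refine ⟨?_, hx8⟩
    show ¬ (Ff g E N (-8) < Lf g E (-8))
    rw [Lf_left h le_rfl]
    exact not_lt.mpr (Ff_nonneg h _))
  refine ⟨α, hαx, ?_, hαeq, ?_, hbusy⟩
  · by_contra hαE
    have h1 : Eᶜ ∈ 𝓝 α := h.comp.isClosed.isOpen_compl.mem_nhds hαE
    obtain ⟨d, hd, hball⟩ := Metric.mem_nhds_iff.mp h1
    set t := min x (α + d / 2) with ht
    have ht1 : α < t := lt_min hαx (by linarith)
    have h2 : Lf g E t = Lf g E α := by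
      refine Lf_const h ht1.le ?_
      rintro e' he' ⟨h3, h4⟩
      have h5 : e' ∈ Metric.ball α d := by
        rw [Metric.mem_ball, Real.dist_eq, abs_lt]
        have : t ≤ α + d / 2 := min_le_right _ _
        constructor <;> linarith
      exact hball h5 he'
    have h3 := hbusy t ⟨ht1, min_le_left _ _⟩
    rw [h2, ← hαeq] at h3
    exact absurd (Ff_mono (N := N) h ht1.le) (not_le.mpr h3)
  · intro t ht
    refine le_antisymm (Ff_lip_right h ht.1) ?_
    obtain ⟨y, hy, hy1, hy2⟩ := Ff_attained (N := N) h (hα8.trans ht.1)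
    have hyα : y ≤ α := by
      refine le_csSup hZb ⟨?_, hy.trans ht.2⟩
      show ¬ (Ff g E N y < Lf g E y)
      rw [hy2]; exact lt_irrefl _
    rw [hy1]
    have h1 := Ff_lip_right (N := N) h hyα
    rw [hy2] at h1
    have e1 : (N : ℝ) * (t - y) = N * (t - α) + N * (α - y) := by ring
    linarith

theorem deriv_Ff {g : ℝ → ℝ} {m : Measure ℝ} {E : Set ℝ} {ε : ℝ} [IsFiniteMeasure m]
    (h : CHyp g m E ε) {N : NNReal} (hN : 1 ≤ N) :
    ∀ᵐ x, deriv (Ff g E N) x = 0 ∨ deriv (Ff g E N) x = N := by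
  have h1 : ∀ᵐ x, x ∉ E := measure_eq_zero_iff_ae_notMem.mp h.null
  filter_upwards [h1, (Ff_lipschitz (N := N) h).ae_differentiableAt_real] with x hxE hd
  by_cases hx : Ff g E N x < Lf g E x
  · right
    obtain ⟨d, hd0, hball⟩ := Metric.isOpen_iff.mp (isOpen_busy h hN) x hx
    have hx' : x + d / 2 ∈ Metric.ball x d := by
      rw [Metric.mem_ball, Real.dist_eq, abs_lt]; constructor <;> linarith
    obtain ⟨α, hα, -, hαeq, hlin, -⟩ := Ff_busy h hN (x + d / 2) (hball hx')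
    have hαx : α < x := by
      by_contra hcon
      push Not at hcon
      have : α ∈ Metric.ball x d := by
        rw [Metric.mem_ball, Real.dist_eq, abs_lt]; constructor <;> linarith
      have h2 : Ff g E N α < Lf g E α := hball this
      rw [hαeq] at h2
      exact lt_irrefl _ h2
    have hev : Ff g E N =ᶠ[𝓝 x] fun t => Ff g E N α + N * (t - α) := by
      have : Icc α (x + d / 2) ∈ 𝓝 x := Icc_mem_nhds hαx (by linarith)
      filter_upwards [this] with t ht
      exact hlin t ht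
    rw [hev.deriv_eq]
    have h3 : HasDerivAt (fun t => Ff g E N α + (N : ℝ) * (t - α)) (N * 1) x :=
      (((hasDerivAt_id x).sub_const α).const_mul (N : ℝ)).const_add _
    rw [h3.deriv, mul_one]
  · left
    have heq : Ff g E N x = Lf g E x := le_antisymm (Ff_le_Lf h x) (not_lt.mp hx)
    have h2 : Eᶜ ∈ 𝓝 x := h.comp.isClosed.isOpen_compl.mem_nhds hxE
    obtain ⟨d, hd0, hball⟩ := Metric.mem_nhds_iff.mp h2
    have hconst : ∀ t ∈ Ico x (x + d), Ff g E N t = Ff g E N x := by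
      intro t ht
      have h3 : Lf g E t = Lf g E x := by
        refine Lf_const h ht.1 ?_
        rintro e' he' ⟨h3, h4⟩
        have h5 : e' ∈ Metric.ball x d := by
          rw [Metric.mem_ball, Real.dist_eq, abs_lt]
          have := ht.2
          constructor <;> linarith
        exact hball h5 he'
      refine le_antisymm ?_ (Ff_mono h ht.1)
      rw [heq, ← h3]
      exact Ff_le_Lf h t
    have hev : Ff g E N =ᶠ[𝓝[≥] x] fun _ => Ff g E N x := by
      have : Ico x (x + d) ∈ 𝓝[≥] x := Ico_mem_nhdsGE (by linarith)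
      filter_upwards [this] with t ht
      exact hconst t ht
    have h3 : HasDerivWithinAt (Ff g E N) (deriv (Ff g E N) x) (Ici x) x :=
      hd.hasDerivAt.hasDerivWithinAt
    have h4 : HasDerivWithinAt (Ff g E N) 0 (Ici x) x :=
      (hasDerivWithinAt_const x (Ici x) (Ff g E N x)).congr_of_eventuallyEq hev rfl
    exact (uniqueDiffWithinAt_Ici x).eq_deriv _ h3 h4

end Pool.Agent.Lib.MP_653dc2_an
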