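import Pool.Agent.Lib.MP_653dc2_an.CantorFun

set_option autoImplicit false
open Set MeasureTheory Filter Topology
open scoped ENNReal

namespace Pool.Agent.Lib.MP_653dc2_an

namespace Pos

/-! ### elementary sums -/

theorem theta_bound : Real.sqrt (1 / 2) ≤ 7 / 9 := by
  rw [Real.sqrt_le_left (by norm_num)]
  norm_num

theorem geo_step {s l : ℝ} (hs : 0 < s) (hl : 0 < l) :
    min (s ^ 2) (l ^ 2) / s ≤ 16 * l * (s / (l + s)) -
      16 * l * ((s * Real.sqrt (1 / 2)) / (l + s * Real.sqrt (1 / 2))) := by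
  set θ := Real.sqrt (1 / 2) with hθ
  have hθ0 : 0 ≤ θ := Real.sqrt_nonneg _
  have hθ1 : θ ≤ 7 / 9 := theta_bound
  have h1 : 0 < l + s := by positivity
  have h2 : 0 < l + s * θ := by positivity
  have e : 16 * l * (s / (l + s)) - 16 * l * ((s * θ) / (l + s * θ)) =
      16 * l ^ 2 * s * (1 - θ) / ((l + s) * (l + s * θ)) := by
    field_simp
    ring
  rw [e, div_le_div_iff₀ hs (by positivity)]
  rcases le_total s l with hsl | hsl
  · have hm : min (s ^ 2) (l ^ 2) = s ^ 2 := min_eq_left (by nlinarith)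
    rw [hm]
    have h3 : (l + s) * (l + s * θ) ≤ (2 * l) * (l * (1 + θ)) := by
      apply mul_le_mul <;> nlinarith
    have h4 : (2 * l) * (l * (1 + θ)) ≤ 16 * l ^ 2 * (1 - θ) := by nlinarith [sq_nonneg l]
    calc s ^ 2 * ((l + s) * (l + s * θ)) ≤ s ^ 2 * (16 * l ^ 2 * (1 - θ)) :=
          mul_le_mul_of_nonneg_left (h3.trans h4) (by positivity)
      _ = 16 * l ^ 2 * s * (1 - θ) * s := by ring
  · have hm : min (s ^ 2) (l ^ 2) = l ^ 2 := min_eq_right (by nlinarith)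
    rw [hm]
    have h3 : (l + s) * (l + s * θ) ≤ (2 * s) * (s * (1 + θ)) := by
      apply mul_le_mul <;> nlinarith
    have h4 : (2 * s) * (s * (1 + θ)) ≤ 16 * s ^ 2 * (1 - θ) := by nlinarith [sq_nonneg s]
    calc l ^ 2 * ((l + s) * (l + s * θ)) ≤ l ^ 2 * (16 * s ^ 2 * (1 - θ)) :=
          mul_le_mul_of_nonneg_left (h3.trans h4) (by positivity)
      _ = 16 * l ^ 2 * s * (1 - θ) * s := by ring

theorem geo_sum {ρ₀ l : ℝ} (h0 : 0 < ρ₀) (hl : 0 ≤ l) (K : ℕ) :
    ∑ k ∈ Finset.range K, min (ρ₀ / 2 ^ k) l / Real.sqrt (ρ₀ / 2 ^ k) ≤ 16 * Real.sqrt l := by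
  rcases hl.eq_or_lt with rfl | hl
  · have : ∀ k ∈ Finset.range K, min (ρ₀ / 2 ^ k) 0 / Real.sqrt (ρ₀ / 2 ^ k) = 0 := by
      intro k _
      rw [min_eq_right (by positivity), zero_div]
    rw [Finset.sum_eq_zero this]
    simp
  · set q := Real.sqrt l with hq
    have hq0 : 0 < q := Real.sqrt_pos.mpr hl
    have hql : q ^ 2 = l := Real.sq_sqrt hl.le
    set s : ℕ → ℝ := fun k => Real.sqrt (ρ₀ / 2 ^ k) with hs
    have hs0 : ∀ k, 0 < s k := fun k => Real.sqrt_pos.mpr (by positivity)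
    have hss : ∀ k, s (k + 1) = s k * Real.sqrt (1 / 2) := by
      intro k
      rw [hs]
      simp only
      rw [← Real.sqrt_mul (by positivity)]
      congr 1
      rw [pow_succ]
      field_simp
    set ψ : ℕ → ℝ := fun k => 16 * q * (s k / (q + s k)) with hψ
    have hstep : ∀ k ∈ Finset.range K,
        min (ρ₀ / 2 ^ k) l / Real.sqrt (ρ₀ / 2 ^ k) ≤ ψ k - ψ (k + 1) := by
      intro k _
      have := geo_step (hs0 k) hq0
      rw [hψ]
      simp only
      rw [hss k]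
      have e1 : (s k) ^ 2 = ρ₀ / 2 ^ k := Real.sq_sqrt (by positivity)
      rw [e1, hql] at this
      exact this
    refine (Finset.sum_le_sum hstep).trans ?_
    rw [Finset.sum_range_sub']
    have h1 : 0 ≤ ψ K := by
      rw [hψ]
      have := hs0 K
      positivity
    have h2 : ψ 0 ≤ 16 * q := by
      rw [hψ]
      simp only
      have h3 := hs0 0
      have : s 0 / (q + s 0) ≤ 1 := by
        rw [div_le_one (by positivity)]
        linarith
      nlinarith
    linarith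

theorem min_le_sqrt {a b : ℝ} (ha : 0 ≤ a) (hb : 0 ≤ b) : min a b ≤ Real.sqrt (a * b) := by
  apply Real.le_sqrt_of_sq_le
  have h1 : min a b ≤ a := min_le_left _ _
  have h2 : min a b ≤ b := min_le_right _ _
  have h3 : 0 ≤ min a b := le_min ha hb
  nlinarith

/-- the sum over all scales of the contribution of one interval -/
theorem scale_sum {N G l ρ₀ t : ℝ} (hN : 0 ≤ N) (hG : 0 ≤ G) (hl : 0 ≤ l) (h0 : 0 < ρ₀)
    (ht : 0 < t) (K : ℕ) :
    ∑ k ∈ Finset.range K, (ρ₀ / 2 ^ k)⁻¹ * (min (N / 4 * (ρ₀ / 2 ^ k)) (2 * G) *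
      min (ρ₀ / 2 ^ k) l) ≤ 8 * (t * (N * G) + t⁻¹ * l) := by
  have hterm : ∀ k ∈ Finset.range K, (ρ₀ / 2 ^ k)⁻¹ * (min (N / 4 * (ρ₀ / 2 ^ k)) (2 * G) *
      min (ρ₀ / 2 ^ k) l) ≤
      Real.sqrt (N * G / 2) * (min (ρ₀ / 2 ^ k) l / Real.sqrt (ρ₀ / 2 ^ k)) := by
    intro k _
    set ρ := ρ₀ / 2 ^ k with hρ
    have hρ0 : 0 < ρ := by positivity
    have h1 : min (N / 4 * ρ) (2 * G) ≤ Real.sqrt (N * G / 2) * Real.sqrt ρ := by
      refine (min_le_sqrt (by positivity) (by positivity)).trans (le_of_eq ?_)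
      rw [← Real.sqrt_mul (by positivity)]
      congr 1; ring
    have h2 : 0 ≤ min ρ l := le_min hρ0.le hl
    have hsq : Real.sqrt ρ * Real.sqrt ρ = ρ := Real.mul_self_sqrt hρ0.le
    have hs0 : 0 < Real.sqrt ρ := Real.sqrt_pos.mpr hρ0
    have e : ρ⁻¹ * (Real.sqrt (N * G / 2) * Real.sqrt ρ * min ρ l) =
        Real.sqrt (N * G / 2) * (min ρ l / Real.sqrt ρ) := by
      have h5 : ρ⁻¹ * Real.sqrt ρ = (Real.sqrt ρ)⁻¹ := by
        rw [inv_mul_eq_div, div_eq_iff hρ0.ne', inv_mul_eq_div, eq_div_iff hs0.ne', hsq]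
      calc ρ⁻¹ * (Real.sqrt (N * G / 2) * Real.sqrt ρ * min ρ l)
          = Real.sqrt (N * G / 2) * (min ρ l * (ρ⁻¹ * Real.sqrt ρ)) := by ring
        _ = Real.sqrt (N * G / 2) * (min ρ l / Real.sqrt ρ) := by
          rw [h5, ← div_eq_mul_inv]
    rw [← e]
    refine mul_le_mul_of_nonneg_left ?_ (by positivity)
    exact mul_le_mul_of_nonneg_right h1 h2
  refine (Finset.sum_le_sum hterm).trans ?_
  rw [← Finset.mul_sum]
  have h1 := geo_sum h0 hl K
  have h2 : Real.sqrt (N * G / 2) * (∑ k ∈ Finset.range K,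
      min (ρ₀ / 2 ^ k) l / Real.sqrt (ρ₀ / 2 ^ k)) ≤ Real.sqrt (N * G / 2) * (16 * Real.sqrt l) :=
    mul_le_mul_of_nonneg_left h1 (Real.sqrt_nonneg _)
  refine h2.trans ?_
  have h3 : Real.sqrt (N * G / 2) ≤ Real.sqrt (N * G) := Real.sqrt_le_sqrt (by
    have : 0 ≤ N * G := by positivity
    linarith)
  set a := Real.sqrt (N * G) with ha
  set b := Real.sqrt l with hb
  have ha2 : a ^ 2 = N * G := Real.sq_sqrt (by positivity)
  have hb2 : b ^ 2 = l := Real.sq_sqrt hl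
  have hb0 : 0 ≤ b := Real.sqrt_nonneg _
  have ha0 : 0 ≤ a := Real.sqrt_nonneg _
  have hgoal : 8 * (t * (N * G) + t⁻¹ * l) = 8 * (t * a ^ 2 + t⁻¹ * b ^ 2) := by rw [ha2, hb2]
  rw [hgoal]
  have h4 : Real.sqrt (N * G / 2) * (16 * b) ≤ 16 * (a * b) := by nlinarith
  refine h4.trans ?_
  have h5 : 2 * (a * b) ≤ t * a ^ 2 + t⁻¹ * b ^ 2 := by
    have : t * a ^ 2 + t⁻¹ * b ^ 2 - 2 * (a * b) = t⁻¹ * (t * a - b) ^ 2 := by
      field_simp
      ring
    have h6 : 0 ≤ t⁻¹ * (t * a - b) ^ 2 := by positivity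
    linarith
  linarith

theorem opt_t {X : ℝ≥0∞} {a b : ℝ} (ha : 0 ≤ a) (hb : 0 ≤ b)
    (h : ∀ t : ℝ, 0 < t → X ≤ ENNReal.ofReal (t * a + t⁻¹ * b)) :
    X ≤ ENNReal.ofReal (2 * Real.sqrt (a * b)) := by
  rcases ha.eq_or_lt with rfl | ha
  · have hX : X ≤ 0 := by
      refine ENNReal.le_of_forall_pos_le_add ?_
      intro e he _
      have h1 := h (b / e + 1) (by positivity)
      refine h1.trans ?_
      rw [zero_add, mul_zero, zero_add]
      rw [← ENNReal.ofReal_coe_nnreal]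
      apply ENNReal.ofReal_le_ofReal
      rw [inv_mul_le_iff₀ (by positivity)]
      have : (b / e + 1) * (e : ℝ) = b + e := by
        have : (e : ℝ) ≠ 0 := by positivity
        field_simp
      have he' : (0 : ℝ) < e := he
      linarith
    exact hX.trans (zero_le)
  rcases hb.eq_or_lt with rfl | hb
  · have hX : X ≤ 0 := by
      refine ENNReal.le_of_forall_pos_le_add ?_
      intro e he _
      have he' : (0 : ℝ) < e := he
      have h1 := h (e / (a + 1)) (by positivity)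
      refine h1.trans ?_
      rw [mul_zero, zero_add, add_zero]
      rw [← ENNReal.ofReal_coe_nnreal]
      apply ENNReal.ofReal_le_ofReal
      rw [div_mul_eq_mul_div, div_le_iff₀ (by positivity)]
      nlinarith
    exact hX.trans (zero_le)
  · have h1 := h (Real.sqrt (b / a)) (Real.sqrt_pos.mpr (by positivity))
    refine h1.trans (ENNReal.ofReal_le_ofReal (le_of_eq ?_))
    have ea : Real.sqrt (b / a) = Real.sqrt b / Real.sqrt a := Real.sqrt_div hb.le a
    have ha' : 0 < Real.sqrt a := Real.sqrt_pos.mpr ha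
    have hb' : 0 < Real.sqrt b := Real.sqrt_pos.mpr hb
    have e1 : Real.sqrt a * Real.sqrt a = a := Real.mul_self_sqrt ha.le
    have e2 : Real.sqrt b * Real.sqrt b = b := Real.mul_self_sqrt hb.le
    rw [ea, Real.sqrt_mul ha.le, inv_div]
    have e3 : Real.sqrt b / Real.sqrt a * a = Real.sqrt b * Real.sqrt a := by
      nth_rewrite 2 [← e1]
      field_simp
    have e4 : Real.sqrt a / Real.sqrt b * b = Real.sqrt a * Real.sqrt b := by
      nth_rewrite 2 [← e2]
      field_simp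
    rw [e3, e4]
    ring

/-- summation over a countable family of intervals and all scales -/
theorem family_sum {ι : Type} (l G : ι → ℝ) (hl : ∀ i, 0 ≤ l i) (hG : ∀ i, 0 ≤ G i)
    {N ε ρ₀ c : ℝ} (hN : 0 ≤ N) (hε : 0 ≤ ε) (hc : 0 ≤ c) (h0 : 0 < ρ₀)
    (hls : ∑' i, ENNReal.ofReal (l i) ≤ ENNReal.ofReal c)
    (hGs : ∑' i, ENNReal.ofReal (G i) ≤ ENNReal.ofReal ε) (K : ℕ) :
    ∑ k ∈ Finset.range K, ENNReal.ofReal ((ρ₀ / 2 ^ k)⁻¹) *
      ∑' i, ENNReal.ofReal (min (N / 4 * (ρ₀ / 2 ^ k)) (2 * G i) * min (ρ₀ / 2 ^ k) (l i)) ≤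
      ENNReal.ofReal (16 * Real.sqrt (c * (N * ε))) := by
  have key : ∀ t : ℝ, 0 < t → ∑ k ∈ Finset.range K, ENNReal.ofReal ((ρ₀ / 2 ^ k)⁻¹) *
      ∑' i, ENNReal.ofReal (min (N / 4 * (ρ₀ / 2 ^ k)) (2 * G i) * min (ρ₀ / 2 ^ k) (l i)) ≤
      ENNReal.ofReal (t * (8 * (N * ε)) + t⁻¹ * (8 * c)) := by
    intro t ht
    have h1 : ∑ k ∈ Finset.range K, ENNReal.ofReal ((ρ₀ / 2 ^ k)⁻¹) *
        ∑' i, ENNReal.ofReal (min (N / 4 * (ρ₀ / 2 ^ k)) (2 * G i) * min (ρ₀ / 2 ^ k) (l i)) =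
        ∑' i, ENNReal.ofReal (∑ k ∈ Finset.range K, (ρ₀ / 2 ^ k)⁻¹ *
          (min (N / 4 * (ρ₀ / 2 ^ k)) (2 * G i) * min (ρ₀ / 2 ^ k) (l i))) := by
      have h2 : ∀ k ∈ Finset.range K, ENNReal.ofReal ((ρ₀ / 2 ^ k)⁻¹) *
          ∑' i, ENNReal.ofReal (min (N / 4 * (ρ₀ / 2 ^ k)) (2 * G i) * min (ρ₀ / 2 ^ k) (l i)) =
          ∑' i, ENNReal.ofReal ((ρ₀ / 2 ^ k)⁻¹ *
          (min (N / 4 * (ρ₀ / 2 ^ k)) (2 * G i) * min (ρ₀ / 2 ^ k) (l i))) := by
        intro k _
        rw [← ENNReal.tsum_mul_left]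
        congr 1
        ext i
        rw [← ENNReal.ofReal_mul (by positivity)]
      rw [Finset.sum_congr rfl h2, ← Summable.tsum_finsetSum (fun _ _ => ENNReal.summable)]
      congr 1
      ext i
      rw [ENNReal.ofReal_sum_of_nonneg]
      intro k _
      have := hl i
      have := hG i
      have h3 : 0 ≤ min (N / 4 * (ρ₀ / 2 ^ k)) (2 * G i) := le_min (by positivity) (by positivity)
      have h4 : 0 ≤ min (ρ₀ / 2 ^ k) (l i) := le_min (by positivity) (hl i)
      positivity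
    rw [h1]
    calc ∑' i, ENNReal.ofReal (∑ k ∈ Finset.range K, (ρ₀ / 2 ^ k)⁻¹ *
          (min (N / 4 * (ρ₀ / 2 ^ k)) (2 * G i) * min (ρ₀ / 2 ^ k) (l i)))
        ≤ ∑' i, (ENNReal.ofReal (8 * t * N) * ENNReal.ofReal (G i) +
            ENNReal.ofReal (8 * t⁻¹) * ENNReal.ofReal (l i)) := by
          refine ENNReal.tsum_le_tsum fun i => ?_
          rw [← ENNReal.ofReal_mul (by positivity), ← ENNReal.ofReal_mul (by positivity),
            ← ENNReal.ofReal_add (by have := hG i; positivity) (by have := hl i; positivity)]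
          apply ENNReal.ofReal_le_ofReal
          have := scale_sum hN (hG i) (hl i) h0 ht K
          linarith
      _ = ENNReal.ofReal (8 * t * N) * ∑' i, ENNReal.ofReal (G i) +
            ENNReal.ofReal (8 * t⁻¹) * ∑' i, ENNReal.ofReal (l i) := by
          rw [ENNReal.tsum_add, ENNReal.tsum_mul_left, ENNReal.tsum_mul_left]
      _ ≤ ENNReal.ofReal (8 * t * N) * ENNReal.ofReal ε +
            ENNReal.ofReal (8 * t⁻¹) * ENNReal.ofReal c := by gcongr
      _ = ENNReal.ofReal (t * (8 * (N * ε)) + t⁻¹ * (8 * c)) := by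
          rw [← ENNReal.ofReal_mul (by positivity), ← ENNReal.ofReal_mul (by positivity),
            ← ENNReal.ofReal_add (by positivity) (by positivity)]
          congr 1; ring
  refine (opt_t (by positivity) (by positivity) key).trans ?_
  apply ENNReal.ofReal_le_ofReal
  have e : Real.sqrt (8 * (N * ε) * (8 * c)) = 8 * Real.sqrt (c * (N * ε)) := by
    rw [show 8 * (N * ε) * (8 * c) = 8 ^ 2 * (c * (N * ε)) by ring,
      Real.sqrt_mul (by positivity), Real.sqrt_sq (by norm_num)]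
  rw [e]
  linarith [Real.sqrt_nonneg (c * (N * ε))]

/-! ### bounds for averages -/

variable {g : ℝ → ℝ} {m : Measure ℝ} {E : Set ℝ} {ε : ℝ} {N : NNReal}

theorem F_BM (h : CHyp g m E ε) : BM (Ff g E N) 1 :=
  ⟨(Ff_lipschitz h).continuous.measurable, fun x => by
    rw [abs_of_nonneg (Ff_nonneg h x)]; exact (Ff_le_Lf h x).trans (Lf_le_one h x)⟩

theorem int_lin (a b c d x : ℝ) :
    ∫ t in a..b, (c + d * (t - x)) = c * (b - a) + d * ((b - x) ^ 2 - (a - x) ^ 2) / 2 := by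
  have h1 : ∀ t ∈ uIcc a b, HasDerivAt (fun t => c * t + d * (t - x) ^ 2 / 2)
      (c + d * (t - x)) t := by
    intro t _
    have h2 : HasDerivAt (fun t : ℝ => (t - x) ^ 2) (2 * (t - x)) t := by
      have := ((hasDerivAt_id' t).sub_const x).fun_pow 2
      simpa using this
    have h3 : HasDerivAt (fun t => c * t + d * (t - x) ^ 2 / 2) (c * 1 + d * (2 * (t - x)) / 2) t :=
      ((hasDerivAt_id' t).const_mul c).add ((h2.const_mul d).div_const 2)
    exact h3.congr_deriv (by ring)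
  rw [intervalIntegral.integral_eq_sub_of_hasDerivAt h1 (by
    apply Continuous.intervalIntegrable; fun_prop)]
  ring

theorem int_lin_integrable (a b c d x : ℝ) :
    IntervalIntegrable (fun t => c + d * (t - x)) volume a b := by
  apply Continuous.intervalIntegrable; fun_prop

theorem avg_le_of_integral {f : ℝ → ℝ} {x ρ c : ℝ} (hρ : 0 < ρ)
    (hh : ∫ t in (x - ρ)..(x + ρ), f t ≤ 2 * ρ * c) : avg f x ρ ≤ c := by
  unfold avg
  rw [inv_mul_le_iff₀ (by positivity)]
  exact hh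

/-- (G2) -/
theorem avg_le_lip (h : CHyp g m E ε) {x ρ : ℝ} (hρ : 0 < ρ) :
    avg (Ff g E N) x ρ ≤ Ff g E N x + N / 4 * ρ := by
  have hI := (F_BM (N := N) h).intervalIntegrable
  refine avg_le_of_integral hρ ?_
  rw [← intervalIntegral.integral_add_adjacent_intervals (hI (x - ρ) x) (hI x (x + ρ))]
  have h1 : ∫ t in (x - ρ)..x, Ff g E N t ≤ ∫ t in (x - ρ)..x, (Ff g E N x + 0 * (t - x)) := by
    refine intervalIntegral.integral_mono_on (by linarith) (hI _ _) (int_lin_integrable _ _ _ _ _) ?_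
    intro t ht
    have := Ff_mono (N := N) h ht.2
    linarith
  have h2 : ∫ t in x..(x + ρ), Ff g E N t ≤ ∫ t in x..(x + ρ), (Ff g E N x + N * (t - x)) := by
    refine intervalIntegral.integral_mono_on (by linarith) (hI _ _) (int_lin_integrable _ _ _ _ _) ?_
    intro t ht
    exact Ff_lip_right h ht.1
  rw [int_lin] at h1 h2
  nlinarith

/-- (G3) -/
theorem avg_le_self (h : CHyp g m E ε) {x ρ α : ℝ} (hρ : 0 < ρ) (hα : α ≤ x - ρ)
    (hlin : ∀ t ∈ Icc α x, Ff g E N t = Ff g E N α + N * (t - α)) :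
    avg (Ff g E N) x ρ ≤ Ff g E N x := by
  have hI := (F_BM (N := N) h).intervalIntegrable
  refine avg_le_of_integral hρ ?_
  have h1 : ∫ t in (x - ρ)..(x + ρ), Ff g E N t ≤
      ∫ t in (x - ρ)..(x + ρ), (Ff g E N x + N * (t - x)) := by
    refine intervalIntegral.integral_mono_on (by linarith) (hI _ _) (int_lin_integrable _ _ _ _ _) ?_
    intro t ht
    rcases le_total t x with htx | htx
    · rw [hlin t ⟨hα.trans ht.1, htx⟩, hlin x ⟨by linarith, le_rfl⟩]
      linarith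
    · exact Ff_lip_right h htx
  rw [int_lin] at h1
  nlinarith

/-- (G1), first case -/
theorem avg_le_L (h : CHyp g m E ε) {x ρ : ℝ} (hρ : 0 < ρ) (hx : x ∉ E)
    (hE : ¬ ∃ e ∈ E, x < e ∧ e < x + ρ) : avg (Ff g E N) x ρ ≤ Lf g E x := by
  refine avg_le (F_BM h) hρ fun t ht => ?_
  refine (Ff_le_Lf h t).trans ?_
  rcases le_total t x with htx | htx
  · exact Lf_mono h htx
  · refine (Lf_const h htx ?_).le
    rintro e he ⟨h1, h2⟩
    refine hE ⟨e, he, lt_of_le_of_ne h1 ?_, h2.trans ht.2⟩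
    rintro rfl
    exact hx he

/-- (G1), second case -/
theorem avg_le_g (h : CHyp g m E ε) {x ρ v : ℝ} (hx6 : -6 ≤ x) (hx6' : x ≤ 6)
    (hρ1 : ρ ≤ 1) (hv : v ∈ E) (hxv : x < v) (hvρ : v < x + ρ) :
    avg (Ff g E N) x ρ ≤ g v := by
  have hρ : 0 < ρ := by linarith
  have hI := (F_BM (N := N) h).intervalIntegrable
  have hFg : ∀ t, -8 ≤ t → Ff g E N t ≤ g t := fun t ht => (Ff_le_Lf h t).trans (Lf_le_g h ht)
  have hgI : ∀ a b : ℝ, IntervalIntegrable g volume a b := fun a b => h.mono.intervalIntegrable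
  refine avg_le_of_integral hρ ?_
  set ρ' := x + ρ - v with hρ'
  rw [← intervalIntegral.integral_add_adjacent_intervals (hI (x - ρ) (v - ρ'))
    (hI (v - ρ') (x + ρ))]
  have h1 : ∫ t in (x - ρ)..(v - ρ'), Ff g E N t ≤
      ∫ t in (x - ρ)..(v - ρ'), (g v + 0 * (t - x)) := by
    refine intervalIntegral.integral_mono_on (by linarith) (hI _ _) (int_lin_integrable _ _ _ _ _) ?_
    intro t ht
    have h2 := hFg t (by linarith [ht.1])
    have h3 := h.mono (show t ≤ v by linarith [ht.2])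
    linarith
  have h2 : ∫ t in (v - ρ')..(x + ρ), Ff g E N t ≤ ∫ t in (v - ρ')..(x + ρ), g t := by
    refine intervalIntegral.integral_mono_on (by linarith) (hI _ _) (hgI _ _) ?_
    intro t ht
    exact hFg t (by linarith [ht.1])
  have h3 := h.sup v hv ρ' (by linarith) (by linarith) (by linarith)
  have h4 : ∫ t in (v - ρ')..(v + ρ'), g t = 2 * ρ' * avg g v ρ' :=
    integral_eq_mul_avg g v (by linarith)
  have e : v + ρ' = x + ρ := by rw [hρ']; ring
  rw [e] at h4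
  rw [int_lin] at h1
  have h5 : 2 * ρ' * avg g v ρ' ≤ 2 * ρ' * g v := mul_le_mul_of_nonneg_left h3 (by linarith)
  have h6 : g v * (v - ρ' - (x - ρ)) + 2 * ρ' * g v = 2 * ρ * g v := by rw [hρ']; ring
  linarith

/-- (star) -/
theorem star (h : CHyp g m E ε) {α r : ℝ} (hα : α ∈ E) (hr : 0 < r) (h8 : -8 ≤ α - r)
    (h8' : α + r ≤ 8) (hFL : Ff g E N α = Lf g E α)
    (hlin : ∀ t ∈ Ioo α (α + r), Ff g E N t = Ff g E N α + N * (t - α)) :
    ∫ t in α..(α + r), (Lf g E t - Ff g E N t) ≤ 2 * r * (g α - Lf g E α) := by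
  have hI := (F_BM (N := N) h).intervalIntegrable
  have hgI : ∀ a b : ℝ, IntervalIntegrable g volume a b := fun a b => h.mono.intervalIntegrable
  have hLI : ∀ a b : ℝ, IntervalIntegrable (Lf g E) volume a b :=
    fun a b => (Lf_mono h).intervalIntegrable
  have h3 := h.sup α hα r hr h8 h8'
  have h4 : ∫ t in (α - r)..(α + r), g t = 2 * r * avg g α r := integral_eq_mul_avg g α hr
  rw [← intervalIntegral.integral_add_adjacent_intervals (hgI (α - r) α) (hgI α (α + r))] at h4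
  have h5 : ∫ t in (α - r)..α, (Ff g E N α + N * (t - α)) ≤ ∫ t in (α - r)..α, g t := by
    refine intervalIntegral.integral_mono_on (by linarith) (int_lin_integrable _ _ _ _ _)
      (hgI _ _) ?_
    intro t ht
    have h6 := Ff_lip_right (N := N) h ht.2
    have h7 := (Ff_le_Lf (N := N) h t).trans (Lf_le_g h (by linarith [ht.1]))
    linarith
  have h6 : ∫ t in α..(α + r), Lf g E t ≤ ∫ t in α..(α + r), g t := by
    refine intervalIntegral.integral_mono_on (by linarith) (hLI _ _) (hgI _ _) ?_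
    intro t ht
    have := hα
    exact Lf_le_g h (by linarith [ht.1])
  have h7 : ∫ t in α..(α + r), Ff g E N t = ∫ t in α..(α + r), (Ff g E N α + N * (t - α)) :=
    intervalIntegral.integral_congr_Ioo_of_le (by linarith) hlin
  rw [intervalIntegral.integral_sub (hLI _ _) (hI _ _), h7]
  rw [int_lin] at h5 ⊢
  have h8 : 2 * r * avg g α r ≤ 2 * r * g α := mul_le_mul_of_nonneg_left h3 (by linarith)
  rw [← hFL]
  nlinarith

/-! ### the two families of intervals -/

/-- the busy period starting at `α` -/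
def Bs (g : ℝ → ℝ) (E : Set ℝ) (N : ℝ) (α : ℝ) : Set ℝ :=
  {x | α < x ∧ ∀ t ∈ Ioc α x, Ff g E N t < Lf g E t}

/-- the gap of `E` to the left of `v` -/
def Ds (E : Set ℝ) (v : ℝ) : Set ℝ := {x | -8 < x ∧ x < v ∧ ∀ e ∈ E, ¬ (x ≤ e ∧ e < v)}

theorem Bs_sub {α x : ℝ} (hx : x ∈ Bs g E N α) : Ioc α x ⊆ Bs g E N α :=
  fun y hy => ⟨hy.1, fun t ht => hx.2 t ⟨ht.1, ht.2.trans hy.2⟩⟩

theorem Ds_sub {v x : ℝ} (hx : x ∈ Ds E v) : Ico x v ⊆ Ds E v :=
  fun y hy => ⟨hx.1.trans_le hy.1, hy.2, fun e he he' => hx.2.2 e he ⟨hy.1.trans he'.1, he'.2⟩⟩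

theorem Bs_meas (α : ℝ) : MeasurableSet (Bs g E N α) := by
  refine OrdConnected.measurableSet ⟨fun x hx y hy z hz => ?_⟩
  exact Bs_sub (x := y) hy ⟨hx.1.trans_le hz.1, hz.2⟩

theorem Ds_meas (v : ℝ) : MeasurableSet (Ds E v) := by
  refine OrdConnected.measurableSet ⟨fun x hx y hy z hz => ?_⟩
  exact Ds_sub hx ⟨hz.1, (show z ≤ y from hz.2).trans_lt hy.2.1⟩

theorem Bs_disj {α α' : ℝ} (hne : α ≠ α') (hα : Ff g E N α = Lf g E α)
    (hα' : Ff g E N α' = Lf g E α') : Disjoint (Bs g E N α) (Bs g E N α') := by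
  rw [Set.disjoint_left]
  intro x hx hx'
  rcases lt_or_gt_of_ne hne with hlt | hlt
  · have := hx.2 α' ⟨hlt, hx'.1.le⟩
    rw [hα'] at this
    exact lt_irrefl _ this
  · have := hx'.2 α ⟨hlt, hx.1.le⟩
    rw [hα] at this
    exact lt_irrefl _ this

theorem Ds_disj {v v' : ℝ} (hne : v ≠ v') (hv : v ∈ E) (hv' : v' ∈ E) :
    Disjoint (Ds E v) (Ds E v') := by
  rw [Set.disjoint_left]
  intro x hx hx'
  rcases lt_or_gt_of_ne hne with hlt | hlt
  · exact hx'.2.2 v hv ⟨hx.2.1.le, hlt⟩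
  · exact hx.2.2 v' hv' ⟨hx'.2.1.le, hlt⟩

/-- starting points of busy periods -/
def As (g : ℝ → ℝ) (E : Set ℝ) (N : ℝ) : Set ℝ :=
  {α | α ∈ E ∧ Ff g E N α = Lf g E α ∧ (Bs g E N α).Nonempty}

/-- right end points of gaps -/
def Vs (E : Set ℝ) : Set ℝ := {v | v ∈ E ∧ (Ds E v).Nonempty}

theorem As_disj : (As g E N).PairwiseDisjoint (Bs g E N) :=
  fun _ hα _ hα' hne => Bs_disj hne hα.2.1 hα'.2.1

theorem Vs_disj : (Vs E).PairwiseDisjoint (Ds E) :=
  fun _ hv _ hv' hne => Ds_disj hne hv.1 hv'.1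

theorem As_countable : (As g E N).Countable := by
  refine As_disj.countable_of_nonempty_interior fun α hα => ?_
  obtain ⟨x, hx⟩ := hα.2.2
  have h1 : Ioo α x ⊆ interior (Bs g E N α) :=
    interior_maximal (Ioo_subset_Ioc_self.trans (Bs_sub hx)) isOpen_Ioo
  exact (nonempty_Ioo.mpr hx.1).mono h1

theorem Vs_countable : (Vs E).Countable := by
  refine Vs_disj.countable_of_nonempty_interior fun v hv => ?_
  obtain ⟨x, hx⟩ := hv.2
  have h1 : Ioo x v ⊆ interior (Ds E v) :=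
    interior_maximal (Ioo_subset_Ico_self.trans (Ds_sub hx)) isOpen_Ioo
  exact (nonempty_Ioo.mpr hx.2.1).mono h1

theorem g_le_Lf_of_limit (h : CHyp g m E ε) [IsFiniteMeasure m] {x : ℝ} (hxE : x ∈ E)
    (hne : (E ∩ Iio x).Nonempty) (heq : sSup (E ∩ Iio x) = x) : g x ≤ Lf g E x := by
  have hbdd : BddAbove (E ∩ Iio x) := ⟨x, fun t ht => ht.2.le⟩
  obtain ⟨s, hsm, hst, hsS⟩ := exists_seq_tendsto_sSup hne hbdd
  rw [heq] at hst
  have hlim : Tendsto (fun n => m (Ioc (s n) x)) atTop (𝓝 (m (⋂ n, Ioc (s n) x))) := by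
    refine tendsto_measure_iInter_atTop (fun n => measurableSet_Ioc.nullMeasurableSet) ?_ ?_
    · intro i j hij
      exact Ioc_subset_Ioc_left (hsm hij)
    · exact ⟨0, measure_ne_top _ _⟩
  have hint : (⋂ n, Ioc (s n) x) = {x} := by
    ext t
    simp only [mem_iInter, mem_Ioc, mem_singleton_iff]
    constructor
    · intro ht
      exact le_antisymm (ht 0).2 (le_of_tendsto' hst fun n => (ht n).1.le)
    · rintro rfl n
      exact ⟨(hsS n).2, le_rfl⟩
  rw [hint, h.noatom x hxE] at hlim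
  have hlim2 : Tendsto (fun n => (m (Ioc (s n) x)).toReal) atTop (𝓝 0) := by
    have := (ENNReal.tendsto_toReal (a := 0) (by simp)).comp hlim
    rw [ENNReal.toReal_zero] at this
    exact this
  have hlim3 : Tendsto (fun n => g x - (m (Ioc (s n) x)).toReal) atTop (𝓝 (g x)) := by
    simpa using tendsto_const_nhds.sub hlim2
  refine le_of_tendsto' hlim3 fun n => ?_
  rw [← h.g_eq (s n) x (h.sub (hsS n).1).1.le (hsS n).2.le (h.sub hxE).2.le]
  have := le_Lf h (hsS n).1 (hsS n).2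
  linarith

theorem G_le (h : CHyp g m E ε) [IsFiniteMeasure m] {v : ℝ} (hv : v ∈ E) :
    ENNReal.ofReal (g v - Lf g E v) ≤ m (Ds E v) := by
  have key : ∀ u : ℝ, -8 ≤ u → u ≤ v → g u ≤ Lf g E v → Ioo u v ⊆ Ds E v →
      ENNReal.ofReal (g v - Lf g E v) ≤ m (Ds E v) := by
    intro u hu huv hgu hsub
    have h1 := h.g_eq u v hu huv (h.sub hv).2.le
    have h2 : m (Ioc u v) ≤ m (Ds E v) := by
      have h3 : Ioc u v ⊆ Ds E v ∪ {v} := by
        intro t ht
        rcases lt_or_eq_of_le ht.2 with h4 | h4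
        · exact Or.inl (hsub ⟨ht.1, h4⟩)
        · exact Or.inr h4
      calc m (Ioc u v) ≤ m (Ds E v ∪ {v}) := measure_mono h3
        _ ≤ m (Ds E v) + m {v} := measure_union_le _ _
        _ = m (Ds E v) := by rw [h.noatom v hv, add_zero]
    refine (ENNReal.ofReal_le_ofReal (q := (m (Ioc u v)).toReal) (by linarith)).trans ?_
    rw [ENNReal.ofReal_toReal (measure_ne_top _ _)]
    exact h2
  by_cases hne : (E ∩ Iio v).Nonempty
  · have hbdd : BddAbove (E ∩ Iio v) := ⟨v, fun t ht => ht.2.le⟩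
    set u := sSup (E ∩ Iio v) with hu
    have huE : u ∈ E := by
      have h1 : u ∈ closure (E ∩ Iio v) := csSup_mem_closure hne hbdd
      exact h.comp.isClosed.closure_subset_iff.mpr inter_subset_left h1
    have huv : u ≤ v := csSup_le hne fun t ht => ht.2.le
    rcases lt_or_eq_of_le huv with hlt | heq
    · refine key u (h.sub huE).1.le hlt.le (le_Lf h huE hlt) ?_
      intro t ht
      refine ⟨(h.sub huE).1.trans ht.1, ht.2, ?_⟩
      rintro e he ⟨h4, h5⟩
      exact absurd (le_csSup hbdd ⟨he, h5⟩) (not_le.mpr (ht.1.trans_le h4))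
    · have h1 := g_le_Lf_of_limit h hv hne (hu ▸ heq)
      rw [ENNReal.ofReal_of_nonpos (by linarith)]
      exact zero_le
  · refine key (-8) le_rfl (h.sub hv).1.le (by rw [h.g_left]; exact Lf_nonneg h v) ?_
    intro t ht
    refine ⟨ht.1, ht.2, ?_⟩
    rintro e he ⟨h4, h5⟩
    exact hne ⟨e, he, h5⟩

theorem G_nonneg (h : CHyp g m E ε) {v : ℝ} (hv : v ∈ E) : 0 ≤ g v - Lf g E v := by
  have := Lf_le_g h (h.sub hv).1.le
  linarith

theorem G_sum (h : CHyp g m E ε) [IsFiniteMeasure m] {A : Set ℝ} (hA : A ⊆ E)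
    (hAc : A.Countable) : ∑' v : A, ENNReal.ofReal (g v - Lf g E v) ≤ ENNReal.ofReal ε := by
  have : Countable A := hAc.to_subtype
  calc ∑' v : A, ENNReal.ofReal (g v - Lf g E v) ≤ ∑' v : A, m (Ds E v) :=
        ENNReal.tsum_le_tsum fun v => G_le h (hA v.2)
    _ = m (⋃ v : A, Ds E v) := by
        rw [measure_iUnion _ fun v => Ds_meas _]
        intro v v' hne
        exact Ds_disj (fun e => hne (Subtype.ext e)) (hA v.2) (hA v'.2)
    _ ≤ m (Ioc (-8) 8 \ E) := by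
        apply measure_mono
        rw [iUnion_subset_iff]
        rintro v x hx
        refine ⟨⟨hx.1, (hx.2.1.trans (h.sub (hA v.2)).2).le⟩, fun hxE => ?_⟩
        exact hx.2.2 x hxE ⟨le_rfl, hx.2.1⟩
    _ = ENNReal.ofReal (m (Ioc (-8) 8 \ E)).toReal := by
        rw [ENNReal.ofReal_toReal (measure_ne_top _ _)]
    _ ≤ ENNReal.ofReal ε := ENNReal.ofReal_le_ofReal h.gap

/-- length of the busy period starting at `α`, cut at `1` -/
noncomputable def lB (g : ℝ → ℝ) (E : Set ℝ) (N : ℝ) (α : ℝ) : ℝ :=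
  (volume (Bs g E N α ∩ Ioo α (α + 1))).toReal

/-- length of a gap -/
noncomputable def lD (E : Set ℝ) (v : ℝ) : ℝ := (volume (Ds E v)).toReal

theorem vol_B_ne (α : ℝ) : volume (Bs g E N α ∩ Ioo α (α + 1)) ≠ ⊤ :=
  ne_top_of_le_ne_top (by simp : volume (Ioo α (α + 1)) ≠ ⊤) (measure_mono inter_subset_right)

theorem vol_D_ne (h : CHyp g m E ε) {v : ℝ} (hv : v ∈ E) : volume (Ds E v) ≠ ⊤ := by
  refine ne_top_of_le_ne_top (by simp : volume (Ioo (-8 : ℝ) 8) ≠ ⊤) (measure_mono ?_)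
  intro x hx
  exact ⟨hx.1, hx.2.1.trans (h.sub hv).2⟩

theorem lB_sum (h : CHyp g m E ε) :
    ∑' α : As g E N, ENNReal.ofReal (lB g E N α) ≤ ENNReal.ofReal 17 := by
  have : Countable (As g E N) := As_countable.to_subtype
  calc ∑' α : As g E N, ENNReal.ofReal (lB g E N α)
      = ∑' α : As g E N, volume (Bs g E N α ∩ Ioo (α : ℝ) (α + 1)) := by
        congr 1; ext α
        exact ENNReal.ofReal_toReal (vol_B_ne _)
    _ = volume (⋃ α : As g E N, Bs g E N α ∩ Ioo (α : ℝ) (α + 1)) := by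
        rw [measure_iUnion _ fun v => (Bs_meas _).inter measurableSet_Ioo]
        intro α α' hne
        exact (Bs_disj (fun e => hne (Subtype.ext e)) α.2.2.1 α'.2.2.1).mono
          inter_subset_left inter_subset_left
    _ ≤ volume (Ioo (-8 : ℝ) 9) := by
        apply measure_mono
        rw [iUnion_subset_iff]
        rintro α x ⟨-, hx⟩
        have h1 := h.sub α.2.1
        exact ⟨h1.1.trans hx.1, by linarith [hx.2, h1.2]⟩
    _ = ENNReal.ofReal 17 := by rw [Real.volume_Ioo]; norm_num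

theorem lD_sum (h : CHyp g m E ε) :
    ∑' v : Vs E, ENNReal.ofReal (lD E v) ≤ ENNReal.ofReal 17 := by
  have : Countable (Vs E) := Vs_countable.to_subtype
  calc ∑' v : Vs E, ENNReal.ofReal (lD E v) = ∑' v : Vs E, volume (Ds E v) := by
        congr 1; ext v
        exact ENNReal.ofReal_toReal (vol_D_ne h v.2.1)
    _ = volume (⋃ v : Vs E, Ds E v) := by
        rw [measure_iUnion _ fun v => Ds_meas _]
        intro v v' hne
        exact Ds_disj (fun e => hne (Subtype.ext e)) v.2.1 v'.2.1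
    _ ≤ volume (Ioo (-8 : ℝ) 9) := by
        apply measure_mono
        rw [iUnion_subset_iff]
        rintro v x hx
        exact ⟨hx.1, by linarith [hx.2.1, (h.sub v.2.1).2]⟩
    _ = ENNReal.ofReal 17 := by rw [Real.volume_Ioo]; norm_num

/-- part of a busy period -/
def TB (g : ℝ → ℝ) (E : Set ℝ) (N : ℝ) (α ρ : ℝ) : Set ℝ :=
  Bs g E N α ∩ Ioo α (α + ρ) ∩ Ioc (-6) 6

/-- part of a gap -/
def TD (E : Set ℝ) (v ρ : ℝ) : Set ℝ := Ds E v ∩ Ioo (v - ρ) v

theorem TB_meas (α ρ : ℝ) : MeasurableSet (TB g E N α ρ) :=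
  ((Bs_meas α).inter measurableSet_Ioo).inter measurableSet_Ioc

theorem TD_meas (v ρ : ℝ) : MeasurableSet (TD E v ρ) := (Ds_meas v).inter measurableSet_Ioo

theorem busy_lin (h : CHyp g m E ε) [IsFiniteMeasure m] (hN : 1 ≤ N) {α t : ℝ}
    (hα : Ff g E N α = Lf g E α) (ht : t ∈ Bs g E N α) :
    ∀ s ∈ Icc α t, Ff g E N s = Ff g E N α + N * (s - α) := by
  obtain ⟨α', hα't, -, hα'eq, hlin, hbusy⟩ := Ff_busy h hN t (ht.2 t ⟨ht.1, le_rfl⟩)
  have e : α' = α := by
    rcases lt_trichotomy α' α with h1 | h1 | h1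
    · have := hbusy α ⟨h1, ht.1.le⟩
      rw [hα] at this
      exact absurd this (lt_irrefl _)
    · exact h1
    · have := ht.2 α' ⟨h1, hα't.le⟩
      rw [hα'eq] at this
      exact absurd this (lt_irrefl _)
  rw [e] at hlin
  exact hlin

theorem int_TB (h : CHyp g m E ε) [IsFiniteMeasure m] (hN : 1 ≤ N) {α ρ : ℝ}
    (hα : α ∈ As g E N) (hρ : 0 < ρ) (hρ1 : ρ ≤ 1) :
    ∫⁻ x in TB g E N α ρ, ENNReal.ofReal (min (N / 4 * ρ) (Lf g E x - Ff g E N x)) ≤
      ENNReal.ofReal (min (N / 4 * ρ) (2 * (g α - Lf g E α)) * min ρ (lB g E N α)) := by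
  have hG := G_nonneg h hα.1
  set a : ℝ := N / 4 * ρ with ha
  have ha0 : 0 ≤ a := by positivity
  set G := g α - Lf g E α with hGdef
  set μ := min ρ (lB g E N α) with hμ
  have hl0 : 0 ≤ lB g E N α := ENNReal.toReal_nonneg
  have hμ0 : 0 ≤ μ := le_min hρ.le hl0
  have hdiff : ∀ x, 0 ≤ Lf g E x - Ff g E N x := fun x => sub_nonneg.mpr (Ff_le_Lf h x)
  have hlen : ∀ x ∈ TB g E N α ρ, x - α ≤ lB g E N α := by
    rintro x ⟨⟨hxB, hx1⟩, -⟩
    have h1 : Ioc α x ⊆ Bs g E N α ∩ Ioo α (α + 1) := fun y hy =>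
      ⟨Bs_sub hxB hy, hy.1, by linarith [hy.2, hx1.2]⟩
    have h2 := measure_mono (μ := volume) h1
    rw [Real.volume_Ioc] at h2
    have h3 := ENNReal.toReal_mono (vol_B_ne α) h2
    rwa [ENNReal.toReal_ofReal (by linarith [hx1.1])] at h3
  have hsub : TB g E N α ρ ⊆ Ioc α (α + μ) := by
    intro x hx
    have h1 := hlen x hx
    have h2 := hx.1.2
    refine ⟨h2.1, ?_⟩
    have : x - α ≤ μ := le_min (by linarith [h2.2]) h1
    linarith
  rcases (TB g E N α ρ).eq_empty_or_nonempty with hemp | ⟨x₀, hx₀⟩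
  · rw [hemp]; simp
  have hα7 : -7 < α := by linarith [hx₀.1.2.2, hx₀.2.1]
  have hα6 : α < 6 := by linarith [hx₀.1.2.1, hx₀.2.2]
  have hμpos : 0 < μ := by
    have := hsub hx₀
    linarith [this.1, this.2]
  have hμ1 : μ ≤ 1 := (min_le_left _ _).trans hρ1
  have hlin : ∀ t ∈ Ioo α (α + μ), Ff g E N t = Ff g E N α + N * (t - α) := by
    intro t ht
    have htB : t ∈ Bs g E N α := by
      by_contra hcon
      have h1 : Bs g E N α ∩ Ioo α (α + 1) ⊆ Ioo α t := by
        rintro y ⟨hyB, hy⟩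
        refine ⟨hy.1, ?_⟩
        by_contra hyt
        exact hcon (Bs_sub hyB ⟨ht.1, not_lt.mp hyt⟩)
      have h2 := measure_mono (μ := volume) h1
      rw [Real.volume_Ioo] at h2
      have h3 := ENNReal.toReal_mono ENNReal.ofReal_ne_top h2
      rw [ENNReal.toReal_ofReal (by linarith [ht.1])] at h3
      have h4 : μ ≤ lB g E N α := min_le_right _ _
      have h5 : lB g E N α ≤ t - α := h3
      linarith [ht.2]
    exact busy_lin h hN hα.2.1 htB t ⟨ht.1.le, le_rfl⟩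
  have hstar := star h hα.1 hμpos (by linarith) (by linarith) hα.2.1 hlin
  have h1 : ∫⁻ x in TB g E N α ρ, ENNReal.ofReal (min a (Lf g E x - Ff g E N x)) ≤
      ENNReal.ofReal (a * μ) := by
    calc ∫⁻ x in TB g E N α ρ, ENNReal.ofReal (min a (Lf g E x - Ff g E N x))
        ≤ ∫⁻ _ in TB g E N α ρ, ENNReal.ofReal a :=
          lintegral_mono fun x => ENNReal.ofReal_le_ofReal (min_le_left _ _)
      _ = ENNReal.ofReal a * volume (TB g E N α ρ) := setLIntegral_const _ _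
      _ ≤ ENNReal.ofReal a * volume (Ioc α (α + μ)) := by gcongr
      _ = ENNReal.ofReal (a * μ) := by
          rw [Real.volume_Ioc, ← ENNReal.ofReal_mul ha0]
          congr 1; ring
  have h2 : ∫⁻ x in TB g E N α ρ, ENNReal.ofReal (min a (Lf g E x - Ff g E N x)) ≤
      ENNReal.ofReal (2 * G * μ) := by
    calc ∫⁻ x in TB g E N α ρ, ENNReal.ofReal (min a (Lf g E x - Ff g E N x))
        ≤ ∫⁻ x in TB g E N α ρ, ENNReal.ofReal (Lf g E x - Ff g E N x) :=
          lintegral_mono fun x => ENNReal.ofReal_le_ofReal (min_le_right _ _)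
      _ ≤ ∫⁻ x in Ioc α (α + μ), ENNReal.ofReal (Lf g E x - Ff g E N x) :=
          lintegral_mono_set hsub
      _ = ENNReal.ofReal (∫ x in Ioc α (α + μ), (Lf g E x - Ff g E N x)) := by
          rw [ofReal_integral_eq_lintegral_ofReal]
          · exact (((Lf_mono h).intervalIntegrable (a := α) (b := α + μ)).sub
              ((F_BM h).intervalIntegrable α (α + μ))).1
          · exact Eventually.of_forall hdiff
      _ ≤ ENNReal.ofReal (2 * G * μ) := by
          apply ENNReal.ofReal_le_ofReal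
          rw [← intervalIntegral.integral_of_le (by linarith)]
          linarith
  rw [min_mul_of_nonneg _ _ hμ0]
  rcases le_total (a * μ) (2 * G * μ) with h3 | h3
  · rw [min_eq_left h3]; exact h1
  · rw [min_eq_right h3]; exact h2

theorem int_TD (h : CHyp g m E ε) {v ρ a : ℝ} (ha : 0 ≤ a)
    (hv : v ∈ Vs E) (hρ : 0 < ρ) :
    ∫⁻ _ in TD E v ρ, ENNReal.ofReal (min a (g v - Lf g E v)) ≤
      ENNReal.ofReal (min a (2 * (g v - Lf g E v)) * min ρ (lD E v)) := by
  have hG := G_nonneg h hv.1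
  rw [setLIntegral_const, ENNReal.ofReal_mul (le_min ha (by linarith))]
  refine mul_le_mul' (ENNReal.ofReal_le_ofReal (min_le_min le_rfl (by linarith))) ?_
  have h1 : volume (TD E v ρ) ≤ ENNReal.ofReal ρ := by
    refine (measure_mono inter_subset_right).trans ?_
    rw [Real.volume_Ioo]
    apply ENNReal.ofReal_le_ofReal; linarith
  have h2 : volume (TD E v ρ) ≤ ENNReal.ofReal (lD E v) := by
    unfold lD
    rw [ENNReal.ofReal_toReal (vol_D_ne h hv.1)]
    exact measure_mono inter_subset_left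
  rcases le_total ρ (lD E v) with h3 | h3
  · rw [min_eq_left h3]; exact h1
  · rw [min_eq_right h3]; exact h2

theorem pointwise (h : CHyp g m E ε) [IsFiniteMeasure m] (hN : 1 ≤ N) {x ρ : ℝ}
    (hx : x ∈ Ioc (-6 : ℝ) 6) (hxE : x ∉ E) (hρ : 0 < ρ) (hρ1 : ρ ≤ 1) :
    ENNReal.ofReal (max (avg (Ff g E N) x ρ - Ff g E N x) 0) ≤
      (∑' α : As g E N, (TB g E N α ρ).indicator
        (fun x => ENNReal.ofReal (min (N / 4 * ρ) (Lf g E x - Ff g E N x))) x) +
      ∑' v : Vs E, (TD E v ρ).indicator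
        (fun _ => ENNReal.ofReal (min (N / 4 * ρ) (g v - Lf g E v))) x := by
  set a : ℝ := N / 4 * ρ with ha
  have ha0 : 0 ≤ a := by positivity
  have hH : 0 ≤ Lf g E x - Ff g E N x := sub_nonneg.mpr (Ff_le_Lf h x)
  rcases le_total (avg (Ff g E N) x ρ - Ff g E N x) 0 with hW | hW
  · rw [max_eq_right hW, ENNReal.ofReal_zero]; exact zero_le
  rcases hW.eq_or_lt with hW0 | hW0
  · rw [← hW0, max_self, ENNReal.ofReal_zero]; exact zero_le
  rw [max_eq_left hW]
  have hWa : avg (Ff g E N) x ρ - Ff g E N x ≤ a := by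
    have := avg_le_lip (N := N) h (x := x) hρ
    linarith
  have c1 : ENNReal.ofReal (min a (Lf g E x - Ff g E N x)) ≤
      ∑' α : As g E N, (TB g E N α ρ).indicator
        (fun x => ENNReal.ofReal (min a (Lf g E x - Ff g E N x))) x := by
    by_cases hb : Ff g E N x < Lf g E x
    · obtain ⟨α, hαx, hαE, hαeq, hlin, hbusy⟩ := Ff_busy h hN x hb
      have hxB : x ∈ Bs g E N α := ⟨hαx, hbusy⟩
      have hxρ : x < α + ρ := by
        by_contra hcon
        have := avg_le_self h hρ (show α ≤ x - ρ by linarith [not_lt.mp hcon]) hlin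
        linarith
      have hT : x ∈ TB g E N α ρ := ⟨⟨hxB, hαx, hxρ⟩, hx⟩
      have hαA : α ∈ As g E N := ⟨hαE, hαeq, ⟨x, hxB⟩⟩
      refine le_trans (le_of_eq ?_) (ENNReal.le_tsum (⟨α, hαA⟩ : As g E N))
      simp only
      rw [indicator_of_mem hT]
    · have h0 : Lf g E x - Ff g E N x = 0 := le_antisymm (by linarith [not_lt.mp hb]) hH
      rw [h0, min_eq_right ha0, ENNReal.ofReal_zero]; exact zero_le
  by_cases hv : ∃ e ∈ E, x < e ∧ e < x + ρ
  · obtain ⟨e, heE, hxe, heρ⟩ := hv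
    have hcl : IsClosed (E ∩ Ici x) := h.comp.isClosed.inter isClosed_Ici
    have hne : (E ∩ Ici x).Nonempty := ⟨e, heE, hxe.le⟩
    have hbb : BddBelow (E ∩ Ici x) := ⟨x, fun t ht => ht.2⟩
    set v := sInf (E ∩ Ici x) with hvdef
    have hvm : v ∈ E ∩ Ici x := hcl.csInf_mem hne hbb
    have hxv : x < v := lt_of_le_of_ne hvm.2 fun e => hxE (e ▸ hvm.1)
    have hve : v ≤ e := csInf_le hbb ⟨heE, hxe.le⟩
    have hgap : ∀ e' ∈ E, ¬ (x ≤ e' ∧ e' < v) := by
      rintro e' he' ⟨h1, h2⟩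
      exact absurd (csInf_le hbb ⟨he', h1⟩) (not_le.mpr h2)
    have hxD : x ∈ Ds E v := ⟨by linarith [hx.1], hxv, hgap⟩
    have hxT : x ∈ TD E v ρ := ⟨hxD, by linarith, hxv⟩
    have hvV : v ∈ Vs E := ⟨hvm.1, ⟨x, hxD⟩⟩
    have hLv : Lf g E v = Lf g E x := Lf_const h hxv.le hgap
    have hG := G_nonneg h hvm.1
    have c2 : ENNReal.ofReal (min a (g v - Lf g E v)) ≤ ∑' v : Vs E, (TD E v ρ).indicator
        (fun _ => ENNReal.ofReal (min a (g v - Lf g E v))) x := by
      refine le_trans (le_of_eq ?_) (ENNReal.le_tsum (⟨v, hvV⟩ : Vs E))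
      simp only
      rw [indicator_of_mem hxT]
    refine le_trans ?_ (add_le_add c1 c2)
    rw [← ENNReal.ofReal_add (le_min ha0 hH) (le_min ha0 hG)]
    apply ENNReal.ofReal_le_ofReal
    have h1 := avg_le_g (N := N) h hx.1.le hx.2 hρ1 hvm.1 hxv (hve.trans_lt heρ)
    rw [hLv] at hG ⊢
    rcases le_total a (Lf g E x - Ff g E N x) with h2 | h2
    · rw [min_eq_left h2]
      have := le_min ha0 hG
      linarith
    · rw [min_eq_right h2]
      rcases le_total a (g v - Lf g E x) with h3 | h3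
      · rw [min_eq_left h3]; linarith
      · rw [min_eq_right h3]; linarith
  · refine le_trans ?_ (c1.trans le_self_add)
    apply ENNReal.ofReal_le_ofReal
    have h1 := avg_le_L (N := N) h hρ hxE hv
    exact le_min hWa (by linarith)

theorem lint_bound (h : CHyp g m E ε) [IsFiniteMeasure m] (hN : 1 ≤ N) {ρ : ℝ}
    (hρ : 0 < ρ) (hρ1 : ρ ≤ 1) :
    ∫⁻ x in Ioc (-6 : ℝ) 6, ENNReal.ofReal (max (avg (Ff g E N) x ρ - Ff g E N x) 0) ≤
      (∑' α : As g E N, ENNReal.ofReal (min (N / 4 * ρ) (2 * (g α - Lf g E α)) *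
        min ρ (lB g E N α))) +
      ∑' v : Vs E, ENNReal.ofReal (min (N / 4 * ρ) (2 * (g v - Lf g E v)) * min ρ (lD E v)) := by
  have hcA : Countable (As g E N) := As_countable.to_subtype
  have hcV : Countable (Vs E) := Vs_countable.to_subtype
  have hmeas : Measurable fun x => ENNReal.ofReal (min (N / 4 * ρ) (Lf g E x - Ff g E N x)) :=
    (measurable_const.min ((Lf_mono h).measurable.sub
      (Ff_lipschitz h).continuous.measurable)).ennreal_ofReal
  have hm1 : ∀ α : As g E N, Measurable ((TB g E N α ρ).indicator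
      (fun x => ENNReal.ofReal (min (N / 4 * ρ) (Lf g E x - Ff g E N x)))) :=
    fun α => hmeas.indicator (TB_meas _ _)
  have hm2 : ∀ v : Vs E, Measurable ((TD E v ρ).indicator
      (fun _ : ℝ => ENNReal.ofReal (min (N / 4 * ρ) (g v - Lf g E v)))) :=
    fun v => measurable_const.indicator (TD_meas _ _)
  have hae : ∀ᵐ x ∂(volume.restrict (Ioc (-6 : ℝ) 6)),
      ENNReal.ofReal (max (avg (Ff g E N) x ρ - Ff g E N x) 0) ≤
      (∑' α : As g E N, (TB g E N α ρ).indicator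
        (fun x => ENNReal.ofReal (min (N / 4 * ρ) (Lf g E x - Ff g E N x))) x) +
      ∑' v : Vs E, (TD E v ρ).indicator
        (fun _ => ENNReal.ofReal (min (N / 4 * ρ) (g v - Lf g E v))) x := by
    have h1 : ∀ᵐ x ∂(volume : Measure ℝ), x ∉ E := measure_eq_zero_iff_ae_notMem.mp h.null
    filter_upwards [ae_restrict_mem measurableSet_Ioc, ae_restrict_of_ae h1] with x hx hxE
    exact pointwise h hN hx hxE hρ hρ1
  refine (lintegral_mono_ae hae).trans ?_
  rw [lintegral_add_left (Measurable.ennreal_tsum hm1),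
    lintegral_tsum fun α => (hm1 α).aemeasurable, lintegral_tsum fun v => (hm2 v).aemeasurable]
  refine add_le_add (ENNReal.tsum_le_tsum fun α => ?_) (ENNReal.tsum_le_tsum fun v => ?_)
  · rw [lintegral_indicator (TB_meas _ _)]
    refine le_trans ?_ (int_TB h hN α.2 hρ hρ1)
    rw [Measure.restrict_restrict (TB_meas _ _)]
    exact lintegral_mono_set inter_subset_left
  · rw [lintegral_indicator (TD_meas _ _)]
    refine le_trans ?_ (int_TD h (by positivity) v.2 hρ)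
    rw [Measure.restrict_restrict (TD_meas _ _)]
    exact lintegral_mono_set inter_subset_left

end Pos

open Pos in
/-- C3 -/
theorem pos_bound : ∃ C : ℝ, 0 ≤ C ∧ ∀ (g : ℝ → ℝ) (m : Measure ℝ) [IsFiniteMeasure m]
    (E : Set ℝ) (ε : ℝ), CHyp g m E ε → ∀ (N : NNReal), 1 ≤ N → ∀ (ρ₀ : ℝ), 0 < ρ₀ → ρ₀ ≤ 1 →
    ∀ K : ℕ, ∑ k ∈ Finset.range K, (ρ₀ / 2 ^ k)⁻¹ *
      ∫ x in (-6 : ℝ)..6, max (avg (Ff g E N) x (ρ₀ / 2 ^ k) - Ff g E N x) 0 ≤
        C * Real.sqrt (N * ε) := by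
  refine ⟨160, by norm_num, ?_⟩
  intro g m _ E ε h N hN ρ₀ h0 h1 K
  have hε := h.eps_nonneg
  have hk : ∀ k : ℕ, 0 < ρ₀ / 2 ^ k ∧ ρ₀ / 2 ^ k ≤ 1 := by
    intro k
    refine ⟨by positivity, ?_⟩
    rw [div_le_one (by positivity)]
    have : (1 : ℝ) ≤ 2 ^ k := one_le_pow₀ (by norm_num)
    linarith
  have hcont : ∀ k : ℕ, Continuous fun x => max (avg (Ff g E N) x (ρ₀ / 2 ^ k) - Ff g E N x) 0 :=
    fun k => ((continuous_avg_left (F_BM h) (hk k).1).sub
      (Ff_lipschitz h).continuous).max continuous_const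
  have hint : ∀ k : ℕ, ENNReal.ofReal (∫ x in (-6 : ℝ)..6,
      max (avg (Ff g E N) x (ρ₀ / 2 ^ k) - Ff g E N x) 0) =
      ∫⁻ x in Ioc (-6 : ℝ) 6, ENNReal.ofReal (max (avg (Ff g E N) x (ρ₀ / 2 ^ k) -
        Ff g E N x) 0) := by
    intro k
    rw [intervalIntegral.integral_of_le (by norm_num), ofReal_integral_eq_lintegral_ofReal]
    · exact ((hcont k).intervalIntegrable (-6) 6).1
    · exact Eventually.of_forall fun x => le_max_right _ _
  have hnn : ∀ k : ℕ, 0 ≤ ∫ x in (-6 : ℝ)..6,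
      max (avg (Ff g E N) x (ρ₀ / 2 ^ k) - Ff g E N x) 0 := fun k =>
    intervalIntegral.integral_nonneg (by norm_num) fun x _ => le_max_right _ _
  rw [← ENNReal.ofReal_le_ofReal_iff (by positivity),
    ENNReal.ofReal_sum_of_nonneg fun k _ => mul_nonneg (inv_nonneg.mpr (hk k).1.le) (hnn k)]
  calc ∑ k ∈ Finset.range K, ENNReal.ofReal ((ρ₀ / 2 ^ k)⁻¹ *
        ∫ x in (-6 : ℝ)..6, max (avg (Ff g E N) x (ρ₀ / 2 ^ k) - Ff g E N x) 0)
      ≤ ∑ k ∈ Finset.range K, (ENNReal.ofReal ((ρ₀ / 2 ^ k)⁻¹) *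
          (∑' α : As g E N, ENNReal.ofReal (min (N / 4 * (ρ₀ / 2 ^ k))
            (2 * (g α - Lf g E α)) * min (ρ₀ / 2 ^ k) (lB g E N α))) +
          ENNReal.ofReal ((ρ₀ / 2 ^ k)⁻¹) *
          (∑' v : Vs E, ENNReal.ofReal (min (N / 4 * (ρ₀ / 2 ^ k))
            (2 * (g v - Lf g E v)) * min (ρ₀ / 2 ^ k) (lD E v)))) := by
        refine Finset.sum_le_sum fun k _ => ?_
        rw [ENNReal.ofReal_mul (inv_nonneg.mpr (hk k).1.le), hint k, ← mul_add]
        exact mul_le_mul' le_rfl (lint_bound h hN (hk k).1 (hk k).2)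
    _ = (∑ k ∈ Finset.range K, ENNReal.ofReal ((ρ₀ / 2 ^ k)⁻¹) *
          (∑' α : As g E N, ENNReal.ofReal (min (N / 4 * (ρ₀ / 2 ^ k))
            (2 * (g α - Lf g E α)) * min (ρ₀ / 2 ^ k) (lB g E N α)))) +
        ∑ k ∈ Finset.range K, ENNReal.ofReal ((ρ₀ / 2 ^ k)⁻¹) *
          (∑' v : Vs E, ENNReal.ofReal (min (N / 4 * (ρ₀ / 2 ^ k))
            (2 * (g v - Lf g E v)) * min (ρ₀ / 2 ^ k) (lD E v))) := Finset.sum_add_distrib
    _ ≤ ENNReal.ofReal (16 * Real.sqrt (17 * (N * ε))) +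
        ENNReal.ofReal (16 * Real.sqrt (17 * (N * ε))) := by
        refine add_le_add ?_ ?_
        · exact family_sum (fun α : As g E N => lB g E N α)
            (fun α : As g E N => g α - Lf g E α) (fun _ => ENNReal.toReal_nonneg)
            (fun α => G_nonneg h α.2.1) N.2 hε (by norm_num) h0 (lB_sum h)
            (G_sum h (fun α hα => hα.1) As_countable) K
        · exact family_sum (fun v : Vs E => lD E v)
            (fun v : Vs E => g v - Lf g E v) (fun _ => ENNReal.toReal_nonneg)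
            (fun v => G_nonneg h v.2.1) N.2 hε (by norm_num) h0 (lD_sum h)
            (G_sum h (fun v hv => hv.1) Vs_countable) K
    _ ≤ ENNReal.ofReal (160 * Real.sqrt (N * ε)) := by
        rw [← ENNReal.ofReal_add (by positivity) (by positivity)]
        apply ENNReal.ofReal_le_ofReal
        have hNε : 0 ≤ (N : ℝ) * ε := mul_nonneg N.2 hε
        have h2 : Real.sqrt (17 * (N * ε)) ≤ 5 * Real.sqrt (N * ε) := by
          rw [Real.sqrt_mul (by norm_num)]
          refine mul_le_mul_of_nonneg_right ?_ (Real.sqrt_nonneg _)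
          rw [Real.sqrt_le_left (by norm_num)]
          norm_num
        linarith

end Pool.Agent.Lib.MP_653dc2_an
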