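import Pool.Agent.Lib.MP_653dc2_an.CantorTele
import Pool.Agent.Lib.MP_653dc2_an.CantorCut
import Pool.Agent.Lib.MP_653dc2_an.CantorFun
import Pool.Agent.Lib.MP_653dc2_an.CantorPos

set_option autoImplicit false
open Set MeasureTheory Filter Topology
open scoped ENNReal

namespace Pool.Agent.Lib.MP_653dc2_an

theorem nc_geom (K : ℕ) : ∑ k ∈ Finset.range K, (1 : ℝ) / 2 ^ k ≤ 2 := by
  have h : ∑ k ∈ Finset.range K, (1 : ℝ) / 2 ^ k = ∑ k ∈ Finset.range K, (1 / 2 : ℝ) ^ k :=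
    Finset.sum_congr rfl fun k _ => by rw [one_div, one_div, inv_pow]
  rw [h]
  exact (Summable.sum_le_tsum _ (fun _ _ => by positivity) summable_geometric_two).trans_eq
    tsum_geometric_two

/-- T7a, normalised form -/
theorem no_cantor (c₀ : ℝ) (hc₀ : 0 < c₀) : ∃ ε₀ > 0, ∀ (g : ℝ → ℝ) (m : Measure ℝ)
    [IsFiniteMeasure m] (E : Set ℝ), CHyp g m E ε₀ → c₀ ≤ g 2 - g (-2) → False := by
  obtain ⟨C₂, hC₂, hcut⟩ := cut
  obtain ⟨C₃, hC₃, hpos⟩ := pos_bound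
  -- the constants
  set ρ₀ : ℝ := min 1 (c₀ / (80 * (C₂ + 1))) with hρ₀
  have hρ0 : 0 < ρ₀ := by
    rw [hρ₀]; exact lt_min one_pos (by positivity)
  have hρ1 : ρ₀ ≤ 1 := min_le_left _ _
  have hρc : 10 * C₂ * ρ₀ ≤ c₀ / 8 := by
    have h1 : ρ₀ ≤ c₀ / (80 * (C₂ + 1)) := min_le_right _ _
    have h2 : ρ₀ * (80 * (C₂ + 1)) ≤ c₀ := by
      rwa [le_div_iff₀ (by positivity)] at h1
    nlinarith
  set N : NNReal := ⟨2 / ρ₀, by positivity⟩ with hN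
  have hNr : (N : ℝ) = 2 / ρ₀ := rfl
  have hN2 : (2 : ℝ) ≤ N := by
    rw [hNr, le_div_iff₀ hρ0]; linarith
  have hN1 : 1 ≤ N := by
    rw [← NNReal.coe_le_coe]; push_cast; linarith
  set δ : ℝ := c₀ / (40 * (C₂ * C₃ + 1)) with hδ
  have hCC : 0 ≤ C₂ * C₃ := mul_nonneg hC₂ hC₃
  have hδ0 : 0 < δ := by positivity
  have hδc : 5 * (C₂ * C₃ * δ) ≤ c₀ / 8 := by
    have h2 : δ * (40 * (C₂ * C₃ + 1)) = c₀ := by
      rw [hδ]; field_simp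
    nlinarith
  set ε₀ : ℝ := min (c₀ / 3) (δ ^ 2 / N) with hε₀
  have hε0 : 0 < ε₀ := lt_min (by positivity) (by positivity)
  have hεc : ε₀ ≤ c₀ / 3 := min_le_left _ _
  have hεN : Real.sqrt (N * ε₀) ≤ δ := by
    rw [Real.sqrt_le_left hδ0.le]
    have h1 : ε₀ ≤ δ ^ 2 / N := min_le_right _ _
    rw [le_div_iff₀ (by positivity)] at h1
    linarith
  refine ⟨ε₀, hε0, ?_⟩
  intro g m _ E hyp hg
  obtain ⟨hLm, hLg, hgL, hFm, hFl, hFb, hFL, hLF⟩ := Ff_basic hyp hN1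
  set F : ℝ → ℝ := Ff g E N with hF
  have hder := deriv_Ff hyp hN1
  have hFc : Continuous F := hFl.continuous
  have hFB : BM F 1 := ⟨hFc.measurable, fun x => by
    rw [abs_le]; constructor <;> linarith [(hFb x).1, (hFb x).2]⟩
  -- the sums
  set S : ℝ := C₂ * (C₃ * δ + 2 * ρ₀) with hS
  have hSb : ∀ K : ℕ, ∑ k ∈ Finset.range K,
      (ρ₀ / 2 ^ k)⁻¹ * ∫ x in (-3 : ℝ)..4, |avg F x (ρ₀ / 2 ^ k) - F x| ≤ S := by
    intro K
    have h1 : ∀ k ∈ Finset.range K,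
        (ρ₀ / 2 ^ k)⁻¹ * ∫ x in (-3 : ℝ)..4, |avg F x (ρ₀ / 2 ^ k) - F x| ≤
        C₂ * ((ρ₀ / 2 ^ k)⁻¹ * ∫ x in (-6 : ℝ)..6, max (avg F x (ρ₀ / 2 ^ k) - F x) 0) +
          C₂ * (ρ₀ * (1 / 2 ^ k)) := by
      intro k _
      have hk0 : 0 < ρ₀ / 2 ^ k := by positivity
      have hk1 : ρ₀ / 2 ^ k ≤ 1 := by
        rw [div_le_one (by positivity)]
        exact hρ1.trans (one_le_pow₀ (by norm_num))
      have h2 := mul_le_mul_of_nonneg_left (hcut F hFc.measurable hFb (ρ₀ / 2 ^ k) hk0 hk1)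
        (inv_nonneg.2 hk0.le)
      refine h2.trans_eq ?_
      have h3 : (ρ₀ / 2 ^ k)⁻¹ * (ρ₀ / 2 ^ k) ^ 2 = ρ₀ * (1 / 2 ^ k) := by
        rw [pow_two, ← mul_assoc, inv_mul_cancel₀ hk0.ne']; ring
      calc (ρ₀ / 2 ^ k)⁻¹ * (C₂ * ((∫ x in (-6 : ℝ)..6, max (avg F x (ρ₀ / 2 ^ k) - F x) 0) +
            (ρ₀ / 2 ^ k) ^ 2))
          = C₂ * ((ρ₀ / 2 ^ k)⁻¹ * ∫ x in (-6 : ℝ)..6, max (avg F x (ρ₀ / 2 ^ k) - F x) 0) +
            C₂ * ((ρ₀ / 2 ^ k)⁻¹ * (ρ₀ / 2 ^ k) ^ 2) := by ring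
        _ = _ := by rw [h3]
    refine (Finset.sum_le_sum h1).trans ?_
    rw [Finset.sum_add_distrib, ← Finset.mul_sum, ← Finset.mul_sum, ← Finset.mul_sum]
    have h2 := hpos g m E ε₀ hyp N hN1 ρ₀ hρ0 hρ1 K
    have h3 := nc_geom K
    have h4 : C₃ * Real.sqrt (N * ε₀) ≤ C₃ * δ := mul_le_mul_of_nonneg_left hεN hC₃
    have h5 := mul_le_mul_of_nonneg_left (h2.trans h4) hC₂
    have h6 : C₂ * (ρ₀ * ∑ k ∈ Finset.range K, (1 : ℝ) / 2 ^ k) ≤ C₂ * (ρ₀ * 2) := by gcongr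
    rw [hS]
    linarith
  have htele := tele F N hFl hFb ρ₀ hρ0 hρ1 S hSb
  -- lower bound
  set d : ℝ → ℝ := fun x => (avg F (x + ρ₀) ρ₀ - avg F (x - ρ₀) ρ₀) / (2 * ρ₀) with hd
  have hdc : Continuous d := by
    have := continuous_avg_left hFB hρ0
    simp only [hd]
    fun_prop
  have hdb : ∀ x, |d x| ≤ N / 4 := by
    intro x
    have ha : ∀ y, 0 ≤ avg F y ρ₀ ∧ avg F y ρ₀ ≤ 1 := fun y =>
      ⟨le_avg hFB hρ0 fun t _ => (hFb t).1, avg_le hFB hρ0 fun t _ => (hFb t).2⟩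
    have h1 : |avg F (x + ρ₀) ρ₀ - avg F (x - ρ₀) ρ₀| ≤ 1 := by
      rw [abs_le]
      constructor <;> linarith [(ha (x + ρ₀)).1, (ha (x + ρ₀)).2, (ha (x - ρ₀)).1, (ha (x - ρ₀)).2]
    simp only [hd]
    rw [abs_div, abs_of_pos (by positivity : (0 : ℝ) < 2 * ρ₀), hNr, div_le_iff₀ (by positivity)]
    have h2 : 2 / ρ₀ / 4 * (2 * ρ₀) = 1 := by field_simp; norm_num
    rw [h2]; exact h1
  have hac := (hFl.lipschitzOnWith (s := uIcc (-2 : ℝ) 3)).absolutelyContinuousOnInterval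
  have hFTC := hac.integral_deriv_eq_sub
  have hint : IntervalIntegrable (deriv F) volume (-2) 3 := hac.intervalIntegrable_deriv
  have hlow : ∫ x in (-2 : ℝ)..3, (3 / 4) * deriv F x ≤ ∫ x in (-2 : ℝ)..3, |deriv F x - d x| := by
    refine intervalIntegral.integral_mono_ae (by norm_num) (hint.const_mul _)
      ((hint.sub (hdc.intervalIntegrable _ _)).abs) ?_
    filter_upwards [hder] with x hx
    have h1 := hdb x
    rcases hx with hx | hx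
    · rw [hx]; simp
    · rw [hx]
      have h2 := abs_le.1 h1
      have h3 : (N : ℝ) - d x ≤ |(N : ℝ) - d x| := le_abs_self _
      linarith [h2.2]
  rw [intervalIntegral.integral_const_mul, hFTC] at hlow
  have h2 : g 2 - ε₀ ≤ F 3 := by
    have h3 := hLF 3
    have h4 : Lf g E 2 ≤ Lf g E (3 - 1 / N) := hLm (by
      have : (1 : ℝ) / N ≤ 1 := by
        rw [div_le_one (by linarith)]; linarith
      linarith)
    have h5 := hgL 2 ⟨by norm_num, by norm_num⟩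
    linarith
  have h3 : F (-2) ≤ g (-2) := (hFL (-2)).trans (hLg (-2) ⟨by norm_num, by norm_num⟩)
  have h4 : 5 * S = 5 * (C₂ * C₃ * δ) + 10 * C₂ * ρ₀ := by rw [hS]; ring
  have h5 : (3 / 4) * (F 3 - F (-2)) ≤ 5 * S := hlow.trans htele
  linarith

end Pool.Agent.Lib.MP_653dc2_an
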