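import Pool.Agent.Lib.MP_653dc2_an.Basic

set_option autoImplicit false
open Set MeasureTheory Filter Topology
open scoped ENNReal

namespace Pool.Agent.Lib.MP_653dc2_an

namespace Mid

/-- the variation of a Lipschitz function is at most the integral of the absolute value of its derivative -/
theorem eVariationOn_le_lintegral {w : ℝ → ℝ} {C : NNReal} (hw : LipschitzWith C w) (a b : ℝ) :
    eVariationOn w (Icc a b) ≤ ∫⁻ t in Icc a b, ‖deriv w t‖ₑ := by
  unfold eVariationOn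
  refine iSup_le ?_
  rintro ⟨n, p, hp, hpm⟩
  simp only
  have hstep : ∀ i, edist (w (p (i + 1))) (w (p i)) ≤
      ∫⁻ t in Ioc (p i) (p (i + 1)), ‖deriv w t‖ₑ := by
    intro i
    have hle : p i ≤ p (i + 1) := hp (Nat.le_succ i)
    have hac : AbsolutelyContinuousOnInterval w (p i) (p (i + 1)) :=
      (hw.lipschitzOnWith (s := uIcc (p i) (p (i + 1)))).absolutelyContinuousOnInterval
    rw [edist_eq_enorm_sub, ← hac.integral_deriv_eq_sub, intervalIntegral.integral_of_le hle]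
    exact enorm_integral_le_lintegral_enorm _
  calc ∑ i ∈ Finset.range n, edist (w (p (i + 1))) (w (p i))
      ≤ ∑ i ∈ Finset.range n, ∫⁻ t in Ioc (p i) (p (i + 1)), ‖deriv w t‖ₑ :=
        Finset.sum_le_sum fun i _ => hstep i
    _ = ∫⁻ t in ⋃ i ∈ Finset.range n, Ioc (p i) (p (i + 1)), ‖deriv w t‖ₑ := by
        rw [lintegral_biUnion_finset]
        · intro i _ j _ hij
          exact hp.pairwise_disjoint_on_Ioc_succ hij
        · intro i _
          exact measurableSet_Ioc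
    _ ≤ ∫⁻ t in Icc a b, ‖deriv w t‖ₑ := by
        refine lintegral_mono_set ?_
        refine iUnion₂_subset fun i _ => ?_
        exact Ioc_subset_Icc_self.trans (Icc_subset_Icc (hpm i).1 (hpm (i + 1)).2)

/-- a one-sided comparison on both sides of a point determines the derivative up to `ε` -/
theorem deriv_close {u : ℝ → ℝ} {x D c ε : ℝ} (hu : HasDerivAt u D x)
    (h : ∀ ε' > 0, ∀ᶠ t in 𝓝 (0 : ℝ), c * t - |t| * (ε + ε') ≤ u (x + t) - u x) :
    |D - c| ≤ ε := by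
  refine le_of_forall_pos_le_add fun ε' hε' => ?_
  have hslope := hu.tendsto_slope_zero
  have h' := h ε' hε'
  rw [abs_le]
  constructor
  · -- right side
    have hr : Tendsto (fun t => t⁻¹ • (u (x + t) - u x)) (𝓝[>] 0) (𝓝 D) :=
      hslope.mono_left (nhdsWithin_mono _ fun t ht => ne_of_gt ht)
    have : c - (ε + ε') ≤ D := by
      refine ge_of_tendsto hr ?_
      filter_upwards [nhdsWithin_le_nhds h', self_mem_nhdsWithin] with t ht htpos
      have htp : 0 < t := htpos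
      rw [abs_of_pos htp] at ht
      rw [smul_eq_mul, ← div_eq_inv_mul, le_div_iff₀ htp]
      linarith
    linarith
  · have hl : Tendsto (fun t => t⁻¹ • (u (x + t) - u x)) (𝓝[<] 0) (𝓝 D) :=
      hslope.mono_left (nhdsWithin_mono _ fun t ht => ne_of_lt ht)
    have : D ≤ c + (ε + ε') := by
      refine le_of_tendsto hl ?_
      filter_upwards [nhdsWithin_le_nhds h', self_mem_nhdsWithin] with t ht htneg
      have htp : t < 0 := htneg
      rw [abs_of_neg htp] at ht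
      rw [smul_eq_mul, ← div_eq_inv_mul, div_le_iff_of_neg htp]
      linarith
    linarith

/-- lower bound for the maximal average at a nearby centre, with a radius changed at rate `σ` -/
theorem lower {g : ℝ → ℝ} {B δ K x r σ h α β ε : ℝ} (hg : BM g B) (hδ : 0 < δ)
    (hr : r ∈ Icc δ K) (hmax : avg g x r = Mx (Icc δ K) g x) (hσ : |σ| ≤ 1)
    (hrh : r + σ * h ∈ Icc δ K) (hα : |α| ≤ B) (hβ : |β| ≤ B) (hε : 0 ≤ ε)
    (H1 : |(∫ t in (x + r)..(x + r + (1 + σ) * h), g t) - (1 + σ) * h * α| ≤ (1 + σ) * |h| * ε)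
    (H2 : |(∫ t in (x - r)..(x - r + (1 - σ) * h), g t) - (1 - σ) * h * β| ≤ (1 - σ) * |h| * ε) :
    ((1 + σ) * α - (1 - σ) * β - 2 * σ * Mx (Icc δ K) g x) / (2 * r) * h -
      |h| * (ε / δ + 2 * B * |h| / δ ^ 2) ≤ Mx (Icc δ K) g (x + h) - Mx (Icc δ K) g x := by
  have hR0 : Icc δ K ⊆ Ioi 0 := fun s hs => lt_of_lt_of_le hδ hs.1
  have hne : (Icc δ K).Nonempty := ⟨r, hr⟩
  have hrpos : 0 < r := hR0 hr
  set R := r + σ * h with hR
  have hRpos : 0 < R := hR0 hrh
  have hRδ : δ ≤ R := hrh.1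
  set u := Mx (Icc δ K) g x with hu
  have hub : |u| ≤ B := abs_Mx_le hg hR0 hne
  set I1 := ∫ t in (x + r)..(x + r + (1 + σ) * h), g t with hI1
  set I2 := ∫ t in (x - r)..(x - r + (1 - σ) * h), g t with hI2
  have hle : avg g (x + h) R ≤ Mx (Icc δ K) g (x + h) := le_Mx hg hR0 hrh
  have hint : ∀ a b, IntervalIntegrable g volume a b := hg.intervalIntegrable
  have hI : 2 * R * avg g (x + h) R = 2 * r * u + I1 - I2 := by
    rw [← integral_eq_mul_avg g (x + h) hRpos, ← hmax, ← integral_eq_mul_avg g x hrpos]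
    have e1 : x + h - R = x - r + (1 - σ) * h := by rw [hR]; ring
    have e2 : x + h + R = x + r + (1 + σ) * h := by rw [hR]; ring
    rw [e1, e2, hI1, hI2]
    have h3 := intervalIntegral.integral_add_adjacent_intervals
      (hint (x - r) (x - r + (1 - σ) * h)) (hint (x - r + (1 - σ) * h) (x + r + (1 + σ) * h))
    have h4 := intervalIntegral.integral_add_adjacent_intervals
      (hint (x - r) (x + r)) (hint (x + r) (x + r + (1 + σ) * h))
    linarith
  have hσ' := abs_le.1 hσ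
  have hlow : h * ((1 + σ) * α - (1 - σ) * β) - 2 * |h| * ε ≤ I1 - I2 := by
    have a1 := (abs_le.1 H1).1
    have a2 := (abs_le.1 H2).2
    linarith
  set X := (1 + σ) * α - (1 - σ) * β - 2 * σ * u with hX
  have hXb : |X| ≤ 4 * B := by
    have b1 : |(1 + σ) * α| ≤ (1 + σ) * B := by
      rw [abs_mul, abs_of_nonneg (by linarith)]
      exact mul_le_mul_of_nonneg_left hα (by linarith)
    have b2 : |(1 - σ) * β| ≤ (1 - σ) * B := by
      rw [abs_mul, abs_of_nonneg (by linarith)]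
      exact mul_le_mul_of_nonneg_left hβ (by linarith)
    have b3 : |2 * σ * u| ≤ 2 * B := by
      rw [abs_mul, abs_mul, abs_of_pos (by norm_num : (0:ℝ) < 2)]
      nlinarith [abs_nonneg σ, abs_nonneg u]
    rw [abs_le] at *
    constructor <;> rw [hX] <;> linarith [b1.1, b1.2, b2.1, b2.2, b3.1, b3.2]
  have hA : avg g (x + h) R - u = (I1 - I2 - 2 * σ * h * u) / (2 * R) := by
    rw [eq_div_iff (by positivity)]
    have : 2 * R * u = 2 * r * u + 2 * σ * h * u := by rw [hR]; ring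
    linarith
  have hA2 : (h * X - 2 * |h| * ε) / (2 * R) ≤ avg g (x + h) R - u := by
    rw [hA]
    refine div_le_div_of_nonneg_right ?_ (by positivity)
    rw [hX]; linarith
  have hB1 : |h| * ε / R ≤ |h| * (ε / δ) := by
    rw [mul_div_assoc]
    exact mul_le_mul_of_nonneg_left (div_le_div_of_nonneg_left hε hδ hRδ) (abs_nonneg _)
  have hB2 : |h * X / (2 * R) - X / (2 * r) * h| ≤ |h| * (2 * B * |h| / δ ^ 2) := by
    have e : h * X / (2 * R) - X / (2 * r) * h = - (σ * h ^ 2 * X) / (2 * (r * R)) := by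
      have hRe : R - r = σ * h := by rw [hR]; ring
      have h5 : h * X / (2 * R) - X / (2 * r) * h = - ((R - r) * h * X) / (2 * (r * R)) := by
        field_simp
        ring
      rw [h5, hRe]; ring
    rw [e, abs_div, abs_neg, abs_of_pos (by positivity : 0 < 2 * (r * R))]
    have hB0 : 0 ≤ B := hg.nonneg
    have n1 : |σ * h ^ 2 * X| ≤ h ^ 2 * (4 * B) := by
      rw [abs_mul, abs_mul, abs_of_nonneg (sq_nonneg h)]
      have : |σ| * h ^ 2 ≤ h ^ 2 := by nlinarith [sq_nonneg h]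
      exact mul_le_mul this hXb (abs_nonneg _) (sq_nonneg _)
    have n2 : δ ^ 2 ≤ r * R := by
      rw [sq]; exact mul_le_mul hr.1 hRδ hδ.le hrpos.le
    calc |σ * h ^ 2 * X| / (2 * (r * R)) ≤ (h ^ 2 * (4 * B)) / (2 * (r * R)) :=
          div_le_div_of_nonneg_right n1 (by positivity)
      _ ≤ (h ^ 2 * (4 * B)) / (2 * δ ^ 2) := by
          apply div_le_div_of_nonneg_left (by positivity) (by positivity)
          linarith
      _ = |h| * (2 * B * |h| / δ ^ 2) := by
          rw [← sq_abs h]; field_simp; ring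
  have hsplit : (h * X - 2 * |h| * ε) / (2 * R) = h * X / (2 * R) - |h| * ε / R := by
    field_simp
  have := (abs_le.1 hB2).1
  rw [hsplit] at hA2
  have hfin : |h| * (ε / δ + 2 * B * |h| / δ ^ 2) = |h| * (ε / δ) + |h| * (2 * B * |h| / δ ^ 2) := by
    ring
  linarith

/-- an integral of a function close to a constant -/
theorem integral_close {g : ℝ → ℝ} {B : ℝ} (hg : BM g B) {a s α ε : ℝ}
    (h : ∀ t, |t - a| ≤ |s| → |g t - α| ≤ ε) :
    |(∫ t in a..(a + s), g t) - s * α| ≤ |s| * ε := by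
  have e : (∫ t in a..(a + s), g t) - s * α = ∫ t in a..(a + s), (g t - α) := by
    rw [intervalIntegral.integral_sub (hg.intervalIntegrable _ _) (by simp)]
    simp
  rw [e]
  have := intervalIntegral.norm_integral_le_of_norm_le_const (f := fun t => g t - α) (a := a)
    (b := a + s) (C := ε) (fun t ht => by
      rw [Real.norm_eq_abs]
      apply h
      rcases le_total 0 s with hs | hs
      · rw [uIoc_of_le (by linarith)] at ht
        rw [abs_of_nonneg (by linarith [ht.1]), abs_of_nonneg hs]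
        linarith [ht.2]
      · rw [uIoc_of_ge (by linarith)] at ht
        rw [abs_of_nonpos (by linarith [ht.2]), abs_of_nonpos hs]
        linarith [ht.1])
  rw [Real.norm_eq_abs] at this
  simpa [mul_comm] using this

theorem side {f g : ℝ → ℝ} {B : ℝ} (hg : BM g B) {τ y a h ε ρ η : ℝ} (hτ0 : 0 ≤ τ) (hτ : τ ≤ 2)
    (hc : τ = 0 ∨ ∀ t, |t - y| < ρ → |f t - f y| ≤ ε) (hη : η ≤ ε) (hgf : ∀ t, |g t - f t| ≤ η)
    (ha : |a - y| < ρ / 2) (hh : |h| < ρ / 4) :
    |(∫ t in a..(a + τ * h), g t) - τ * h * f y| ≤ τ * |h| * (2 * ε) := by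
  rcases hc with hc | hc
  · subst hc; simp
  · have := integral_close hg (a := a) (s := τ * h) (α := f y) (ε := 2 * ε) (fun t ht => by
      have h1 : |τ * h| ≤ 2 * |h| := by
        rw [abs_mul, abs_of_nonneg hτ0]
        exact mul_le_mul_of_nonneg_right hτ (abs_nonneg _)
      have h2 : |t - y| < ρ := by
        have : t - y = (t - a) + (a - y) := by ring
        rw [this]
        refine (abs_add_le _ _).trans_lt ?_
        linarith
      have h3 : g t - f y = (g t - f t) + (f t - f y) := by ring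
      rw [h3]
      refine (abs_add_le _ _).trans ?_
      linarith [hgf t, hc t h2])
    rwa [abs_mul, abs_of_nonneg hτ0] at this

/-- convergence of the derivatives along a sequence of functions and of optimal radii -/
theorem limit {f : ℝ → ℝ} {B δ K x σ r₀ : ℝ} (hδ : 0 < δ) (hf : BM f B) (g : ℕ → ℝ → ℝ)
    (hg : ∀ j, BM (g j) B) (η : ℕ → ℝ) (hη : Tendsto η atTop (𝓝 0))
    (hsup : ∀ j t, |g j t - f t| ≤ η j) (r : ℕ → ℝ) (hr : ∀ j, r j ∈ Icc δ K)
    (hmax : ∀ j, avg (g j) x (r j) = Mx (Icc δ K) (g j) x) (hr0 : Tendsto r atTop (𝓝 r₀))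
    (hσ : |σ| ≤ 1) (hint : ∀ᶠ j in atTop, ∀ᶠ h in 𝓝 (0 : ℝ), r j + σ * h ∈ Icc δ K)
    (hc1 : σ = -1 ∨ ContinuousAt f (x + r₀)) (hc2 : σ = 1 ∨ ContinuousAt f (x - r₀))
    (D : ℕ → ℝ) (hD : ∀ j, HasDerivAt (Mx (Icc δ K) (g j)) (D j) x) :
    Tendsto D atTop (𝓝 (((1 + σ) * f (x + r₀) - (1 - σ) * f (x - r₀) -
      2 * σ * Mx (Icc δ K) f x) / (2 * r₀))) := by
  have hR0 : Icc δ K ⊆ Ioi 0 := fun s hs => lt_of_lt_of_le hδ hs.1
  have hne : (Icc δ K).Nonempty := ⟨r 0, hr 0⟩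
  have hr0δ : δ ≤ r₀ := ge_of_tendsto hr0 (Eventually.of_forall fun j => (hr j).1)
  have hr0pos : 0 < r₀ := lt_of_lt_of_le hδ hr0δ
  have hu : Tendsto (fun j => Mx (Icc δ K) (g j) x) atTop (𝓝 (Mx (Icc δ K) f x)) := by
    rw [tendsto_iff_norm_sub_tendsto_zero]
    exact squeeze_zero (fun _ => norm_nonneg _)
      (fun j => abs_Mx_sub_le (hg j) hf hR0 hne (hsup j)) hη
  set c : ℕ → ℝ := fun j => ((1 + σ) * f (x + r₀) - (1 - σ) * f (x - r₀) -
      2 * σ * Mx (Icc δ K) (g j) x) / (2 * r j) with hcdef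
  have hc : Tendsto c atTop (𝓝 (((1 + σ) * f (x + r₀) - (1 - σ) * f (x - r₀) -
      2 * σ * Mx (Icc δ K) f x) / (2 * r₀))) := by
    refine Tendsto.div (tendsto_const_nhds.sub (hu.const_mul _)) (hr0.const_mul 2) (by positivity)
  have hDc : Tendsto (fun j => D j - c j) atTop (𝓝 0) := by
    rw [Metric.tendsto_nhds]
    intro ε' hε'
    set ε := ε' * δ / 4 with hε
    have hεpos : 0 < ε := by positivity
    obtain ⟨ρ1, hρ1, hcont1⟩ : ∃ ρ > 0, 1 + σ = 0 ∨
        ∀ t, |t - (x + r₀)| < ρ → |f t - f (x + r₀)| ≤ ε := by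
      rcases hc1 with h | h
      · exact ⟨1, one_pos, Or.inl (by rw [h]; ring)⟩
      · obtain ⟨ρ, hρ, hh⟩ := Metric.continuousAt_iff.1 h ε hεpos
        exact ⟨ρ, hρ, Or.inr fun t ht => (hh (by rwa [Real.dist_eq])).le⟩
    obtain ⟨ρ2, hρ2, hcont2⟩ : ∃ ρ > 0, 1 - σ = 0 ∨
        ∀ t, |t - (x - r₀)| < ρ → |f t - f (x - r₀)| ≤ ε := by
      rcases hc2 with h | h
      · exact ⟨1, one_pos, Or.inl (by rw [h]; ring)⟩
      · obtain ⟨ρ, hρ, hh⟩ := Metric.continuousAt_iff.1 h ε hεpos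
        exact ⟨ρ, hρ, Or.inr fun t ht => (hh (by rwa [Real.dist_eq])).le⟩
    have hE1 : ∀ᶠ j in atTop, |r j - r₀| < ρ1 / 2 := by
      have := Metric.tendsto_nhds.1 hr0 (ρ1 / 2) (by positivity)
      simpa [Real.dist_eq] using this
    have hE2 : ∀ᶠ j in atTop, |r j - r₀| < ρ2 / 2 := by
      have := Metric.tendsto_nhds.1 hr0 (ρ2 / 2) (by positivity)
      simpa [Real.dist_eq] using this
    have hE3 : ∀ᶠ j in atTop, η j ≤ ε := (hη.eventually (gt_mem_nhds hεpos)).mono fun _ h => h.le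
    filter_upwards [hint, hE1, hE2, hE3] with j h0 h1 h2 h3
    have hσ' := abs_le.1 hσ
    have key : |D j - c j| ≤ 2 * ε / δ := by
      refine deriv_close (hD j) fun ε2 hε2 => ?_
      have hs1 : ∀ᶠ h in 𝓝 (0 : ℝ), |h| < ρ1 / 4 := by
        have := Metric.ball_mem_nhds (0 : ℝ) (by positivity : 0 < ρ1 / 4)
        filter_upwards [this] with h hh
        simpa [Real.dist_eq] using hh
      have hs2 : ∀ᶠ h in 𝓝 (0 : ℝ), |h| < ρ2 / 4 := by
        have := Metric.ball_mem_nhds (0 : ℝ) (by positivity : 0 < ρ2 / 4)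
        filter_upwards [this] with h hh
        simpa [Real.dist_eq] using hh
      have hs3 : ∀ᶠ h in 𝓝 (0 : ℝ), 2 * B * |h| / δ ^ 2 ≤ ε2 := by
        have : Tendsto (fun h : ℝ => 2 * B * |h| / δ ^ 2) (𝓝 0) (𝓝 (2 * B * |(0:ℝ)| / δ ^ 2)) := by
          refine Continuous.tendsto ?_ 0
          fun_prop
        rw [abs_zero, mul_zero, zero_div] at this
        exact (this.eventually (gt_mem_nhds hε2)).mono fun _ h => h.le
      filter_upwards [h0, hs1, hs2, hs3] with h hh0 hh1 hh2 hh3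
      have hl := lower (h := h) (ε := 2 * ε) (hg j) hδ (hr j) (hmax j) hσ hh0
        (hf.bdd (x + r₀)) (hf.bdd (x - r₀)) (by positivity)
        (side (hg j) (by linarith) (by linarith) hcont1 h3 (hsup j)
          (by rw [add_sub_add_left_eq_sub]; exact h1) hh1)
        (side (hg j) (by linarith) (by linarith) hcont2 h3 (hsup j)
          (by rw [sub_sub_sub_cancel_left, abs_sub_comm]; exact h2) hh2)
      refine le_trans ?_ hl
      have : |h| * (2 * ε / δ + 2 * B * |h| / δ ^ 2) ≤ |h| * (2 * ε / δ + ε2) :=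
        mul_le_mul_of_nonneg_left (by linarith) (abs_nonneg _)
      simp only [hcdef]
      linarith
    rw [Real.dist_eq, sub_zero]
    refine key.trans_lt ?_
    have : 2 * ε / δ = ε' / 2 := by rw [hε]; field_simp; ring
    rw [this]; linarith
  have := hDc.add hc
  simpa using this

theorem exists_max {g : ℝ → ℝ} {B δ K : ℝ} (hg : BM g B) (hδ : 0 < δ) (hK : δ ≤ K) (x : ℝ) :
    ∃ r ∈ Icc δ K, avg g x r = Mx (Icc δ K) g x := by
  have hR0 : Icc δ K ⊆ Ioi 0 := fun s hs => lt_of_lt_of_le hδ hs.1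
  have hne : (Icc δ K).Nonempty := ⟨δ, le_rfl, hK⟩
  have hcont : ContinuousOn (fun r => avg g x r) (Icc δ K) := by
    have h1 : ContinuousOn (fun r : ℝ => ((x, r) : ℝ × ℝ)) (Icc δ K) := by fun_prop
    exact (continuousOn_avg hg).comp h1 fun r hr => hR0 hr
  obtain ⟨r, hr, hmax⟩ := isCompact_Icc.exists_isMaxOn hne hcont
  exact ⟨r, hr, le_antisymm (le_Mx hg hR0 hr) (Mx_le hne fun s hs => hmax hs)⟩

theorem hint_of {δ K σ r₀ : ℝ} {r : ℕ → ℝ} (hr : ∀ j, r j ∈ Icc δ K)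
    (hr0 : Tendsto r atTop (𝓝 r₀)) (h : σ = 0 ∨ r₀ ∈ Ioo δ K) :
    ∀ᶠ j in atTop, ∀ᶠ h in 𝓝 (0 : ℝ), r j + σ * h ∈ Icc δ K := by
  rcases h with h | h
  · subst h
    exact Eventually.of_forall fun j => Eventually.of_forall fun h => by simpa using hr j
  · have h1 : ∀ᶠ j in atTop, r j ∈ Ioo δ K := hr0.eventually (isOpen_Ioo.mem_nhds h)
    filter_upwards [h1] with j hj
    have h2 : Tendsto (fun h : ℝ => r j + σ * h) (𝓝 0) (𝓝 (r j + σ * 0)) :=
      Continuous.tendsto (by fun_prop) 0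
    rw [mul_zero, add_zero] at h2
    exact (h2.eventually (isOpen_Ioo.mem_nhds hj)).mono fun _ hh => Ioo_subset_Icc_self hh

/-- convergence of derivatives at a good point -/
theorem deriv_tendsto {f : ℝ → ℝ} {B δ K x : ℝ} (hδ : 0 < δ) (hK : δ < K) (hf : BM f B)
    (g : ℕ → ℝ → ℝ) (hg : ∀ j, BM (g j) B) (η : ℕ → ℝ) (hη : Tendsto η atTop (𝓝 0))
    (hsup : ∀ j t, |g j t - f t| ≤ η j)
    (h1 : ContinuousAt f (x + δ)) (h2 : ContinuousAt f (x - δ)) (h3 : ContinuousAt f (x + K))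
    (h4 : ContinuousAt f (x - K)) (h5 : ∀ r, 0 < r → ContinuousAt f (x + r) ∨ ContinuousAt f (x - r))
    (hD : ∀ j, DifferentiableAt ℝ (Mx (Icc δ K) (g j)) x)
    (hu : DifferentiableAt ℝ (Mx (Icc δ K) f) x) :
    Tendsto (fun j => deriv (Mx (Icc δ K) (g j)) x) atTop (𝓝 (deriv (Mx (Icc δ K) f) x)) := by
  have hR0 : Icc δ K ⊆ Ioi 0 := fun s hs => lt_of_lt_of_le hδ hs.1
  have hne : (Icc δ K).Nonempty := ⟨δ, le_rfl, hK.le⟩
  choose r hr hmax using fun j => exists_max (hg j) hδ hK.le x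
  refine tendsto_of_subseq_tendsto fun ns hns => ?_
  obtain ⟨r₀, hr₀, φ, hφ, hlim⟩ := isCompact_Icc.tendsto_subseq (fun n => hr (ns n))
  refine ⟨φ, ?_⟩
  have hnsφ : Tendsto (fun n => ns (φ n)) atTop atTop := hns.comp hφ.tendsto_atTop
  have hη' : Tendsto (fun n => η (ns (φ n))) atTop (𝓝 0) := hη.comp hnsφ
  have hlim' : Tendsto (fun n => r (ns (φ n))) atTop (𝓝 r₀) := hlim
  have hr₀pos : 0 < r₀ := hR0 hr₀
  -- the limit radius is optimal for `f`
  have hopt : avg f x r₀ = Mx (Icc δ K) f x := by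
    have hc : Tendsto (fun n => avg f x (r (ns (φ n)))) atTop (𝓝 (avg f x r₀)) := by
      have hat : ContinuousAt (fun p : ℝ × ℝ => avg f p.1 p.2) (x, r₀) :=
        (continuousOn_avg hf).continuousAt
          ((isOpen_lt continuous_const continuous_snd).mem_nhds hr₀pos)
      exact hat.tendsto.comp (tendsto_const_nhds.prodMk_nhds hlim')
    refine tendsto_nhds_unique hc ?_
    rw [tendsto_iff_norm_sub_tendsto_zero]
    refine squeeze_zero (g := fun n => η (ns (φ n)) + η (ns (φ n))) (fun _ => norm_nonneg _)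
      (fun n => ?_) (by simpa using hη'.add hη')
    have e : avg f x (r (ns (φ n))) - Mx (Icc δ K) f x =
        - (avg (g (ns (φ n))) x (r (ns (φ n))) - avg f x (r (ns (φ n)))) +
          (Mx (Icc δ K) (g (ns (φ n))) x - Mx (Icc δ K) f x) := by
      rw [hmax]; ring
    rw [e, Real.norm_eq_abs]
    refine (abs_add_le _ _).trans (add_le_add ?_ ?_)
    · rw [abs_neg]
      exact abs_avg_sub_le (hg _) hf (hR0 (hr _)) fun t _ => hsup _ t
    · exact abs_Mx_sub_le (hg _) hf hR0 hne (hsup _)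
  obtain ⟨σ, hσ, hc1, hc2, hσi⟩ : ∃ σ : ℝ, |σ| ≤ 1 ∧ (σ = -1 ∨ ContinuousAt f (x + r₀)) ∧
      (σ = 1 ∨ ContinuousAt f (x - r₀)) ∧ (σ = 0 ∨ r₀ ∈ Ioo δ K) := by
    rcases eq_or_lt_of_le hr₀.1 with h | h
    · exact ⟨0, by simp, Or.inr (h ▸ h1), Or.inr (h ▸ h2), Or.inl rfl⟩
    · rcases eq_or_lt_of_le hr₀.2 with h' | h'
      · exact ⟨0, by simp, Or.inr (h'.symm ▸ h3), Or.inr (h'.symm ▸ h4), Or.inl rfl⟩
      · rcases h5 r₀ hr₀pos with h6 | h6
        · exact ⟨1, by simp, Or.inr h6, Or.inl rfl, Or.inr ⟨h, h'⟩⟩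
        · exact ⟨-1, by simp, Or.inl rfl, Or.inr h6, Or.inr ⟨h, h'⟩⟩
  have L1 := limit hδ hf (fun n => g (ns (φ n))) (fun n => hg _) (fun n => η (ns (φ n))) hη'
    (fun n => hsup _) (fun n => r (ns (φ n))) (fun n => hr _) (fun n => hmax _) hlim' hσ
    (hint_of (fun n => hr _) hlim' hσi) hc1 hc2 (fun n => deriv (Mx (Icc δ K) (g (ns (φ n)))) x)
    (fun n => (hD _).hasDerivAt)
  have L2 := limit hδ hf (fun _ => f) (fun _ => hf) (fun _ => 0) tendsto_const_nhds
    (fun _ t => by simp) (fun _ => r₀) (fun _ => hr₀) (fun _ => hopt) tendsto_const_nhds hσ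
    (hint_of (fun _ => hr₀) tendsto_const_nhds hσi) hc1 hc2
    (fun _ => deriv (Mx (Icc δ K) f) x) (fun _ => hu.hasDerivAt)
  have L3 := tendsto_nhds_unique L2 tendsto_const_nhds
  rw [← L3]
  exact L1

end Mid

theorem mid_range_tendsto (f : ℝ → ℝ) (fj : ℕ → ℝ → ℝ) (B : ℝ) (hf : BM f B)
    (hfj : ∀ j, BM (fj j) B) (hcount : {x | ¬ ContinuousAt f x}.Countable)
    (η : ℕ → ℝ) (hη : Tendsto η atTop (𝓝 0)) (hsup : ∀ j x, |fj j x - f x| ≤ η j)
    (δ K a b : ℝ) (hδ : 0 < δ) (hK : δ < K) (hab : a ≤ b) :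
    Tendsto (fun j => eVariationOn (fun x => Mx (Icc δ K) (fj j) x - Mx (Icc δ K) f x) (Icc a b))
      atTop (𝓝 0) := by
  have hR : Icc δ K ⊆ Ici δ := fun s hs => hs.1
  have hne : (Icc δ K).Nonempty := ⟨δ, le_rfl, hK.le⟩
  have hlj : ∀ j, LipschitzWith (B / δ).toNNReal (Mx (Icc δ K) (fj j)) :=
    fun j => Mx_lipschitz (hfj j) hδ hR hne
  have hl : LipschitzWith (B / δ).toNNReal (Mx (Icc δ K) f) := Mx_lipschitz hf hδ hR hne
  have hw : ∀ j, LipschitzWith ((B / δ).toNNReal + (B / δ).toNNReal)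
      (fun x => Mx (Icc δ K) (fj j) x - Mx (Icc δ K) f x) := fun j => (hlj j).sub hl
  -- the exceptional set
  set D := {x | ¬ ContinuousAt f x} with hDdef
  have hb1 : ∀ c : ℝ, {x : ℝ | ¬ ContinuousAt f (x + c)}.Countable := fun c =>
    (hcount.preimage (f := fun x : ℝ => x + c) (add_left_injective c))
  have hb2 : {x : ℝ | ∃ s ∈ D, ∃ t ∈ D, x = (s + t) / 2}.Countable := by
    have : {x : ℝ | ∃ s ∈ D, ∃ t ∈ D, x = (s + t) / 2} = (fun p : ℝ × ℝ => (p.1 + p.2) / 2) '' (D ×ˢ D) := by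
      ext x
      constructor
      · rintro ⟨s, hs, t, ht, rfl⟩
        exact ⟨(s, t), ⟨hs, ht⟩, rfl⟩
      · rintro ⟨⟨s, t⟩, ⟨hs, ht⟩, rfl⟩
        exact ⟨s, hs, t, ht, rfl⟩
    rw [this]
    exact (hcount.prod hcount).image _
  have hae : ∀ᵐ x : ℝ, Tendsto (fun j => deriv (fun x => Mx (Icc δ K) (fj j) x - Mx (Icc δ K) f x) x)
      atTop (𝓝 0) := by
    have c1 : ∀ c : ℝ, ∀ᵐ x : ℝ, ContinuousAt f (x + c) := fun c => by
      rw [ae_iff]; exact (hb1 c).measure_zero _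
    have c2 : ∀ᵐ x : ℝ, ¬ ∃ s ∈ D, ∃ t ∈ D, x = (s + t) / 2 := by
      rw [ae_iff]; simpa only [not_not] using hb2.measure_zero _
    have c3 : ∀ᵐ x : ℝ, ∀ j, DifferentiableAt ℝ (Mx (Icc δ K) (fj j)) x :=
      ae_all_iff.2 fun j => (hlj j).ae_differentiableAt_real
    filter_upwards [c1 δ, c1 (-δ), c1 K, c1 (-K), c2, c3, hl.ae_differentiableAt_real]
      with x x1 x2 x3 x4 x5 x6 x7
    have h5 : ∀ r, 0 < r → ContinuousAt f (x + r) ∨ ContinuousAt f (x - r) := by
      intro r _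
      by_contra hcon
      rw [not_or] at hcon
      exact x5 ⟨x + r, hcon.1, x - r, hcon.2, by ring⟩
    have := Mid.deriv_tendsto hδ hK hf fj hfj η hη hsup x1 x2 x3 x4 h5 x6 x7
    have h8 : ∀ j, deriv (fun x => Mx (Icc δ K) (fj j) x - Mx (Icc δ K) f x) x =
        deriv (Mx (Icc δ K) (fj j)) x - deriv (Mx (Icc δ K) f) x :=
      fun j => deriv_fun_sub (x6 j) x7
    simp_rw [h8]
    simpa using this.sub_const (deriv (Mx (Icc δ K) f) x)
  have hint : Tendsto (fun j => ∫⁻ t in Icc a b,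
      ‖deriv (fun x => Mx (Icc δ K) (fj j) x - Mx (Icc δ K) f x) t‖ₑ) atTop (𝓝 0) := by
    have h0 : (0 : ℝ≥0∞) = ∫⁻ t in Icc a b, (0 : ℝ≥0∞) := by simp
    rw [h0]
    refine tendsto_lintegral_of_dominated_convergence
      (fun _ => (((B / δ).toNNReal + (B / δ).toNNReal : NNReal) : ℝ≥0∞)) (fun j => ?_)
      (fun j => ?_) ?_ ?_
    · exact (measurable_deriv _).enorm
    · refine Eventually.of_forall fun t => ?_
      have h9 := norm_deriv_le_of_lipschitz (hw j) (x₀ := t)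
      show ‖deriv (fun x => Mx (Icc δ K) (fj j) x - Mx (Icc δ K) f x) t‖ₑ ≤
        (((B / δ).toNNReal + (B / δ).toNNReal : NNReal) : ℝ≥0∞)
      rw [← ofReal_norm]
      refine ENNReal.ofReal_le_of_le_toReal ?_
      rw [ENNReal.coe_toReal]
      exact h9
    · simp only [lintegral_const, Measure.restrict_apply MeasurableSet.univ, univ_inter,
        Real.volume_Icc]
      exact ENNReal.mul_ne_top ENNReal.coe_ne_top ENNReal.ofReal_ne_top
    · refine ae_restrict_of_ae ?_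
      filter_upwards [hae] with x hx
      have := hx.enorm
      simpa using this
  exact tendsto_of_tendsto_of_tendsto_of_le_of_le tendsto_const_nhds hint (fun _ => zero_le)
    fun j => Mid.eVariationOn_le_lintegral (hw j) a b

end Pool.Agent.Lib.MP_653dc2_an
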