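import Pool.Agent.Lib.MP_653dc2_an.Basic

set_option autoImplicit false
open Set MeasureTheory Filter Topology
open scoped ENNReal

namespace Pool.Agent.Lib.MP_653dc2_an

/-! ### small neighbourhoods and functions dominated by a measure -/

theorem sel_small (κ : Measure ℝ) [IsFiniteMeasure κ] {x : ℝ} (h : κ {x} = 0) {ε : ℝ}
    (hε : 0 < ε) : ∃ δ > 0, κ.real (Icc (x - δ) (x + δ)) < ε := by
  obtain ⟨U, hU1, hU2, hU3⟩ := Set.exists_isOpen_lt_of_lt (μ := κ) {x} (ENNReal.ofReal ε)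
    (by rw [h]; exact ENNReal.ofReal_pos.2 hε)
  obtain ⟨δ, hδ, hδU⟩ := Metric.isOpen_iff.1 hU2 x (hU1 rfl)
  refine ⟨δ / 2, by positivity, ?_⟩
  have h1 : Icc (x - δ / 2) (x + δ / 2) ⊆ U := by
    refine Subset.trans ?_ hδU
    intro y hy
    rw [Metric.mem_ball, Real.dist_eq, abs_lt]
    constructor <;> linarith [hy.1, hy.2]
  have h2 : κ (Icc (x - δ / 2) (x + δ / 2)) < ENNReal.ofReal ε := (measure_mono h1).trans_lt hU3
  rw [Measure.real]
  exact (ENNReal.lt_ofReal_iff_toReal_lt (measure_ne_top _ _)).1 h2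

theorem sel_rc {φ : ℝ → ℝ} {κ : Measure ℝ} [IsFiniteMeasure κ]
    (h0 : ∀ x y, x ≤ y → φ x ≤ φ y) (h1 : ∀ x y, x ≤ y → φ y - φ x ≤ κ.real (Ioc x y)) (x : ℝ) :
    ContinuousWithinAt φ (Ici x) x := by
  rw [Metric.continuousWithinAt_iff]
  intro ε hε
  have hr : (κ.restrict (Ioi x)) {x} = 0 := by
    rw [Measure.restrict_apply (measurableSet_singleton x)]
    have : ({x} ∩ Ioi x : Set ℝ) = ∅ := by
      ext y; simp
    rw [this]; simp
  obtain ⟨δ, hδ, hδ2⟩ := sel_small (κ.restrict (Ioi x)) hr hε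
  refine ⟨δ, hδ, ?_⟩
  intro y hy hd
  have hy' : x ≤ y := hy
  rw [Real.dist_eq, abs_of_nonneg (by linarith [h0 x y hy'])]
  refine (h1 x y hy').trans_lt (lt_of_le_of_lt ?_ hδ2)
  rw [Real.dist_eq, abs_lt] at hd
  rw [measureReal_restrict_apply measurableSet_Icc]
  refine measureReal_mono ?_ (measure_ne_top _ _)
  intro z hz
  exact ⟨⟨by linarith [hz.1], by linarith [hz.2]⟩, hz.1⟩

/-- the Stieltjes function of a monotone function dominated by a measure -/
noncomputable def selSt {φ : ℝ → ℝ} {κ : Measure ℝ} [IsFiniteMeasure κ]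
    (h0 : ∀ x y, x ≤ y → φ x ≤ φ y) (h1 : ∀ x y, x ≤ y → φ y - φ x ≤ κ.real (Ioc x y)) :
    StieltjesFunction ℝ :=
  ⟨φ, fun _ _ h => h0 _ _ h, sel_rc h0 h1⟩

theorem selSt_Ioc {φ : ℝ → ℝ} {κ : Measure ℝ} [IsFiniteMeasure κ]
    (h0 : ∀ x y, x ≤ y → φ x ≤ φ y) (h1 : ∀ x y, x ≤ y → φ y - φ x ≤ κ.real (Ioc x y))
    (x y : ℝ) : (selSt h0 h1).measure (Ioc x y) = ENNReal.ofReal (φ y - φ x) := by
  rw [StieltjesFunction.measure_Ioc]; rfl

theorem selSt_le {φ : ℝ → ℝ} {κ : Measure ℝ} [IsFiniteMeasure κ]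
    (h0 : ∀ x y, x ≤ y → φ x ≤ φ y) (h1 : ∀ x y, x ≤ y → φ y - φ x ≤ κ.real (Ioc x y)) :
    (selSt h0 h1).measure ≤ κ := by
  have hI : ∀ x y : ℝ, x ≤ y → κ.real (Ioc x y) = κ.real (Iic y) - κ.real (Iic x) := by
    intro x y hxy
    have : Ioc x y = Iic y \ Iic x := by ext z; simp [and_comm]
    rw [this, measureReal_sdiff (Iic_subset_Iic.2 hxy) measurableSet_Iic]
  have k0 : ∀ x y, x ≤ y → κ.real (Iic x) - φ x ≤ κ.real (Iic y) - φ y := by
    intro x y hxy
    have := h1 x y hxy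
    rw [hI x y hxy] at this
    linarith
  have k1 : ∀ x y, x ≤ y → (κ.real (Iic y) - φ y) - (κ.real (Iic x) - φ x) ≤
      κ.real (Ioc x y) := by
    intro x y hxy
    rw [hI x y hxy]
    linarith [h0 x y hxy]
  have hsum : (selSt h0 h1 + selSt (κ := κ) k0 k1).measure = κ := by
    symm
    refine Measure.ext_of_Ioc _ _ fun x y hxy => ?_
    rw [StieltjesFunction.measure_Ioc]
    have : (selSt h0 h1 + selSt (κ := κ) k0 k1) y - (selSt h0 h1 + selSt (κ := κ) k0 k1) x =
        κ.real (Ioc x y) := by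
      rw [StieltjesFunction.add_apply, StieltjesFunction.add_apply, hI x y hxy.le]
      change (φ y + (κ.real (Iic y) - φ y)) - (φ x + (κ.real (Iic x) - φ x)) = _
      ring
    rw [this, ofReal_measureReal]
  rw [StieltjesFunction.measure_add] at hsum
  calc (selSt h0 h1).measure ≤ (selSt h0 h1).measure + (selSt (κ := κ) k0 k1).measure :=
        Measure.le_add_right le_rfl
    _ = κ := hsum

/-! ### the running infimum -/

/-- clamp to `[-8, 8]` -/
noncomputable def selCl (x : ℝ) : ℝ := max (-8) (min x 8)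

theorem selCl_mono : Monotone selCl := fun _ _ h => max_le_max le_rfl (min_le_min h le_rfl)

theorem selCl_mem (x : ℝ) : selCl x ∈ Icc (-8 : ℝ) 8 :=
  ⟨le_max_left _ _, max_le (by norm_num) (min_le_right _ _)⟩

theorem selCl_of_mem {x : ℝ} (h : x ∈ Icc (-8 : ℝ) 8) : selCl x = x := by
  unfold selCl; rw [min_eq_left h.2, max_eq_right h.1]

theorem selCl_Ioc (x y : ℝ) : Ioc (selCl x) (selCl y) ⊆ Ioc x y := by
  intro z hz
  have h1 := selCl_mem x
  have h2 := selCl_mem y
  have hz1 := hz.1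
  have hz2 := hz.2
  unfold selCl at hz1 hz2
  constructor
  · by_contra hc
    push Not at hc
    have : z ≤ 8 := hz.2.trans h2.2
    have h3 : z ≤ min x 8 := le_min hc this
    have := hz1.trans_le h3
    exact absurd (le_max_right (-8 : ℝ) (min x 8)) (not_le.2 this)
  · rcases le_max_iff.1 hz2 with h | h
    · exact absurd (lt_of_le_of_lt h1.1 hz.1) (not_lt.2 h)
    · exact h.trans (min_le_left _ _)

/-- the infimum of `f` over `[x, 8]` -/
noncomputable def selRi (f : ℝ → ℝ) (x : ℝ) : ℝ := sInf (f '' Icc (selCl x) 8)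

variable {f : ℝ → ℝ} {B : ℝ}

theorem selRi_bdd (hB : BM f B) (s : Set ℝ) : BddBelow (f '' s) := by
  refine ⟨-B, ?_⟩
  rintro _ ⟨x, _, rfl⟩
  exact (abs_le.1 (hB.bdd x)).1

theorem selRi_le (hB : BM f B) {x t : ℝ} (h1 : selCl x ≤ t) (h2 : t ≤ 8) : selRi f x ≤ f t :=
  csInf_le (selRi_bdd hB _) ⟨t, ⟨h1, h2⟩, rfl⟩

theorem le_selRi {x c : ℝ} (h : ∀ t, selCl x ≤ t → t ≤ 8 → c ≤ f t) : c ≤ selRi f x := by
  refine le_csInf ⟨f 8, 8, ⟨(selCl_mem x).2, le_rfl⟩, rfl⟩ ?_
  rintro _ ⟨t, ht, rfl⟩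
  exact h t ht.1 ht.2

theorem selRi_mono (hB : BM f B) : Monotone (selRi f) := fun _ _ h =>
  le_selRi fun _ h1 h2 => selRi_le hB ((selCl_mono h).trans h1) h2

theorem selRi_self (hB : BM f B) {x : ℝ} (h : x ∈ Icc (-8 : ℝ) 8) : selRi f x ≤ f x :=
  selRi_le hB (by rw [selCl_of_mem h]) h.2

theorem selRi_eight (hB : BM f B) : selRi f 8 = f 8 := by
  have h8 : selCl 8 = 8 := selCl_of_mem ⟨by norm_num, le_rfl⟩
  refine le_antisymm (selRi_le hB h8.le le_rfl) (le_selRi fun t h1 h2 => ?_)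
  rw [h8] at h1
  rw [le_antisymm h2 h1]

theorem abs_selRi_le (hB : BM f B) (x : ℝ) : |selRi f x| ≤ B := by
  rw [abs_le]
  exact ⟨le_selRi fun t _ _ => (abs_le.1 (hB.bdd t)).1,
    (selRi_le hB (selCl_mem x).2 le_rfl).trans (abs_le.1 (hB.bdd 8)).2⟩

theorem selRi_BM (hB : BM f B) : BM (selRi f) B := ⟨(selRi_mono hB).measurable, abs_selRi_le hB⟩

variable {μ ν : Measure ℝ} [IsFiniteMeasure μ] [IsFiniteMeasure ν]

omit [IsFiniteMeasure ν] in
theorem selRi_sub (hB : BM f B)
    (hf : ∀ x y, x ≤ y → f y - f x = μ.real (Ioc x y) - ν.real (Ioc x y)) (x y : ℝ)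
    (_ : x ≤ y) : selRi f y - selRi f x ≤ μ.real (Ioc x y) := by
  rw [sub_le_iff_le_add]
  have : selRi f y - μ.real (Ioc x y) ≤ selRi f x := by
    refine le_selRi fun t h1 h2 => ?_
    rcases le_total (selCl y) t with h | h
    · linarith [selRi_le hB h h2, measureReal_nonneg (μ := μ) (s := Ioc x y)]
    · have h3 := hf t (selCl y) h
      have h4 : selRi f y ≤ f (selCl y) := selRi_le hB le_rfl (selCl_mem y).2
      have h5 : μ.real (Ioc t (selCl y)) ≤ μ.real (Ioc x y) := by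
        refine measureReal_mono ?_ (measure_ne_top _ _)
        exact (Ioc_subset_Ioc_left h1).trans (selCl_Ioc x y)
      have h6 := measureReal_nonneg (μ := ν) (s := Ioc t (selCl y))
      linarith
  linarith

/-- where `f` is continuous and above its running infimum, the latter is locally constant -/
theorem selRi_const (hB : BM f B) {x : ℝ} (hx : x ∈ Ioo (-8 : ℝ) 8) (hc : ContinuousAt f x)
    (hlt : selRi f x < f x) : ∃ δ > 0, ∀ y ∈ Ioo (x - δ) (x + δ), selRi f y = selRi f x := by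
  have h1 : ∀ᶠ y in 𝓝 x, selRi f x + (f x - selRi f x) / 2 < f y :=
    hc.eventually (lt_mem_nhds (by linarith))
  have h2 : ∀ᶠ y in 𝓝 x, y ∈ Ioo (-8 : ℝ) 8 := isOpen_Ioo.mem_nhds hx
  obtain ⟨δ, hδ, hb⟩ := Metric.eventually_nhds_iff.1 (h1.and h2)
  refine ⟨δ, hδ, ?_⟩
  have hb' : ∀ y ∈ Ioo (x - δ) (x + δ),
      selRi f x + (f x - selRi f x) / 2 < f y ∧ y ∈ Ioo (-8 : ℝ) 8 := by
    intro y hy
    refine hb ?_
    rw [Real.dist_eq, abs_lt]
    constructor <;> linarith [hy.1, hy.2]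
  have hxI : selCl x = x := selCl_of_mem ⟨hx.1.le, hx.2.le⟩
  intro y hy
  have hyI : selCl y = y := selCl_of_mem ⟨(hb' y hy).2.1.le, (hb' y hy).2.2.le⟩
  rcases le_total y x with h | h
  · refine le_antisymm (selRi_mono hB h) (le_selRi fun t ht1 ht2 => ?_)
    rw [hyI] at ht1
    rcases le_total x t with h3 | h3
    · exact selRi_le hB (by rw [hxI]; exact h3) ht2
    · have := (hb' t ⟨by linarith [hy.1], by linarith⟩).1
      linarith
  · refine le_antisymm ?_ (selRi_mono hB h)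
    by_contra hcon
    push Not at hcon
    -- the infimum over `[x, 8]` is at least the smaller of the two
    have h3 : min (selRi f x + (f x - selRi f x) / 2) (selRi f y) ≤ selRi f x := by
      refine le_selRi fun t ht1 ht2 => ?_
      rw [hxI] at ht1
      rcases le_total y t with h4 | h4
      · exact (min_le_right _ _).trans (selRi_le hB (by rw [hyI]; exact h4) ht2)
      · have := (hb' t ⟨by linarith, by linarith [hy.2]⟩).1
        exact (min_le_left _ _).trans this.le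
    rcases min_le_iff.1 h3 with h4 | h4 <;> linarith

theorem sel_cont (hf : ∀ x y, x ≤ y → f y - f x = μ.real (Ioc x y) - ν.real (Ioc x y)) {x : ℝ}
    (h1 : μ {x} = 0) (h2 : ν {x} = 0) : ContinuousAt f x := by
  rw [Metric.continuousAt_iff]
  intro ε hε
  obtain ⟨δ, hδ, hδ2⟩ := sel_small (μ + ν) (x := x) (by simp [h1, h2]) hε
  refine ⟨δ, hδ, ?_⟩
  have key : ∀ a b : ℝ, a ≤ b → x - δ ≤ a → b ≤ x + δ → |f b - f a| < ε := by
    intro a b hab ha hb
    have h3 : (μ + ν).real (Ioc a b) < ε :=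
      lt_of_le_of_lt (measureReal_mono (Ioc_subset_Icc_self.trans (Icc_subset_Icc ha hb))
        (measure_ne_top _ _)) hδ2
    rw [measureReal_add_apply] at h3
    rw [hf a b hab, abs_lt]
    have := measureReal_nonneg (μ := μ) (s := Ioc a b)
    have := measureReal_nonneg (μ := ν) (s := Ioc a b)
    constructor <;> linarith
  intro y hy
  rw [Real.dist_eq, abs_lt] at hy
  rw [Real.dist_eq]
  rcases le_total x y with h | h
  · exact key x y h (by linarith) (by linarith)
  · rw [abs_sub_comm]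
    exact key y x h (by linarith) (by linarith)

theorem sel_norm {ε₀ : ℝ}
    (hnc : ∀ (g : ℝ → ℝ) (m : Measure ℝ) [IsFiniteMeasure m] (E : Set ℝ),
      CHyp g m E ε₀ → (1 / 16 : ℝ) ≤ g 2 - g (-2) → False)
    (hB : BM f B) (hf : ∀ x y, x ≤ y → f y - f x = μ.real (Ioc x y) - ν.real (Ioc x y))
    {e : ℝ} (he0 : 0 < e) (he1 : e ≤ 1 / 64) (he2 : 4 * e ≤ ε₀)
    {E₀ : Set ℝ} (hE₀ : MeasurableSet E₀) (hvol : volume E₀ = 0)
    (hμ0 : ∀ x ∈ E₀, μ {x} = 0) (hν0 : ∀ x ∈ E₀, ν {x} = 0)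
    (hM : ∀ x ∈ E₀, Mx (Ioi 0) f x ≤ f x)
    (hpos : 0 < μ.real (Icc (-8) 8))
    (hμ1 : μ.real (Icc (-8) 8 \ E₀) ≤ e * μ.real (Icc (-8) 8))
    (hν1 : ν.real (Icc (-8) 8) ≤ e * μ.real (Icc (-8) 8))
    (hmid : μ.real (Icc (-8) 8) ≤ 8 * μ.real (Icc (-2) 2)) : False := by
  have hmono := selRi_mono hB
  have h0 : ∀ x y, x ≤ y → selRi f x ≤ selRi f y := fun x y h => hmono h
  have h1 := selRi_sub hB hf
  set M := μ.real (Icc (-8 : ℝ) 8) with hMdef
  have hat : ∀ a ∈ Icc (-8 : ℝ) 8, μ.real {a} ≤ e * M := by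
    intro a ha
    by_cases h : a ∈ E₀
    · have : μ.real {a} = 0 := by rw [Measure.real, hμ0 a h]; rfl
      rw [this]; positivity
    · refine le_trans (measureReal_mono ?_ (measure_ne_top _ _)) hμ1
      intro z hz
      rw [mem_singleton_iff] at hz
      rw [hz]
      exact ⟨ha, h⟩
  have hIoc : ∀ a b : ℝ, a ≤ b → -8 ≤ a → a ≤ 8 → μ.real (Icc a b) - e * M ≤ μ.real (Ioc a b) := by
    intro a b hab ha ha'
    have h2 : Icc a b = {a} ∪ Ioc a b := by
      rw [← Icc_self, Icc_union_Ioc_eq_Icc le_rfl hab]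
    have h3 : μ.real (Icc a b) ≤ μ.real {a} + μ.real (Ioc a b) := by
      rw [h2]; exact measureReal_union_le _ _
    linarith [hat a ⟨ha, ha'⟩]
  set D := selRi f 8 - selRi f (-8) with hDdef
  have hD1 : (1 - 2 * e) * M ≤ D := by
    have h2 := hf (-8) 8 (by norm_num)
    have h3 := selRi_eight hB
    have h4 : selRi f (-8) ≤ f (-8) := selRi_self hB ⟨le_rfl, by norm_num⟩
    have h5 := hIoc (-8) 8 (by norm_num) le_rfl (by norm_num)
    have h6 : ν.real (Ioc (-8 : ℝ) 8) ≤ ν.real (Icc (-8 : ℝ) 8) :=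
      measureReal_mono Ioc_subset_Icc_self (measure_ne_top _ _)
    have h7 : μ.real (Icc (-8 : ℝ) 8) = M := rfl
    nlinarith
  have hD2 : D ≤ M := by
    refine (h1 (-8) 8 (by norm_num)).trans ?_
    exact measureReal_mono Ioc_subset_Icc_self (measure_ne_top _ _)
  have hDpos : 0 < D := lt_of_lt_of_le (by
    have : 0 < 1 - 2 * e := by linarith
    positivity) hD1
  have hmidd : M / 16 ≤ selRi f 2 - selRi f (-2) := by
    have h2 := h1 (-8) (-2) (by norm_num)
    have h3 := h1 2 8 (by norm_num)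
    have h4 := hIoc (-2) 2 (by norm_num) (by norm_num) (by norm_num)
    have h5 : μ.real (Ioc (-8 : ℝ) (-2)) + μ.real (Ioc (-2 : ℝ) 2) + μ.real (Ioc (2 : ℝ) 8) ≤ M := by
      rw [← measureReal_union (Ioc_disjoint_Ioc_of_le le_rfl) measurableSet_Ioc,
        Ioc_union_Ioc_eq_Ioc (by norm_num) (by norm_num),
        ← measureReal_union (Ioc_disjoint_Ioc_of_le le_rfl) measurableSet_Ioc,
        Ioc_union_Ioc_eq_Ioc (by norm_num) (by norm_num)]
      exact measureReal_mono Ioc_subset_Icc_self (measure_ne_top _ _)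
    nlinarith
  -- the measure of the running infimum
  set m := (selSt h0 h1).measure with hm
  have hmle : m ≤ μ := selSt_le h0 h1
  have hmfin : IsFiniteMeasure m := isFiniteMeasure_of_le μ hmle
  have hmIoc : ∀ x y : ℝ, m (Ioc x y) = ENNReal.ofReal (selRi f y - selRi f x) := selSt_Ioc h0 h1
  set E₁ := E₀ ∩ Ioo (-8) 8 ∩ {x | f x ≤ selRi f x} with hE₁
  have hE₁m : MeasurableSet E₁ := by
    refine (hE₀.inter measurableSet_Ioo).inter ?_
    exact measurableSet_le hB.meas hmono.measurable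
  have hnull : m (E₀ ∩ Ioo (-8) 8 ∩ {x | selRi f x < f x}) = 0 := by
    refine measure_null_of_locally_null _ fun x hx => ?_
    obtain ⟨δ, hδ, hδ2⟩ := selRi_const hB hx.1.2 (sel_cont hf (hμ0 x hx.1.1) (hν0 x hx.1.1)) hx.2
    refine ⟨Ioc (x - δ / 2) (x + δ / 2), mem_nhdsWithin_of_mem_nhds
      (Ioc_mem_nhds (by linarith) (by linarith)), ?_⟩
    rw [hmIoc, hδ2 (x + δ / 2) ⟨by linarith, by linarith⟩,
      hδ2 (x - δ / 2) ⟨by linarith, by linarith⟩]
    simp
  obtain ⟨K, hKE, hKc, hKm⟩ := hE₁m.exists_isCompact_sdiff_lt (measure_ne_top m _)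
    (ε := ENNReal.ofReal (e * M)) (by
      have : 0 < e * M := by positivity
      simpa using this)
  have hKm' : m.real (E₁ \ K) ≤ e * M := by
    rw [Measure.real]
    exact ENNReal.toReal_le_of_le_ofReal (by positivity) hKm.le
  have hgap : m.real (Ioc (-8) 8 \ K) ≤ 2 * (e * M) := by
    have hsub : Ioc (-8 : ℝ) 8 \ K ⊆ (E₁ \ K) ∪ ((Icc (-8) 8 \ E₀) ∪ ((E₀ ∩ {8}) ∪
        (E₀ ∩ Ioo (-8) 8 ∩ {x | selRi f x < f x}))) := by
      intro z hz
      by_cases h2 : z ∈ E₀
      · by_cases h3 : z = 8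
        · exact Or.inr (Or.inr (Or.inl ⟨h2, h3⟩))
        · have h4 : z ∈ Ioo (-8 : ℝ) 8 := ⟨hz.1.1, lt_of_le_of_ne hz.1.2 h3⟩
          by_cases h5 : selRi f z < f z
          · exact Or.inr (Or.inr (Or.inr ⟨⟨h2, h4⟩, h5⟩))
          · exact Or.inl ⟨⟨⟨h2, h4⟩, not_lt.1 h5⟩, hz.2⟩
      · exact Or.inr (Or.inl ⟨⟨hz.1.1.le, hz.1.2⟩, h2⟩)
    have h2 : m.real (Icc (-8) 8 \ E₀) ≤ e * M := by
      refine le_trans ?_ hμ1
      rw [Measure.real, Measure.real]
      exact ENNReal.toReal_mono (measure_ne_top _ _) (hmle _)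
    have h3 : m.real (E₀ ∩ {8}) = 0 := by
      rw [Measure.real]
      have : m (E₀ ∩ {8}) = 0 := by
        by_cases h8 : (8 : ℝ) ∈ E₀
        · refine le_antisymm ?_ bot_le
          calc m (E₀ ∩ {8}) ≤ μ (E₀ ∩ {8}) := hmle _
            _ ≤ μ {8} := measure_mono inter_subset_right
            _ = 0 := hμ0 8 h8
        · have : E₀ ∩ {8} = ∅ := by
            ext z
            simp only [mem_inter_iff, mem_singleton_iff, mem_empty_iff_false, iff_false, not_and]
            rintro hz rfl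
            exact h8 hz
          rw [this]; simp
      rw [this]; rfl
    have h4 : m.real (E₀ ∩ Ioo (-8) 8 ∩ {x | selRi f x < f x}) = 0 := by
      rw [Measure.real, hnull]; rfl
    calc m.real (Ioc (-8) 8 \ K) ≤ m.real ((E₁ \ K) ∪ ((Icc (-8) 8 \ E₀) ∪ ((E₀ ∩ {8}) ∪
        (E₀ ∩ Ioo (-8) 8 ∩ {x | selRi f x < f x})))) := measureReal_mono hsub (measure_ne_top _ _)
      _ ≤ m.real (E₁ \ K) + (m.real (Icc (-8) 8 \ E₀) + (m.real (E₀ ∩ {8}) +
        m.real (E₀ ∩ Ioo (-8) 8 ∩ {x | selRi f x < f x}))) := by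
          refine (measureReal_union_le _ _).trans (add_le_add le_rfl ?_)
          refine (measureReal_union_le _ _).trans (add_le_add le_rfl ?_)
          exact measureReal_union_le _ _
      _ ≤ 2 * (e * M) := by rw [h3, h4]; linarith
  -- normalise
  have hDi : 0 < D⁻¹ := inv_pos.2 hDpos
  set c : NNReal := Real.toNNReal D⁻¹ with hc
  have hcr : (c : ℝ) = D⁻¹ := Real.coe_toNNReal _ hDi.le
  set g : ℝ → ℝ := fun x => D⁻¹ * (selRi f x - selRi f (-8)) with hg
  have hK8 : K ⊆ Ioo (-8) 8 := fun x hx => (hKE hx).1.2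
  have hgB : BM g (D⁻¹ * (B + B)) := by
    refine ⟨(hmono.measurable.sub_const _).const_mul _, fun x => ?_⟩
    rw [hg]
    simp only
    rw [abs_mul, abs_of_pos hDi]
    refine mul_le_mul_of_nonneg_left ?_ hDi.le
    exact (abs_sub _ _).trans (add_le_add (abs_selRi_le hB _) (abs_selRi_le hB _))
  have hC : CHyp g (c • m) K ε₀ := by
    refine ⟨?_, ?_, ?_, ?_, hKc, hK8, ?_, ?_, ?_, ?_⟩
    · intro x y hxy
      exact mul_le_mul_of_nonneg_left (sub_le_sub_right (h0 _ _ hxy) _) hDi.le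
    · simp [hg]
    · simp only [hg]
      rw [← hDdef]
      exact inv_mul_cancel₀ hDpos.ne'
    · intro x y _ hxy _
      have : ((c • m) (Ioc x y)).toReal = (c • m).real (Ioc x y) := rfl
      rw [this, measureReal_nnreal_smul_apply, hcr, Measure.real, hmIoc,
        ENNReal.toReal_ofReal (by linarith [h0 x y hxy])]
      simp only [hg]; ring
    · exact measure_mono_null (fun x hx => (hKE hx).1.1) hvol
    · intro x hx
      have : m {x} = 0 := le_antisymm ((hmle _).trans (hμ0 x (hKE hx).1.1).le) bot_le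
      rw [Measure.smul_apply, this]; simp
    · have : ((c • m) (Ioc (-8) 8 \ K)).toReal = (c • m).real (Ioc (-8) 8 \ K) := rfl
      rw [this, measureReal_nnreal_smul_apply, hcr]
      have h2 : D⁻¹ * m.real (Ioc (-8) 8 \ K) ≤ D⁻¹ * (2 * (e * M)) :=
        mul_le_mul_of_nonneg_left hgap hDi.le
      have h3 : D⁻¹ * (2 * (e * M)) ≤ 4 * e := by
        rw [inv_mul_le_iff₀ hDpos]
        have : M ≤ 2 * D := by nlinarith
        nlinarith
      linarith
    · intro x hx ρ hρ hx1 hx2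
      have hgx : g x = D⁻¹ * (f x - selRi f (-8)) := by
        have h2 : selRi f x = f x := by
          refine le_antisymm (selRi_self hB ⟨?_, ?_⟩) (hKE hx).2
          · exact (hK8 hx).1.le
          · exact (hK8 hx).2.le
        simp only [hg, h2]
      rw [hgx]
      have h2 : avg g x ρ = D⁻¹ * (avg (selRi f) x ρ - selRi f (-8)) := by
        have h3 : avg g x ρ = D⁻¹ * avg (fun t => selRi f t - selRi f (-8)) x ρ := by
          unfold avg
          simp only [hg]
          rw [intervalIntegral.integral_const_mul]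
          ring
        rw [h3, avg_sub (selRi_BM hB) (BM.const _)]
        congr 2
        rw [avg_eq_av, av_const _ (by linarith)]
      rw [h2]
      refine mul_le_mul_of_nonneg_left (sub_le_sub_right ?_ _) hDi.le
      calc avg (selRi f) x ρ ≤ avg f x ρ := by
            refine avg_mono_on (selRi_BM hB) hB hρ fun t ht => ?_
            exact selRi_self hB ⟨by linarith [ht.1], by linarith [ht.2]⟩
        _ ≤ Mx (Ioi 0) f x := le_Mx hB Subset.rfl hρ
        _ ≤ f x := hM x (hKE hx).1.1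
  have hfin : IsFiniteMeasure (c • m) := inferInstance
  refine hnc g (c • m) K hC ?_
  simp only [hg]
  have : D⁻¹ * (selRi f 2 - selRi f (-8)) - D⁻¹ * (selRi f (-2) - selRi f (-8)) =
      D⁻¹ * (selRi f 2 - selRi f (-2)) := by ring
  rw [this, le_inv_mul_iff₀ hDpos]
  linarith

/-! ### selection of a good interval -/

theorem sel_ball (μ lam : Measure ℝ) [IsFiniteMeasure μ] [IsLocallyFiniteMeasure lam]
    (hvol : (volume : Measure ℝ) ≤ lam) (E : Set ℝ) (h0 : lam E = 0) (hμ : μ E ≠ 0)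
    {e : ℝ} (he : 0 < e) :
    ∃ x₀ r, 0 < r ∧ 0 < μ.real (Metric.closedBall x₀ r) ∧
      lam.real (Metric.closedBall x₀ r) ≤ e * μ.real (Metric.closedBall x₀ r) ∧
      μ.real (Metric.closedBall x₀ r) ≤ 8 * μ.real (Metric.closedBall x₀ (r / 4)) := by
  have hzero : ∀ᵐ x ∂(μ.restrict E), lam.rnDeriv μ x = 0 := by
    have h1 : ∫⁻ x in E, lam.rnDeriv μ x ∂μ = 0 :=
      le_antisymm ((Measure.setLIntegral_rnDeriv_le E).trans h0.le) bot_le
    rw [lintegral_eq_zero_iff (Measure.measurable_rnDeriv _ _)] at h1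
    exact h1
  have hne : NeBot (ae (μ.restrict E)) := by
    rw [ae_neBot]
    intro h
    rw [Measure.restrict_eq_zero] at h
    exact hμ h
  obtain ⟨x₀, hx1, hx2⟩ := ((ae_restrict_of_ae (Besicovitch.ae_tendsto_rnDeriv lam μ)).and
    hzero).exists
  rw [hx2] at hx1
  have h2 : ∀ᶠ r in 𝓝[>] (0 : ℝ), lam (Metric.closedBall x₀ r) / μ (Metric.closedBall x₀ r) <
      ENNReal.ofReal e := hx1.eventually (gt_mem_nhds (ENNReal.ofReal_pos.2 he))
  obtain ⟨r₁, hr₁, hsub⟩ := mem_nhdsGT_iff_exists_Ioo_subset.1 h2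
  have hr₁' : 0 < r₁ := hr₁
  have hlamfin : ∀ r, lam (Metric.closedBall x₀ r) ≠ ∞ := fun r =>
    (isCompact_closedBall x₀ r).measure_lt_top.ne
  have hlampos : ∀ r, 0 < r → 2 * r ≤ lam.real (Metric.closedBall x₀ r) := by
    intro r hr
    have h3 : ENNReal.ofReal (2 * r) ≤ lam (Metric.closedBall x₀ r) := by
      rw [← Real.volume_closedBall]; exact hvol _
    rw [Measure.real]
    exact (ENNReal.ofReal_le_iff_le_toReal (hlamfin r)).1 h3
  have hgood : ∀ r, 0 < r → r < r₁ → 0 < μ.real (Metric.closedBall x₀ r) ∧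
      lam.real (Metric.closedBall x₀ r) ≤ e * μ.real (Metric.closedBall x₀ r) := by
    intro r hr hr'
    have h3 : lam (Metric.closedBall x₀ r) / μ (Metric.closedBall x₀ r) < ENNReal.ofReal e :=
      hsub ⟨hr, hr'⟩
    have h4 : μ (Metric.closedBall x₀ r) ≠ 0 := by
      intro h
      rw [h, ENNReal.div_zero] at h3
      · exact absurd h3 (not_lt.2 le_top)
      · intro h5
        have := hlampos r hr
        rw [Measure.real, h5] at this
        simp at this
        linarith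
    refine ⟨ENNReal.toReal_pos h4 (measure_ne_top _ _), ?_⟩
    have h5 : lam (Metric.closedBall x₀ r) ≤ ENNReal.ofReal e * μ (Metric.closedBall x₀ r) :=
      (ENNReal.div_le_iff h4 (measure_ne_top _ _)).1 h3.le
    rw [Measure.real, Measure.real]
    calc (lam (Metric.closedBall x₀ r)).toReal
        ≤ (ENNReal.ofReal e * μ (Metric.closedBall x₀ r)).toReal :=
          ENNReal.toReal_mono (ENNReal.mul_ne_top ENNReal.ofReal_ne_top (measure_ne_top _ _)) h5
      _ = e * (μ (Metric.closedBall x₀ r)).toReal := by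
          rw [ENNReal.toReal_mul, ENNReal.toReal_ofReal he.le]
  by_contra hcon
  push Not at hcon
  have hbad : ∀ r, 0 < r → r < r₁ →
      8 * μ.real (Metric.closedBall x₀ (r / 4)) < μ.real (Metric.closedBall x₀ r) :=
    fun r hr hr' => hcon x₀ r hr (hgood r hr hr').1 (hgood r hr hr').2
  set s := r₁ / 2 with hs
  have hs0 : 0 < s := by positivity
  have hsk : ∀ k : ℕ, 0 < s / 4 ^ k ∧ s / 4 ^ k < r₁ := by
    intro k
    refine ⟨by positivity, ?_⟩
    have : s / 4 ^ k ≤ s := div_le_self hs0.le (one_le_pow₀ (by norm_num))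
    linarith
  have hind : ∀ k : ℕ, 8 ^ k * μ.real (Metric.closedBall x₀ (s / 4 ^ k)) ≤
      μ.real (Metric.closedBall x₀ s) := by
    intro k
    induction k with
    | zero => simp
    | succ k ih =>
      have h3 := hbad _ (hsk k).1 (hsk k).2
      have h4 : s / 4 ^ (k + 1) = s / 4 ^ k / 4 := by rw [pow_succ]; field_simp
      rw [h4, pow_succ]
      have h5 : (0 : ℝ) < 8 ^ k := by positivity
      nlinarith
  obtain ⟨k, hk⟩ := pow_unbounded_of_one_lt (e * μ.real (Metric.closedBall x₀ s) / (2 * s))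
    (by norm_num : (1 : ℝ) < 2)
  rw [div_lt_iff₀ (by positivity)] at hk
  have h3 := hlampos _ (hsk k).1
  have h4 := (hgood _ (hsk k).1 (hsk k).2).2
  have h5 := hind k
  have h6 : (8 : ℝ) ^ k * (2 * (s / 4 ^ k)) = 2 ^ k * (2 * s) := by
    have : (8 : ℝ) ^ k = 2 ^ k * 4 ^ k := by rw [← mul_pow]; norm_num
    rw [this]; field_simp
  have h7 : (8 : ℝ) ^ k * (2 * (s / 4 ^ k)) ≤
      8 ^ k * (e * μ.real (Metric.closedBall x₀ (s / 4 ^ k))) :=
    mul_le_mul_of_nonneg_left (h3.trans h4) (by positivity)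
  have h8 : (8 : ℝ) ^ k * (e * μ.real (Metric.closedBall x₀ (s / 4 ^ k))) ≤
      e * μ.real (Metric.closedBall x₀ s) := by
    calc (8 : ℝ) ^ k * (e * μ.real (Metric.closedBall x₀ (s / 4 ^ k)))
        = e * (8 ^ k * μ.real (Metric.closedBall x₀ (s / 4 ^ k))) := by ring
      _ ≤ _ := mul_le_mul_of_nonneg_left h5 he.le
  linarith

/-! ### the positive part does not charge the set -/

/-- the assertion of `no_cantor` -/
def SelNoCantor : Prop := ∀ c₀ : ℝ, 0 < c₀ → ∃ ε₀ > 0, ∀ (g : ℝ → ℝ) (m : Measure ℝ)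
    [IsFiniteMeasure m] (E : Set ℝ), CHyp g m E ε₀ → c₀ ≤ g 2 - g (-2) → False

theorem sel_atoms_meas (κ : Measure ℝ) [IsFiniteMeasure κ] : MeasurableSet {x : ℝ | κ {x} = 0} := by
  have h1 : Set.Countable {t : ℝ | 0 < κ {a : ℝ | a = t}} :=
    Measure.countable_meas_level_set_pos (μ := κ) (g := fun a : ℝ => a) measurable_id
  have h2 : {x : ℝ | κ {x} = 0} = {t : ℝ | 0 < κ {a : ℝ | a = t}}ᶜ := by
    ext x
    simp [pos_iff_ne_zero]
  rw [h2]
  exact h1.measurableSet.compl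

theorem sel_half (hnc : SelNoCantor) (hB : BM f B) (hms : μ ⟂ₘ ν)
    (hf : ∀ x y, x ≤ y → f y - f x = μ.real (Ioc x y) - ν.real (Ioc x y))
    (Z : Set ℝ) (hZ : volume Z = 0) :
    μ {x ∈ Z | μ {x} = 0 ∧ ν {x} = 0 ∧ Mx (Ioi 0) f x ≤ f x} = 0 := by
  obtain ⟨s, hs, hμs, hνs⟩ := hms
  set Z' := toMeasurable volume Z with hZ'
  have hZ'0 : volume Z' = 0 := by rw [hZ', measure_toMeasurable, hZ]
  set E₀ : Set ℝ := Z' ∩ sᶜ ∩ {x | μ {x} = 0} ∩ {x | ν {x} = 0} ∩ {x | Mx (Ioi 0) f x ≤ f x}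
    with hE₀def
  have hE₀ : MeasurableSet E₀ := by
    refine ((((measurableSet_toMeasurable _ _).inter hs.compl).inter (sel_atoms_meas μ)).inter
      (sel_atoms_meas ν)).inter ?_
    exact measurableSet_le (measurable_Mx hB Subset.rfl ⟨1, by simp⟩) hB.meas
  suffices hE : μ E₀ = 0 by
    refine measure_mono_null (t := E₀ ∪ s) ?_ (measure_union_null hE hμs)
    intro x hx
    by_cases hxs : x ∈ s
    · exact Or.inr hxs
    · exact Or.inl ⟨⟨⟨⟨subset_toMeasurable _ _ hx.1, hxs⟩, hx.2.1⟩, hx.2.2.1⟩, hx.2.2.2⟩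
  by_contra hne
  obtain ⟨ε₀, hε₀, hnc'⟩ := hnc (1 / 16) (by norm_num)
  set e : ℝ := min (1 / 64) (ε₀ / 4) with he
  have he0 : 0 < e := lt_min (by norm_num) (by positivity)
  have he1 : e ≤ 1 / 64 := min_le_left _ _
  have he2 : 4 * e ≤ ε₀ := by
    have : e ≤ ε₀ / 4 := min_le_right _ _
    linarith
  set lam : Measure ℝ := μ.restrict E₀ᶜ + ν + volume with hlam
  have hlam0 : lam E₀ = 0 := by
    rw [hlam, Measure.add_apply, Measure.add_apply, Measure.restrict_apply hE₀]
    have h1 : E₀ ∩ E₀ᶜ = ∅ := inter_compl_self _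
    have h2 : ν E₀ = 0 := measure_mono_null (fun x hx => hx.1.1.1.2) hνs
    have h3 : volume E₀ = 0 := measure_mono_null (fun x hx => hx.1.1.1.1) hZ'0
    rw [h1, h2, h3]; simp
  have hfc : IsFiniteMeasureOnCompacts lam := ⟨fun K hK => by
    rw [hlam, Measure.add_apply, Measure.add_apply]
    exact ENNReal.add_lt_top.2 ⟨ENNReal.add_lt_top.2 ⟨measure_lt_top _ _, measure_lt_top _ _⟩,
      hK.measure_lt_top⟩⟩
  have hloc : IsLocallyFiniteMeasure lam := isLocallyFiniteMeasure_of_isFiniteMeasureOnCompacts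
  have hvle : (volume : Measure ℝ) ≤ lam := Measure.le_add_left le_rfl
  have hνle : ν ≤ lam := (Measure.le_add_left le_rfl).trans (Measure.le_add_right le_rfl)
  have hμle : μ.restrict E₀ᶜ ≤ lam :=
    (Measure.le_add_right le_rfl).trans (Measure.le_add_right le_rfl)
  obtain ⟨x₀, r, hr, hpos, hl, h4⟩ := sel_ball μ lam hvle E₀ hlam0 hne he0
  have hlfin : lam (Metric.closedBall x₀ r) ≠ ∞ := (isCompact_closedBall x₀ r).measure_lt_top.ne
  -- rescale
  set c : ℝ := r / 8 with hc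
  have hc0 : 0 < c := by positivity
  set φ : ℝ → ℝ := fun t => x₀ + c * t with hφ
  set ψ : ℝ → ℝ := fun x => (x - x₀) / c with hψ
  have hψm : Measurable ψ := (measurable_id.sub_const _).div_const _
  have hφm : Measurable φ := (measurable_id.const_mul _).const_add _
  have hlt : ∀ a x : ℝ, a < ψ x ↔ φ a < x := by
    intro a x
    simp only [hψ, hφ, lt_div_iff₀ hc0]
    constructor <;> intro h <;> nlinarith
  have hle : ∀ a x : ℝ, ψ x ≤ a ↔ x ≤ φ a := fun a x => by
    rw [← not_lt, hlt, not_lt]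
  have hlt' : ∀ a x : ℝ, ψ x < a ↔ x < φ a := by
    intro a x
    simp only [hψ, hφ, div_lt_iff₀ hc0]
    constructor <;> intro h <;> nlinarith
  have hle' : ∀ a x : ℝ, a ≤ ψ x ↔ φ a ≤ x := fun a x => by
    rw [← not_lt, hlt', not_lt]
  have hIoc : ∀ a b : ℝ, ψ ⁻¹' (Ioc a b) = Ioc (φ a) (φ b) := by
    intro a b; ext x; simp [hlt, hle]
  have hIcc : ∀ a b : ℝ, ψ ⁻¹' (Icc a b) = Icc (φ a) (φ b) := by
    intro a b; ext x; simp [hle', hle]
  have hsing : ∀ a : ℝ, ψ ⁻¹' {a} = {φ a} := by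
    intro a; rw [← Icc_self, hIcc, Icc_self]
  have hφψ : ∀ x, φ (ψ x) = x := by
    intro x; simp only [hφ, hψ]; field_simp; ring
  have hball : ψ ⁻¹' (Icc (-8) 8) = Metric.closedBall x₀ r := by
    rw [hIcc, Real.closedBall_eq_Icc]
    congr 1 <;> simp only [hφ, hc] <;> ring
  have hball2 : ψ ⁻¹' (Icc (-2) 2) = Metric.closedBall x₀ (r / 4) := by
    rw [hIcc, Real.closedBall_eq_Icc]
    congr 1 <;> simp only [hφ, hc] <;> ring
  have hf' : BM (fun t => f (φ t)) B := ⟨hB.meas.comp hφm, fun x => hB.bdd _⟩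
  have hfin1 : IsFiniteMeasure (μ.map ψ) := Measure.isFiniteMeasure_map μ ψ
  have hfin2 : IsFiniteMeasure (ν.map ψ) := Measure.isFiniteMeasure_map ν ψ
  have hE' : MeasurableSet (φ ⁻¹' E₀) := hφm hE₀
  have hpre : ψ ⁻¹' (φ ⁻¹' E₀) = E₀ := by
    ext x; simp only [mem_preimage, hφψ]
  have hvolE₀ : volume E₀ = 0 := measure_mono_null (fun x hx => hx.1.1.1.1) hZ'0
  refine sel_norm (f := fun t => f (φ t)) (B := B) (μ := μ.map ψ) (ν := ν.map ψ)
    (ε₀ := ε₀) hnc' hf' ?_ he0 he1 he2 hE' ?_ ?_ ?_ ?_ ?_ ?_ ?_ ?_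
  · intro x y hxy
    rw [map_measureReal_apply hψm measurableSet_Ioc, map_measureReal_apply hψm measurableSet_Ioc,
      hIoc]
    refine hf _ _ ?_
    simp only [hφ]
    nlinarith
  · have h1 : φ ⁻¹' E₀ = (c * ·) ⁻¹' ((fun y => x₀ + y) ⁻¹' E₀) := rfl
    rw [h1, Real.volume_preimage_mul_left hc0.ne', measure_preimage_add, hvolE₀, mul_zero]
  · intro x hx
    rw [Measure.map_apply hψm (measurableSet_singleton x), hsing]
    exact hx.1.1.2
  · intro x hx
    rw [Measure.map_apply hψm (measurableSet_singleton x), hsing]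
    exact hx.1.2
  · intro x hx
    refine Mx_le ⟨1, by simp⟩ fun ρ hρ => ?_
    have hρ' : 0 < ρ := hρ
    have h1 : avg (fun t => f (φ t)) x ρ = avg f (φ x) (c * ρ) := by
      unfold avg
      simp only [hφ]
      rw [intervalIntegral.integral_comp_add_mul f hc0.ne']
      rw [smul_eq_mul, ← mul_assoc, ← mul_inv]
      congr 2
      · ring
      · ring
      · ring
    rw [h1]
    exact (le_Mx hB Subset.rfl (show c * ρ ∈ Ioi (0 : ℝ) from mul_pos hc0 hρ')).trans hx.2
  · rw [map_measureReal_apply hψm measurableSet_Icc, hball]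
    exact hpos
  · rw [map_measureReal_apply hψm (measurableSet_Icc.diff hE'),
      map_measureReal_apply hψm measurableSet_Icc, preimage_sdiff, hball, hpre]
    refine le_trans ?_ hl
    rw [Measure.real, Measure.real]
    refine ENNReal.toReal_mono hlfin ?_
    calc μ (Metric.closedBall x₀ r \ E₀) = μ.restrict E₀ᶜ (Metric.closedBall x₀ r) := by
          rw [Measure.restrict_apply Metric.isClosed_closedBall.measurableSet]; rfl
      _ ≤ lam (Metric.closedBall x₀ r) := hμle _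
  · rw [map_measureReal_apply hψm measurableSet_Icc,
      map_measureReal_apply hψm measurableSet_Icc, hball]
    refine le_trans ?_ hl
    rw [Measure.real, Measure.real]
    exact ENNReal.toReal_mono hlfin (hνle _)
  · rw [map_measureReal_apply hψm measurableSet_Icc,
      map_measureReal_apply hψm measurableSet_Icc, hball, hball2]
    exact h4

/-! ### reflection and the final statement -/

theorem sel_Ico (κ : Measure ℝ) [IsFiniteMeasure κ] {a b : ℝ} (h : a ≤ b) :
    κ.real (Ico a b) = κ.real (Ioc a b) + κ.real {a} - κ.real {b} := by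
  have h1 : κ.real (Icc a b) = κ.real {a} + κ.real (Ioc a b) := by
    have h2 : Icc a b = {a} ∪ Ioc a b := by
      rw [← Icc_self, Icc_union_Ioc_eq_Icc le_rfl h]
    rw [h2, measureReal_union _ measurableSet_Ioc]
    rw [disjoint_singleton_left]
    simp
  have h3 : κ.real (Icc a b) = κ.real (Ico a b) + κ.real {b} := by
    have h2 : Icc a b = Ico a b ∪ {b} := by
      rw [← Icc_self, Ico_union_Icc_eq_Icc h le_rfl]
    rw [h2, measureReal_union _ (measurableSet_singleton b)]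
    rw [disjoint_singleton_right]
    simp
  linarith

theorem theoremA_of (hnc : SelNoCantor) (f : ℝ → ℝ) (B : ℝ) (hB : BM f B)
    (μ ν : Measure ℝ) [IsFiniteMeasure μ] [IsFiniteMeasure ν] (hms : μ ⟂ₘ ν)
    (hf : ∀ x y, x ≤ y → f y - f x = (μ (Ioc x y)).toReal - (ν (Ioc x y)).toReal)
    (Z : Set ℝ) (hZ : volume Z = 0) :
    (μ + ν) {x ∈ Z | μ {x} = 0 ∧ ν {x} = 0 ∧ Mx (Ioi 0) f x ≤ f x} = 0 := by
  rw [Measure.add_apply, sel_half hnc hB hms hf Z hZ, zero_add]
  -- the reflected function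
  set g : ℝ → ℝ := fun x => f (-x) - μ.real {-x} + ν.real {-x} with hg
  have hcount : Set.Countable {x | f (-x) ≠ g x} := by
    have h1 : ∀ (κ : Measure ℝ) [IsFiniteMeasure κ], Set.Countable {x : ℝ | κ {-x} ≠ 0} := by
      intro κ _
      have h2 : Set.Countable {t : ℝ | 0 < κ {a : ℝ | a = t}} :=
        Measure.countable_meas_level_set_pos (μ := κ) (g := fun a : ℝ => a) measurable_id
      have h3 : {x : ℝ | κ {-x} ≠ 0} = (fun x : ℝ => -x) ⁻¹' {t : ℝ | 0 < κ {a : ℝ | a = t}} := by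
        ext x
        simp [pos_iff_ne_zero]
      rw [h3]
      exact h2.preimage neg_injective
    refine ((h1 μ).union (h1 ν)).mono fun x hx => ?_
    by_contra hc
    rw [mem_union, not_or] at hc
    simp only [mem_ofPred_eq, ne_eq, not_not] at hc
    refine hx ?_
    simp only [hg, Measure.real, hc.1, hc.2]
    simp
  have hgm : Measurable g :=
    Measurable.measurable_of_countable_ne (hB.meas.comp measurable_neg) hcount
  have hgB : BM g (B + μ.real univ + ν.real univ) := by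
    refine ⟨hgm, fun x => ?_⟩
    have h1 := hB.bdd (-x)
    have h2 : μ.real {-x} ≤ μ.real univ := measureReal_mono (subset_univ _) (measure_ne_top _ _)
    have h3 : ν.real {-x} ≤ ν.real univ := measureReal_mono (subset_univ _) (measure_ne_top _ _)
    have h4 := measureReal_nonneg (μ := μ) (s := {-x})
    have h5 := measureReal_nonneg (μ := ν) (s := {-x})
    rw [abs_le] at h1 ⊢
    simp only [hg]
    constructor <;> linarith
  have hae : g =ᵐ[volume] fun x => f (-x) := by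
    rw [Filter.EventuallyEq, ae_iff]
    refine measure_mono_null ?_ (hcount.measure_zero volume)
    intro x hx
    exact fun h => hx h.symm
  have hfin1 : IsFiniteMeasure (ν.map (fun x => -x)) := Measure.isFiniteMeasure_map ν _
  have hfin2 : IsFiniteMeasure (μ.map (fun x => -x)) := Measure.isFiniteMeasure_map μ _
  have hsing : (ν.map (fun x => -x)) ⟂ₘ (μ.map (fun x => -x)) := by
    obtain ⟨s, hs, h1, h2⟩ := hms
    refine ⟨(fun x => -x) ⁻¹' sᶜ, measurable_neg hs.compl, ?_, ?_⟩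
    · rw [Measure.map_apply measurable_neg (measurable_neg hs.compl)]
      have : (fun x : ℝ => -x) ⁻¹' ((fun x : ℝ => -x) ⁻¹' sᶜ) = sᶜ := by
        ext x; simp
      rw [this, h2]
    · rw [Measure.map_apply measurable_neg (measurable_neg hs.compl).compl]
      have : (fun x : ℝ => -x) ⁻¹' ((fun x : ℝ => -x) ⁻¹' sᶜ)ᶜ = s := by
        ext x; simp
      rw [this, h1]
  have hpre : ∀ a b : ℝ, (fun x : ℝ => -x) ⁻¹' (Ioc a b) = Ico (-b) (-a) := by
    intro a b
    ext x
    simp only [mem_preimage, mem_Ioc, mem_Ico]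
    constructor <;> rintro ⟨h1, h2⟩ <;> constructor <;> linarith
  have hg' : ∀ x y, x ≤ y → g y - g x = (ν.map (fun x => -x)).real (Ioc x y) -
      (μ.map (fun x => -x)).real (Ioc x y) := by
    intro x y hxy
    rw [map_measureReal_apply measurable_neg measurableSet_Ioc,
      map_measureReal_apply measurable_neg measurableSet_Ioc, hpre,
      sel_Ico μ (neg_le_neg hxy), sel_Ico ν (neg_le_neg hxy)]
    have h1 := hf (-y) (-x) (neg_le_neg hxy)
    change f (-x) - f (-y) = μ.real (Ioc (-y) (-x)) - ν.real (Ioc (-y) (-x)) at h1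
    simp only [hg]
    linarith
  have hZ' : volume ((fun x : ℝ => -x) ⁻¹' Z) = 0 := by
    have := Measure.measure_preimage_neg (volume : Measure ℝ) Z
    rw [← hZ, ← this]
  have h1 := sel_half (f := g) hnc hgB hsing hg' _ hZ'
  have h2 : ν {x ∈ Z | μ {x} = 0 ∧ ν {x} = 0 ∧ Mx (Ioi 0) f x ≤ f x} ≤
      (ν.map (fun x => -x)) {x ∈ (fun x : ℝ => -x) ⁻¹' Z | (ν.map (fun x => -x)) {x} = 0 ∧
        (μ.map (fun x => -x)) {x} = 0 ∧ Mx (Ioi 0) g x ≤ g x} := by
    refine le_trans (measure_mono ?_) (Measure.le_map_apply measurable_neg.aemeasurable _)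
    intro x hx
    have hs : (fun x : ℝ => -x) ⁻¹' {-x} = {x} := by
      ext z; simp
    have h3 : Mx (Ioi 0) g (-x) = Mx (Ioi 0) f x := by
      rw [Mx_congr_ae _ hae, Mx_comp_neg, neg_neg]
    refine ⟨?_, ?_, ?_, ?_⟩
    · simpa using hx.1
    · rw [Measure.map_apply measurable_neg (measurableSet_singleton _), hs]
      exact hx.2.2.1
    · rw [Measure.map_apply measurable_neg (measurableSet_singleton _), hs]
      exact hx.2.1
    · rw [h3]
      refine hx.2.2.2.trans (le_of_eq ?_)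
      simp only [hg, neg_neg, Measure.real, hx.2.1, hx.2.2.1]
      simp
  exact le_antisymm (h2.trans h1.le) bot_le

end Pool.Agent.Lib.MP_653dc2_an
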