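import Pool.Agent.Lib.MP_653dc2_an.Basic

set_option autoImplicit false
open Set MeasureTheory Filter Topology
open scoped ENNReal

namespace Pool.Agent.Lib.MP_653dc2_an

/-- the statement of Theorem A -/
def TheoremAStmt : Prop := ∀ (f : ℝ → ℝ) (B : ℝ), BM f B →
    (∀ x, ContinuousWithinAt f (Ici x) x) →
    ∀ (μ ν : Measure ℝ) [IsFiniteMeasure μ] [IsFiniteMeasure ν], μ ⟂ₘ ν →
    (∀ x y, x ≤ y → f y - f x = (μ (Ioc x y)).toReal - (ν (Ioc x y)).toReal) →
    ∀ (Z : Set ℝ), volume Z = 0 →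
    (μ + ν) {x ∈ Z | μ {x} = 0 ∧ ν {x} = 0 ∧ Mx (Ioi 0) f x ≤ f x} = 0

/-- functions of bounded variation on the line are measurable and bounded -/
theorem exists_BM {f : ℝ → ℝ} (hf : BoundedVariationOn f univ) : ∃ B, BM f B := by
  obtain ⟨p, q, hp, hq, hfpq⟩ := hf.locallyBoundedVariationOn.exists_monotoneOn_sub_monotoneOn
  refine ⟨|f 0| + (eVariationOn f univ).toReal, ?_, fun x => ?_⟩
  · rw [hfpq]
    exact (monotoneOn_univ.1 hp).measurable.sub (monotoneOn_univ.1 hq).measurable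
  · have := hf.dist_le (mem_univ x) (mem_univ 0)
    rw [Real.dist_eq] at this
    have h2 := abs_sub_abs_le_abs_sub (f x) (f 0)
    linarith

/-- the two parts of the derivative of a right-continuous function of bounded variation -/
theorem exists_jordan {f : ℝ → ℝ} (hf : BoundedVariationOn f univ)
    (hrc : ∀ x, ContinuousWithinAt f (Ici x) x) :
    ∃ μ ν : Measure ℝ, IsFiniteMeasure μ ∧ IsFiniteMeasure ν ∧ μ ⟂ₘ ν ∧
      (∀ x y, x ≤ y → f y - f x = (μ (Ioc x y)).toReal - (ν (Ioc x y)).toReal) ∧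
      ∀ x, μ {x} = 0 → ν {x} = 0 → ContinuousAt f x := by
  obtain ⟨s, hs, hs1⟩ : ∃ s : SignedMeasure ℝ, (∀ x y, x ≤ y →
      s (Ioc x y) = f.rightLim y - f.rightLim x) ∧
      ∀ x, s {x} = f.rightLim x - f.leftLim x :=
    ⟨hf.vectorMeasure, fun x y hxy => hf.vectorMeasure_Ioc hxy,
      fun x => hf.vectorMeasure_singleton⟩
  refine ⟨s.toJordanDecomposition.posPart, s.toJordanDecomposition.negPart,
    s.toJordanDecomposition.posPart_finite,
    s.toJordanDecomposition.negPart_finite, s.toJordanDecomposition.mutuallySingular,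
    fun x y hxy => ?_, fun x h1 h2 => ?_⟩
  · have h2 := s.apply_eq_posPart_real_sub_negPart_real (measurableSet_Ioc (a := x) (b := y))
    rw [hs _ _ hxy, (hrc x).rightLim_eq, (hrc y).rightLim_eq] at h2
    exact h2
  · have h3 := s.apply_eq_posPart_real_sub_negPart_real (measurableSet_singleton x)
    rw [hs1, (hrc x).rightLim_eq, measureReal_def, measureReal_def, h1, h2] at h3
    have h4 : f.leftLim x = f x := by
      simp only [ENNReal.toReal_zero, sub_self] at h3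
      linarith
    rw [continuousAt_iff_continuous_left'_right']
    refine ⟨?_, (hrc x).mono Ioi_subset_Ici_self⟩
    have h5 := hf.tendsto_leftLim x
    rw [h4] at h5
    exact h5

theorem eVariationOn_le_measure {F : ℝ → ℝ} {θ : Measure ℝ} {a b : ℝ}
    (h : ∀ x y, a < x → x ≤ y → y < b → edist (F y) (F x) ≤ θ (Ioc x y)) :
    eVariationOn F (Ioo a b) ≤ θ (Ioo a b) := by
  refine iSup_le ?_
  rintro ⟨n, u, hu, hus⟩
  calc ∑ i ∈ Finset.range n, edist (F (u (i+1))) (F (u i))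
      ≤ ∑ i ∈ Finset.range n, θ (Ioc (u i) (u (i+1))) :=
        Finset.sum_le_sum fun i _ => h _ _ (hus i).1 (hu (Nat.le_succ i)) (hus (i+1)).2
    _ = θ (⋃ i ∈ Finset.range n, Ioc (u i) (u (i+1))) := by
        refine (measure_biUnion_finset ?_ fun i _ => measurableSet_Ioc).symm
        exact (hu.pairwise_disjoint_on_Ioc_succ).set_pairwise _
    _ ≤ θ (Ioo a b) := by
        refine measure_mono (iUnion₂_subset fun i _ x hx => ?_)
        exact ⟨(hus i).1.trans hx.1, hx.2.trans_lt (hus (i+1)).2⟩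

/-- all but finitely many atoms carry little mass -/
theorem exists_finset_atoms (m : Measure ℝ) [IsFiniteMeasure m] {ε : ℝ≥0∞} (hε : 0 < ε) :
    ∃ P : Finset ℝ, m {x | x ∉ P ∧ m {x} ≠ 0} ≤ ε := by
  have hc : {x : ℝ | 0 < m {x}}.Countable :=
    Measure.countable_meas_pos_of_disjoint_iUnion (μ := m) (As := fun x : ℝ => ({x} : Set ℝ))
      (fun x => measurableSet_singleton x)
      (fun x y hxy => by simpa [Function.onFun] using hxy)
  rcases eq_empty_or_nonempty {x : ℝ | 0 < m {x}} with h0 | h0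
  · refine ⟨∅, ?_⟩
    have : {x : ℝ | x ∉ (∅ : Finset ℝ) ∧ m {x} ≠ 0} = ∅ := by
      rw [← h0]
      ext x
      simp [pos_iff_ne_zero]
    rw [this]
    simp
  obtain ⟨g, hg⟩ := hc.exists_eq_range h0
  let s : ℕ → Set ℝ := fun n => {x | x ∉ (Finset.range n).image g ∧ m {x} ≠ 0}
  have hs : Tendsto (fun n => m (s n)) atTop (𝓝 (m (⋂ n, s n))) := by
    refine tendsto_measure_iInter_atTop (fun n => ?_) ?_ ⟨0, measure_ne_top _ _⟩
    · have : (s n).Countable := hc.mono fun x hx => pos_iff_ne_zero.2 hx.2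
      exact this.measurableSet.nullMeasurableSet
    · intro i j hij x hx
      refine ⟨fun h => hx.1 ?_, hx.2⟩
      obtain ⟨k, hk, rfl⟩ := Finset.mem_image.1 h
      exact Finset.mem_image_of_mem _ (Finset.mem_range.2 ((Finset.mem_range.1 hk).trans_le hij))
  have h1 : (⋂ n, s n) = ∅ := by
    refine eq_empty_iff_forall_notMem.2 fun x hx => ?_
    rw [mem_iInter] at hx
    have h2 : x ∈ range g := by
      rw [← hg]
      exact pos_iff_ne_zero.2 (hx 0).2
    obtain ⟨k, rfl⟩ := h2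
    exact (hx (k+1)).1 (Finset.mem_image_of_mem _ (Finset.mem_range.2 (Nat.lt_succ_self k)))
  rw [h1, measure_empty] at hs
  obtain ⟨n, hn⟩ := (hs.eventually (ge_mem_nhds hε)).exists
  exact ⟨_, hn⟩

/-- a union of open intervals is almost covered by finitely many of them -/
theorem exists_finset_cover (m : Measure ℝ) [IsFiniteMeasure m] (I : Set (ℝ × ℝ)) {ε : ℝ≥0∞}
    (hε : 0 < ε) : ∃ P : Finset (ℝ × ℝ), (∀ p ∈ P, p ∈ I) ∧
      m ((⋃ p ∈ I, Ioo p.1 p.2) \ ⋃ p ∈ P, Ioo p.1 p.2) ≤ ε := by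
  have hU : IsOpen (⋃ p ∈ I, Ioo p.1 p.2) := isOpen_biUnion fun p _ => isOpen_Ioo
  obtain ⟨K, hKU, hK, hlt⟩ := hU.measurableSet.exists_isCompact_sdiff_lt
    (measure_ne_top m _) hε.ne'
  obtain ⟨t, ht⟩ := hK.elim_finite_subcover (fun p : I => Ioo p.1.1 p.1.2)
    (fun p => isOpen_Ioo) (by rwa [iUnion_coe_set])
  classical
  refine ⟨t.image Subtype.val, ?_, ?_⟩
  · intro p hp
    obtain ⟨q, _, rfl⟩ := Finset.mem_image.1 hp
    exact q.2
  · refine (measure_mono (sdiff_subset_sdiff_right ?_)).trans hlt.le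
    intro x hx
    have := ht hx
    simp only [mem_iUnion] at this ⊢
    obtain ⟨i, hi, hxi⟩ := this
    exact ⟨i.1, Finset.mem_image_of_mem _ hi, hxi⟩

/-- sorting a finite set of nodes -/
theorem exists_nodes (P : Finset ℝ) {T : ℝ} (hT : 0 < T) :
    ∃ (n : ℕ) (z : ℕ → ℝ), z 0 = -T ∧ z n = T ∧ (∀ i < n, z i < z (i + 1)) ∧
      Monotone z ∧ (∀ i, -T ≤ z i ∧ z i ≤ T) ∧
      ∀ i < n, ∀ x ∈ Ioo (z i) (z (i + 1)), x ∉ P := by
  classical
  let Q : Finset ℝ := insert (-T) (insert T (P.filter fun x => -T < x ∧ x < T))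
  have hQ1 : -T ∈ Q := Finset.mem_insert_self _ _
  have hQ2 : T ∈ Q := Finset.mem_insert_of_mem (Finset.mem_insert_self _ _)
  have hQ : ∀ x ∈ Q, -T ≤ x ∧ x ≤ T := by
    intro x hx
    simp only [Q, Finset.mem_insert, Finset.mem_filter] at hx
    rcases hx with rfl | rfl | ⟨_, h1, h2⟩
    · constructor <;> linarith
    · constructor <;> linarith
    · exact ⟨h1.le, h2.le⟩
  have hcard : 0 < Q.card := Finset.card_pos.2 ⟨_, hQ1⟩
  obtain ⟨n, hn⟩ : ∃ n, Q.card = n + 1 := ⟨Q.card - 1, by omega⟩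
  let e := Q.orderEmbOfFin hn
  let z : ℕ → ℝ := fun i => e ⟨min i n, by omega⟩
  have hz0 : z 0 = -T := by
    have h1 : z 0 ≤ -T := by
      obtain ⟨k, hk⟩ : -T ∈ range e := by
        rw [Finset.range_orderEmbOfFin]; exact hQ1
      rw [← hk]
      refine e.monotone ?_
      simp
    exact le_antisymm h1 (hQ _ (Finset.orderEmbOfFin_mem _ _ _)).1
  have hzn : z n = T := by
    have h1 : T ≤ z n := by
      obtain ⟨k, hk⟩ : T ∈ range e := by
        rw [Finset.range_orderEmbOfFin]; exact hQ2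
      rw [← hk]
      refine e.monotone ?_
      rw [Fin.le_def]
      have := k.2
      simp
      omega
    exact le_antisymm (hQ _ (Finset.orderEmbOfFin_mem _ _ _)).2 h1
  refine ⟨n, z, hz0, hzn, ?_, ?_, ?_, ?_⟩
  · intro i hi
    refine e.strictMono ?_
    rw [Fin.lt_def]
    simp
    omega
  · intro i j hij
    refine e.monotone ?_
    rw [Fin.le_def]
    simp
    omega
  · intro i
    exact hQ _ (Finset.orderEmbOfFin_mem _ _ _)
  · intro i hi x hx hxP
    have h1 : x ∈ Q := by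
      simp only [Q, Finset.mem_insert, Finset.mem_filter]
      refine Or.inr (Or.inr ⟨hxP, ?_, ?_⟩)
      · exact lt_of_le_of_lt (hQ _ (Finset.orderEmbOfFin_mem _ _ _)).1 hx.1
      · exact lt_of_lt_of_le hx.2 (hQ _ (Finset.orderEmbOfFin_mem _ _ _)).2
    obtain ⟨k, hk⟩ : x ∈ range e := by
      rw [Finset.range_orderEmbOfFin]; exact h1
    rw [← hk] at hx
    have h2 := e.lt_iff_lt.1 hx.1
    have h3 := e.lt_iff_lt.1 hx.2
    rw [Fin.lt_def] at h2 h3
    simp at h2 h3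
    omega

/-- density of the absolutely continuous part -/
noncomputable def dens (μ ν : Measure ℝ) (x : ℝ) : ℝ :=
  (μ.rnDeriv volume x).toReal - (ν.rnDeriv volume x).toReal

theorem integrable_dens (μ ν : Measure ℝ) [IsFiniteMeasure μ] [IsFiniteMeasure ν] :
    Integrable (dens μ ν) volume :=
  (Measure.integrable_toReal_rnDeriv).sub (Measure.integrable_toReal_rnDeriv)

theorem measurable_dens (μ ν : Measure ℝ) : Measurable (dens μ ν) :=
  (Measure.measurable_rnDeriv _ _).ennreal_toReal.sub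
    (Measure.measurable_rnDeriv _ _).ennreal_toReal

theorem toReal_eq_sing_add (μ : Measure ℝ) [IsFiniteMeasure μ] {S : Set ℝ}
    (hS : MeasurableSet S) : (μ S).toReal = (μ.singularPart volume S).toReal +
      ∫ x in S, (μ.rnDeriv volume x).toReal := by
  have h1 : μ S = μ.singularPart volume S + ∫⁻ x in S, μ.rnDeriv volume x := by
    conv_lhs => rw [← Measure.singularPart_add_rnDeriv μ volume]
    rw [Measure.add_apply, withDensity_apply _ hS]
  have h2 : ∫⁻ x in S, μ.rnDeriv volume x ≠ ⊤ := by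
    intro h
    rw [h] at h1
    exact measure_ne_top μ S (by rw [h1]; simp)
  rw [h1, ENNReal.toReal_add (measure_ne_top _ _) h2]
  congr 1
  rw [integral_toReal (Measure.measurable_rnDeriv _ _).aemeasurable]
  exact ae_lt_top' (Measure.measurable_rnDeriv _ _).aemeasurable h2

theorem edist_le_of_rep {f : ℝ → ℝ} {μ ν : Measure ℝ} [IsFiniteMeasure μ] [IsFiniteMeasure ν]
    (hf : ∀ x y, x ≤ y → f y - f x = (μ (Ioc x y)).toReal - (ν (Ioc x y)).toReal) (c : ℝ)
    {x y : ℝ} (hxy : x ≤ y) :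
    edist (f y - c * y) (f x - c * x) ≤
      (volume.withDensity (fun t => ‖dens μ ν t - c‖ₑ) + (μ.singularPart volume +
        ν.singularPart volume)) (Ioc x y) := by
  have hint : IntegrableOn (dens μ ν) (Ioc x y) := (integrable_dens μ ν).integrableOn
  have hint2 : IntegrableOn (fun _ : ℝ => c) (Ioc x y) := by simp
  have h1 : (f y - c * y) - (f x - c * x) = ((μ.singularPart volume (Ioc x y)).toReal -
      (ν.singularPart volume (Ioc x y)).toReal) + ∫ t in Ioc x y, (dens μ ν t - c) := by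
    have h2 := hf x y hxy
    rw [toReal_eq_sing_add μ measurableSet_Ioc, toReal_eq_sing_add ν measurableSet_Ioc] at h2
    rw [integral_sub hint hint2]
    have h3 : ∫ t in Ioc x y, dens μ ν t = (∫ t in Ioc x y, (μ.rnDeriv volume t).toReal) -
        ∫ t in Ioc x y, (ν.rnDeriv volume t).toReal :=
      integral_sub (Measure.integrable_toReal_rnDeriv).integrableOn
        (Measure.integrable_toReal_rnDeriv).integrableOn
    have h4 : ∫ t in Ioc x y, c = c * (y - x) := by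
      rw [setIntegral_const, Real.volume_real_Ioc_of_le hxy, smul_eq_mul]; ring
    rw [h3, h4]
    linarith
  rw [edist_eq_enorm_sub, h1]
  have h5 : ∀ m : Measure ℝ, IsFiniteMeasure m → ‖(m (Ioc x y)).toReal‖ₑ = m (Ioc x y) := by
    intro m hm
    rw [Real.enorm_eq_ofReal ENNReal.toReal_nonneg, ENNReal.ofReal_toReal (measure_ne_top _ _)]
  calc ‖((μ.singularPart volume (Ioc x y)).toReal -
      (ν.singularPart volume (Ioc x y)).toReal) + ∫ t in Ioc x y, (dens μ ν t - c)‖ₑ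
      ≤ ‖((μ.singularPart volume (Ioc x y)).toReal -
      (ν.singularPart volume (Ioc x y)).toReal)‖ₑ + ‖∫ t in Ioc x y, (dens μ ν t - c)‖ₑ :=
        enorm_add_le _ _
    _ ≤ (‖(μ.singularPart volume (Ioc x y)).toReal‖ₑ +
      ‖(ν.singularPart volume (Ioc x y)).toReal‖ₑ) + ∫⁻ t in Ioc x y, ‖dens μ ν t - c‖ₑ :=
        add_le_add (enorm_sub_le) (enorm_integral_le_lintegral_enorm _)
    _ = _ := by
        rw [h5 _ inferInstance, h5 _ inferInstance, Measure.add_apply, Measure.add_apply,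
          withDensity_apply _ measurableSet_Ioc]
        ring

/-- the family of intervals on which the maximal function is larger than the function -/
def MInt (f : ℝ → ℝ) : Set (ℝ × ℝ) :=
  {p | ∃ κ τ : ℝ, 0 < τ ∧ ∀ x ∈ Ioo p.1 p.2, f x ≤ κ ∧ κ + τ ≤ Mx (Ioi 0) f x}

theorem exists_MInt {f : ℝ → ℝ} {B : ℝ} (hB : BM f B) {x : ℝ} (hc : ContinuousAt f x)
    (hx : f x < Mx (Ioi 0) f x) : ∃ p ∈ MInt f, x ∈ Ioo p.1 p.2 := by
  set m := Mx (Ioi 0) f x with hm
  have h1 : ∀ᶠ y in 𝓝 x, f y < (2 * f x + m) / 3 :=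
    hc.eventually (gt_mem_nhds (by linarith))
  have h2 : ∀ᶠ y in 𝓝 x, (2 * f x + m) / 3 + (m - f x) / 3 < Mx (Ioi 0) f y :=
    lowerSemicontinuous_Mx hB Subset.rfl ⟨1, mem_Ioi.2 one_pos⟩ x _
      (by change _ < Mx (Ioi 0) f x; rw [← hm]; linarith)
  obtain ⟨l, u, hlu, hsub⟩ := mem_nhds_iff_exists_Ioo_subset.1 (h1.and h2)
  exact ⟨(l, u), ⟨(2 * f x + m) / 3, (m - f x) / 3, by linarith,
    fun y hy => ⟨(hsub hy).1.le, (hsub hy).2.le⟩⟩, hlu⟩

theorem exists_null (μ ν : Measure ℝ) [IsFiniteMeasure μ] [IsFiniteMeasure ν] :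
    ∃ Z : Set ℝ, volume Z = 0 ∧ (μ.singularPart volume + ν.singularPart volume) Zᶜ = 0 := by
  obtain ⟨s, hs, h1, h2⟩ := Measure.mutuallySingular_singularPart μ volume
  obtain ⟨t, ht, h3, h4⟩ := Measure.mutuallySingular_singularPart ν volume
  refine ⟨sᶜ ∪ tᶜ, measure_union_null h2 h4, ?_⟩
  rw [compl_union, compl_compl, compl_compl, Measure.add_apply]
  rw [measure_mono_null inter_subset_left h1, measure_mono_null inter_subset_right h3, add_zero]

theorem sing_le (hTA : TheoremAStmt) {f : ℝ → ℝ} {B : ℝ} (hB : BM f B) (hrc : ∀ x, ContinuousWithinAt f (Ici x) x)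
    {μ ν : Measure ℝ} [IsFiniteMeasure μ] [IsFiniteMeasure ν] (hms : μ ⟂ₘ ν)
    (hf : ∀ x y, x ≤ y → f y - f x = (μ (Ioc x y)).toReal - (ν (Ioc x y)).toReal)
    (hcont : ∀ x, μ {x} = 0 → ν {x} = 0 → ContinuousAt f x) (PA : Finset ℝ)
    (PI : Finset (ℝ × ℝ)) (J : Set ℝ) (h1 : ∀ x ∈ J, x ∉ PA)
    (h2 : ∀ p ∈ PI, ∀ x ∈ J, x ∉ Ioo p.1 p.2) :
    (μ.singularPart volume + ν.singularPart volume) J ≤
      (μ + ν) (J ∩ {x | x ∉ PA ∧ (μ + ν) {x} ≠ 0}) +
      (μ + ν) (J ∩ ((⋃ p ∈ MInt f, Ioo p.1 p.2) \ ⋃ p ∈ PI, Ioo p.1 p.2)) := by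
  obtain ⟨Z, hZ, hZ2⟩ := exists_null μ ν
  have hA := hTA f B hB hrc μ ν hms hf Z hZ
  have hle : μ.singularPart volume + ν.singularPart volume ≤ μ + ν :=
    add_le_add (Measure.singularPart_le _ _) (Measure.singularPart_le _ _)
  have hsub : J ⊆ (J ∩ Z) ∪ Zᶜ := by
    intro x hx
    by_cases hxZ : x ∈ Z
    · exact Or.inl ⟨hx, hxZ⟩
    · exact Or.inr hxZ
  have hsub2 : J ∩ Z ⊆ ((J ∩ {x | x ∉ PA ∧ (μ + ν) {x} ≠ 0}) ∪
      (J ∩ ((⋃ p ∈ MInt f, Ioo p.1 p.2) \ ⋃ p ∈ PI, Ioo p.1 p.2))) ∪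
      {x ∈ Z | μ {x} = 0 ∧ ν {x} = 0 ∧ Mx (Ioi 0) f x ≤ f x} := by
    rintro x ⟨hxJ, hxZ⟩
    by_cases h3 : (μ + ν) {x} = 0
    · have h4 : μ {x} = 0 ∧ ν {x} = 0 := by
        rw [Measure.add_apply] at h3
        simpa using h3
      by_cases h5 : Mx (Ioi 0) f x ≤ f x
      · exact Or.inr ⟨hxZ, h4.1, h4.2, h5⟩
      · push Not at h5
        obtain ⟨p, hp, hxp⟩ := exists_MInt hB (hcont x h4.1 h4.2) h5
        refine Or.inl (Or.inr ⟨hxJ, mem_biUnion hp hxp, fun h6 => ?_⟩)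
        simp only [mem_iUnion] at h6
        obtain ⟨q, hq, hxq⟩ := h6
        exact h2 q hq x hxJ hxq
    · exact Or.inl (Or.inl ⟨hxJ, h1 x hxJ, h3⟩)
  calc (μ.singularPart volume + ν.singularPart volume) J
      ≤ (μ.singularPart volume + ν.singularPart volume) (J ∩ Z) +
        (μ.singularPart volume + ν.singularPart volume) Zᶜ :=
        (measure_mono hsub).trans (measure_union_le _ _)
    _ = (μ.singularPart volume + ν.singularPart volume) (J ∩ Z) := by rw [hZ2, add_zero]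
    _ ≤ (μ + ν) (J ∩ Z) := hle _
    _ ≤ _ := by
        refine (measure_mono hsub2).trans ((measure_union_le _ _).trans ?_)
        rw [hA, add_zero]
        exact measure_union_le _ _

theorem structure_partition_of (hTA : TheoremAStmt) (f : ℝ → ℝ) (hf : BoundedVariationOn f univ)
    (hrc : ∀ x, ContinuousWithinAt f (Ici x) x) (ε T : ℝ) (hε : 0 < ε) (hT : 0 < T) :
    ∃ (n : ℕ) (z : ℕ → ℝ) (e : ℕ → ℝ), z 0 = -T ∧ z n = T ∧ (∀ i < n, z i < z (i + 1)) ∧
      (∀ i, 0 ≤ e i) ∧ ∑ i ∈ Finset.range n, e i ≤ ε ∧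
      ∀ i < n, (∃ c : ℝ, eVariationOn (fun x => f x - c * x) (Ioo (z i) (z (i + 1))) ≤
          ENNReal.ofReal (e i)) ∨
        (∃ κ τ : ℝ, 0 < τ ∧ ∀ x ∈ Ioo (z i) (z (i + 1)), f x ≤ κ ∧ κ + τ ≤ Mx (Ioi 0) f x) := by
  classical
  obtain ⟨B, hB⟩ := exists_BM hf
  obtain ⟨μ, ν, hμ, hν, hms, hrep, hcont⟩ := exists_jordan hf hrc
  have hε4 : (0 : ℝ≥0∞) < ENNReal.ofReal (ε / 4) := ENNReal.ofReal_pos.2 (by positivity)
  obtain ⟨PA, hPA⟩ := exists_finset_atoms (μ + ν) hε4
  obtain ⟨PI, hPI, hPI2⟩ := exists_finset_cover (μ + ν) (MInt f) hε4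
  obtain ⟨g, hgc, hg, hgcont, hgint⟩ :=
    (integrable_dens μ ν).exists_hasCompactSupport_lintegral_sub_le hε4.ne'
  set η := ε / (8 * T) with hη
  have hη0 : 0 < η := by positivity
  obtain ⟨δ, hδ, hunif⟩ : ∃ δ > 0, ∀ x y, |x - y| < δ → |g x - g y| < η := by
    have := Metric.uniformContinuous_iff.1 (hgc.uniformContinuous_of_continuous hgcont) η hη0
    obtain ⟨δ, hδ, h⟩ := this
    exact ⟨δ, hδ, fun x y hxy => h hxy⟩
  obtain ⟨K, hK⟩ := exists_nat_gt (2 * T / (δ / 2))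
  let grid : Finset ℝ := (Finset.range (K+1)).image fun k : ℕ => -T + k * (δ / 2)
  obtain ⟨n, z, hz0, hzn, hzlt, hzmono, hzT, hzP⟩ := exists_nodes
    (PA ∪ (grid ∪ (PI.image Prod.fst ∪ PI.image Prod.snd))) hT
  have hzP' : ∀ i < n, ∀ x ∈ Ioo (z i) (z (i + 1)), x ∉ PA ∧ x ∉ grid ∧
      (∀ p ∈ PI, x ≠ p.1) ∧ (∀ p ∈ PI, x ≠ p.2) := by
    intro i hi x hx
    have h := hzP i hi x hx
    simp only [Finset.mem_union, Finset.mem_image, not_or] at h
    refine ⟨h.1, h.2.1, fun p hp hxp => h.2.2.1 ⟨p, hp, hxp.symm⟩,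
      fun p hp hxp => h.2.2.2 ⟨p, hp, hxp.symm⟩⟩
  have hmesh : ∀ i < n, z (i + 1) - z i < δ := by
    intro i hi
    by_contra hcon
    push Not at hcon
    have hd : 0 < δ / 2 := by positivity
    have h0 := (hzT i).1
    set k : ℕ := ⌊(z i + T) / (δ / 2)⌋₊ + 1 with hk
    have h1 : (z i + T) / (δ / 2) < k := by
      rw [hk]; push_cast; exact Nat.lt_floor_add_one _
    have h2 : (k : ℝ) ≤ (z i + T) / (δ / 2) + 1 := by
      rw [hk]; push_cast
      have := Nat.floor_le (a := (z i + T) / (δ / 2)) (div_nonneg (by linarith) hd.le)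
      linarith
    rw [div_lt_iff₀ hd] at h1
    have h3 : (k : ℝ) * (δ / 2) ≤ (z i + T) + δ / 2 := by
      have := mul_le_mul_of_nonneg_right h2 hd.le
      rw [add_mul, div_mul_cancel₀ _ hd.ne', one_mul] at this
      exact this
    have h4 : k < K := by
      have h5 : (k : ℝ) * (δ / 2) < 2 * T := by
        have := (hzT (i+1)).2
        linarith
      have h6 : (k : ℝ) < 2 * T / (δ / 2) := by
        rw [lt_div_iff₀ hd]; exact h5
      exact_mod_cast h6.trans hK
    have h7 : -T + k * (δ / 2) ∈ grid :=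
      Finset.mem_image.2 ⟨k, Finset.mem_range.2 (by omega), rfl⟩
    exact (hzP' i hi (-T + k * (δ / 2)) ⟨by linarith, by linarith⟩).2.1 h7
  set ρ : Measure ℝ := volume.withDensity (fun t => ‖dens μ ν t - g t‖ₑ) +
    ((μ + ν).restrict {x | x ∉ PA ∧ (μ + ν) {x} ≠ 0} +
    (μ + ν).restrict ((⋃ p ∈ MInt f, Ioo p.1 p.2) \ ⋃ p ∈ PI, Ioo p.1 p.2)) with hρ
  have hρ1 : ρ univ ≤ ENNReal.ofReal (3 * ε / 4) := by
    rw [hρ, Measure.add_apply, Measure.add_apply, Measure.restrict_apply_univ,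
      Measure.restrict_apply_univ, withDensity_apply _ MeasurableSet.univ, setLIntegral_univ]
    calc _ ≤ ENNReal.ofReal (ε / 4) + (ENNReal.ofReal (ε / 4) + ENNReal.ofReal (ε / 4)) :=
          add_le_add hg (add_le_add hPA hPI2)
      _ = ENNReal.ofReal (3 * ε / 4) := by
          rw [← ENNReal.ofReal_add (by positivity) (by positivity),
            ← ENNReal.ofReal_add (by positivity) (by positivity)]
          congr 1; ring
  have hρfin : ∀ S, ρ S ≠ ⊤ := fun S =>
    ((measure_mono (subset_univ S)).trans_lt (hρ1.trans_lt ENNReal.ofReal_lt_top)).ne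
  refine ⟨n, z, fun i => (ρ (Ioo (z i) (z (i + 1)))).toReal + η * (z (i + 1) - z i), hz0, hzn,
    hzlt, ?_, ?_, ?_⟩
  · intro i
    have := hzmono (Nat.le_succ i)
    exact add_nonneg ENNReal.toReal_nonneg (mul_nonneg hη0.le (by simpa using this))
  · rw [Finset.sum_add_distrib, ← Finset.mul_sum, Finset.sum_range_sub, hz0, hzn,
      ← ENNReal.toReal_sum fun i _ => hρfin _]
    have h1 : ∑ i ∈ Finset.range n, ρ (Ioo (z i) (z (i + 1))) ≤ ENNReal.ofReal (3 * ε / 4) := by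
      rw [← measure_biUnion_finset]
      · exact (measure_mono (subset_univ _)).trans hρ1
      · exact (hzmono.pairwise_disjoint_on_Ioo_succ).set_pairwise _
      · exact fun i _ => measurableSet_Ioo
    have h2 := ENNReal.toReal_mono ENNReal.ofReal_ne_top h1
    rw [ENNReal.toReal_ofReal (by positivity)] at h2
    have h3 : η * (T - -T) = ε / 4 := by
      rw [hη]; field_simp; ring
    rw [h3]
    linarith
  · intro i hi
    by_cases hM : ∃ p ∈ PI, Ioo (z i) (z (i + 1)) ⊆ Ioo p.1 p.2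
    · obtain ⟨p, hp, hsub⟩ := hM
      obtain ⟨κ, τ, hτ, h⟩ := hPI p hp
      exact Or.inr ⟨κ, τ, hτ, fun x hx => h x (hsub hx)⟩
    push Not at hM
    refine Or.inl ⟨g (z i), ?_⟩
    have hdisj : ∀ p ∈ PI, ∀ x ∈ Ioo (z i) (z (i + 1)), x ∉ Ioo p.1 p.2 := by
      intro p hp x hx hxp
      refine hM p hp (Ioo_subset_Ioo ?_ ?_)
      · by_contra hcon
        push Not at hcon
        exact (hzP' i hi p.1 ⟨hcon, hxp.1.trans hx.2⟩).2.2.1 p hp rfl
      · by_contra hcon
        push Not at hcon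
        exact (hzP' i hi p.2 ⟨hx.1.trans hxp.2, hcon⟩).2.2.2 p hp rfl
    refine (eVariationOn_le_measure (fun x y _ hxy _ => edist_le_of_rep hrep (g (z i)) hxy)).trans ?_
    have hs := sing_le hTA hB hrc hms hrep hcont PA PI (Ioo (z i) (z (i + 1)))
      (fun x hx => (hzP' i hi x hx).1) hdisj
    have hd : (volume.withDensity (fun t => ‖dens μ ν t - g (z i)‖ₑ)) (Ioo (z i) (z (i + 1))) ≤
        (volume.withDensity (fun t => ‖dens μ ν t - g t‖ₑ)) (Ioo (z i) (z (i + 1))) +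
          ENNReal.ofReal (η * (z (i + 1) - z i)) := by
      rw [withDensity_apply _ measurableSet_Ioo, withDensity_apply _ measurableSet_Ioo]
      have h1 : ∫⁻ t in Ioo (z i) (z (i + 1)), ENNReal.ofReal η =
          ENNReal.ofReal (η * (z (i + 1) - z i)) := by
        rw [setLIntegral_const, Real.volume_Ioo, ENNReal.ofReal_mul hη0.le]
      rw [← h1, ← lintegral_add_left]
      · refine setLIntegral_mono_ae ?_ ?_
        · exact ((((measurable_dens μ ν).sub hgcont.measurable).enorm).add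
            measurable_const).aemeasurable
        · refine Eventually.of_forall fun t ht => ?_
          have h2 : dens μ ν t - g (z i) = (dens μ ν t - g t) + (g t - g (z i)) := by ring
          rw [h2]
          refine (enorm_add_le _ _).trans (add_le_add le_rfl ?_)
          rw [Real.enorm_eq_ofReal_abs]
          refine ENNReal.ofReal_le_ofReal (hunif t (z i) ?_).le
          rw [abs_of_pos (by linarith [ht.1])]
          have := hmesh i hi
          linarith [ht.2]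
      · exact ((measurable_dens μ ν).sub hgcont.measurable).enorm
    rw [ENNReal.ofReal_add ENNReal.toReal_nonneg
      (mul_nonneg hη0.le (by linarith [hzlt i hi])), ENNReal.ofReal_toReal (hρfin _)]
    have hρI : ρ (Ioo (z i) (z (i + 1))) =
        (volume.withDensity (fun t => ‖dens μ ν t - g t‖ₑ)) (Ioo (z i) (z (i + 1))) +
        ((μ + ν) (Ioo (z i) (z (i + 1)) ∩ {x | x ∉ PA ∧ (μ + ν) {x} ≠ 0}) +
        (μ + ν) (Ioo (z i) (z (i + 1)) ∩
          ((⋃ p ∈ MInt f, Ioo p.1 p.2) \ ⋃ p ∈ PI, Ioo p.1 p.2))) := by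
      rw [hρ, Measure.add_apply, Measure.add_apply, Measure.restrict_apply measurableSet_Ioo,
        Measure.restrict_apply measurableSet_Ioo]
    rw [hρI, Measure.add_apply]
    refine (add_le_add hd hs).trans (le_of_eq ?_)
    ring

end Pool.Agent.Lib.MP_653dc2_an
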