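import Pool.Agent.Lib.MP_653dc2_an.Tails
import Pool.Agent.Lib.MP_653dc2_an.Mid
import Pool.Agent.Lib.MP_653dc2_an.Cantor
import Pool.Agent.Lib.MP_653dc2_an.Selection
import Pool.Agent.Lib.MP_653dc2_an.StructureAux

set_option autoImplicit false
open Set MeasureTheory Filter Topology
open scoped ENNReal

namespace Pool.Agent.Lib.MP_653dc2_an

variable {f g : ℝ → ℝ} {B : ℝ} {J K R S : Set ℝ}

theorem partition (f : ℝ → ℝ) (hf : BoundedVariationOn f univ)
    (hrc : ∀ x, ContinuousWithinAt f (Ici x) x) (ε T : ℝ) (hε : 0 < ε) (hT : 0 < T) :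
    ∃ (n : ℕ) (z : ℕ → ℝ) (e : ℕ → ℝ), z 0 = -T ∧ z n = T ∧ (∀ i < n, z i < z (i + 1)) ∧
      (∀ i, 0 ≤ e i) ∧ ∑ i ∈ Finset.range n, e i ≤ ε ∧
      ∀ i < n, (∃ c : ℝ, eVariationOn (fun x => f x - c * x) (Ioo (z i) (z (i + 1))) ≤
          ENNReal.ofReal (e i)) ∨
        (∃ κ τ : ℝ, 0 < τ ∧ ∀ x ∈ Ioo (z i) (z (i + 1)), f x ≤ κ ∧ κ + τ ≤ Mx (Ioi 0) f x) :=
  structure_partition_of (fun f B hB _ μ ν _ _ hms hrep Z hZ =>
    theoremA_of (fun c₀ hc₀ => no_cantor c₀ hc₀) f B hB μ ν hms hrep Z hZ) f hf hrc ε T hε hT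

theorem hne1 : (Ioi (0:ℝ)).Nonempty := ⟨1, mem_Ioi.2 one_pos⟩

/-- the difference of two maximal functions over radii at least `δ` has small variation -/
theorem big_radii {fj : ℕ → ℝ → ℝ} {η : ℕ → ℝ} (h : SeqCtx f fj B η)
    (hcount : {x | ¬ ContinuousAt f x}.Countable) {δ a b ε : ℝ} (hδ : 0 < δ) (hab : a ≤ b)
    (hε : 0 < ε) :
    ∀ᶠ j in atTop, eVariationOn (fun x => Mx (Ici δ) (fj j) x - Mx (Ici δ) f x) (Icc a b) ≤
      ENNReal.ofReal ε := by
  have hB := h.bm.nonneg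
  set ε₁ := ε / 7 with hε₁
  have hε₁0 : 0 < ε₁ := by positivity
  -- the cut-off radius
  set L := max (δ + 1) (B * (b - a) / ε₁) with hL
  have hL1 : δ + 1 ≤ L := le_max_left _ _
  have hL2 : B * (b - a) / ε₁ ≤ L := le_max_right _ _
  have hL0 : 0 < L := by linarith
  have hlip : B / L * (b - a) ≤ ε₁ := by
    rw [div_mul_eq_mul_div, div_le_iff₀ hL0]
    rw [div_le_iff₀ hε₁0] at hL2
    linarith
  have hs1 : Icc δ L ⊆ Ioi (0:ℝ) := fun r hr => lt_of_lt_of_le hδ hr.1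
  have hs2 : Ici L ⊆ Ioi (0:ℝ) := fun r hr => lt_of_lt_of_le hL0 hr
  have hn1 : (Icc δ L).Nonempty := ⟨δ, le_rfl, by linarith⟩
  have hn2 : (Ici L).Nonempty := ⟨L, self_mem_Ici⟩
  have hun : Icc δ L ∪ Ici L = Ici δ := Icc_union_Ici_eq_Ici (by linarith)
  have hmax : ∀ g : ℝ → ℝ, BM g B → ∀ x, Mx (Ici δ) g x = max (Mx (Icc δ L) g x) (Mx (Ici L) g x) := by
    intro g hg x
    rw [← hun]
    exact Mx_union hg hs1 hs2 hn1 hn2
  have hvbv : BoundedVariationOn (Mx (Icc δ L) f) (Icc a b) :=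
    ne_top_of_le_ne_top ENNReal.ofReal_ne_top
      (var_lip h.bm hδ (fun r hr => hr.1) hn1 hab (subset_refl _))
  have hwbv : BoundedVariationOn (Mx (Ici L) f) (Icc a b) :=
    ne_top_of_le_ne_top ENNReal.ofReal_ne_top
      (var_lip h.bm hL0 (subset_refl _) hn2 hab (subset_refl _))
  obtain ⟨η₀, hη₀, hcont⟩ := max_cont _ _ (Icc a b) hvbv hwbv ε₁ hε₁0
  have hmid := mid_range_tendsto f fj B h.bm h.bmj hcount η h.eta h.sup δ L a b hδ
    (by linarith) hab
  have hpos : (0 : ℝ≥0∞) < ENNReal.ofReal ε₁ := ENNReal.ofReal_pos.2 hε₁0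
  filter_upwards [(tendsto_order.1 hmid).2 _ hpos, (tendsto_order.1 h.eta).2 _ hη₀] with j hj1 hj2
  have h1 := hcont (Mx (Icc δ L) (fj j)) (Mx (Ici L) (fj j))
    (fun x _ => (abs_Mx_sub_le (h.bmj j) h.bm hs1 hn1 (h.sup j)).trans hj2.le)
    (fun x _ => (abs_Mx_sub_le (h.bmj j) h.bm hs2 hn2 (h.sup j)).trans hj2.le)
  have h2 : eVariationOn (fun x => Mx (Ici L) (fj j) x - Mx (Ici L) f x) (Icc a b) ≤
      ENNReal.ofReal (2 * ε₁) := by
    refine (var_sub_le _ _ _).trans ((add_le_add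
      (var_lip (h.bmj j) hL0 (subset_refl _) hn2 hab (subset_refl _))
      (var_lip h.bm hL0 (subset_refl _) hn2 hab (subset_refl _))).trans ?_)
    rw [← ENNReal.ofReal_add (mul_nonneg (div_nonneg hB hL0.le) (by linarith))
      (mul_nonneg (div_nonneg hB hL0.le) (by linarith))]
    exact ENNReal.ofReal_le_ofReal (by linarith)
  have h3 : (fun x => Mx (Ici δ) (fj j) x - Mx (Ici δ) f x) = fun x =>
      max (Mx (Icc δ L) (fj j) x) (Mx (Ici L) (fj j) x) -
        max (Mx (Icc δ L) f x) (Mx (Ici L) f x) := by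
    ext x
    rw [hmax _ (h.bmj j), hmax _ h.bm]
  rw [h3]
  refine h1.trans ?_
  calc 2 * (eVariationOn (fun x => Mx (Icc δ L) (fj j) x - Mx (Icc δ L) f x) (Icc a b) +
        eVariationOn (fun x => Mx (Ici L) (fj j) x - Mx (Ici L) f x) (Icc a b)) + ENNReal.ofReal ε₁
      ≤ 2 * (ENNReal.ofReal ε₁ + ENNReal.ofReal (2 * ε₁)) + ENNReal.ofReal ε₁ := by
        gcongr
    _ = ENNReal.ofReal ε := by
        rw [← ENNReal.ofReal_add hε₁0.le (by positivity), ← ENNReal.ofReal_ofNat 2,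
          ← ENNReal.ofReal_mul (by norm_num), ← ENNReal.ofReal_add (by positivity) hε₁0.le]
        congr 1
        rw [hε₁]; ring

/-- adding a function reproduced by the averages -/
theorem Mx_add_on {h : ℝ → ℝ} {C : ℝ} (hg : BM g B) (hh : BM h C) (hR : R ⊆ Ioi 0)
    (hne : R.Nonempty) {x k : ℝ} (hk : ∀ r ∈ R, avg g x r = k + avg h x r) :
    Mx R g x = k + Mx R h x := by
  refine le_antisymm (Mx_le hne fun r hr => ?_) ?_
  · rw [hk r hr]
    linarith [le_Mx (x := x) hh hR hr]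
  · have : Mx R h x ≤ Mx R g x - k := Mx_le hne fun r hr => by
      have h1 := le_Mx (x := x) hg hR hr
      rw [hk r hr] at h1
      linarith
    linarith

/-- small radii, when `f` is close to a linear function -/
theorem small_linear : ∃ C : ℝ, 0 ≤ C ∧ ∀ (f g : ℝ → ℝ) (B : ℝ), BM f B → BM g B →
    ∀ (z z' a b c δ e e' : ℝ), 0 < δ → z ≤ a - δ → b + δ ≤ z' → a ≤ b → 0 ≤ e → 0 ≤ e' →
      eVariationOn (fun x => f x - c * x) (Ioo z z') ≤ ENNReal.ofReal e →
      eVariationOn (fun x => g x - f x) univ ≤ ENNReal.ofReal e' →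
      eVariationOn (fun x => Mx (Ioo 0 δ) g x - Mx (Ioo 0 δ) f x) (Icc a b) ≤
        ENNReal.ofReal (C * (e + e')) := by
  obtain ⟨C, hC, hsmall⟩ := small_radii_var
  refine ⟨2 * C, by positivity, ?_⟩
  intro f g B hf hg z z' a b c δ e e' hδ hza hbz hab he he' hvar hgf
  set φ : ℝ → ℝ := fun x => c * max z (min z' x) with hφ
  have hφm : Measurable φ := (measurable_const.max (measurable_const.min measurable_id)).const_mul c
  have hφB : BM φ (|c| * (|z| + |z'|)) := by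
    refine ⟨hφm, fun x => ?_⟩
    simp only [hφ, abs_mul]
    refine mul_le_mul_of_nonneg_left ?_ (abs_nonneg _)
    have h1 := neg_abs_le z
    have h2 := le_abs_self z
    have h3 := neg_abs_le z'
    have h4 := le_abs_self z'
    rw [abs_le]
    constructor
    · exact le_trans (by linarith) (le_max_left _ _)
    · refine max_le (by linarith [abs_nonneg z']) ((min_le_left _ _).trans (by linarith [abs_nonneg z]))
  have hφeq : ∀ x ∈ Ioo z z', φ x = c * x := by
    intro x hx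
    simp only [hφ]
    rw [min_eq_right hx.2.le, max_eq_right hx.1.le]
  have hne : (Ioo (0:ℝ) δ).Nonempty := ⟨δ / 2, by constructor <;> linarith⟩
  have hsub : Ioo (0:ℝ) δ ⊆ Ioi 0 := fun r hr => hr.1
  have hthick : thick (Icc a b) δ ⊆ Ioo z z' := by
    rintro y ⟨x, hx, hy⟩
    rw [abs_lt] at hy
    constructor <;> linarith [hx.1, hx.2]
  -- variation of f - φ and g - φ
  have hv1 : eVariationOn (fun x => f x - φ x) (thick (Icc a b) δ) ≤ ENNReal.ofReal e := by
    refine le_trans (le_of_eq (eVariationOn.congr fun x hx => ?_))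
      ((eVariationOn.mono _ hthick).trans hvar)
    rw [hφeq x (hthick hx)]
  have hv2 : eVariationOn (fun x => g x - φ x) (thick (Icc a b) δ) ≤ ENNReal.ofReal (e + e') := by
    rw [ENNReal.ofReal_add he he']
    refine le_trans (var_le_add (u := fun x => f x - φ x) (v := fun x => g x - f x)
      fun x _ y _ => ?_) (add_le_add hv1 ((eVariationOn.mono _ (subset_univ _)).trans hgf))
    rw [show g x - φ x - (g y - φ y) = (f x - φ x - (f y - φ y)) + (g x - f x - (g y - f y)) by ring]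
    exact abs_add_le _ _
  have hw1 := hsmall _ _ (hf.sub hφB) δ hδ (Icc a b) ordConnected_Icc e he hv1
  have hw2 := hsmall _ _ (hg.sub hφB) δ hδ (Icc a b) ordConnected_Icc (e + e') (by linarith) hv2
  have hrep : ∀ k : ℝ → ℝ, BM k B → ∀ x ∈ Icc a b,
      Mx (Ioo 0 δ) k x = c * x + Mx (Ioo 0 δ) (fun y => k y - φ y) x := by
    intro k hk x hx
    refine Mx_add_on hk (hk.sub hφB) hsub hne fun r hr => ?_
    have h1 : avg φ x r = c * x := by
      have h2 : avg φ x r = avg (fun t => c * t + 0) x r := by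
        refine avg_congr_on (fun t ht => ?_) hr.1.le
        rw [add_zero]
        exact hφeq t ⟨by linarith [ht.1, hx.1, hr.2], by linarith [ht.2, hx.2, hr.2]⟩
      rw [h2, avg_linear c 0 x hr.1, add_zero]
    have h3 := avg_sub hk hφB x r
    linarith
  have heq : EqOn (fun x => Mx (Ioo 0 δ) g x - Mx (Ioo 0 δ) f x)
      (fun x => Mx (Ioo 0 δ) (fun y => g y - φ y) x - Mx (Ioo 0 δ) (fun y => f y - φ y) x)
      (Icc a b) := by
    intro x hx
    simp only
    rw [hrep g hg x hx, hrep f hf x hx]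
    ring
  rw [eVariationOn.congr heq]
  refine (var_sub_le _ _ _).trans ((add_le_add hw2 hw1).trans ?_)
  rw [← ENNReal.ofReal_add (by positivity) (by positivity)]
  refine ENNReal.ofReal_le_ofReal ?_
  nlinarith [mul_nonneg hC he']

/-- both ends of an interval -/
theorem ends {fj : ℕ → ℝ → ℝ} {η : ℕ → ℝ} (h : SeqCtx f fj B η)
    (hrc : ∀ x, ContinuousWithinAt f (Ici x) x) {z z' ε : ℝ} (hz : z < z') (hε : 0 < ε) :
    ∃ ρ > 0, z + ρ ≤ z' - ρ ∧ ∀ᶠ j in atTop,
      eVariationOn (fun x => Mx (Ioi 0) (fj j) x - Mx (Ioi 0) f x) (Ioc z (z + ρ)) ≤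
        ENNReal.ofReal ε ∧
      eVariationOn (fun x => Mx (Ioi 0) (fj j) x - Mx (Ioi 0) f x) (Ico (z' - ρ) z') ≤
        ENNReal.ofReal ε := by
  have h0 : SeqCtx f (fun _ => f) B (fun _ => 0) := by
    refine ⟨h.bm, fun _ => h.bm, h.bv, ?_, tendsto_const_nhds, fun j x => by simp⟩
    have : (fun _ : ℕ => eVariationOn (fun x => f x - f x) univ) = fun _ => 0 := by
      ext j
      simp only [sub_self]
      exact var_const 0 univ
    rw [this]
    exact tendsto_const_nhds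
  have hε2 : 0 < ε / 2 := by linarith
  obtain ⟨ρ₁, hρ₁, h1⟩ := node h hrc z (ε / 2) hε2
  obtain ⟨ρ₂, hρ₂, h2⟩ := node h hrc z' (ε / 2) hε2
  obtain ⟨ρ₃, hρ₃, h3⟩ := node h0 hrc z (ε / 2) hε2
  obtain ⟨ρ₄, hρ₄, h4⟩ := node h0 hrc z' (ε / 2) hε2
  obtain ⟨-, h3'⟩ := (h3.and (eventually_ge_atTop 0)).exists.imp fun _ h => h.1
  obtain ⟨-, h4'⟩ := (h4.and (eventually_ge_atTop 0)).exists.imp fun _ h => h.1
  set ρ := min (min ρ₁ ρ₂) (min (min ρ₃ ρ₄) ((z' - z) / 2)) with hρ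
  have a1 : ρ ≤ ρ₁ := (min_le_left _ _).trans (min_le_left _ _)
  have a2 : ρ ≤ ρ₂ := (min_le_left _ _).trans (min_le_right _ _)
  have a3 : ρ ≤ ρ₃ := (min_le_right _ _).trans ((min_le_left _ _).trans (min_le_left _ _))
  have a4 : ρ ≤ ρ₄ := (min_le_right _ _).trans ((min_le_left _ _).trans (min_le_right _ _))
  have a5 : ρ ≤ (z' - z) / 2 := (min_le_right _ _).trans (min_le_right _ _)
  refine ⟨ρ, lt_min (lt_min hρ₁ hρ₂) (lt_min (lt_min hρ₃ hρ₄) (by linarith)), by linarith, ?_⟩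
  filter_upwards [h1, h2] with j hj1 hj2
  have hadd : ENNReal.ofReal (ε / 2) + ENNReal.ofReal (ε / 2) = ENNReal.ofReal ε := by
    rw [← ENNReal.ofReal_add (by linarith) (by linarith)]; congr 1; ring
  constructor
  · refine (var_sub_le _ _ _).trans (le_trans (add_le_add ?_ ?_) hadd.le)
    · exact (eVariationOn.mono _ (Ioc_subset_Ioc_right (by linarith))).trans hj1.1
    · exact (eVariationOn.mono _ (Ioc_subset_Ioc_right (by linarith))).trans h3.exists.choose_spec.1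
  · refine (var_sub_le _ _ _).trans (le_trans (add_le_add ?_ ?_) hadd.le)
    · exact (eVariationOn.mono _ (Ico_subset_Ico_left (by linarith))).trans hj2.2
    · exact (eVariationOn.mono _ (Ico_subset_Ico_left (by linarith))).trans h4.exists.choose_spec.2

theorem var_Ioo_split (D : ℝ → ℝ) {z a b z' : ℝ} (h1 : z < a) (h2 : a ≤ b) (h3 : b < z') :
    eVariationOn D (Ioo z z') = eVariationOn D (Ioc z a) + eVariationOn D (Icc a b) +
      eVariationOn D (Ico b z') := by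
  have e1 : Ioo z z' = Ioc z a ∪ Ico a z' := (Ioc_union_Ico_eq_Ioo h1 (by linarith)).symm
  have e2 : Ico a z' = Icc a b ∪ Ico b z' := by
    ext x
    simp only [mem_Ico, mem_union, mem_Icc]
    constructor
    · rintro ⟨h4, h5⟩
      rcases le_total x b with h6 | h6
      · exact Or.inl ⟨h4, h6⟩
      · exact Or.inr ⟨h6, h5⟩
    · rintro (⟨h4, h5⟩ | ⟨h4, h5⟩)
      · exact ⟨h4, by linarith⟩
      · exact ⟨by linarith, h5⟩
  have g1 : IsGreatest (Ioc z a) a := ⟨⟨h1, le_rfl⟩, fun x hx => hx.2⟩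
  have l1 : IsLeast (Ico a z') a := ⟨⟨le_rfl, by linarith⟩, fun x hx => hx.1⟩
  have g2 : IsGreatest (Icc a b) b := ⟨⟨h2, le_rfl⟩, fun x hx => hx.2⟩
  have l2 : IsLeast (Ico b z') b := ⟨⟨le_rfl, h3⟩, fun x hx => hx.1⟩
  rw [e1, eVariationOn.union D g1 l1, e2, eVariationOn.union D g2 l2, add_assoc]

theorem interval_A : ∃ C : ℝ, 0 ≤ C ∧ ∀ (f : ℝ → ℝ) (fj : ℕ → ℝ → ℝ) (B : ℝ) (η : ℕ → ℝ),
    SeqCtx f fj B η → (∀ x, ContinuousWithinAt f (Ici x) x) →
    {x | ¬ ContinuousAt f x}.Countable → ∀ (z z' c e ε : ℝ), z < z' → 0 ≤ e → 0 < ε →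
    eVariationOn (fun x => f x - c * x) (Ioo z z') ≤ ENNReal.ofReal e →
    ∀ᶠ j in atTop, eVariationOn (fun x => Mx (Ioi 0) (fj j) x - Mx (Ioi 0) f x) (Ioo z z') ≤
      ENNReal.ofReal (C * e + ε) := by
  obtain ⟨C, hC, hlin⟩ := small_linear
  refine ⟨2 * C, by positivity, ?_⟩
  intro f fj B η h hrc hcount z z' c e ε hz he hε hvar
  set ε₁ := ε / (2 * C + 5) with hε₁
  have hε₁0 : 0 < ε₁ := by positivity
  have hε₁' : (2 * C + 5) * ε₁ = ε := by rw [hε₁]; field_simp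
  obtain ⟨ρ, hρ, hρz, hends⟩ := ends h hrc hz hε₁0
  set a := z + ρ with ha
  set b := z' - ρ with hb
  have hne : (Ioo (0:ℝ) ρ).Nonempty := ⟨ρ / 2, by constructor <;> linarith⟩
  have hsub : Ioo (0:ℝ) ρ ⊆ Ioi 0 := fun r hr => hr.1
  have hsub2 : Ici ρ ⊆ Ioi (0:ℝ) := fun r hr => lt_of_lt_of_le hρ hr
  have hn2 : (Ici ρ).Nonempty := ⟨ρ, self_mem_Ici⟩
  have hubv : BoundedVariationOn (Mx (Ioo 0 ρ) f) (Icc a b) :=
    (bv_Mx h.bm h.bv hsub hne (down_Ioo ρ)).mono (subset_univ _)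
  have hvbv : BoundedVariationOn (Mx (Ici ρ) f) (Icc a b) :=
    ne_top_of_le_ne_top ENNReal.ofReal_ne_top
      (var_lip h.bm hρ (subset_refl _) hn2 hρz (subset_refl _))
  obtain ⟨η₀, hη₀, hcont⟩ := max_cont _ _ (Icc a b) hubv hvbv ε₁ hε₁0
  filter_upwards [hends, big_radii h hcount hρ hρz hε₁0, h.eventually hε₁0,
    (tendsto_order.1 h.eta).2 _ hη₀] with j hj1 hj2 hj3 hj4
  have h1 := hcont (Mx (Ioo 0 ρ) (fj j)) (Mx (Ici ρ) (fj j))
    (fun x _ => (abs_Mx_sub_le (h.bmj j) h.bm hsub hne (h.sup j)).trans hj4.le)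
    (fun x _ => (abs_Mx_sub_le (h.bmj j) h.bm hsub2 hn2 (h.sup j)).trans hj4.le)
  have h2 := hlin f (fj j) B h.bm (h.bmj j) z z' a b c ρ e ε₁ hρ (by linarith) (by linarith) hρz
    he hε₁0.le hvar hj3.1
  have hmax : ∀ g : ℝ → ℝ, BM g B → ∀ x, Mx (Ioi 0) g x = max (Mx (Ioo 0 ρ) g x) (Mx (Ici ρ) g x) := by
    intro g hg x
    rw [← Mx_union hg hsub hsub2 hne hn2, Ioo_union_Ici_eq_Ioi hρ]
  have h3 : eVariationOn (fun x => Mx (Ioi 0) (fj j) x - Mx (Ioi 0) f x) (Icc a b) ≤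
      ENNReal.ofReal (2 * (C * (e + ε₁) + ε₁) + ε₁) := by
    have h4 : (fun x => Mx (Ioi 0) (fj j) x - Mx (Ioi 0) f x) = fun x =>
        max (Mx (Ioo 0 ρ) (fj j) x) (Mx (Ici ρ) (fj j) x) -
          max (Mx (Ioo 0 ρ) f x) (Mx (Ici ρ) f x) := by
      ext x
      rw [hmax _ (h.bmj j), hmax _ h.bm]
    rw [h4]
    refine h1.trans ?_
    calc 2 * (eVariationOn (fun x => Mx (Ioo 0 ρ) (fj j) x - Mx (Ioo 0 ρ) f x) (Icc a b) +
          eVariationOn (fun x => Mx (Ici ρ) (fj j) x - Mx (Ici ρ) f x) (Icc a b)) +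
            ENNReal.ofReal ε₁
        ≤ 2 * (ENNReal.ofReal (C * (e + ε₁)) + ENNReal.ofReal ε₁) + ENNReal.ofReal ε₁ := by
          gcongr
      _ = ENNReal.ofReal (2 * (C * (e + ε₁) + ε₁) + ε₁) := by
          rw [← ENNReal.ofReal_add (by positivity) (by positivity), ← ENNReal.ofReal_ofNat 2,
            ← ENNReal.ofReal_mul (by norm_num), ← ENNReal.ofReal_add (by positivity) hε₁0.le]
  rw [var_Ioo_split _ (show z < a by linarith) hρz (show b < z' by linarith)]
  refine (add_le_add (add_le_add hj1.1 h3) hj1.2).trans ?_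
  rw [← ENNReal.ofReal_add (by positivity) (by positivity),
    ← ENNReal.ofReal_add (by positivity) (by positivity)]
  refine ENNReal.ofReal_le_ofReal ?_
  rw [← hε₁']
  linarith

theorem interval_M {fj : ℕ → ℝ → ℝ} {η : ℕ → ℝ} (h : SeqCtx f fj B η)
    (hrc : ∀ x, ContinuousWithinAt f (Ici x) x)
    (hcount : {x | ¬ ContinuousAt f x}.Countable) {z z' κ τ ε : ℝ} (hz : z < z') (hτ : 0 < τ)
    (hε : 0 < ε) (hM : ∀ x ∈ Ioo z z', f x ≤ κ ∧ κ + τ ≤ Mx (Ioi 0) f x) :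
    ∀ᶠ j in atTop, eVariationOn (fun x => Mx (Ioi 0) (fj j) x - Mx (Ioi 0) f x) (Ioo z z') ≤
      ENNReal.ofReal ε := by
  set ε₁ := ε / 3 with hε₁
  have hε₁0 : 0 < ε₁ := by positivity
  obtain ⟨ρ, hρ, hρz, hends⟩ := ends h hrc hz hε₁0
  set a := z + ρ with ha
  set b := z' - ρ with hb
  have hne : (Ioo (0:ℝ) ρ).Nonempty := ⟨ρ / 2, by constructor <;> linarith⟩
  have hsub : Ioo (0:ℝ) ρ ⊆ Ioi 0 := fun r hr => hr.1
  have hsub2 : Ici ρ ⊆ Ioi (0:ℝ) := fun r hr => lt_of_lt_of_le hρ hr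
  have hn2 : (Ici ρ).Nonempty := ⟨ρ, self_mem_Ici⟩
  have hmax : ∀ g : ℝ → ℝ, BM g B → ∀ x, Mx (Ioi 0) g x = max (Mx (Ioo 0 ρ) g x) (Mx (Ici ρ) g x) := by
    intro g hg x
    rw [← Mx_union hg hsub hsub2 hne hn2, Ioo_union_Ici_eq_Ioi hρ]
  have hloc : ∀ g : ℝ → ℝ, BM g B → (∀ x, |g x - f x| ≤ τ / 3) → ∀ x ∈ Icc a b,
      Mx (Ioi 0) g x = Mx (Ici ρ) g x := by
    intro g hg hgf x hx
    have hxz : x ∈ Ioo z z' := ⟨by linarith [hx.1], by linarith [hx.2]⟩
    have h1 : Mx (Ioo 0 ρ) g x ≤ κ + τ / 3 := by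
      refine Mx_le hne fun r hr => avg_le hg hr.1 fun t ht => ?_
      have h2 := (hM t ⟨by linarith [ht.1, hx.1, hr.2], by linarith [ht.2, hx.2, hr.2]⟩).1
      have h3 := (abs_le.1 (hgf t)).2
      linarith
    have h2 : κ + τ - τ / 3 ≤ Mx (Ioi 0) g x := by
      have h3 := abs_le.1 (abs_Mx_sub_le (x := x) hg h.bm (subset_refl _) hne1 hgf)
      linarith [(hM x hxz).2, h3.1]
    rw [hmax g hg x] at h2 ⊢
    refine max_eq_right ?_
    by_contra hcon
    rw [max_eq_left (not_le.1 hcon).le] at h2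
    linarith
  filter_upwards [hends, big_radii h hcount hρ hρz hε₁0, h.eventually (show 0 < τ / 3 by linarith)]
    with j hj1 hj2 hj3
  have h3 : eVariationOn (fun x => Mx (Ioi 0) (fj j) x - Mx (Ioi 0) f x) (Icc a b) ≤
      ENNReal.ofReal ε₁ := by
    refine le_trans (le_of_eq (eVariationOn.congr fun x hx => ?_)) hj2
    rw [hloc (fj j) (h.bmj j) (fun x => (h.sup j x).trans hj3.2) x hx,
      hloc f h.bm (fun x => by simpa using (by positivity : 0 ≤ τ / 3)) x hx]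
  rw [var_Ioo_split _ (show z < a by linarith) hρz (show b < z' by linarith)]
  refine (add_le_add (add_le_add hj1.1 h3) hj1.2).trans (le_of_eq ?_)
  rw [← ENNReal.ofReal_add (by positivity) (by positivity),
    ← ENNReal.ofReal_add (by positivity) (by positivity)]
  congr 1
  rw [hε₁]; ring

/-- closed and open intervals -/
theorem var_closed {D : ℝ → ℝ} (hD : BoundedVariationOn D univ) {η a b : ℝ} (hη : ∀ x, |D x| ≤ η)
    (hab : a < b) : eVariationOn D (Icc a b) ≤ eVariationOn D (Ioo a b) + ENNReal.ofReal (4 * η) := by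
  have hη0 : 0 ≤ η := (abs_nonneg _).trans (hη 0)
  -- right limit at a
  have h1 : ∃ l, Tendsto D (𝓝[>] a) (𝓝 l) := by
    obtain ⟨l, hl⟩ := hD.exists_tendsto_right a
    exact ⟨l, by simpa using hl⟩
  have h2 : ∃ l, Tendsto D (𝓝[<] b) (𝓝 l) := by
    obtain ⟨l, hl⟩ := hD.exists_tendsto_left b
    exact ⟨l, by simpa using hl⟩
  obtain ⟨l, hl⟩ := h1
  obtain ⟨l', hl'⟩ := h2
  have hlb : |l| ≤ η := le_of_tendsto hl.abs (Eventually.of_forall fun x => hη x)
  have hlb' : |l'| ≤ η := le_of_tendsto hl'.abs (Eventually.of_forall fun x => hη x)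
  have e1 : Icc a b = Iic b ∩ Ici a := by ext x; simp [and_comm]
  have e2 : Iic b ∩ Ioi a = Ioc a b := by ext x; simp [and_comm]
  have e3 : Ioc a b = Ioi a ∩ Iic b := by ext x; simp
  have e4 : Ioi a ∩ Iio b = Ioo a b := by ext x; simp
  have n1 : (𝓝[Iic b ∩ Ioi a] a).NeBot := by
    rw [e2, nhdsWithin_Ioc_eq_nhdsGT hab]; infer_instance
  have n2 : (𝓝[Ioi a ∩ Iio b] b).NeBot := by
    rw [e4, nhdsWithin_Ioo_eq_nhdsLT hab]; infer_instance
  have h3 := eVariationOn.eVariationOn_on_inter_Ici_eq_Ioi_add_edist (f := D) (s := Iic b) (a := a)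
    (l := l) n1 hab.le (by rw [e2, nhdsWithin_Ioc_eq_nhdsGT hab]; exact hl)
  have h4 := eVariationOn.eVariationOn_on_inter_Iic_eq_Iio_add_edist (f := D) (s := Ioi a) (a := b)
    (l := l') n2 hab (by rw [e4, nhdsWithin_Ioo_eq_nhdsLT hab]; exact hl')
  rw [e1, h3, e2, e3, h4, e4, add_assoc]
  refine add_le_add le_rfl ?_
  rw [edist_eq, edist_eq, ← ENNReal.ofReal_add (abs_nonneg _) (abs_nonneg _)]
  refine ENNReal.ofReal_le_ofReal ?_
  have h5 := abs_sub (D b) l'
  have h6 := abs_sub (D a) l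
  linarith [hη a, hη b]

/-- the theorem for right-continuous functions -/
theorem main_seq {fj : ℕ → ℝ → ℝ} {η : ℕ → ℝ} (h : SeqCtx f fj B η)
    (hbvj : ∀ j, BoundedVariationOn (fj j) univ)
    (hrc : ∀ x, ContinuousWithinAt f (Ici x) x) :
    Tendsto (fun j => eVariationOn (fun x => Mx (Ioi 0) (fj j) x - Mx (Ioi 0) f x) univ) atTop
      (𝓝 0) := by
  -- countably many discontinuities
  have hcount : {x | ¬ ContinuousAt f x}.Countable := by
    obtain ⟨p, q, hp, hq, hfpq⟩ :=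
      h.bv.locallyBoundedVariationOn.exists_monotoneOn_sub_monotoneOn
    have h1 := (monotoneOn_univ.1 hp).countable_not_continuousAt
    have h2 := (monotoneOn_univ.1 hq).countable_not_continuousAt
    refine (h1.union h2).mono fun x hx => ?_
    by_contra hcon
    simp only [mem_union, mem_ofPred_eq, not_or, not_not] at hcon
    exact hx (by rw [hfpq]; exact hcon.1.sub hcon.2)
  obtain ⟨C, hC, hA⟩ := interval_A
  rw [ENNReal.tendsto_nhds_zero]
  intro ε₀ hε₀
  obtain ⟨ε, hε, hεle⟩ : ∃ ε : ℝ, 0 < ε ∧ ENNReal.ofReal ε ≤ ε₀ := by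
    rcases eq_or_ne ε₀ ⊤ with htop | htop
    · exact ⟨1, one_pos, by rw [htop]; exact le_top⟩
    · exact ⟨ε₀.toReal, ENNReal.toReal_pos hε₀.ne' htop, by rw [ENNReal.ofReal_toReal htop]⟩
  set ε₁ := ε / (C + 7) with hε₁
  have hε₁0 : 0 < ε₁ := by positivity
  have hε₁' : (C + 7) * ε₁ = ε := by rw [hε₁]; field_simp
  have h0 : SeqCtx f (fun _ => f) B (fun _ => 0) := by
    refine ⟨h.bm, fun _ => h.bm, h.bv, ?_, tendsto_const_nhds, fun j x => by simp⟩
    have : (fun _ : ℕ => eVariationOn (fun x => f x - f x) univ) = fun _ => 0 := by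
      ext j
      simp only [sub_self]
      exact var_const 0 univ
    rw [this]
    exact tendsto_const_nhds
  obtain ⟨T₁, hT₁, ht1⟩ := tail_right h ε₁ hε₁0
  obtain ⟨T₂, hT₂, ht2⟩ := tail_left h ε₁ hε₁0
  obtain ⟨T₃, hT₃, ht3⟩ := tail_right h0 ε₁ hε₁0
  obtain ⟨T₄, hT₄, ht4⟩ := tail_left h0 ε₁ hε₁0
  obtain ⟨_, ht3⟩ := ht3.exists
  obtain ⟨_, ht4⟩ := ht4.exists
  set T := max (max T₁ T₂) (max T₃ T₄) with hT
  have b1 : T₁ ≤ T := (le_max_left _ _).trans (le_max_left _ _)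
  have b2 : T₂ ≤ T := (le_max_right _ _).trans (le_max_left _ _)
  have b3 : T₃ ≤ T := (le_max_left _ _).trans (le_max_right _ _)
  have b4 : T₄ ≤ T := (le_max_right _ _).trans (le_max_right _ _)
  have hT0 : 0 < T := by linarith
  obtain ⟨n, z, e, hz0, hzn, hz, he, hesum, htype⟩ := partition f h.bv hrc ε₁ T hε₁0 hT0
  -- each interval
  have hn1 : (0:ℝ) < n + 1 := by positivity
  have hpiece : ∀ i < n, ∀ᶠ j in atTop,
      eVariationOn (fun x => Mx (Ioi 0) (fj j) x - Mx (Ioi 0) f x) (Ioo (z i) (z (i + 1))) ≤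
        ENNReal.ofReal (C * e i + ε₁ / (n + 1)) := by
    intro i hi
    rcases htype i hi with ⟨c, hc⟩ | ⟨κ, τ, hτ, hM⟩
    · exact hA f fj B η h hrc hcount (z i) (z (i + 1)) c (e i) _ (hz i hi) (he i)
        (div_pos hε₁0 hn1) hc
    · filter_upwards [interval_M h hrc hcount (hz i hi) hτ (div_pos hε₁0 hn1) hM] with j hj
      refine hj.trans (ENNReal.ofReal_le_ofReal ?_)
      have := mul_nonneg hC (he i)
      linarith
  have hall : ∀ᶠ j in atTop, ∀ i < n,
      eVariationOn (fun x => Mx (Ioi 0) (fj j) x - Mx (Ioi 0) f x) (Ioo (z i) (z (i + 1))) ≤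
        ENNReal.ofReal (C * e i + ε₁ / (n + 1)) := by
    have h1 : ∀ᶠ j in atTop, ∀ i ∈ Finset.range n,
        eVariationOn (fun x => Mx (Ioi 0) (fj j) x - Mx (Ioi 0) f x) (Ioo (z i) (z (i + 1))) ≤
        ENNReal.ofReal (C * e i + ε₁ / (n + 1)) := by
      rw [Filter.eventually_all_finset]
      intro i hi
      exact hpiece i (Finset.mem_range.1 hi)
    filter_upwards [h1] with j hj i hi
    exact hj i (Finset.mem_range.2 hi)
  filter_upwards [hall, ht1, ht2, h.eventually (show 0 < ε₁ / (4 * (n + 1)) by positivity)]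
    with j hj hj1 hj2 hj3
  refine le_trans ?_ hεle
  set D : ℝ → ℝ := fun x => Mx (Ioi 0) (fj j) x - Mx (Ioi 0) f x with hD
  have hDη : ∀ x, |D x| ≤ ε₁ / (4 * (n + 1)) := fun x =>
    (abs_Mx_sub_le (h.bmj j) h.bm (subset_refl _) hne1 (h.sup j)).trans hj3.2
  have hDbv : BoundedVariationOn D univ :=
    ne_top_of_le_ne_top (ENNReal.add_ne_top.2
      ⟨bv_Mx (h.bmj j) (hbvj j) (subset_refl _) hne1 down_Ioi,
        bv_Mx h.bm h.bv (subset_refl _) hne1 down_Ioi⟩) (var_sub_le _ _ _)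
  -- the middle part
  have hmid : eVariationOn D (Icc (-T) T) ≤ ENNReal.ofReal ((C + 2) * ε₁) := by
    set I : ℕ → ℝ := fun i => z (min i n) with hI
    have hImono : Monotone I := by
      refine monotone_nat_of_le_succ fun i => ?_
      simp only [hI]
      rcases lt_or_ge i n with hi | hi
      · rw [min_eq_left hi.le, min_eq_left (by omega : i + 1 ≤ n)]
        exact (hz i hi).le
      · rw [min_eq_right hi, min_eq_right (by omega : n ≤ i + 1)]
    have h1 := eVariationOn.sum' D hImono (n := n)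
    have hI0 : I 0 = -T := by simp only [hI, Nat.zero_min, hz0]
    have hIn : I n = T := by simp only [hI, min_self, hzn]
    rw [hI0, hIn] at h1
    rw [← h1]
    have h2 : ∀ i ∈ Finset.range n, eVariationOn D (Icc (I i) (I (i + 1))) ≤
        ENNReal.ofReal (C * e i + 2 * (ε₁ / (n + 1))) := by
      intro i hi
      have hi' := Finset.mem_range.1 hi
      have e1 : I i = z i := by simp only [hI]; rw [min_eq_left hi'.le]
      have e2 : I (i + 1) = z (i + 1) := by simp only [hI]; rw [min_eq_left (by omega : i + 1 ≤ n)]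
      rw [e1, e2]
      refine (var_closed hDbv hDη (hz i hi')).trans ((add_le_add (hj i hi') le_rfl).trans ?_)
      have h3 : 0 ≤ C * e i := mul_nonneg hC (he i)
      rw [← ENNReal.ofReal_add (by positivity) (by positivity)]
      refine ENNReal.ofReal_le_ofReal (le_of_eq ?_)
      field_simp
      ring
    refine (Finset.sum_le_sum h2).trans ?_
    rw [← ENNReal.ofReal_sum_of_nonneg fun i _ => by
      have := mul_nonneg hC (he i)
      positivity]
    refine ENNReal.ofReal_le_ofReal ?_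
    rw [Finset.sum_add_distrib, ← Finset.mul_sum, Finset.sum_const, Finset.card_range, nsmul_eq_mul]
    have h4 : (n : ℝ) * (2 * (ε₁ / (n + 1))) ≤ 2 * ε₁ := by
      rw [show (n : ℝ) * (2 * (ε₁ / (n + 1))) = 2 * ε₁ * (n / (n + 1)) by ring]
      have : (n : ℝ) / (n + 1) ≤ 1 := by rw [div_le_one hn1]; linarith
      nlinarith
    have h5 := mul_le_mul_of_nonneg_left hesum hC
    linarith
  have hr : eVariationOn D (Ici T) ≤ ENNReal.ofReal (2 * ε₁) := by
    refine (var_sub_le _ _ _).trans ((add_le_add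
      ((eVariationOn.mono _ (Ici_subset_Ici.2 b1)).trans hj1)
      ((eVariationOn.mono _ (Ici_subset_Ici.2 b3)).trans ht3)).trans (le_of_eq ?_))
    rw [← ENNReal.ofReal_add hε₁0.le hε₁0.le]; congr 1; ring
  have hl : eVariationOn D (Iic (-T)) ≤ ENNReal.ofReal (2 * ε₁) := by
    refine (var_sub_le _ _ _).trans ((add_le_add
      ((eVariationOn.mono _ (Iic_subset_Iic.2 (by linarith))).trans hj2)
      ((eVariationOn.mono _ (Iic_subset_Iic.2 (by linarith))).trans ht4)).trans (le_of_eq ?_))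
    rw [← ENNReal.ofReal_add hε₁0.le hε₁0.le]; congr 1; ring
  have e1 : (univ : Set ℝ) = Iic (-T) ∪ (Icc (-T) T ∪ Ici T) := by
    ext x
    simp only [mem_univ, mem_union, mem_Iic, mem_Icc, mem_Ici, true_iff]
    rcases le_total x (-T) with h1 | h1
    · exact Or.inl h1
    · rcases le_total x T with h2 | h2
      · exact Or.inr (Or.inl ⟨h1, h2⟩)
      · exact Or.inr (Or.inr h2)
  have g1 : IsGreatest (Iic (-T)) (-T) := ⟨self_mem_Iic, fun x hx => hx⟩
  have l1 : IsLeast (Icc (-T) T ∪ Ici T) (-T) := ⟨Or.inl ⟨le_rfl, by linarith⟩, fun x hx => by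
      rcases hx with hx | hx
      · exact hx.1
      · have : T ≤ x := hx
        linarith⟩
  have g2 : IsGreatest (Icc (-T) T) T := ⟨⟨by linarith, le_rfl⟩, fun x hx => hx.2⟩
  have l2 : IsLeast (Ici T) T := ⟨self_mem_Ici, fun x hx => hx⟩
  rw [e1, eVariationOn.union D g1 l1, eVariationOn.union D g2 l2]
  refine (add_le_add hl (add_le_add hmid hr)).trans ?_
  rw [← ENNReal.ofReal_add (by positivity) (by positivity),
    ← ENNReal.ofReal_add (by positivity) (by positivity)]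
  refine ENNReal.ofReal_le_ofReal ?_
  rw [← hε₁']
  linarith

end Pool.Agent.Lib.MP_653dc2_an
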