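import Mathlib

/-! Task T6: total variation of `max (u', v') - max (u, v)` and of `|w'| - |w|`. -/

set_option autoImplicit false
open Set MeasureTheory Filter Topology
open scoped ENNReal

namespace Pool.Agent.Lib.MP_653dc2_an

/-- Additivity of variations under a pointwise domination, on finite sets. -/
theorem band_var_add_finset (u v w : ℝ → ℝ) (F : Finset ℝ)
    (h : ∀ x ∈ F, ∀ y ∈ F, edist (u x) (u y) + edist (v x) (v y) ≤ edist (w x) (w y)) :
    eVariationOn u F + eVariationOn v F ≤ eVariationOn w F := by
  induction F using Finset.induction_on_max with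
  | empty => simp [eVariationOn.subsingleton]
  | insert b F hb ih =>
    have ih' := ih fun x hx y hy => h x (Finset.mem_insert_of_mem hx) y (Finset.mem_insert_of_mem hy)
    rcases F.eq_empty_or_nonempty with rfl | hne
    · simp [eVariationOn.subsingleton]
    · set a := F.max' hne with ha
      have haF : a ∈ F := F.max'_mem hne
      have hgr : IsGreatest (F : Set ℝ) a := ⟨haF, fun x hx => F.le_max' x hx⟩
      have hle : IsLeast ({b} : Set ℝ) b := isLeast_singleton
      have hab : a ≤ b := (hb a haF).le
      have hun : ∀ g : ℝ → ℝ, eVariationOn g ((insert b F : Finset ℝ) : Set ℝ) =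
          eVariationOn g F + edist (g a) (g b) := by
        intro g
        have : ((insert b F : Finset ℝ) : Set ℝ) = (F : Set ℝ) ∪ {b} := by
          rw [Finset.coe_insert, Set.union_singleton]
        rw [this, eVariationOn.union' g hgr hle hab,
          eVariationOn.subsingleton g Set.subsingleton_singleton, add_zero]
      rw [hun, hun, hun]
      calc eVariationOn u F + edist (u a) (u b) + (eVariationOn v F + edist (v a) (v b))
          = (eVariationOn u F + eVariationOn v F) + (edist (u a) (u b) + edist (v a) (v b)) := by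
            ring
        _ ≤ _ := add_le_add ih'
            (h a (Finset.mem_insert_of_mem haF) b (Finset.mem_insert_self _ _))

theorem band_var_add (u v w : ℝ → ℝ) (E : Set ℝ)
    (h : ∀ x ∈ E, ∀ y ∈ E, edist (u x) (u y) + edist (v x) (v y) ≤ edist (w x) (w y)) :
    eVariationOn u E + eVariationOn v E ≤ eVariationOn w E := by
  classical
  rcases E.eq_empty_or_nonempty with rfl | hE
  · simp [eVariationOn.subsingleton]
  have : Nonempty {s : ℕ → ℝ // Monotone s ∧ ∀ i, s i ∈ E} :=
    eVariationOn.nonempty_monotone_mem hE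
  rw [eVariationOn, eVariationOn]
  refine ENNReal.iSup_add_iSup_le ?_
  rintro ⟨n, s, hs, hsE⟩ ⟨m, t, ht, htE⟩
  set F : Finset ℝ := (Finset.range (n + 1)).image s ∪ (Finset.range (m + 1)).image t with hF
  have hFE : (F : Set ℝ) ⊆ E := by
    intro x hx
    rw [Finset.mem_coe, hF, Finset.mem_union, Finset.mem_image, Finset.mem_image] at hx
    rcases hx with ⟨i, _, rfl⟩ | ⟨i, _, rfl⟩
    · exact hsE i
    · exact htE i
  have h1 : ∑ i ∈ Finset.range n, edist (u (s (i + 1))) (u (s i)) ≤ eVariationOn u F := by
    refine eVariationOn.sum_le_of_monotoneOn_Iic (hs.monotoneOn _) fun i hi => ?_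
    rw [Finset.mem_coe, hF, Finset.mem_union]
    exact Or.inl (Finset.mem_image_of_mem _ (Finset.mem_range.2 (Nat.lt_succ_of_le hi)))
  have h2 : ∑ i ∈ Finset.range m, edist (v (t (i + 1))) (v (t i)) ≤ eVariationOn v F := by
    refine eVariationOn.sum_le_of_monotoneOn_Iic (ht.monotoneOn _) fun i hi => ?_
    rw [Finset.mem_coe, hF, Finset.mem_union]
    exact Or.inr (Finset.mem_image_of_mem _ (Finset.mem_range.2 (Nat.lt_succ_of_le hi)))
  calc _ ≤ eVariationOn u F + eVariationOn v F := add_le_add h1 h2
    _ ≤ eVariationOn w F := band_var_add_finset u v w F fun x hx y hy => h x (hFE hx) y (hFE hy)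
    _ ≤ _ := eVariationOn.mono w hFE

/-- Truncation at height `η`. -/
noncomputable def bandCl (η t : ℝ) : ℝ := max (-η) (min η t)

theorem bandCl_split (η s t : ℝ) :
    |(s - bandCl η s) - (t - bandCl η t)| + |bandCl η s - bandCl η t| ≤ |s - t| := by
  unfold bandCl
  rcases le_total s t with h | h
  · have h1 : max (-η) (min η s) ≤ max (-η) (min η t) :=
      max_le_max le_rfl (min_le_min le_rfl h)
    have h2 : s - max (-η) (min η s) ≤ t - max (-η) (min η t) := by
      rcases le_total η s with a | a <;> rcases le_total η t with b | b <;>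
      simp only [a, b, min_eq_left, min_eq_right] <;>
      rcases le_total (-η) η with c | c <;> rcases le_total (-η) s with d | d <;>
      rcases le_total (-η) t with e | e <;>
      simp only [c, d, e, max_eq_left, max_eq_right] <;> linarith
    rw [abs_of_nonpos (by linarith), abs_of_nonpos (by linarith), abs_of_nonpos (by linarith)]
    linarith
  · have h1 : max (-η) (min η t) ≤ max (-η) (min η s) :=
      max_le_max le_rfl (min_le_min le_rfl h)
    have h2 : t - max (-η) (min η t) ≤ s - max (-η) (min η s) := by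
      rcases le_total η s with a | a <;> rcases le_total η t with b | b <;>
      simp only [a, b, min_eq_left, min_eq_right] <;>
      rcases le_total (-η) η with c | c <;> rcases le_total (-η) s with d | d <;>
      rcases le_total (-η) t with e | e <;>
      simp only [c, d, e, max_eq_left, max_eq_right] <;> linarith
    rw [abs_of_nonneg (by linarith), abs_of_nonneg (by linarith), abs_of_nonneg (by linarith)]
    linarith

theorem abs_bandCl_le {η : ℝ} (hη : 0 ≤ η) (t : ℝ) : |bandCl η t| ≤ η := by
  unfold bandCl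
  rw [abs_le]
  exact ⟨le_max_left _ _, max_le (by linarith) (min_le_left _ _)⟩

theorem edist_real_eq (a b : ℝ) : edist a b = ENNReal.ofReal |a - b| := by
  rw [edist_dist, Real.dist_eq]

/-- The variation of the truncation tends to zero with the height. -/
theorem band_small (w : ℝ → ℝ) (E : Set ℝ) (hw : BoundedVariationOn w E) (ε : ℝ) (hε : 0 < ε) :
    ∃ η > 0, eVariationOn (fun x => bandCl η (w x)) E ≤ ENNReal.ofReal ε := by
  rcases eq_or_ne (eVariationOn w E) 0 with h0 | h0
  · refine ⟨1, one_pos, ?_⟩
    have := band_var_add (fun x => w x - bandCl 1 (w x)) (fun x => bandCl 1 (w x)) w E ?_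
    · rw [h0] at this
      calc _ ≤ _ := le_add_self
        _ ≤ 0 := this
        _ ≤ _ := zero_le
    · intro x _ y _
      rw [edist_real_eq, edist_real_eq, edist_real_eq, ← ENNReal.ofReal_add (abs_nonneg _)
        (abs_nonneg _)]
      exact ENNReal.ofReal_le_ofReal (bandCl_split 1 (w x) (w y))
  · have hlt : eVariationOn w E - ENNReal.ofReal ε < eVariationOn w E :=
      ENNReal.sub_lt_self hw h0 (by simpa using hε)
    have htend : ∀ x ∈ E, Tendsto (fun η : ℝ => w x - bandCl η (w x)) (𝓝[>] 0) (𝓝 (w x)) := by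
      intro x _
      have h1 : Tendsto (fun η : ℝ => bandCl η (w x)) (𝓝[>] 0) (𝓝 0) := by
        rw [tendsto_zero_iff_abs_tendsto_zero]
        refine squeeze_zero' (Eventually.of_forall fun _ => abs_nonneg _) ?_
          (tendsto_nhdsWithin_of_tendsto_nhds tendsto_id : Tendsto (fun η : ℝ => η) (𝓝[>] 0) (𝓝 0))
        filter_upwards [self_mem_nhdsWithin] with η hη
        exact abs_bandCl_le (le_of_lt hη) _
      simpa using (tendsto_const_nhds (x := w x)).sub h1
    have hev := eVariationOn.lowerSemicontinuous_aux htend hlt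
    obtain ⟨η, hη1, hη2⟩ := (hev.and self_mem_nhdsWithin).exists
    refine ⟨η, hη2, ?_⟩
    have hadd := band_var_add (fun x => w x - bandCl η (w x)) (fun x => bandCl η (w x)) w E
      (by
        intro x _ y _
        rw [edist_real_eq, edist_real_eq, edist_real_eq, ← ENNReal.ofReal_add (abs_nonneg _)
          (abs_nonneg _)]
        exact ENNReal.ofReal_le_ofReal (bandCl_split η (w x) (w y)))
    set V1 := eVariationOn (fun x => w x - bandCl η (w x)) E with hV1
    have hV1ne : V1 ≠ ∞ := ne_top_of_le_ne_top hw (le_self_add.trans hadd)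
    have h2 : eVariationOn w E ≤ V1 + ENNReal.ofReal ε := by
      have := hη1.le
      exact tsub_le_iff_right.mp this
    have h3 : V1 + eVariationOn (fun x => bandCl η (w x)) E ≤ V1 + ENNReal.ofReal ε :=
      hadd.trans h2
    exact (ENNReal.add_le_add_iff_left hV1ne).mp h3

theorem band_pointwise (η s s' t t' : ℝ) (hs : |s' - s| ≤ η) (ht : |t' - t| ≤ η) :
    |(|s'| - |s|) - (|t'| - |t|)| ≤ |(s' - s) - (t' - t)| + 2 * |bandCl η s - bandCl η t| := by
  have key : ∀ a a' : ℝ, |a' - a| ≤ η → |a'| - |a| =
      |bandCl η a + (a' - a)| - |bandCl η a| := by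
    intro a a' h
    have hη : 0 ≤ η := (abs_nonneg _).trans h
    rw [abs_le] at h
    unfold bandCl
    rcases le_total η a with h1 | h1
    · rw [min_eq_left h1, max_eq_right (by linarith), abs_of_nonneg (show (0 : ℝ) ≤ a' by linarith),
        abs_of_nonneg (show (0 : ℝ) ≤ a by linarith), abs_of_nonneg hη, abs_of_nonneg (by linarith)]
      ring
    · rw [min_eq_right h1]
      rcases le_total (-η) a with h2 | h2
      · rw [max_eq_right h2]
        congr 2
        ring
      · rw [max_eq_left h2, abs_of_nonpos (show a' ≤ 0 by linarith),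
          abs_of_nonpos (show a ≤ 0 by linarith), abs_neg, abs_of_nonneg hη,
          abs_of_nonpos (by linarith)]
        ring
  rw [key s s' hs, key t t' ht]
  set A := bandCl η s
  set B := bandCl η t
  calc |(|A + (s' - s)| - |A|) - (|B + (t' - t)| - |B|)|
      = |(|A + (s' - s)| - |B + (t' - t)|) - (|A| - |B|)| := by congr 1; ring
    _ ≤ |(|A + (s' - s)| - |B + (t' - t)|)| + |(|A| - |B|)| := abs_sub _ _
    _ ≤ |(A + (s' - s)) - (B + (t' - t))| + |A - B| :=
        add_le_add (abs_abs_sub_abs_le_abs_sub _ _) (abs_abs_sub_abs_le_abs_sub _ _)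
    _ = |((s' - s) - (t' - t)) + (A - B)| + |A - B| := by congr 2; ring
    _ ≤ (|(s' - s) - (t' - t)| + |A - B|) + |A - B| := by gcongr; exact abs_add_le _ _
    _ = _ := by ring

/-- Variation of a function dominated by a combination of two. -/
theorem band_var_le (g a b : ℝ → ℝ) (E : Set ℝ) (c d : NNReal)
    (h : ∀ x ∈ E, ∀ y ∈ E, edist (g x) (g y) ≤ c * edist (a x) (a y) + d * edist (b x) (b y)) :
    eVariationOn g E ≤ c * eVariationOn a E + d * eVariationOn b E := by
  refine iSup_le fun ⟨n, s, hs, hsE⟩ => ?_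
  calc ∑ i ∈ Finset.range n, edist (g (s (i + 1))) (g (s i))
      ≤ ∑ i ∈ Finset.range n, (c * edist (a (s (i + 1))) (a (s i)) +
          d * edist (b (s (i + 1))) (b (s i))) :=
        Finset.sum_le_sum fun i _ => h _ (hsE _) _ (hsE _)
    _ = c * ∑ i ∈ Finset.range n, edist (a (s (i + 1))) (a (s i)) +
          d * ∑ i ∈ Finset.range n, edist (b (s (i + 1))) (b (s i)) := by
        rw [Finset.sum_add_distrib, Finset.mul_sum, Finset.mul_sum]
    _ ≤ _ := by
        gcongr
        · exact eVariationOn.sum_le hs hsE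
        · exact eVariationOn.sum_le hs hsE

theorem abs_cont (w : ℝ → ℝ) (E : Set ℝ) (hw : BoundedVariationOn w E) (ε : ℝ) (hε : 0 < ε) :
    ∃ η > 0, ∀ w' : ℝ → ℝ, (∀ x ∈ E, |w' x - w x| ≤ η) →
      eVariationOn (fun x => |w' x| - |w x|) E ≤
        3 * eVariationOn (fun x => w' x - w x) E + ENNReal.ofReal ε := by
  obtain ⟨η, hη, hV⟩ := band_small w E hw (ε / 2) (by linarith)
  refine ⟨η, hη, fun w' hw' => ?_⟩
  have h1 := band_var_le (fun x => |w' x| - |w x|) (fun x => w' x - w x)
    (fun x => bandCl η (w x)) E 1 2 (by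
      intro x hx y hy
      rw [edist_real_eq, edist_real_eq, edist_real_eq]
      have h2 := band_pointwise η (w x) (w' x) (w y) (w' y) (hw' x hx) (hw' y hy)
      calc ENNReal.ofReal |(|w' x| - |w x|) - (|w' y| - |w y|)|
          ≤ ENNReal.ofReal (|(w' x - w x) - (w' y - w y)| +
              2 * |bandCl η (w x) - bandCl η (w y)|) := ENNReal.ofReal_le_ofReal h2
        _ = ENNReal.ofReal |(w' x - w x) - (w' y - w y)| +
              ENNReal.ofReal (2 * |bandCl η (w x) - bandCl η (w y)|) :=
            ENNReal.ofReal_add (abs_nonneg _) (by positivity)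
        _ = _ := by
            rw [ENNReal.ofReal_mul (by norm_num)]
            simp)
  calc eVariationOn (fun x => |w' x| - |w x|) E
      ≤ 1 * eVariationOn (fun x => w' x - w x) E +
        2 * eVariationOn (fun x => bandCl η (w x)) E := by simpa using h1
    _ ≤ 3 * eVariationOn (fun x => w' x - w x) E + 2 * ENNReal.ofReal (ε / 2) := by
        gcongr
        norm_num
    _ = _ := by
        congr 1
        rw [show (2 : ℝ≥0∞) = ENNReal.ofReal 2 by simp, ← ENNReal.ofReal_mul (by norm_num)]
        congr 1; ring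

theorem max_cont (u v : ℝ → ℝ) (E : Set ℝ) (hu : BoundedVariationOn u E)
    (hv : BoundedVariationOn v E) (ε : ℝ) (hε : 0 < ε) :
    ∃ η > 0, ∀ u' v' : ℝ → ℝ, (∀ x ∈ E, |u' x - u x| ≤ η) → (∀ x ∈ E, |v' x - v x| ≤ η) →
      eVariationOn (fun x => max (u' x) (v' x) - max (u x) (v x)) E ≤
        2 * (eVariationOn (fun x => u' x - u x) E + eVariationOn (fun x => v' x - v x) E) +
          ENNReal.ofReal ε := by
  have hw : BoundedVariationOn (fun x => u x - v x) E := by
    have := band_var_le (fun x => u x - v x) u v E 1 1 (by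
      intro x _ y _
      rw [edist_real_eq, edist_real_eq, edist_real_eq]
      simp only [ENNReal.coe_one, one_mul]
      rw [← ENNReal.ofReal_add (abs_nonneg _) (abs_nonneg _)]
      refine ENNReal.ofReal_le_ofReal ?_
      calc |(u x - v x) - (u y - v y)| = |(u x - u y) - (v x - v y)| := by congr 1; ring
        _ ≤ _ := abs_sub _ _)
    refine ne_top_of_le_ne_top ?_ this
    simp only [ENNReal.coe_one, one_mul]
    exact ENNReal.add_ne_top.2 ⟨hu, hv⟩
  obtain ⟨η, hη, hV⟩ := abs_cont (fun x => u x - v x) E hw (2 * ε) (by linarith)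
  refine ⟨η / 2, by positivity, fun u' v' hu' hv' => ?_⟩
  have h1 := hV (fun x => u' x - v' x) (by
    intro x hx
    calc |(u' x - v' x) - (u x - v x)| = |(u' x - u x) - (v' x - v x)| := by congr 1; ring
      _ ≤ |u' x - u x| + |v' x - v x| := abs_sub _ _
      _ ≤ η := by linarith [hu' x hx, hv' x hx])
  -- half sum of the three differences
  set U := eVariationOn (fun x => u' x - u x) E with hU
  set V := eVariationOn (fun x => v' x - v x) E with hVdef
  have h2 : eVariationOn (fun x => (u' x - v' x) - (u x - v x)) E ≤ U + V := by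
    have := band_var_le (fun x => (u' x - v' x) - (u x - v x)) (fun x => u' x - u x)
      (fun x => v' x - v x) E 1 1 (by
      intro x _ y _
      rw [edist_real_eq, edist_real_eq, edist_real_eq]
      simp only [ENNReal.coe_one, one_mul]
      rw [← ENNReal.ofReal_add (abs_nonneg _) (abs_nonneg _)]
      refine ENNReal.ofReal_le_ofReal ?_
      calc |((u' x - v' x) - (u x - v x)) - ((u' y - v' y) - (u y - v y))| =
          |((u' x - u x) - (u' y - u y)) - ((v' x - v x) - (v' y - v y))| := by congr 1; ring
        _ ≤ _ := abs_sub _ _)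
    simpa using this
  have h3 : eVariationOn (fun x => (u' x - u x) + (v' x - v x)) E ≤ U + V := by
    have := band_var_le (fun x => (u' x - u x) + (v' x - v x)) (fun x => u' x - u x)
      (fun x => v' x - v x) E 1 1 (by
      intro x _ y _
      rw [edist_real_eq, edist_real_eq, edist_real_eq]
      simp only [ENNReal.coe_one, one_mul]
      rw [← ENNReal.ofReal_add (abs_nonneg _) (abs_nonneg _)]
      refine ENNReal.ofReal_le_ofReal ?_
      calc |((u' x - u x) + (v' x - v x)) - ((u' y - u y) + (v' y - v y))| =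
          |((u' x - u x) - (u' y - u y)) + ((v' x - v x) - (v' y - v y))| := by congr 1; ring
        _ ≤ _ := abs_add_le _ _)
    simpa using this
  have h4 := band_var_le (fun x => max (u' x) (v' x) - max (u x) (v x))
    (fun x => (u' x - u x) + (v' x - v x)) (fun x => |u' x - v' x| - |u x - v x|) E (1/2) (1/2) (by
      intro x _ y _
      rw [edist_real_eq, edist_real_eq, edist_real_eq]
      have hc : ((1/2 : NNReal) : ℝ≥0∞) = ENNReal.ofReal (1/2) := by
        rw [ENNReal.ofReal]
        congr 1
        ext
        simp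
      rw [hc, ← ENNReal.ofReal_mul (by norm_num), ← ENNReal.ofReal_mul (by norm_num),
        ← ENNReal.ofReal_add (by positivity) (by positivity)]
      refine ENNReal.ofReal_le_ofReal ?_
      have hm : ∀ a b : ℝ, max a b = (a + b + |a - b|) / 2 := by
        intro a b
        rcases le_total a b with h | h
        · rw [max_eq_right h, abs_of_nonpos (by linarith)]; ring
        · rw [max_eq_left h, abs_of_nonneg (by linarith)]; ring
      rw [hm, hm, hm, hm]
      set P := ((u' x - u x) + (v' x - v x)) - ((u' y - u y) + (v' y - v y)) with hP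
      set Q := (|u' x - v' x| - |u x - v x|) - (|u' y - v' y| - |u y - v y|) with hQ
      have : ((u' x + v' x + |u' x - v' x|) / 2 - (u x + v x + |u x - v x|) / 2) -
          ((u' y + v' y + |u' y - v' y|) / 2 - (u y + v y + |u y - v y|) / 2) =
          (1/2) * P + (1/2) * Q := by rw [hP, hQ]; ring
      rw [this]
      refine (abs_add_le _ _).trans ?_
      rw [abs_mul, abs_mul, abs_of_nonneg (by norm_num : (0:ℝ) ≤ 1/2)])
  have h5 : ((1/2 : NNReal) : ℝ≥0∞) * (4 * (U + V)) = 2 * (U + V) := by
    rw [← mul_assoc]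
    congr 1
    rw [show (4 : ℝ≥0∞) = ((4 : NNReal) : ℝ≥0∞) by simp, ← ENNReal.coe_mul]
    norm_num
  have h6 : ((1/2 : NNReal) : ℝ≥0∞) * ENNReal.ofReal (2 * ε) = ENNReal.ofReal ε := by
    have hc : ((1/2 : NNReal) : ℝ≥0∞) = ENNReal.ofReal (1/2) := by
      rw [ENNReal.ofReal]
      congr 1
      ext
      simp
    rw [hc, ← ENNReal.ofReal_mul (by norm_num)]
    congr 1; ring
  calc _ ≤ _ := h4
    _ ≤ ((1/2 : NNReal) : ℝ≥0∞) * (U + V) + ((1/2 : NNReal) : ℝ≥0∞) *
        (3 * (U + V) + ENNReal.ofReal (2 * ε)) := by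
        gcongr
        exact h1.trans (by gcongr)
    _ = ((1/2 : NNReal) : ℝ≥0∞) * (4 * (U + V)) + ((1/2 : NNReal) : ℝ≥0∞) *
        ENNReal.ofReal (2 * ε) := by ring
    _ = _ := by rw [h5, h6]

end Pool.Agent.Lib.MP_653dc2_an
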