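import Pool.Agent.Lib.MP_653dc2_an.Defs

set_option autoImplicit false
open Set MeasureTheory Filter Topology
open scoped ENNReal

namespace Pool.Agent.Lib.MP_653dc2_an

variable {f g : ℝ → ℝ} {B C : ℝ} {x y r a b : ℝ}

theorem BM.nonneg (hf : BM f B) : 0 ≤ B := (abs_nonneg _).trans (hf.bdd 0)

theorem BM.intervalIntegrable (hf : BM f B) (a b : ℝ) : IntervalIntegrable f volume a b := by
  rw [intervalIntegrable_iff]
  refine Measure.integrableOn_of_bounded (M := B) (by simp) hf.meas.aestronglyMeasurable ?_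
  exact Eventually.of_forall fun x => by simpa using hf.bdd x

theorem BM.neg (hf : BM f B) : BM (fun x => - f x) B :=
  ⟨hf.meas.neg, fun x => by simpa using hf.bdd x⟩

theorem BM.add (hf : BM f B) (hg : BM g C) : BM (fun x => f x + g x) (B + C) :=
  ⟨hf.meas.add hg.meas, fun x => (abs_add_le _ _).trans (add_le_add (hf.bdd x) (hg.bdd x))⟩

theorem BM.sub (hf : BM f B) (hg : BM g C) : BM (fun x => f x - g x) (B + C) :=
  ⟨hf.meas.sub hg.meas, fun x => (abs_sub _ _).trans (add_le_add (hf.bdd x) (hg.bdd x))⟩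

theorem BM.mono (hf : BM f B) (h : B ≤ C) : BM f C := ⟨hf.meas, fun x => (hf.bdd x).trans h⟩

theorem BM.comp_neg (hf : BM f B) : BM (fun x => f (-x)) B :=
  ⟨hf.meas.comp measurable_neg, fun x => hf.bdd _⟩

theorem avg_eq_av (f : ℝ → ℝ) (x r : ℝ) : avg f x r = av f (x - r) (x + r) := by
  unfold avg av
  congr 2; ring

theorem av_const (c : ℝ) (h : a < b) : av (fun _ => c) a b = c := by
  unfold av
  have : b - a ≠ 0 := by linarith
  simp only [intervalIntegral.integral_const, smul_eq_mul]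
  field_simp

theorem av_mono_on (hf : BM f B) (hg : BM g C) (hab : a < b) (h : ∀ t ∈ Ioo a b, f t ≤ g t) :
    av f a b ≤ av g a b := by
  unfold av
  refine mul_le_mul_of_nonneg_left ?_ (inv_nonneg.2 (by linarith))
  exact intervalIntegral.integral_mono_on_of_le_Ioo hab.le (hf.intervalIntegrable _ _)
    (hg.intervalIntegrable _ _) h

theorem BM.const (c : ℝ) : BM (fun _ => c) |c| := ⟨measurable_const, fun _ => le_rfl⟩

theorem av_le (hf : BM f B) (hab : a < b) {c : ℝ} (h : ∀ t ∈ Ioo a b, f t ≤ c) : av f a b ≤ c := by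
  rw [← av_const c hab]
  exact av_mono_on hf (BM.const c) hab h

theorem le_av (hf : BM f B) (hab : a < b) {c : ℝ} (h : ∀ t ∈ Ioo a b, c ≤ f t) : c ≤ av f a b := by
  rw [← av_const c hab]
  exact av_mono_on (BM.const c) hf hab h

theorem avg_le (hf : BM f B) (hr : 0 < r) {c : ℝ} (h : ∀ t ∈ Ioo (x - r) (x + r), f t ≤ c) :
    avg f x r ≤ c := by
  rw [avg_eq_av]; exact av_le hf (by linarith) h

theorem le_avg (hf : BM f B) (hr : 0 < r) {c : ℝ} (h : ∀ t ∈ Ioo (x - r) (x + r), c ≤ f t) :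
    c ≤ avg f x r := by
  rw [avg_eq_av]; exact le_av hf (by linarith) h

/-- if the average is large there is a point with a large value -/
theorem exists_le_of_le_avg (hf : BM f B) (hr : 0 < r) {c : ℝ} (h : c ≤ avg f x r) {η : ℝ}
    (hη : 0 < η) : ∃ t ∈ Ioo (x - r) (x + r), c - η < f t := by
  by_contra hcon
  push Not at hcon
  linarith [avg_le hf hr hcon]

/-- if the average is small there is a point with a small value -/
theorem exists_le_of_avg_le (hf : BM f B) (hr : 0 < r) {c : ℝ} (h : avg f x r ≤ c) {η : ℝ}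
    (hη : 0 < η) : ∃ t ∈ Ioo (x - r) (x + r), f t < c + η := by
  by_contra hcon
  push Not at hcon
  linarith [le_avg hf hr hcon]

theorem integral_eq_mul_avg (f : ℝ → ℝ) (x : ℝ) (hr : 0 < r) :
    ∫ t in (x - r)..(x + r), f t = 2 * r * avg f x r := by
  unfold avg
  field_simp

theorem integral_eq_mul_av (f : ℝ → ℝ) (h : a < b) :
    ∫ t in a..b, f t = (b - a) * av f a b := by
  unfold av
  have : b - a ≠ 0 := by linarith
  field_simp

theorem abs_av_le (hf : BM f B) (hab : a < b) : |av f a b| ≤ B := by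
  rw [abs_le]
  exact ⟨le_av hf hab fun t _ => (abs_le.1 (hf.bdd t)).1, av_le hf hab fun t _ => (abs_le.1 (hf.bdd t)).2⟩

theorem abs_avg_le (hf : BM f B) (hr : 0 < r) : |avg f x r| ≤ B := by
  rw [avg_eq_av]; exact abs_av_le hf (by linarith)

theorem av_sub (hf : BM f B) (hg : BM g C) (a b : ℝ) :
    av (fun x => f x - g x) a b = av f a b - av g a b := by
  unfold av
  rw [intervalIntegral.integral_sub (hf.intervalIntegrable _ _) (hg.intervalIntegrable _ _)]
  ring

theorem av_add (hf : BM f B) (hg : BM g C) (a b : ℝ) :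
    av (fun x => f x + g x) a b = av f a b + av g a b := by
  unfold av
  rw [intervalIntegral.integral_add (hf.intervalIntegrable _ _) (hg.intervalIntegrable _ _)]
  ring

theorem av_neg (f : ℝ → ℝ) (a b : ℝ) : av (fun x => - f x) a b = - av f a b := by
  unfold av
  rw [intervalIntegral.integral_neg]
  ring

theorem avg_sub (hf : BM f B) (hg : BM g C) (x r : ℝ) :
    avg (fun x => f x - g x) x r = avg f x r - avg g x r := by
  simp only [avg_eq_av]; exact av_sub hf hg _ _

theorem avg_add (hf : BM f B) (hg : BM g C) (x r : ℝ) :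
    avg (fun x => f x + g x) x r = avg f x r + avg g x r := by
  simp only [avg_eq_av]; exact av_add hf hg _ _

theorem avg_neg (f : ℝ → ℝ) (x r : ℝ) : avg (fun x => - f x) x r = - avg f x r := by
  simp only [avg_eq_av]; exact av_neg f _ _

theorem avg_mono_on (hf : BM f B) (hg : BM g C) (hr : 0 < r)
    (h : ∀ t ∈ Ioo (x - r) (x + r), f t ≤ g t) : avg f x r ≤ avg g x r := by
  simp only [avg_eq_av]; exact av_mono_on hf hg (by linarith) h

theorem abs_avg_sub_le (hf : BM f B) (hg : BM g C) (hr : 0 < r) {η : ℝ}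
    (h : ∀ t ∈ Ioo (x - r) (x + r), |f t - g t| ≤ η) : |avg f x r - avg g x r| ≤ η := by
  rw [← avg_sub hf hg, abs_le]
  exact ⟨le_avg (hf.sub hg) hr fun t ht => (abs_le.1 (h t ht)).1,
    avg_le (hf.sub hg) hr fun t ht => (abs_le.1 (h t ht)).2⟩

theorem avg_congr_ae (h : f =ᵐ[volume] g) (x r : ℝ) : avg f x r = avg g x r := by
  unfold avg
  congr 1
  exact intervalIntegral.integral_congr_ae (h.mono fun _ h _ => h)

theorem avg_congr_on (h : ∀ t ∈ Ioo (x - r) (x + r), f t = g t) (hr : 0 ≤ r) :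
    avg f x r = avg g x r := by
  unfold avg
  congr 1
  refine intervalIntegral.integral_congr_Ioo_of_le (by linarith) fun t ht => h t ht

theorem Mx_congr_ae (R : Set ℝ) (h : f =ᵐ[volume] g) (x : ℝ) : Mx R f x = Mx R g x := by
  unfold Mx
  exact iSup_congr fun r => avg_congr_ae h x r

/-- averages of the reflected function -/
theorem avg_comp_neg (f : ℝ → ℝ) (x r : ℝ) : avg (fun t => f (-t)) x r = avg f (-x) r := by
  unfold avg
  rw [intervalIntegral.integral_comp_neg]
  congr 2 <;> ring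

theorem Mx_comp_neg (R : Set ℝ) (f : ℝ → ℝ) (x : ℝ) : Mx R (fun t => f (-t)) x = Mx R f (-x) := by
  unfold Mx
  exact iSup_congr fun r => avg_comp_neg f x r

/-- linear functions are reproduced by centred averages -/
theorem avg_linear (c d x : ℝ) (hr : 0 < r) : avg (fun t => c * t + d) x r = c * x + d := by
  unfold avg
  rw [intervalIntegral.integral_add (by apply Continuous.intervalIntegrable; fun_prop)
    (by apply Continuous.intervalIntegrable; fun_prop),
    intervalIntegral.integral_const_mul, integral_id]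
  simp only [intervalIntegral.integral_const, smul_eq_mul]
  field_simp
  ring

/-! ### bounds for `Mx` -/

variable {R S : Set ℝ}

theorem bddAbove_avg (hf : BM f B) (hR : R ⊆ Ioi 0) (x : ℝ) :
    BddAbove (range fun r : R => avg f x r) := by
  refine ⟨B, ?_⟩
  rintro _ ⟨r, rfl⟩
  exact (abs_le.1 (abs_avg_le hf (hR r.2))).2

theorem le_Mx (hf : BM f B) (hR : R ⊆ Ioi 0) (hr : r ∈ R) : avg f x r ≤ Mx R f x :=
  le_ciSup (bddAbove_avg hf hR x) (⟨r, hr⟩ : R)

theorem Mx_le (hR : R.Nonempty) {c : ℝ} (h : ∀ r ∈ R, avg f x r ≤ c) : Mx R f x ≤ c := by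
  have : Nonempty R := hR.to_subtype
  exact ciSup_le fun r => h r r.2

theorem exists_lt_avg (hR : R.Nonempty) {η : ℝ} (hη : 0 < η) (f : ℝ → ℝ) (x : ℝ) :
    ∃ r ∈ R, Mx R f x - η < avg f x r := by
  have : Nonempty R := hR.to_subtype
  obtain ⟨r, hr⟩ := exists_lt_of_lt_ciSup (show Mx R f x - η < ⨆ r : R, avg f x r from by
    unfold Mx; linarith)
  exact ⟨r, r.2, hr⟩

theorem abs_Mx_le (hf : BM f B) (hR : R ⊆ Ioi 0) (hne : R.Nonempty) : |Mx R f x| ≤ B := by
  obtain ⟨r, hr⟩ := hne
  rw [abs_le]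
  exact ⟨((abs_le.1 (abs_avg_le hf (hR hr))).1).trans (le_Mx hf hR hr),
    Mx_le ⟨r, hr⟩ fun s hs => (abs_le.1 (abs_avg_le hf (hR hs))).2⟩

theorem Mx_le_of_le (hf : BM f B) (hR : R ⊆ Ioi 0) (hne : R.Nonempty) {c : ℝ} (h : ∀ t, f t ≤ c) :
    Mx R f x ≤ c := Mx_le hne fun r hr => avg_le hf (hR hr) fun t _ => h t

/-- local comparison -/
theorem Mx_sub_le_on (hf : BM f B) (hg : BM g C) (hR : R ⊆ Ioi 0) (hne : R.Nonempty) {η : ℝ}
    (h : ∀ r ∈ R, ∀ t ∈ Ioo (x - r) (x + r), f t - g t ≤ η) : Mx R f x - Mx R g x ≤ η := by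
  rw [sub_le_iff_le_add]
  refine Mx_le hne fun r hr => ?_
  have h1 : avg f x r ≤ avg (fun t => g t + η) x r :=
    avg_mono_on hf (hg.add (BM.const η)) (hR hr) fun t ht => by linarith [h r hr t ht]
  have h2 : avg (fun t => g t + η) x r = avg g x r + η := by
    rw [avg_add hg (BM.const η)]
    congr 1
    rw [avg_eq_av, av_const _ (by linarith [hR hr, mem_Ioi.1 (hR hr)])]
  linarith [le_Mx (x := x) hg hR hr]

theorem abs_Mx_sub_le_on (hf : BM f B) (hg : BM g C) (hR : R ⊆ Ioi 0) (hne : R.Nonempty) {η : ℝ}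
    (h : ∀ r ∈ R, ∀ t ∈ Ioo (x - r) (x + r), |f t - g t| ≤ η) : |Mx R f x - Mx R g x| ≤ η := by
  rw [abs_sub_le_iff]
  exact ⟨Mx_sub_le_on hf hg hR hne fun r hr t ht => (abs_sub_le_iff.1 (h r hr t ht)).1,
    Mx_sub_le_on hg hf hR hne fun r hr t ht => (abs_sub_le_iff.1 (h r hr t ht)).2⟩

theorem abs_Mx_sub_le (hf : BM f B) (hg : BM g C) (hR : R ⊆ Ioi 0) (hne : R.Nonempty) {η : ℝ}
    (h : ∀ t, |f t - g t| ≤ η) : |Mx R f x - Mx R g x| ≤ η :=
  abs_Mx_sub_le_on hf hg hR hne fun _ _ t _ => h t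

theorem Mx_mono (hf : BM f B) (hS : S ⊆ Ioi 0) (hRS : R ⊆ S) (hne : R.Nonempty) :
    Mx R f x ≤ Mx S f x :=
  Mx_le hne fun _ hr => le_Mx hf hS (hRS hr)

theorem Mx_union (hf : BM f B) (hR : R ⊆ Ioi 0) (hS : S ⊆ Ioi 0) (hRne : R.Nonempty)
    (hSne : S.Nonempty) : Mx (R ∪ S) f x = max (Mx R f x) (Mx S f x) := by
  refine le_antisymm ?_ ?_
  · refine Mx_le (hRne.inl) fun r hr => ?_
    rcases hr with hr | hr
    · exact (le_Mx hf hR hr).trans (le_max_left _ _)
    · exact (le_Mx hf hS hr).trans (le_max_right _ _)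
  · exact max_le (Mx_mono hf (union_subset hR hS) subset_union_left hRne)
      (Mx_mono hf (union_subset hR hS) subset_union_right hSne)

/-- averages are Lipschitz in the centre -/
theorem avg_sub_le (hf : BM f B) (hr : 0 < r) (x y : ℝ) :
    |avg f x r - avg f y r| ≤ B / r * |x - y| := by
  have hB := hf.nonneg
  have h1 : (∫ t in (x - r)..(x + r), f t) - ∫ t in (y - r)..(y + r), f t =
      (∫ t in (y + r)..(x + r), f t) - ∫ t in (y - r)..(x - r), f t :=
    intervalIntegral.integral_interval_sub_interval_comm' (hf.intervalIntegrable _ _)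
      (hf.intervalIntegrable _ _) (hf.intervalIntegrable _ _)
  have h2 : |∫ t in (y + r)..(x + r), f t| ≤ B * |x - y| := by
    have := intervalIntegral.norm_integral_le_of_norm_le_const (f := f) (a := y + r) (b := x + r)
      (C := B) fun t _ => hf.bdd t
    simpa using this
  have h3 : |∫ t in (y - r)..(x - r), f t| ≤ B * |x - y| := by
    have := intervalIntegral.norm_integral_le_of_norm_le_const (f := f) (a := y - r) (b := x - r)
      (C := B) fun t _ => hf.bdd t
    simpa using this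
  unfold avg
  rw [← mul_sub, h1, abs_mul, abs_of_pos (inv_pos.2 (by positivity : (0:ℝ) < 2 * r))]
  calc (2 * r)⁻¹ * |(∫ t in (y + r)..(x + r), f t) - ∫ t in (y - r)..(x - r), f t|
      ≤ (2 * r)⁻¹ * (B * |x - y| + B * |x - y|) := by
        refine mul_le_mul_of_nonneg_left ?_ (by positivity)
        exact (abs_sub _ _).trans (add_le_add h2 h3)
    _ = B / r * |x - y| := by field_simp; ring

/-- maximal averages over radii at least `δ` are Lipschitz -/
theorem Mx_lip (hf : BM f B) {δ : ℝ} (hδ : 0 < δ) (hR : R ⊆ Ici δ) (hne : R.Nonempty) (x y : ℝ) :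
    |Mx R f x - Mx R f y| ≤ B / δ * |x - y| := by
  have hB := hf.nonneg
  have hR0 : R ⊆ Ioi 0 := fun r hr => lt_of_lt_of_le hδ (hR hr)
  have key : ∀ x y : ℝ, Mx R f x - Mx R f y ≤ B / δ * |x - y| := by
    intro x y
    rw [sub_le_iff_le_add]
    refine Mx_le hne fun r hr => ?_
    have h1 := (abs_le.1 (avg_sub_le hf (hR0 hr) x y)).2
    have h2 : B / r * |x - y| ≤ B / δ * |x - y| := by
      refine mul_le_mul_of_nonneg_right ?_ (abs_nonneg _)
      exact div_le_div_of_nonneg_left hB hδ (hR hr)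
    linarith [le_Mx (x := y) hf hR0 hr]
  rw [abs_sub_le_iff]
  refine ⟨key x y, ?_⟩
  rw [abs_sub_comm x y]
  exact key y x

theorem Mx_lipschitz (hf : BM f B) {δ : ℝ} (hδ : 0 < δ) (hR : R ⊆ Ici δ) (hne : R.Nonempty) :
    LipschitzWith (B / δ).toNNReal (Mx R f) := by
  refine LipschitzWith.of_dist_le_mul fun x y => ?_
  rw [Real.dist_eq, Real.dist_eq, Real.coe_toNNReal _ (div_nonneg hf.nonneg hδ.le)]
  exact Mx_lip hf hδ hR hne x y

theorem continuous_avg_left (hf : BM f B) (hr : 0 < r) : Continuous fun x => avg f x r := by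
  have : LipschitzWith (B / r).toNNReal fun x => avg f x r := by
    refine LipschitzWith.of_dist_le_mul fun x y => ?_
    rw [Real.dist_eq, Real.dist_eq, Real.coe_toNNReal _ (div_nonneg hf.nonneg hr.le)]
    exact avg_sub_le hf hr x y
  exact this.continuous

/-- the average is jointly continuous in centre and radius -/
theorem continuousOn_avg (hf : BM f B) :
    ContinuousOn (fun p : ℝ × ℝ => avg f p.1 p.2) {p | 0 < p.2} := by
  have h0 : Continuous fun x : ℝ => ∫ t in (0 : ℝ)..x, f t :=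
    intervalIntegral.continuous_primitive (fun a b => hf.intervalIntegrable a b) 0
  have h1 : ∀ p : ℝ × ℝ, avg f p.1 p.2 = (2 * p.2)⁻¹ * ((∫ t in (0:ℝ)..(p.1 + p.2), f t) -
      ∫ t in (0:ℝ)..(p.1 - p.2), f t) := by
    intro p
    unfold avg
    rw [intervalIntegral.integral_interval_sub_left (hf.intervalIntegrable _ _)
      (hf.intervalIntegrable _ _)]
  simp_rw [h1]
  refine ContinuousOn.mul ?_ ?_
  · refine ContinuousOn.inv₀ (by fun_prop) ?_
    intro p hp
    have : (0:ℝ) < p.2 := hp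
    positivity
  · refine Continuous.continuousOn ?_
    exact (h0.comp (by fun_prop : Continuous fun p : ℝ × ℝ => p.1 + p.2)).sub
      (h0.comp (by fun_prop : Continuous fun p : ℝ × ℝ => p.1 - p.2))

/-- strict lower bounds for `Mx` persist near a point -/
theorem lowerSemicontinuous_Mx (hf : BM f B) (hR : R ⊆ Ioi 0) (hne : R.Nonempty) :
    LowerSemicontinuous (Mx R f) := by
  intro x c hc
  obtain ⟨r, hr, hlt⟩ := exists_lt_avg hne (η := Mx R f x - c) (by linarith) f x
  have h1 : c < avg f x r := by linarith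
  have h2 := (continuous_avg_left hf (hR hr)).continuousAt.eventually (lt_mem_nhds h1)
  filter_upwards [h2] with y hy
  exact hy.trans_le (le_Mx hf hR hr)

theorem measurable_Mx (hf : BM f B) (hR : R ⊆ Ioi 0) (hne : R.Nonempty) : Measurable (Mx R f) :=
  (lowerSemicontinuous_Mx hf hR hne).measurable

end Pool.Agent.Lib.MP_653dc2_an
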