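import Pool.Agent.Lib.MP_653dc2_an.Basic

set_option autoImplicit false
open Set MeasureTheory Filter Topology
open scoped ENNReal

namespace Pool.Agent.Lib.MP_653dc2_an

/-- comparison of an average with an affine function -/
theorem abs_avg_sub_affine {F : ℝ → ℝ} {B : ℝ} (hF : BM F B) {y ρ c d η : ℝ} (hρ : 0 < ρ)
    (h : ∀ t ∈ Ioo (y - ρ) (y + ρ), |F t - (c * t + d)| ≤ η) : |avg F y ρ - (c * y + d)| ≤ η := by
  have hlin : avg (fun t => c * t + d) y ρ = c * y + d := avg_linear c d y hρ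
  have hi1 : IntervalIntegrable F volume (y - ρ) (y + ρ) := hF.intervalIntegrable _ _
  have hi2 : IntervalIntegrable (fun t => c * t + d) volume (y - ρ) (y + ρ) :=
    (by fun_prop : Continuous fun t => c * t + d).intervalIntegrable _ _
  have e2 : avg F y ρ - (c * y + d) =
      (2 * ρ)⁻¹ * ∫ t in (y - ρ)..(y + ρ), (F t - (c * t + d)) := by
    rw [intervalIntegral.integral_sub hi1 hi2, mul_sub]
    change avg F y ρ - (c * y + d) = avg F y ρ - avg (fun t => c * t + d) y ρ
    rw [hlin]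
  rw [e2, abs_mul, abs_of_pos (by positivity : 0 < (2 * ρ)⁻¹), inv_mul_le_iff₀ (by positivity)]
  have hle : y - ρ ≤ y + ρ := by linarith
  calc |∫ t in (y - ρ)..(y + ρ), (F t - (c * t + d))|
      ≤ ∫ t in (y - ρ)..(y + ρ), |F t - (c * t + d)| :=
        intervalIntegral.abs_integral_le_integral_abs hle
    _ ≤ ∫ _t in (y - ρ)..(y + ρ), η :=
        intervalIntegral.integral_mono_on_of_le_Ioo hle (hi1.sub hi2).abs
          intervalIntegrable_const h
    _ = 2 * ρ * η := by rw [intervalIntegral.integral_const, smul_eq_mul]; ring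

theorem avg_eq_primitive {F : ℝ → ℝ} {B : ℝ} (hF : BM F B) (y r : ℝ) :
    avg F y r = (2 * r)⁻¹ * ((∫ t in (0 : ℝ)..(y + r), F t) - ∫ t in (0 : ℝ)..(y - r), F t) := by
  rw [avg, intervalIntegral.integral_interval_sub_left (hF.intervalIntegrable _ _)
    (hF.intervalIntegrable _ _)]

theorem avg_diff_swap {F : ℝ → ℝ} {B : ℝ} (hF : BM F B) (x : ℝ) {r s : ℝ} (hr : 0 < r)
    (hs : 0 < s) :
    (avg F (x + r) s - avg F (x - r) s) / (2 * r) =
      (avg F (x + s) r - avg F (x - s) r) / (2 * s) := by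
  simp only [avg_eq_primitive hF]
  rw [show x + s + r = x + r + s by ring, show x + s - r = x - r + s by ring,
    show x - s + r = x + r - s by ring, show x - s - r = x - r - s by ring]
  field_simp
  ring

/-- the symmetric difference quotient is bounded in mean -/
theorem integral_diffquot_le {G : ℝ → ℝ} (hG : Continuous G) {r : ℝ} (hr : 0 < r) (hr1 : r ≤ 1) :
    ∫ x in (-2 : ℝ)..3, |(G (x + r) - G (x - r)) / (2 * r)| ≤
      r⁻¹ * ∫ x in (-3 : ℝ)..4, |G x| := by
  have hi : ∀ {u : ℝ → ℝ}, Continuous u → ∀ a b : ℝ, IntervalIntegrable u volume a b :=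
    fun h a b => h.intervalIntegrable a b
  have hc1 : Continuous fun x => |G (x + r)| := by fun_prop
  have hc2 : Continuous fun x => |G (x - r)| := by fun_prop
  have e1 : ∫ x in (-2 : ℝ)..3, |G (x + r)| ≤ ∫ x in (-3 : ℝ)..4, |G x| := by
    rw [intervalIntegral.integral_comp_add_right (fun x => |G x|)]
    apply intervalIntegral.integral_mono_interval (by linarith) (by linarith) (by linarith)
      (Eventually.of_forall fun x => abs_nonneg _) (hi (by fun_prop) _ _)
  have e2 : ∫ x in (-2 : ℝ)..3, |G (x - r)| ≤ ∫ x in (-3 : ℝ)..4, |G x| := by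
    rw [intervalIntegral.integral_comp_sub_right (fun x => |G x|)]
    apply intervalIntegral.integral_mono_interval (by linarith) (by linarith) (by linarith)
      (Eventually.of_forall fun x => abs_nonneg _) (hi (by fun_prop) _ _)
  calc ∫ x in (-2 : ℝ)..3, |(G (x + r) - G (x - r)) / (2 * r)|
      ≤ ∫ x in (-2 : ℝ)..3, (2 * r)⁻¹ * (|G (x + r)| + |G (x - r)|) := by
        apply intervalIntegral.integral_mono_on (by norm_num) (hi (by fun_prop) _ _)
          (hi (by fun_prop) _ _)
        intro x _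
        rw [abs_div, abs_of_pos (by positivity : 0 < 2 * r), div_eq_inv_mul]
        exact mul_le_mul_of_nonneg_left (abs_sub _ _) (by positivity)
    _ = (2 * r)⁻¹ * ((∫ x in (-2 : ℝ)..3, |G (x + r)|) + ∫ x in (-2 : ℝ)..3, |G (x - r)|) := by
        rw [intervalIntegral.integral_const_mul,
          intervalIntegral.integral_add (hi hc1 _ _) (hi hc2 _ _)]
    _ ≤ (2 * r)⁻¹ * ((∫ x in (-3 : ℝ)..4, |G x|) + ∫ x in (-3 : ℝ)..4, |G x|) := by gcongr
    _ = r⁻¹ * ∫ x in (-3 : ℝ)..4, |G x| := by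
        field_simp
        ring

/-- C1 -/
theorem tele (F : ℝ → ℝ) (N : NNReal) (hF : LipschitzWith N F) (hb : ∀ x, 0 ≤ F x ∧ F x ≤ 1)
    (ρ₀ : ℝ) (h0 : 0 < ρ₀) (h1 : ρ₀ ≤ 1) (S : ℝ)
    (hS : ∀ K : ℕ, ∑ k ∈ Finset.range K,
      (ρ₀ / 2 ^ k)⁻¹ * ∫ x in (-3 : ℝ)..4, |avg F x (ρ₀ / 2 ^ k) - F x| ≤ S) :
    ∫ x in (-2 : ℝ)..3, |deriv F x - (avg F (x + ρ₀) ρ₀ - avg F (x - ρ₀) ρ₀) / (2 * ρ₀)| ≤ 5 * S := by
  have hFc : Continuous F := hF.continuous
  have hFB : BM F 1 := ⟨hFc.measurable, fun x => by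
    rw [abs_le]; constructor <;> linarith [(hb x).1, (hb x).2]⟩
  have hS0 : 0 ≤ S := by simpa using hS 0
  set ρ : ℕ → ℝ := fun k => ρ₀ / 2 ^ k with hρ
  have hρpos : ∀ k, 0 < ρ k := fun k => by simp only [hρ]; positivity
  have hρ1 : ∀ k, ρ k ≤ 1 := fun k => by
    simp only [hρ]
    rw [div_le_one (by positivity)]
    exact h1.trans (one_le_pow₀ (by norm_num))
  have hρs : ∀ k, ρ k = 2 * ρ (k + 1) := fun k => by simp only [hρ, pow_succ]; field_simp
  have hρlim : Tendsto ρ atTop (𝓝 0) := by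
    have h2 : Tendsto (fun k : ℕ => ρ₀ * (1 / 2 : ℝ) ^ k) atTop (𝓝 (ρ₀ * 0)) :=
      (tendsto_pow_atTop_nhds_zero_of_lt_one (by norm_num) (by norm_num)).const_mul _
    rw [mul_zero] at h2
    refine h2.congr fun k => ?_
    simp only [hρ]
    rw [one_div, inv_pow, div_eq_mul_inv]
  set A : ℕ → ℝ → ℝ := fun k x => avg F x (ρ k) with hA
  have hAc : ∀ k, Continuous (A k) := fun k => continuous_avg_left hFB (hρpos k)
  set W : ℕ → ℝ → ℝ := fun k x => A k x - F x with hW
  have hWc : ∀ k, Continuous (W k) := fun k => (hAc k).sub hFc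
  set w : ℕ → ℝ := fun k => ∫ x in (-3 : ℝ)..4, |W k x| with hw
  set d : ℕ → ℝ → ℝ := fun k x => (A k (x + ρ k) - A k (x - ρ k)) / (2 * ρ k) with hd
  have hdc : ∀ k, Continuous (d k) := fun k => by
    have := hAc k
    simp only [hd]
    fun_prop
  have hi : ∀ {u : ℝ → ℝ}, Continuous u → ∀ a b : ℝ, IntervalIntegrable u volume a b :=
    fun h a b => h.intervalIntegrable a b
  have hw0 : ∀ k, 0 ≤ w k := fun k =>
    intervalIntegral.integral_nonneg (by norm_num) fun x _ => abs_nonneg _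
  -- one step
  have step : ∀ k, ∫ x in (-2 : ℝ)..3, |d k x - d (k + 1) x| ≤
      3 * ((ρ k)⁻¹ * w k) + 3 / 2 * ((ρ (k + 1))⁻¹ * w (k + 1)) := by
    intro k
    set G : ℝ → ℝ := fun x => W k x - W (k + 1) x with hG
    have hGc : Continuous G := (hWc k).sub (hWc (k + 1))
    have hid : ∀ x, d k x - d (k + 1) x =
        (G (x + ρ k) - G (x - ρ k)) / (2 * ρ k) +
          (G (x + ρ (k + 1)) - G (x - ρ (k + 1))) / (2 * ρ (k + 1)) := by
      intro x
      have h2 := avg_diff_swap hFB x (hρpos k) (hρpos (k + 1))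
      simp only [hd, hG, hW, hA] at h2 ⊢
      have e1 : (avg F (x + ρ k) (ρ k) - F (x + ρ k) - (avg F (x + ρ k) (ρ (k + 1)) - F (x + ρ k)) -
          (avg F (x - ρ k) (ρ k) - F (x - ρ k) - (avg F (x - ρ k) (ρ (k + 1)) - F (x - ρ k)))) /
          (2 * ρ k) = (avg F (x + ρ k) (ρ k) - avg F (x - ρ k) (ρ k)) / (2 * ρ k) -
          (avg F (x + ρ k) (ρ (k + 1)) - avg F (x - ρ k) (ρ (k + 1))) / (2 * ρ k) := by ring
      have e2 : (avg F (x + ρ (k + 1)) (ρ k) - F (x + ρ (k + 1)) -
          (avg F (x + ρ (k + 1)) (ρ (k + 1)) - F (x + ρ (k + 1))) -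
          (avg F (x - ρ (k + 1)) (ρ k) - F (x - ρ (k + 1)) -
          (avg F (x - ρ (k + 1)) (ρ (k + 1)) - F (x - ρ (k + 1))))) / (2 * ρ (k + 1)) =
          (avg F (x + ρ (k + 1)) (ρ k) - avg F (x - ρ (k + 1)) (ρ k)) / (2 * ρ (k + 1)) -
          (avg F (x + ρ (k + 1)) (ρ (k + 1)) - avg F (x - ρ (k + 1)) (ρ (k + 1))) /
            (2 * ρ (k + 1)) := by ring
      rw [e1, e2, h2]
      ring
    have hGw : ∫ x in (-3 : ℝ)..4, |G x| ≤ w k + w (k + 1) := by
      simp only [hw]
      rw [← intervalIntegral.integral_add (hi (hWc k).abs _ _) (hi (hWc (k + 1)).abs _ _)]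
      exact intervalIntegral.integral_mono_on (by norm_num) (hi hGc.abs _ _)
        (hi ((hWc k).abs.add (hWc (k + 1)).abs) _ _) fun x _ => abs_sub _ _
    have b1 := integral_diffquot_le hGc (hρpos k) (hρ1 k)
    have b2 := integral_diffquot_le hGc (hρpos (k + 1)) (hρ1 (k + 1))
    have c1 : Continuous fun x => |(G (x + ρ k) - G (x - ρ k)) / (2 * ρ k)| := by fun_prop
    have c2 : Continuous fun x => |(G (x + ρ (k + 1)) - G (x - ρ (k + 1))) / (2 * ρ (k + 1))| := by
      fun_prop
    calc ∫ x in (-2 : ℝ)..3, |d k x - d (k + 1) x|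
        ≤ ∫ x in (-2 : ℝ)..3, (|(G (x + ρ k) - G (x - ρ k)) / (2 * ρ k)| +
            |(G (x + ρ (k + 1)) - G (x - ρ (k + 1))) / (2 * ρ (k + 1))|) := by
          apply intervalIntegral.integral_mono_on (by norm_num)
            (hi ((hdc k).sub (hdc (k + 1))).abs _ _) (hi (c1.add c2) _ _)
          intro x _
          change |d k x - d (k + 1) x| ≤ |(G (x + ρ k) - G (x - ρ k)) / (2 * ρ k)| +
            |(G (x + ρ (k + 1)) - G (x - ρ (k + 1))) / (2 * ρ (k + 1))|
          rw [hid]
          exact abs_add_le _ _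
      _ = (∫ x in (-2 : ℝ)..3, |(G (x + ρ k) - G (x - ρ k)) / (2 * ρ k)|) +
            ∫ x in (-2 : ℝ)..3, |(G (x + ρ (k + 1)) - G (x - ρ (k + 1))) / (2 * ρ (k + 1))| :=
          intervalIntegral.integral_add (hi c1 _ _) (hi c2 _ _)
      _ ≤ (ρ k)⁻¹ * (∫ x in (-3 : ℝ)..4, |G x|) + (ρ (k + 1))⁻¹ * ∫ x in (-3 : ℝ)..4, |G x| :=
          add_le_add b1 b2
      _ ≤ (ρ k)⁻¹ * (w k + w (k + 1)) + (ρ (k + 1))⁻¹ * (w k + w (k + 1)) := by
          have p1 := inv_pos.2 (hρpos k)
          have p2 := inv_pos.2 (hρpos (k + 1))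
          gcongr
      _ = 3 * ((ρ k)⁻¹ * w k) + 3 / 2 * ((ρ (k + 1))⁻¹ * w (k + 1)) := by
          rw [hρs k]
          have := (hρpos (k + 1)).ne'
          field_simp
          ring
  -- telescoping
  have tel : ∀ K, ∫ x in (-2 : ℝ)..3, |d K x - d 0 x| ≤
      3 * (∑ k ∈ Finset.range K, (ρ k)⁻¹ * w k) +
        3 / 2 * ∑ k ∈ Finset.range (K + 1), (ρ k)⁻¹ * w k := by
    intro K
    induction K with
    | zero =>
      simp only [sub_self, abs_zero, intervalIntegral.integral_zero, Finset.range_zero,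
        Finset.sum_empty, mul_zero, zero_add, Finset.sum_range_one]
      have := hw0 0
      have := inv_pos.2 (hρpos 0)
      positivity
    | succ K ih =>
      have h2 : ∫ x in (-2 : ℝ)..3, |d (K + 1) x - d 0 x| ≤
          (∫ x in (-2 : ℝ)..3, |d K x - d (K + 1) x|) + ∫ x in (-2 : ℝ)..3, |d K x - d 0 x| := by
        have c1 : Continuous fun x => |d K x - d (K + 1) x| := ((hdc K).sub (hdc (K + 1))).abs
        have c2 : Continuous fun x => |d K x - d 0 x| := ((hdc K).sub (hdc 0)).abs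
        have c3 : Continuous fun x => |d (K + 1) x - d 0 x| := ((hdc (K + 1)).sub (hdc 0)).abs
        rw [← intervalIntegral.integral_add (hi c1 _ _) (hi c2 _ _)]
        apply intervalIntegral.integral_mono_on (by norm_num) (hi c3 _ _) (hi (c1.add c2) _ _)
        intro x _
        change |d (K + 1) x - d 0 x| ≤ |d K x - d (K + 1) x| + |d K x - d 0 x|
        have : d (K + 1) x - d 0 x = -(d K x - d (K + 1) x) + (d K x - d 0 x) := by ring
        rw [this]
        exact (abs_add_le _ _).trans (by rw [abs_neg])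
      rw [Finset.sum_range_succ _ K, Finset.sum_range_succ _ (K + 1)]
      have := step K
      linarith
  have bound : ∀ K, ∫ x in (-2 : ℝ)..3, |d K x - d 0 x| ≤ 5 * S := by
    intro K
    refine (tel K).trans ?_
    have a1 := hS K
    have a2 := hS (K + 1)
    change ∑ k ∈ Finset.range K, (ρ k)⁻¹ * w k ≤ S at a1
    change ∑ k ∈ Finset.range (K + 1), (ρ k)⁻¹ * w k ≤ S at a2
    linarith
  -- the limit
  have hdlim : ∀ᵐ x, Tendsto (fun K => d K x) atTop (𝓝 (deriv F x)) := by
    filter_upwards [hF.ae_differentiableAt] with x hx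
    rw [Metric.tendsto_atTop]
    intro η hη
    have hder := hx.hasDerivAt.isLittleO
    have h2 := hder.def (c := η / 3) (by positivity)
    rw [Metric.eventually_nhds_iff] at h2
    obtain ⟨δ, hδ, h3⟩ := h2
    have h4 : ∀ᶠ K in atTop, ρ K < δ / 2 := (hρlim.eventually (gt_mem_nhds (by positivity)))
    obtain ⟨K₀, hK₀⟩ := eventually_atTop.1 h4
    refine ⟨K₀, fun K hK => ?_⟩
    have hρK := hK₀ K hK
    have hpos := hρpos K
    have key : ∀ t, |t - x| ≤ 2 * ρ K →
        |F t - (deriv F x * t + (F x - deriv F x * x))| ≤ η / 3 * (2 * ρ K) := by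
      intro t ht
      have h5 := h3 (y := t) (by rw [Real.dist_eq]; linarith)
      rw [Real.norm_eq_abs, Real.norm_eq_abs] at h5
      have e : F t - (deriv F x * t + (F x - deriv F x * x)) =
          F t - F x - (t - x) • deriv F x := by rw [smul_eq_mul]; ring
      rw [e]
      exact h5.trans (mul_le_mul_of_nonneg_left ht (by positivity))
    have k1 := abs_avg_sub_affine hFB (y := x + ρ K) hpos (c := deriv F x)
      (d := F x - deriv F x * x) (η := η / 3 * (2 * ρ K)) (fun t ht => key t (by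
        rw [abs_le]; constructor <;> linarith [ht.1, ht.2]))
    have k2 := abs_avg_sub_affine hFB (y := x - ρ K) hpos (c := deriv F x)
      (d := F x - deriv F x * x) (η := η / 3 * (2 * ρ K)) (fun t ht => key t (by
        rw [abs_le]; constructor <;> linarith [ht.1, ht.2]))
    rw [Real.dist_eq]
    have e : d K x - deriv F x =
        ((avg F (x + ρ K) (ρ K) - (deriv F x * (x + ρ K) + (F x - deriv F x * x))) -
          (avg F (x - ρ K) (ρ K) - (deriv F x * (x - ρ K) + (F x - deriv F x * x)))) /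
            (2 * ρ K) := by
      simp only [hd, hA]
      field_simp
      ring
    rw [e, abs_div, abs_of_pos (by positivity : 0 < 2 * ρ K), div_lt_iff₀ (by positivity)]
    refine (abs_sub _ _).trans_lt ?_
    nlinarith
  have hdb : ∀ K x, |d K x| ≤ N := by
    intro K x
    have hLip : ∀ y z, |A K y - A K z| ≤ N * |y - z| := by
      intro y z
      have e1 : A K y - A K z = (2 * ρ K)⁻¹ * ∫ t in (-(ρ K))..(ρ K), (F (y + t) - F (z + t)) := by
        rw [intervalIntegral.integral_sub (hi (by fun_prop) _ _) (hi (by fun_prop) _ _),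
          intervalIntegral.integral_comp_add_left (fun t => F t),
          intervalIntegral.integral_comp_add_left (fun t => F t)]
        simp only [hA, avg]
        rw [← sub_eq_add_neg, ← sub_eq_add_neg]
        ring
      rw [e1, abs_mul, abs_of_pos (by have := hρpos K; positivity : 0 < (2 * ρ K)⁻¹),
        inv_mul_le_iff₀ (by have := hρpos K; positivity)]
      have h4 := intervalIntegral.norm_integral_le_of_norm_le_const (a := -(ρ K)) (b := ρ K)
        (f := fun t => F (y + t) - F (z + t)) (C := N * |y - z|) (fun t _ => ?_)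
      · rw [Real.norm_eq_abs] at h4
        refine h4.trans (le_of_eq ?_)
        rw [sub_neg_eq_add, abs_of_pos (by linarith [hρpos K] : 0 < ρ K + ρ K)]
        ring
      · have := hF.dist_le_mul (y + t) (z + t)
        rw [Real.dist_eq, Real.dist_eq] at this
        rw [Real.norm_eq_abs]
        refine this.trans (le_of_eq ?_)
        congr 2
        ring
    have := hLip (x + ρ K) (x - ρ K)
    simp only [hd]
    rw [abs_div, abs_of_pos (by linarith [hρpos K] : 0 < 2 * ρ K),
      div_le_iff₀ (by linarith [hρpos K])]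
    refine this.trans (le_of_eq ?_)
    rw [show x + ρ K - (x - ρ K) = 2 * ρ K by ring, abs_of_pos (by linarith [hρpos K])]
  have hd0 : d 0 = fun x => (avg F (x + ρ₀) ρ₀ - avg F (x - ρ₀) ρ₀) / (2 * ρ₀) := by
    simp only [hd, hA, hρ, pow_zero, div_one]
  have hlim : Tendsto (fun K => ∫ x in (-2 : ℝ)..3, |d K x - d 0 x|) atTop
      (𝓝 (∫ x in (-2 : ℝ)..3, |deriv F x - d 0 x|)) := by
    apply intervalIntegral.tendsto_integral_filter_of_dominated_convergence (fun _ => 2 * (N : ℝ))
    · exact Eventually.of_forall fun K =>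
        ((hdc K).sub (hdc 0)).abs.aestronglyMeasurable
    · exact Eventually.of_forall fun K => Eventually.of_forall fun x _ => by
        rw [Real.norm_eq_abs, abs_abs]
        have a1 := hdb K x
        have a2 := hdb 0 x
        exact (abs_sub _ _).trans (by linarith)
    · exact intervalIntegrable_const
    · filter_upwards [hdlim] with x hx _
      exact (hx.sub_const _).abs
  have fin := le_of_tendsto' hlim bound
  rw [hd0] at fin
  exact fin

end Pool.Agent.Lib.MP_653dc2_an
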