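import Pool.Agent.Lib.MP_653dc2_an.Basic

set_option autoImplicit false
open Set MeasureTheory Filter Topology
open scoped ENNReal

namespace Pool.Agent.Lib.MP_653dc2_an

variable {f : ℝ → ℝ} {B : ℝ} {R : Set ℝ}

theorem integral_le_of_le (hf : BM f B) {a b c : ℝ} (hab : a ≤ b) (h : ∀ t ∈ Ioo a b, f t ≤ c) :
    ∫ t in a..b, f t ≤ (b - a) * c := by
  rcases hab.eq_or_lt with rfl | hab'
  · simp
  · rw [integral_eq_mul_av f hab']
    exact mul_le_mul_of_nonneg_left (av_le hf hab' h) (by linarith)

/-- comparison of an almost optimal average at `y` with averages at a point `y + d` to its right -/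
theorem slope_right (hf : BM f B) (hR : R ⊆ Ioi 0) (hRd : ∀ r ∈ R, ∀ r', 0 < r' → r' ≤ r → r' ∈ R)
    {y r d σ η : ℝ} (hr : r ∈ R) (hd : 0 ≤ d) (hdr : d < r)
    (hσ : ∀ t ∈ Ioo (y - r) (y - r + 2 * d), f t ≤ σ) (hη : Mx R f y - η ≤ avg f y r) :
    Mx R f y - Mx R f (y + d) ≤ η + d / r * (σ - Mx R f (y + d)) := by
  have hr0 : 0 < r := hR hr
  have h1 : 2 * r * avg f y r = (∫ t in (y - r)..(y - r + 2 * d), f t) +
      2 * (r - d) * avg f (y + d) (r - d) := by
    rw [← integral_eq_mul_avg f y hr0, ← integral_eq_mul_avg f (y + d) (by linarith : 0 < r - d)]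
    have e1 : y + d - (r - d) = y - r + 2 * d := by ring
    have e2 : y + d + (r - d) = y + r := by ring
    rw [e1, e2, intervalIntegral.integral_add_adjacent_intervals (hf.intervalIntegrable _ _)
      (hf.intervalIntegrable _ _)]
  have h2 : ∫ t in (y - r)..(y - r + 2 * d), f t ≤ (y - r + 2 * d - (y - r)) * σ :=
    integral_le_of_le hf (by linarith) hσ
  have h3 : avg f (y + d) (r - d) ≤ Mx R f (y + d) :=
    le_Mx hf hR (hRd r hr (r - d) (by linarith) (by linarith))
  have h4 : 2 * (r - d) * avg f (y + d) (r - d) ≤ 2 * (r - d) * Mx R f (y + d) :=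
    mul_le_mul_of_nonneg_left h3 (by linarith)
  have h5 : 2 * r * (Mx R f y - η) ≤ 2 * r * avg f y r :=
    mul_le_mul_of_nonneg_left hη (by linarith)
  have h6 : r * (Mx R f y - Mx R f (y + d)) ≤ r * (η + d / r * (σ - Mx R f (y + d))) := by
    have : r * (η + d / r * (σ - Mx R f (y + d))) = r * η + d * (σ - Mx R f (y + d)) := by
      field_simp
    rw [this]
    nlinarith
  exact le_of_mul_le_mul_left h6 hr0

theorem slope_left (hf : BM f B) (hR : R ⊆ Ioi 0) (hRd : ∀ r ∈ R, ∀ r', 0 < r' → r' ≤ r → r' ∈ R)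
    {y r d σ η : ℝ} (hr : r ∈ R) (hd : 0 ≤ d) (hdr : d < r)
    (hσ : ∀ t ∈ Ioo (y + r - 2 * d) (y + r), f t ≤ σ) (hη : Mx R f y - η ≤ avg f y r) :
    Mx R f y - Mx R f (y - d) ≤ η + d / r * (σ - Mx R f (y - d)) := by
  have h := slope_right (f := fun t => f (-t)) (B := B) hf.comp_neg hR hRd (y := -y) (r := r)
    (d := d) (σ := σ) (η := η) hr hd hdr ?_ ?_
  · rw [Mx_comp_neg, Mx_comp_neg] at h
    have e1 : -(-y + d) = y - d := by ring
    rw [neg_neg, e1] at h
    exact h
  · intro t ht
    exact hσ (-t) ⟨by linarith [ht.2], by linarith [ht.1]⟩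
  · rw [Mx_comp_neg, avg_comp_neg, neg_neg]
    exact hη

/-- averages ignore the value at one point -/
theorem av_le_except (hf : BM f B) {a b c p : ℝ} (hab : a < b)
    (h : ∀ t ∈ Ioo a b, t ≠ p → f t ≤ c) : av f a b ≤ c := by
  classical
  have h1 : av f a b = av (fun t => if t = p then min (f t) c else f t) a b := by
    unfold av
    congr 1
    refine intervalIntegral.integral_congr_ae ?_
    have : ∀ᵐ t ∂(volume : Measure ℝ), t ≠ p := by
      simp [ae_iff]
    filter_upwards [this] with t ht _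
    rw [if_neg ht]
  rw [h1]
  have hf' : BM (fun t => if t = p then min (f t) c else f t) (max B |c|) := by
    refine ⟨Measurable.ite (measurableSet_singleton p) (hf.meas.min measurable_const) hf.meas, ?_⟩
    intro x
    have h2 := abs_le.1 (hf.bdd x)
    have h3 := le_max_left B |c|
    have h4 := le_max_right B |c|
    have h5 := neg_abs_le c
    have h6 := le_abs_self c
    split_ifs
    · rw [abs_le]
      refine ⟨le_min (by linarith) (by linarith), (min_le_left _ _).trans (by linarith)⟩
    · exact (hf.bdd x).trans h3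
  refine av_le hf' hab fun t ht => ?_
  split_ifs with h2
  · exact min_le_right _ _
  · exact h t ht h2

/-- main geometric input: if `f ≤ l` between `a` and `b`, all averages at `a` and `b` are at most `l`,
and some average at the point `x` between them exceeds `θ ≥ l`, there is a pattern around -/
theorem bad_pattern (hf : BM f B) (hR : R ⊆ Ioi 0)
    (hRd : ∀ r ∈ R, ∀ r', 0 < r' → r' ≤ r → r' ∈ R) {a b x r l θ : ℝ} (hax : a < x) (hxb : x < b)
    (hr : r ∈ R) (ha : Mx R f a ≤ l) (hb : Mx R f b ≤ l) (hl : ∀ t ∈ Ioo a b, f t ≤ l)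
    (hlθ : l ≤ θ) (hθ : θ < avg f x r) :
    ∃ s m₁ m₂ t : ℝ, s < m₁ ∧ m₁ < m₂ ∧ m₂ < t ∧ r / 4 ≤ m₂ - m₁ ∧ x - r < s ∧ t < x + r ∧
      s < x ∧ x < t ∧ θ < f s ∧ θ < f t ∧ av f m₁ m₂ ≤ l := by
  have hr0 : 0 < r := hR hr
  -- right centre
  have key1 : b < x + r → ∃ s, x - r < s ∧ s < 2 * b - x - r ∧ s < a ∧ θ < f s := by
    intro hbr
    by_contra hcon
    push Not at hcon
    have h1 : ∀ t ∈ Ioo (x - r) (2 * b - x - r), t ≠ a → f t ≤ θ := by
      intro t ht hta
      rcases lt_trichotomy t a with h | h | h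
      · exact hcon t ht.1 ht.2 h
      · exact absurd h hta
      · exact (hl t ⟨h, by linarith [ht.2]⟩).trans hlθ
    have h2 : av f (x - r) (2 * b - x - r) ≤ θ := av_le_except hf (by linarith) h1
    have h3 : 2 * r * avg f x r = (2 * b - x - r - (x - r)) * av f (x - r) (2 * b - x - r) +
        2 * (x + r - b) * avg f b (x + r - b) := by
      rw [← integral_eq_mul_avg f x hr0, ← integral_eq_mul_avg f b (by linarith : 0 < x + r - b),
        ← integral_eq_mul_av f (by linarith : x - r < 2 * b - x - r)]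
      have e1 : b - (x + r - b) = 2 * b - x - r := by ring
      have e2 : b + (x + r - b) = x + r := by ring
      rw [e1, e2, intervalIntegral.integral_add_adjacent_intervals (hf.intervalIntegrable _ _)
        (hf.intervalIntegrable _ _)]
    have h4 : avg f b (x + r - b) ≤ l :=
      (le_Mx hf hR (hRd r hr _ (by linarith) (by linarith))).trans hb
    nlinarith
  have key2 : x - r < a → ∃ t, 2 * a - x + r < t ∧ t < x + r ∧ b < t ∧ θ < f t := by
    intro har
    by_contra hcon
    push Not at hcon
    have h1 : ∀ t ∈ Ioo (2 * a - x + r) (x + r), t ≠ b → f t ≤ θ := by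
      intro t ht htb
      rcases lt_trichotomy t b with h | h | h
      · exact (hl t ⟨by linarith [ht.1], h⟩).trans hlθ
      · exact absurd h htb
      · exact hcon t ht.1 ht.2 h
    have h2 : av f (2 * a - x + r) (x + r) ≤ θ := av_le_except hf (by linarith) h1
    have h3 : 2 * r * avg f x r = 2 * (a - x + r) * avg f a (a - x + r) +
        (x + r - (2 * a - x + r)) * av f (2 * a - x + r) (x + r) := by
      rw [← integral_eq_mul_avg f x hr0, ← integral_eq_mul_avg f a (by linarith : 0 < a - x + r),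
        ← integral_eq_mul_av f (by linarith : 2 * a - x + r < x + r)]
      have e1 : a - (a - x + r) = x - r := by ring
      have e2 : a + (a - x + r) = 2 * a - x + r := by ring
      rw [e1, e2, intervalIntegral.integral_add_adjacent_intervals (hf.intervalIntegrable _ _)
        (hf.intervalIntegrable _ _)]
    have h4 : avg f a (a - x + r) ≤ l :=
      (le_Mx hf hR (hRd r hr _ (by linarith) (by linarith))).trans ha
    nlinarith
  have hboth : b < x + r ∧ x - r < a := by
    by_cases h1 : b < x + r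
    · obtain ⟨s, hs1, -, hs3, -⟩ := key1 h1
      exact ⟨h1, by linarith⟩
    · by_cases h2 : x - r < a
      · obtain ⟨t, -, ht2, ht3, -⟩ := key2 h2
        exact ⟨by linarith, h2⟩
      · exfalso
        have : avg f x r ≤ l := avg_le hf hr0 fun t ht =>
          hl t ⟨by linarith [ht.1], by linarith [ht.2]⟩
        linarith
  obtain ⟨s, hs1, hs2, hs3, hs4⟩ := key1 hboth.1
  obtain ⟨t, ht1, ht2, ht3, ht4⟩ := key2 hboth.2
  by_cases hcase : r / 4 ≤ b - a
  · refine ⟨s, a, b, t, hs3, by linarith, ht3, hcase, hs1, ht2, by linarith, by linarith, hs4, ht4,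
      av_le hf (by linarith) hl⟩
  · push Not at hcase
    refine ⟨s, a - r / 8, a + r / 8, t, by linarith, by linarith, by linarith, by linarith, hs1,
      ht2, by linarith, by linarith, hs4, ht4, ?_⟩
    rw [← avg_eq_av]
    exact (le_Mx hf hR (hRd r hr _ (by linarith) (by linarith))).trans ha

end Pool.Agent.Lib.MP_653dc2_an
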