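import Pool.Agent.Lib.MP_653dc2_an.Levels
import Pool.Agent.Lib.MP_653dc2_an.Slope

set_option autoImplicit false
open Set MeasureTheory Filter Topology
open scoped ENNReal

namespace Pool.Agent.Lib.MP_653dc2_an

/-- the data of the finite argument: points `x i`, almost optimal radii `r i` -/
structure Ctx (f : ℝ → ℝ) (B : ℝ) (R K : Set ℝ) (x : ℕ → ℝ) (N : ℕ) (η : ℝ) (r : ℕ → ℝ) : Prop where
  bm : BM f B
  pos : R ⊆ Ioi 0
  down : ∀ r ∈ R, ∀ r', 0 < r' → r' ≤ r → r' ∈ R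
  conn : K.OrdConnected
  mono : ∀ i j, i < j → j ≤ N → x i < x j
  mem : ∀ i ≤ N, x i ∈ K
  eta : 0 < η
  rad : ∀ i, r i ∈ R
  near : ∀ i, Mx R f (x i) - η < avg f (x i) (r i)

/-- the class of the index `i` -/
noncomputable def cls (x r : ℕ → ℝ) (i : ℕ) : ℤ × ℤ :=
  (Int.log 2 (r i), ⌊x i / ((2 : ℝ) ^ (Int.log 2 (r i)) / 8)⌋)

variable {f : ℝ → ℝ} {B : ℝ} {R K : Set ℝ} {x : ℕ → ℝ} {N : ℕ} {η : ℝ} {r : ℕ → ℝ}

theorem Ctx.le_of_le (h : Ctx f B R K x N η r) {i j : ℕ} (hij : i ≤ j) (hj : j ≤ N) : x i ≤ x j := by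
  rcases hij.eq_or_lt with rfl | h'
  · exact le_rfl
  · exact (h.mono i j h' hj).le

theorem cls_spec (h : Ctx f B R K x N η r) (i : ℕ) :
    (2 : ℝ) ^ (cls x r i).1 ≤ r i ∧ r i < 2 * (2 : ℝ) ^ (cls x r i).1 ∧
      (cls x r i).2 * ((2 : ℝ) ^ (cls x r i).1 / 8) ≤ x i ∧
      x i < (cls x r i).2 * ((2 : ℝ) ^ (cls x r i).1 / 8) + (2 : ℝ) ^ (cls x r i).1 / 8 := by
  have hr : 0 < r i := h.pos (h.rad i)
  have hp : (0 : ℝ) < (2 : ℝ) ^ (Int.log 2 (r i)) := by positivity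
  have hp8 : (0 : ℝ) < (2 : ℝ) ^ (Int.log 2 (r i)) / 8 := by positivity
  refine ⟨?_, ?_, ?_, ?_⟩
  · exact_mod_cast Int.zpow_log_le_self (b := 2) (by norm_num) hr
  · have := Int.lt_zpow_succ_log_self (b := 2) (R := ℝ) (by norm_num) (r i)
    rw [zpow_add₀ (by norm_num)] at this
    simp only [Nat.cast_ofNat, zpow_one] at this
    simp only [cls]
    linarith
  · simp only [cls]
    have := Int.floor_le (x i / ((2 : ℝ) ^ (Int.log 2 (r i)) / 8))
    rwa [le_div_iff₀ hp8] at this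
  · simp only [cls]
    have := Int.lt_floor_add_one (x i / ((2 : ℝ) ^ (Int.log 2 (r i)) / 8))
    rw [div_lt_iff₀ hp8] at this
    linarith

open Classical in
theorem class_S (h : Ctx f B R K x N η r) (t : ℕ) (ht : t ≤ N)
    (htop : ∀ i ≤ N, cls x r i = cls x r t → Mx R f (x i) ≤ Mx R f (x t)) :
    ∃ (s m₁ m₂ s' : ℝ) (M : ℕ) (v w : ℕ → ℝ), IsPat (cls x r t) s m₁ m₂ s' ∧
      Seen R K (cls x r t).1 s s' ∧ M ≤ N ∧
      ∑ k ∈ Finset.range M, max (v k - w k) 0 ≤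
        M * η + 1 / 8 * (max (min (f s) (f s') - av f m₁ m₂) 0 + η) ∧
      ∀ (l : ℝ) (Y : Finset ℕ), (∀ i ∈ Y, i < N ∧ cls x r i = cls x r t ∧ Mx R f (x (i + 1)) ≤ l ∧
          l < Mx R f (x i) ∧ ¬ (t ≤ i ∧ ∀ k, t ≤ k → k ≤ i → l < Mx R f (x k))) →
        (Y.card : ℝ) ≤ ∑ k ∈ Finset.range M, ind (w k) (v k) l := by
  set c := cls x r t with hc
  set U : ℕ → ℝ := fun i => Mx R f (x i) with hU
  set H : ℝ := (2 : ℝ) ^ c.1 with hH
  have hHpos : 0 < H := by positivity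
  have hRne : R.Nonempty := ⟨_, h.rad 0⟩
  set X : Finset ℕ := (Finset.range (N + 1)).filter (fun i => cls x r i = c) with hX
  have hXmem : ∀ i, i ∈ X ↔ i ≤ N ∧ cls x r i = c := by
    intro i; simp only [hX, Finset.mem_filter, Finset.mem_range]; constructor
    · rintro ⟨h1, h2⟩; exact ⟨by omega, h2⟩
    · rintro ⟨h1, h2⟩; exact ⟨by omega, h2⟩
  have htX : t ∈ X := (hXmem t).2 ⟨ht, rfl⟩
  have hspec : ∀ i ∈ X, H ≤ r i ∧ r i < 2 * H ∧ c.2 * (H / 8) ≤ x i ∧ x i < c.2 * (H / 8) + H / 8 := by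
    intro i hi
    have := cls_spec h i
    rw [((hXmem i).1 hi).2] at this
    exact this
  obtain ⟨M, q, hq1, hq2, hq3⟩ := exists_enum X ⟨t, htX⟩
  have hqN : ∀ k ≤ M, q k ≤ N := fun k hk => ((hXmem _).1 (hq2 k hk)).1
  have hMN : M ≤ N := by
    have : ∀ k ≤ M, k ≤ q k := by
      intro k hk
      induction k with
      | zero => omega
      | succ n ih =>
        have := hq1 n (n + 1) (by omega) hk
        have := ih (by omega)
        omega
    exact (this M le_rfl).trans (hqN M le_rfl)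
  -- smallest values between consecutive elements of the class
  have hargmin : ∀ a b : ℕ, a ≤ b → ∃ z, a ≤ z ∧ z ≤ b ∧ ∀ z', a ≤ z' → z' ≤ b → U z ≤ U z' := by
    intro a b hab
    obtain ⟨z, hz, hz'⟩ := Finset.exists_min_image (Finset.Icc a b) U
      ⟨a, Finset.mem_Icc.2 ⟨le_rfl, hab⟩⟩
    rw [Finset.mem_Icc] at hz
    exact ⟨z, hz.1, hz.2, fun z' h1 h2 => hz' z' (Finset.mem_Icc.2 ⟨h1, h2⟩)⟩
  have hstep : ∀ k, ∃ z, k < M → q k ≤ z ∧ z ≤ q (k + 1) ∧
      ∀ z', q k ≤ z' → z' ≤ q (k + 1) → U z ≤ U z' := by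
    intro k
    by_cases hk : k < M
    · obtain ⟨z, h1, h2, h3⟩ := hargmin (q k) (q (k + 1)) (hq1 k (k + 1) (by omega) (by omega)).le
      exact ⟨z, fun _ => ⟨h1, h2, h3⟩⟩
    · exact ⟨0, fun hk' => absurd hk' hk⟩
  choose a ha using hstep
  have hqmono : ∀ k k', k ≤ k' → k' ≤ M → q k ≤ q k' := by
    intro k k' hk hk'
    rcases hk.eq_or_lt with rfl | h'
    · exact le_rfl
    · exact (hq1 k k' h' hk').le
  obtain ⟨b, hb1, hb2, hb3⟩ := hargmin (q 0) (q M) (hqmono 0 M (by omega) le_rfl)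
  have hbN : b ≤ N := hb2.trans (hqN M le_rfl)
  have hxb : c.2 * (H / 8) ≤ x b ∧ x b < c.2 * (H / 8) + H / 8 := by
    have h1 := (hspec _ (hq2 0 (by omega))).2.2.1
    have h2 := (hspec _ (hq2 M le_rfl)).2.2.2
    exact ⟨h1.trans (h.le_of_le hb1 hbN), (h.le_of_le hb2 (hqN M le_rfl)).trans_lt h2⟩
  have hUab : ∀ k < M, U b ≤ U (a k) := fun k hk =>
    hb3 _ ((hqmono 0 k (by omega) hk.le).trans (ha k hk).1)
      ((ha k hk).2.1.trans (hqmono (k + 1) M hk le_rfl))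
  -- the two zones
  have hzone : ∀ Z : Set ℝ, Z.Nonempty → ∃ σ : ℝ, (∀ z ∈ Z, f z ≤ σ) ∧ ∃ z ∈ Z, σ - η < f z := by
    intro Z hZ
    have hbdd : BddAbove (f '' Z) := ⟨B, by
      rintro _ ⟨z, -, rfl⟩
      exact (abs_le.1 (h.bm.bdd z)).2⟩
    refine ⟨sSup (f '' Z), fun z hz => le_csSup hbdd ⟨z, hz, rfl⟩, ?_⟩
    obtain ⟨_, ⟨z, hz, rfl⟩, hlt⟩ := exists_lt_of_lt_csSup (hZ.image f)
      (show sSup (f '' Z) - η < sSup (f '' Z) by linarith [h.eta])
    exact ⟨z, hz, hlt⟩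
  obtain ⟨σL, hσL, s, ⟨e, heX, hs1, hs2⟩, hs3⟩ := hzone
    {z | ∃ e ∈ X, x e - r e < z ∧ z < x e - r e + H / 4}
    ⟨x t - r t + H / 8, t, htX, by linarith, by linarith⟩
  obtain ⟨σR, hσR, s', ⟨e', heX', hs1', hs2'⟩, hs3'⟩ := hzone
    {z | ∃ e ∈ X, x e + r e - H / 4 < z ∧ z < x e + r e}
    ⟨x t + r t - H / 8, t, htX, by linarith, by linarith⟩
  have hse := hspec e heX
  have hse' := hspec e' heX'
  have hpat : IsPat c s (x b - H / 2) (x b + H / 2) s' := by
    refine ⟨by linarith, by linarith, by linarith, ?_, by linarith, ?_⟩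
    · rw [← hH]; linarith
    · rw [← hH, abs_le]; constructor <;> linarith
  have hseen : Seen R K c.1 s s' := by
    refine ⟨⟨x b, h.mem b hbN, by linarith, by linarith⟩,
      ⟨x e, h.mem e ((hXmem e).1 heX).1, r e, h.rad e, ?_, hs1⟩,
      ⟨x e', h.mem e' ((hXmem e').1 heX').1, r e', h.rad e', ?_, hs2'⟩⟩
    · rw [← hH]; exact hse.2.1
    · rw [← hH]; exact hse'.2.1
  have hav : av f (x b - H / 2) (x b + H / 2) ≤ U b := by
    rw [← avg_eq_av]
    exact le_Mx h.bm h.pos (h.down (r t) (h.rad t) (H / 2) (by linarith)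
      (by linarith [(hspec t htX).1]))
  -- sum of gaps
  have hgap : ∑ k ∈ Finset.range M, (x (q (k + 1)) - x (q k)) ≤ H / 8 := by
    rw [Finset.sum_range_sub (fun k => x (q k))]
    have h1 := (hspec _ (hq2 0 (by omega))).2.2.1
    have h2 := (hspec _ (hq2 M le_rfl)).2.2.2
    linarith
  have hgapk : ∀ k < M, x (q (k + 1)) - x (q k) ≤ H / 8 := by
    intro k hk
    have h1 := (hspec _ (hq2 k hk.le)).2.2.1
    have h2 := (hspec _ (hq2 (k + 1) hk)).2.2.2
    linarith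
  -- generic bound for one step
  have hone : ∀ (d g rr σ y₁ : ℝ), 0 ≤ d → d ≤ g → H ≤ rr → U b ≤ y₁ →
      η + d / rr * (σ - y₁) ≤ η + g / H * max (σ - U b) 0 := by
    intro d g rr σ y₁ hd hdg hrr hy
    have h1 : d / rr * (σ - y₁) ≤ d / rr * max (σ - U b) 0 :=
      mul_le_mul_of_nonneg_left (le_max_of_le_left (by linarith)) (div_nonneg hd (by linarith))
    have h2 : d / rr ≤ g / H := by
      rw [div_le_div_iff₀ (by linarith) hHpos]
      nlinarith
    have h3 := mul_le_mul_of_nonneg_right h2 (le_max_right (σ - U b) 0)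
    linarith
  have hleft : ∀ k < M, U (q k) - U (a k) ≤ η + (x (q (k + 1)) - x (q k)) / H * max (σL - U b) 0 := by
    intro k hk
    obtain ⟨h1, h2, -⟩ := ha k hk
    have hqk := hspec _ (hq2 k hk.le)
    have hx1 : x (q k) ≤ x (a k) := h.le_of_le h1 (h2.trans (hqN _ hk))
    have hx2 : x (a k) ≤ x (q (k + 1)) := h.le_of_le h2 (hqN _ hk)
    have hg := hgapk k hk
    have h3 := slope_right h.bm h.pos h.down (y := x (q k)) (r := r (q k)) (d := x (a k) - x (q k))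
      (σ := σL) (η := η) (h.rad _) (by linarith) (by linarith) ?_ (h.near _).le
    · rw [add_sub_cancel] at h3
      exact h3.trans (hone _ _ _ _ _ (by linarith) (by linarith) hqk.1 (hUab k hk))
    · intro z hz
      exact hσL z ⟨q k, hq2 k hk.le, hz.1, by linarith [hz.2]⟩
  have hright : ∀ k < M, U (q (k + 1)) - U (a k) ≤
      η + (x (q (k + 1)) - x (q k)) / H * max (σR - U b) 0 := by
    intro k hk
    obtain ⟨h1, h2, -⟩ := ha k hk
    have hqk := hspec _ (hq2 (k + 1) hk)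
    have hx1 : x (q k) ≤ x (a k) := h.le_of_le h1 (h2.trans (hqN _ hk))
    have hx2 : x (a k) ≤ x (q (k + 1)) := h.le_of_le h2 (hqN _ hk)
    have hg := hgapk k hk
    have h3 := slope_left h.bm h.pos h.down (y := x (q (k + 1))) (r := r (q (k + 1)))
      (d := x (q (k + 1)) - x (a k)) (σ := σR) (η := η) (h.rad _) (by linarith) (by linarith) ?_
      (h.near _).le
    · rw [sub_sub_cancel] at h3
      exact h3.trans (hone _ _ _ _ _ (by linarith) (by linarith) hqk.1 (hUab k hk))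
    · intro z hz
      exact hσR z ⟨q (k + 1), hq2 (k + 1) hk, by linarith [hz.1], hz.2⟩
  -- summation
  have hsum : ∀ (v : ℕ → ℝ) (σ : ℝ), (∀ k < M, v k - U (a k) ≤
      η + (x (q (k + 1)) - x (q k)) / H * max (σ - U b) 0) →
      ∑ k ∈ Finset.range M, max (v k - U (a k)) 0 ≤ M * η + 1 / 8 * max (σ - U b) 0 := by
    intro v σ hv
    have hnn := le_max_right (σ - U b) 0
    calc ∑ k ∈ Finset.range M, max (v k - U (a k)) 0
        ≤ ∑ k ∈ Finset.range M, (η + (x (q (k + 1)) - x (q k)) / H * max (σ - U b) 0) := by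
          refine Finset.sum_le_sum fun k hk => max_le (hv k (Finset.mem_range.1 hk)) ?_
          have hk' := Finset.mem_range.1 hk
          have : x (q k) ≤ x (q (k + 1)) := h.le_of_le (hqmono k (k + 1) (by omega) hk') (hqN _ hk')
          have h1 : 0 ≤ (x (q (k + 1)) - x (q k)) / H := div_nonneg (by linarith) hHpos.le
          have := h.eta
          positivity
      _ = M * η + (∑ k ∈ Finset.range M, (x (q (k + 1)) - x (q k))) / H * max (σ - U b) 0 := by
          rw [Finset.sum_add_distrib, Finset.sum_const, Finset.card_range, nsmul_eq_mul,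
            Finset.sum_div, Finset.sum_mul]
      _ ≤ M * η + 1 / 8 * max (σ - U b) 0 := by
          have : (∑ k ∈ Finset.range M, (x (q (k + 1)) - x (q k))) / H ≤ 1 / 8 := by
            rw [div_le_iff₀ hHpos]; linarith
          nlinarith
  have hP : min σL σR - U b ≤ max (min (f s) (f s') - av f (x b - H / 2) (x b + H / 2)) 0 + η := by
    have h1 : min σL σR - η ≤ min (f s) (f s') := by
      refine le_min ?_ ?_
      · linarith [min_le_left σL σR]
      · linarith [min_le_right σL σR]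
    have h2 := le_max_left (min (f s) (f s') - av f (x b - H / 2) (x b + H / 2)) 0
    linarith
  have hPnn : 0 ≤ max (min (f s) (f s') - av f (x b - H / 2) (x b + H / 2)) 0 + η :=
    add_nonneg (le_max_right _ _) h.eta.le
  have hcount := fun (l : ℝ) (Y : Finset ℕ) (hY : ∀ i ∈ Y, i < N ∧ cls x r i = c ∧
      Mx R f (x (i + 1)) ≤ l ∧ l < Mx R f (x i) ∧
        ¬ (t ≤ i ∧ ∀ k, t ≤ k → k ≤ i → l < Mx R f (x k))) =>
    S_count U X M q hq1 hq2 hq3 t htX (fun i hi => htop i ((hXmem i).1 hi).1 ((hXmem i).1 hi).2)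
      (fun k => U (a k)) (fun k hk => (ha k hk).2.2) l Y (fun i hi =>
        ⟨(hXmem i).2 ⟨(hY i hi).1.le, (hY i hi).2.1⟩, (hY i hi).2.2.1, (hY i hi).2.2.2.1,
          (hY i hi).2.2.2.2⟩)
  rcases le_total σL σR with hcase | hcase
  · refine ⟨s, x b - H / 2, x b + H / 2, s', M, fun k => U (q k), fun k => U (a k), hpat, hseen,
      hMN, ?_, fun l Y hY => (hcount l Y hY).1⟩
    refine (hsum _ σL hleft).trans ?_
    rw [min_eq_left hcase] at hP
    have : max (σL - U b) 0 ≤ max (min (f s) (f s') - av f (x b - H / 2) (x b + H / 2)) 0 + η :=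
      max_le hP hPnn
    linarith
  · refine ⟨s, x b - H / 2, x b + H / 2, s', M, fun k => U (q (k + 1)), fun k => U (a k), hpat,
      hseen, hMN, ?_, fun l Y hY => (hcount l Y hY).2⟩
    refine (hsum _ σR hright).trans ?_
    rw [min_eq_right hcase] at hP
    have : max (σR - U b) 0 ≤ max (min (f s) (f s') - av f (x b - H / 2) (x b + H / 2)) 0 + η :=
      max_le hP hPnn
    linarith

/-- a level at which `f` does not exceed the level in the run of `t` produces a pattern -/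
theorem bad_level (h : Ctx f B R K x N η r) (t : ℕ) (ht : t ≤ N) (l : ℝ)
    (hl : l < Mx R f (x t) - η) (h1 : ∃ p < t, Mx R f (x p) ≤ l)
    (h2 : ∃ p, t < p ∧ p ≤ N ∧ Mx R f (x p) ≤ l)
    (hbad : ¬ ∃ z, l < f z ∧ (∀ p < t, Mx R f (x p) ≤ l → x p < z) ∧
      ∀ p, t < p → p ≤ N → Mx R f (x p) ≤ l → z < x p) :
    ∃ s m₁ m₂ s' : ℝ, IsPat (cls x r t) s m₁ m₂ s' ∧ Seen R K (cls x r t).1 s s' ∧
      Mx R f (x t) - η - l ≤ max (min (f s) (f s') - av f m₁ m₂) 0 := by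
  classical
  -- nearest places below the level
  obtain ⟨p, hp, hpmax⟩ := Finset.exists_max_image
    ((Finset.range t).filter (fun p => Mx R f (x p) ≤ l)) id (by
      obtain ⟨p, hp1, hp2⟩ := h1
      exact ⟨p, by simp [hp1, hp2]⟩)
  obtain ⟨p', hp', hpmin⟩ := Finset.exists_min_image
    ((Finset.Ioc t N).filter (fun p => Mx R f (x p) ≤ l)) id (by
      obtain ⟨p, hp1, hp2, hp3⟩ := h2
      exact ⟨p, by simp [hp1, hp2, hp3]⟩)
  simp only [Finset.mem_filter, Finset.mem_range] at hp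
  simp only [Finset.mem_filter, Finset.mem_Ioc] at hp'
  have hfl : ∀ z ∈ Ioo (x p) (x p'), f z ≤ l := by
    intro z hz
    by_contra hcon
    refine hbad ⟨z, not_le.1 hcon, fun k hk1 hk2 => ?_, fun k hk1 hk2 hk3 => ?_⟩
    · have : k ≤ p := hpmax k (by simp [hk1, hk2])
      exact (h.le_of_le this (hp.1.le.trans ht)).trans_lt hz.1
    · have : p' ≤ k := hpmin k (by simp [hk1, hk2, hk3])
      exact hz.2.trans_le (h.le_of_le this hk2)
  obtain ⟨s, m₁, m₂, s', a1, a2, a3, a4, a5, a6, a7, a8, a9, a10, a11⟩ :=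
    bad_pattern h.bm h.pos h.down (h.mono p t hp.1 ht) (h.mono t p' hp'.1.1 hp'.1.2) (h.rad t)
      hp.2 hp'.2 hfl hl.le (h.near t)
  have hspec := cls_spec h t
  refine ⟨s, m₁, m₂, s', ⟨a1, a2, a3, by linarith, by linarith, ?_⟩,
    ⟨⟨x t, h.mem t ht, a7, a8⟩, ⟨x t, h.mem t ht, r t, h.rad t, hspec.2.1, a5⟩,
      ⟨x t, h.mem t ht, r t, h.rad t, hspec.2.1, a6⟩⟩, ?_⟩
  · rw [abs_le]; constructor <;> linarith
  · refine le_max_of_le_left ?_
    have : Mx R f (x t) - η ≤ min (f s) (f s') := le_min a9.le a10.le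
    linarith

theorem class_T (h : Ctx f B R K x N η r) (t : ℕ) (ht : t ≤ N) :
    ∃ τ z : ℝ, (Mx R f (x t) - τ ≤ 3 * η ∨ ∃ s m₁ m₂ s' : ℝ, IsPat (cls x r t) s m₁ m₂ s' ∧
        Seen R K (cls x r t).1 s s' ∧
        Mx R f (x t) - τ ≤ 3 * η + max (min (f s) (f s') - av f m₁ m₂) 0) ∧
      ∀ l < τ, (∃ p < t, Mx R f (x p) ≤ l) → (∃ p, t < p ∧ p ≤ N ∧ Mx R f (x p) ≤ l) →
        l < f z ∧ z ∈ K ∧ (∀ p < t, Mx R f (x p) ≤ l → x p < z) ∧
          ∀ p, t < p → p ≤ N → Mx R f (x p) ≤ l → z < x p := by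
  classical
  have hη := h.eta
  have hRne : R.Nonempty := ⟨_, h.rad 0⟩
  set Int : ℝ → Prop := fun l => (∃ p < t, Mx R f (x p) ≤ l) ∧
    (∃ p, t < p ∧ p ≤ N ∧ Mx R f (x p) ≤ l) with hInt
  have hIntmono : ∀ l l', l ≤ l' → Int l → Int l' := by
    rintro l l' hll ⟨⟨p, hp1, hp2⟩, p', hp3, hp4, hp5⟩
    exact ⟨⟨p, hp1, hp2.trans hll⟩, p', hp3, hp4, hp5.trans hll⟩
  have hIntB : ∀ l, Int l → -B ≤ l := by
    rintro l ⟨⟨p, hp1, hp2⟩, -⟩
    exact (abs_le.1 (abs_Mx_le h.bm h.pos hRne)).1.trans hp2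
  set Good : ℝ → Prop := fun l => ∃ z, l < f z ∧ (∀ p < t, Mx R f (x p) ≤ l → x p < z) ∧
      ∀ p, t < p → p ≤ N → Mx R f (x p) ≤ l → z < x p with hGood
  set G : Set ℝ := {l | l < Mx R f (x t) ∧ Int l ∧ Good l} with hG
  rcases G.eq_empty_or_nonempty with hGe | hGne
  · set A : Set ℝ := {l | l < Mx R f (x t) ∧ Int l} with hA
    rcases A.eq_empty_or_nonempty with hAe | hAne
    · refine ⟨Mx R f (x t), x t, Or.inl (by linarith), fun l hl h1 h2 => ?_⟩
      have : l ∈ A := ⟨hl, h1, h2⟩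
      rw [hAe] at this
      exact absurd this (notMem_empty l)
    · have hAb : BddBelow A := ⟨-B, fun l hl => hIntB l hl.2⟩
      refine ⟨sInf A, x t, ?_, fun l hl h1 h2 => ?_⟩
      · obtain ⟨l, hlA, hl⟩ := exists_lt_of_csInf_lt hAne
          (show sInf A < sInf A + η by linarith)
        by_cases hcase : l < Mx R f (x t) - η
        · right
          have hng : ¬ Good l := by
            intro hg
            have : l ∈ G := ⟨hlA.1, hlA.2, hg⟩
            rw [hGe] at this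
            exact absurd this (notMem_empty l)
          obtain ⟨s, m₁, m₂, s', a1, a2, a3⟩ := bad_level h t ht l hcase hlA.2.1 hlA.2.2 hng
          exact ⟨s, m₁, m₂, s', a1, a2, by linarith⟩
        · left
          linarith
      · exfalso
        obtain ⟨l', hl'⟩ := hAne
        have hlt : l < Mx R f (x t) := by
          have := csInf_le hAb hl'
          linarith [hl'.1]
        have := csInf_le hAb (⟨hlt, h1, h2⟩ : l ∈ A)
        linarith
  · have hGb : BddAbove G := ⟨Mx R f (x t), fun l hl => hl.1.le⟩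
    obtain ⟨l₀, hl₀G, hl₀⟩ := exists_lt_of_lt_csSup hGne
      (show sSup G - η < sSup G by linarith)
    obtain ⟨z, hz1, hz2, hz3⟩ := hl₀G.2.2
    refine ⟨l₀, z, ?_, fun l hl h1 h2 => ?_⟩
    · by_cases hcase : sSup G + 2 * η < Mx R f (x t)
      · right
        have hl0le : l₀ ≤ sSup G := le_csSup hGb hl₀G
        set l := sSup G + η / 2 with hl
        have hIntl : Int l := hIntmono l₀ l (by linarith) hl₀G.2.1
        have hng : ¬ Good l := by
          intro hg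
          have : l ∈ G := ⟨by linarith, hIntl, hg⟩
          linarith [le_csSup hGb this]
        obtain ⟨s, m₁, m₂, s', a1, a2, a3⟩ := bad_level h t ht l (by linarith) hIntl.1 hIntl.2 hng
        exact ⟨s, m₁, m₂, s', a1, a2, by linarith⟩
      · left
        linarith
    · obtain ⟨p, hp1, hp2⟩ := h1
      obtain ⟨p', hp1', hp2', hp3'⟩ := h2
      refine ⟨by linarith, ?_, fun k hk1 hk2 => hz2 k hk1 (by linarith),
        fun k hk1 hk2 hk3 => hz3 k hk1 hk2 (by linarith)⟩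
      exact h.conn.out (h.mem p (by omega)) (h.mem p' hp2')
        ⟨(hz2 p hp1 (by linarith)).le, (hz3 p' hp1' hp2' (by linarith)).le⟩

end Pool.Agent.Lib.MP_653dc2_an
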