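import Pool.Agent.Lib.MP_653dc2_an.ClassEst

set_option autoImplicit false
open Set MeasureTheory Filter Topology
open scoped ENNReal

namespace Pool.Agent.Lib.MP_653dc2_an

variable {f : ℝ → ℝ} {B : ℝ} {R K : Set ℝ} {x : ℕ → ℝ} {N : ℕ} {η : ℝ} {r : ℕ → ℝ}

/-- infimum of `f` between consecutive points of `q` -/
noncomputable def winf (f : ℝ → ℝ) (q : ℕ → ℝ) (j : ℕ) : ℝ := sInf (f '' Icc (q j) (q (j + 1)))

theorem winf_le (hf : BM f B) (q : ℕ → ℝ) (j : ℕ) {y : ℝ} (h1 : q j ≤ y) (h2 : y ≤ q (j + 1)) :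
    winf f q j ≤ f y :=
  csInf_le ⟨-B, by rintro _ ⟨z, -, rfl⟩; exact (abs_le.1 (hf.bdd z)).1⟩ ⟨y, ⟨h1, h2⟩, rfl⟩

theorem exists_lt_winf (q : ℕ → ℝ) (j : ℕ) (hq : q j ≤ q (j + 1)) {ε : ℝ} (hε : 0 < ε) :
    ∃ y, q j ≤ y ∧ y ≤ q (j + 1) ∧ f y < winf f q j + ε := by
  obtain ⟨_, ⟨y, hy, rfl⟩, hlt⟩ := exists_lt_of_csInf_lt
    ((nonempty_Icc.2 hq).image f) (show sInf (f '' Icc (q j) (q (j + 1))) <
      winf f q j + ε by unfold winf; linarith)
  exact ⟨y, hy.1, hy.2, hlt⟩

theorem sum_winf_dec (q : ℕ → ℝ) (M : ℕ) (hq : ∀ a b, a < b → b ≤ M → q a < q b)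
    (hK : K.OrdConnected) (hqK : ∀ k ≤ M, q k ∈ K) {e : ℝ} (he : DecLe f K e) :
    ∑ j ∈ Finset.range M, (f (q j) - winf f q j) ≤ e := by
  refine le_of_forall_pos_le_add fun ε hε => ?_
  have hM : (0 : ℝ) < M + 1 := by positivity
  have hex : ∀ j, ∃ y, j < M → q j ≤ y ∧ y ≤ q (j + 1) ∧ f y < winf f q j + ε / (M + 1) := by
    intro j
    by_cases hj : j < M
    · obtain ⟨y, h1, h2, h3⟩ := exists_lt_winf (f := f) q j (hq j (j + 1) (by omega) hj).le
        (div_pos hε hM)
      exact ⟨y, fun _ => ⟨h1, h2, h3⟩⟩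
    · exact ⟨0, fun h => absurd h hj⟩
  choose y hy using hex
  have h1 := he M q y (fun i hi => ⟨hqK i hi.le, hK.out (hqK i hi.le) (hqK (i + 1) hi)
    ⟨(hy i hi).1, (hy i hi).2.1⟩, (hy i hi).1⟩) (fun i hi => (hy i (by omega)).2.1)
  calc ∑ j ∈ Finset.range M, (f (q j) - winf f q j)
      ≤ ∑ j ∈ Finset.range M, ((f (q j) - f (y j)) + ε / (M + 1)) :=
        Finset.sum_le_sum fun j hj => by linarith [(hy j (Finset.mem_range.1 hj)).2.2]
    _ = ∑ j ∈ Finset.range M, (f (q j) - f (y j)) + M * (ε / (M + 1)) := by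
        rw [Finset.sum_add_distrib, Finset.sum_const, Finset.card_range, nsmul_eq_mul]
    _ ≤ e + ε := by
        have : M * (ε / (M + 1)) ≤ ε := by
          rw [← mul_div_assoc, div_le_iff₀ hM]; nlinarith
        linarith

theorem sum_winf_inc (q : ℕ → ℝ) (M : ℕ) (hq : ∀ a b, a < b → b ≤ M → q a < q b)
    (hK : K.OrdConnected) (hqK : ∀ k ≤ M, q k ∈ K) {e : ℝ} (he : IncLe f K e) :
    ∑ j ∈ Finset.range M, (f (q (j + 1)) - winf f q j) ≤ e := by
  refine le_of_forall_pos_le_add fun ε hε => ?_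
  have hM : (0 : ℝ) < M + 1 := by positivity
  have hex : ∀ j, ∃ y, j < M → q j ≤ y ∧ y ≤ q (j + 1) ∧ f y < winf f q j + ε / (M + 1) := by
    intro j
    by_cases hj : j < M
    · obtain ⟨y, h1, h2, h3⟩ := exists_lt_winf (f := f) q j (hq j (j + 1) (by omega) hj).le
        (div_pos hε hM)
      exact ⟨y, fun _ => ⟨h1, h2, h3⟩⟩
    · exact ⟨0, fun h => absurd h hj⟩
  choose y hy using hex
  have h1 := he M y (fun j => q (j + 1)) (fun i hi => ⟨hK.out (hqK i hi.le) (hqK (i + 1) hi)
    ⟨(hy i hi).1, (hy i hi).2.1⟩, hqK (i + 1) hi, (hy i hi).2.1⟩)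
    (fun i hi => (hy (i + 1) hi).1)
  calc ∑ j ∈ Finset.range M, (f (q (j + 1)) - winf f q j)
      ≤ ∑ j ∈ Finset.range M, ((f (q (j + 1)) - f (y j)) + ε / (M + 1)) :=
        Finset.sum_le_sum fun j hj => by linarith [(hy j (Finset.mem_range.1 hj)).2.2]
    _ = ∑ j ∈ Finset.range M, (f (q (j + 1)) - f (y j)) + M * (ε / (M + 1)) := by
        rw [Finset.sum_add_distrib, Finset.sum_const, Finset.card_range, nsmul_eq_mul]
    _ ≤ e + ε := by
        have : M * (ε / (M + 1)) ≤ ε := by
          rw [← mul_div_assoc, div_le_iff₀ hM]; nlinarith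
        linarith

/-- between two places on both sides of a point where `Mx ≤ l` some infimum is at most `l` -/
theorem exists_winf_le (hf : BM f B) (hR : R ⊆ Ioi 0) (hRne : R.Nonempty)
    (hRd : ∀ r ∈ R, ∀ r', 0 < r' → r' ≤ r → r' ∈ R)
    (q : ℕ → ℝ) {M j j' : ℕ} (hq : ∀ a b, a < b → b ≤ M → q a < q b) (hj : j < j') (hj' : j' ≤ M)
    {p l : ℝ} (h1 : q j < p) (h2 : p < q j') (hl : Mx R f p ≤ l) :
    ∃ a, j ≤ a ∧ a < j' ∧ winf f q a ≤ l := by
  by_contra hcon
  push Not at hcon
  obtain ⟨a₀, ha₀, hmin⟩ := Finset.exists_min_image (Finset.Ico j j') (winf f q)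
    ⟨j, Finset.mem_Ico.2 ⟨le_rfl, hj⟩⟩
  rw [Finset.mem_Ico] at ha₀
  have hpos := hcon a₀ ha₀.1 ha₀.2
  obtain ⟨r, hr⟩ := hRne
  have hr0 : 0 < r := hR hr
  set ρ := min r (min (p - q j) (q j' - p)) with hρ
  have hρ0 : 0 < ρ := lt_min hr0 (lt_min (by linarith) (by linarith))
  have hρ1 : ρ ≤ p - q j := (min_le_right _ _).trans (min_le_left _ _)
  have hρ2 : ρ ≤ q j' - p := (min_le_right _ _).trans (min_le_right _ _)
  have hav : avg f p ρ ≤ l := (le_Mx hf hR (hRd r hr ρ hρ0 (min_le_left _ _))).trans hl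
  obtain ⟨y, hy, hfy⟩ := exists_le_of_avg_le hf hρ0 hav
    (show 0 < winf f q a₀ - l by linarith)
  have hy1 : q j ≤ y := by linarith [hy.1]
  have hy2 : y ≤ q j' := by linarith [hy.2]
  -- locate y
  have hloc : ∀ n, j < n → n ≤ M → y ≤ q n → ∃ a, j ≤ a ∧ a < n ∧ q a ≤ y ∧ y ≤ q (a + 1) := by
    intro n
    induction n with
    | zero => intro h; omega
    | succ n ih =>
      intro hn hnM hyn
      rcases (show j ≤ n by omega).eq_or_lt with h | h
      · exact ⟨n, by omega, by omega, by rw [← h]; exact hy1, hyn⟩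
      · by_cases h3 : y ≤ q n
        · obtain ⟨a, b1, b2, b3, b4⟩ := ih h (by omega) h3
          exact ⟨a, b1, by omega, b3, b4⟩
        · exact ⟨n, by omega, by omega, (not_le.1 h3).le, hyn⟩
  obtain ⟨a, b1, b2, b3, b4⟩ := hloc j' hj hj' hy2
  have h5 := hmin a (Finset.mem_Ico.2 ⟨b1, b2⟩)
  have h6 := winf_le hf q a b3 b4
  linarith

open Classical in
theorem core_finite (h : Ctx f B R K x N η r) {ω e E : ℝ}
    (hω : ∀ i ≤ N, ∀ j ≤ N, Mx R f (x i) - Mx R f (x j) ≤ ω)
    (hgood : DecLe f K e ∨ IncLe f K e)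
    (hpat : ∀ (F : Finset (ℤ × ℤ)) (s m₁ m₂ t : ℤ × ℤ → ℝ),
        (∀ c ∈ F, IsPat c (s c) (m₁ c) (m₂ c) (t c) ∧ Seen R K c.1 (s c) (t c)) →
        ∑ c ∈ F, max (min (f (s c)) (f (t c)) - av f (m₁ c) (m₂ c)) 0 ≤ E) :
    ∑ i ∈ Finset.range N, max (Mx R f (x i) - Mx R f (x (i + 1))) 0 ≤
      2 * ω + 2 * E + e + (N + 1) * (N + 4) * η := by
  have hη := h.eta
  have hRne : R.Nonempty := ⟨_, h.rad 0⟩
  set U : ℕ → ℝ := fun i => Mx R f (x i) with hU
  set F : Finset (ℤ × ℤ) := (Finset.range (N + 1)).image (cls x r) with hF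
  have hFcard : F.card ≤ N + 1 := by
    have := Finset.card_image_le (s := Finset.range (N + 1)) (f := cls x r)
    simpa using this
  have hmemF : ∀ i ≤ N, cls x r i ∈ F := fun i hi =>
    Finset.mem_image_of_mem _ (Finset.mem_range.2 (by omega))
  have hE0 : 0 ≤ E := by simpa using hpat ∅ 0 0 0 0 (by simp)
  -- tops
  have htop : ∀ c, ∃ t, c ∈ F → t ≤ N ∧ cls x r t = c ∧ ∀ i ≤ N, cls x r i = c → U i ≤ U t := by
    intro c
    by_cases hc : c ∈ F
    · obtain ⟨i, hi, hic⟩ := Finset.mem_image.1 hc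
      obtain ⟨t, ht, htm⟩ := Finset.exists_max_image
        ((Finset.range (N + 1)).filter (fun i => cls x r i = c)) U
        ⟨i, Finset.mem_filter.2 ⟨hi, hic⟩⟩
      simp only [Finset.mem_filter, Finset.mem_range] at ht htm
      exact ⟨t, fun _ => ⟨by omega, ht.2, fun i hi hic => htm i ⟨by omega, hic⟩⟩⟩
    · exact ⟨0, fun h => absurd h hc⟩
  choose t ht using htop
  -- S data
  have hSex : ∀ c, ∃ (s m₁ m₂ s' : ℝ) (M : ℕ) (v w : ℕ → ℝ), c ∈ F → IsPat c s m₁ m₂ s' ∧
      Seen R K c.1 s s' ∧ M ≤ N ∧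
      ∑ k ∈ Finset.range M, max (v k - w k) 0 ≤
        M * η + 1 / 8 * (max (min (f s) (f s') - av f m₁ m₂) 0 + η) ∧
      ∀ (l : ℝ) (Y : Finset ℕ), (∀ i ∈ Y, i < N ∧ IsS U (cls x r) t l c i) →
        (Y.card : ℝ) ≤ ∑ k ∈ Finset.range M, ind (w k) (v k) l := by
    intro c
    by_cases hc : c ∈ F
    · obtain ⟨h1, h2, h3⟩ := ht c hc
      have := class_S h (t c) h1 (fun i hi hic => h3 i hi (hic.trans h2))
      rw [h2] at this
      obtain ⟨s, m₁, m₂, s', M, v, w, a1, a2, a3, a4, a5⟩ := this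
      refine ⟨s, m₁, m₂, s', M, v, w, fun _ => ⟨a1, a2, a3, a4, fun l Y hY => a5 l Y ?_⟩⟩
      intro i hi
      obtain ⟨b1, b2, b3, b4, b5, b6⟩ := hY i hi
      exact ⟨b1, b2, b3, b4, b6⟩
    · exact ⟨0, 0, 0, 0, 0, 0, 0, fun h => absurd h hc⟩
  choose s m₁ m₂ s' M v w hS using hSex
  -- T data
  have hTex : ∀ c, ∃ τ z : ℝ, c ∈ F → (U (t c) - τ ≤ 3 * η ∨ ∃ s m₁ m₂ s' : ℝ,
        IsPat c s m₁ m₂ s' ∧ Seen R K c.1 s s' ∧
        U (t c) - τ ≤ 3 * η + max (min (f s) (f s') - av f m₁ m₂) 0) ∧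
      ∀ l < τ, (∃ p < t c, U p ≤ l) → (∃ p, t c < p ∧ p ≤ N ∧ U p ≤ l) →
        l < f z ∧ z ∈ K ∧ (∀ p < t c, U p ≤ l → x p < z) ∧
          ∀ p, t c < p → p ≤ N → U p ≤ l → z < x p := by
    intro c
    by_cases hc : c ∈ F
    · obtain ⟨h1, h2, h3⟩ := ht c hc
      have := class_T h (t c) h1
      rw [h2] at this
      obtain ⟨τ, z, a⟩ := this
      exact ⟨τ, z, fun _ => a⟩
    · exact ⟨0, 0, fun h => absurd h hc⟩
  choose τ z hT using hTex
  have hTpat : ∀ c, ∃ s m₁ m₂ s' : ℝ, c ∈ F.filter (fun c => ¬ (U (t c) - τ c ≤ 3 * η)) →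
      IsPat c s m₁ m₂ s' ∧ Seen R K c.1 s s' ∧
        U (t c) - τ c ≤ 3 * η + max (min (f s) (f s') - av f m₁ m₂) 0 := by
    intro c
    by_cases hc : c ∈ F.filter (fun c => ¬ (U (t c) - τ c ≤ 3 * η))
    · obtain ⟨h1, h2⟩ := Finset.mem_filter.1 hc
      rcases (hT c h1).1 with h3 | ⟨s, m₁, m₂, s', h3⟩
      · exact absurd h3 h2
      · exact ⟨s, m₁, m₂, s', fun _ => h3⟩
    · exact ⟨0, 0, 0, 0, fun h => absurd h hc⟩
  choose sT m₁T m₂T sT' hTp using hTpat
  -- extreme values
  obtain ⟨i₀, hi₀, hmin⟩ := Finset.exists_min_image (Finset.range (N + 1)) U ⟨0, by simp⟩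
  obtain ⟨i₁, hi₁, hmax⟩ := Finset.exists_max_image (Finset.range (N + 1)) U ⟨0, by simp⟩
  rw [Finset.mem_range] at hi₀ hi₁
  have hab : ∀ i ≤ N, U i₀ ≤ U i ∧ U i ≤ U i₁ := fun i hi =>
    ⟨hmin i (Finset.mem_range.2 (by omega)), hmax i (Finset.mem_range.2 (by omega))⟩
  -- the points z, restricted to K
  set F' := F.filter (fun c => z c ∈ K) with hF'
  -- count of type T
  have hTcount : ∃ (M' : ℕ) (v' w' : ℕ → ℝ), (∑ j ∈ Finset.range M', max (v' j - w' j) 0 ≤ e) ∧
      ∀ l, (((Finset.range N).filter (fun i => IsT U (cls x r) t l i ∧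
        l < τ (cls x r i))).card : ℝ) ≤ ind (U i₀) (U i₁) l +
          ∑ j ∈ Finset.range M', ind (w' j) (v' j) l := by
    -- basic facts on the points
    have hfact : ∀ l, ∀ i ∈ (Finset.range N).filter (fun i => IsT U (cls x r) t l i ∧
        l < τ (cls x r i)), l < f (z (cls x r i)) ∧ z (cls x r i) ∈ K ∧
          (∀ p < t (cls x r i), U p ≤ l → x p < z (cls x r i)) ∧ z (cls x r i) < x (i + 1) := by
      intro l i hi
      simp only [Finset.mem_filter, Finset.mem_range] at hi
      obtain ⟨hiN, ⟨b1, b2, b3, b4, b5⟩, b6⟩ := hi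
      obtain ⟨c1, c2, c3, c4⟩ := (hT (cls x r i) (hmemF i hiN.le)).2 l b6 b5
        ⟨i + 1, by omega, by omega, b1⟩
      exact ⟨c1, c2, c3, c4 (i + 1) (by omega) (by omega) b1⟩
    rcases F'.eq_empty_or_nonempty with hFe | hFne
    · refine ⟨0, 0, 0, ?_, fun l => ?_⟩
      · rcases hgood with hg | hg
        · simpa using hg 0 0 0 (by simp) (by simp)
        · simpa using hg 0 0 0 (by simp) (by simp)
      · have : (Finset.range N).filter (fun i => IsT U (cls x r) t l i ∧
            l < τ (cls x r i)) = ∅ := by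
          rw [Finset.eq_empty_iff_forall_notMem]
          intro i hi
          have h1 := hfact l i hi
          simp only [Finset.mem_filter, Finset.mem_range] at hi
          have : cls x r i ∈ F' := Finset.mem_filter.2 ⟨hmemF i hi.1.le, h1.2.1⟩
          rw [hFe] at this
          exact absurd this (Finset.notMem_empty _)
        rw [this]
        simpa using ind_nonneg _ _ _
    · obtain ⟨M', q, hq1, hq2, hq3⟩ := exists_enum (F'.image z) (hFne.image z)
      have hqK : ∀ k ≤ M', q k ∈ K := by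
        intro k hk
        obtain ⟨c, hc, hck⟩ := Finset.mem_image.1 (hq2 k hk)
        rw [← hck]
        exact (Finset.mem_filter.1 hc).2
      have hw1 : ∀ k < M', winf f q k ≤ f (q (k + 1)) := fun k hk =>
        winf_le h.bm q k (hq1 k (k + 1) (by omega) (by omega)).le le_rfl
      have hw2 : ∀ k < M', winf f q k ≤ f (q k) := fun k hk =>
        winf_le h.bm q k le_rfl (hq1 k (k + 1) (by omega) (by omega)).le
      -- the separated set at a level
      have hsepc : ∀ l, ∃ Z : Finset ℕ, Z.card = ((Finset.range N).filter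
          (fun i => IsT U (cls x r) t l i ∧ l < τ (cls x r i))).card ∧
          (∀ k ∈ Z, k ≤ M' ∧ l < f (q k)) ∧
          ∀ k ∈ Z, ∀ k' ∈ Z, k < k' → ∃ a, k ≤ a ∧ a < k' ∧ winf f q a ≤ l := by
        intro l
        set T2 := (Finset.range N).filter
          (fun i => IsT U (cls x r) t l i ∧ l < τ (cls x r i)) with hT2
        have hlt : ∀ i ∈ T2, ∀ i' ∈ T2, i < i' → z (cls x r i) < x (i + 1) ∧
            x (i + 1) < z (cls x r i') := by
          intro i hi i' hi' hii
          refine ⟨(hfact l i hi).2.2.2, ?_⟩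
          have h1 := hfact l i' hi'
          simp only [hT2, Finset.mem_filter, Finset.mem_range] at hi hi'
          obtain ⟨-, ⟨b1, -⟩, -⟩ := hi
          obtain ⟨-, ⟨b1', b2', b3', b4', b5'⟩, -⟩ := hi'
          refine h1.2.2.1 (i + 1) ?_ b1
          by_contra hcon
          exact absurd b1 (not_le.2 (b4' (i + 1) (not_lt.1 hcon) (by omega)))
        have hidx : ∀ i, ∃ k, i ∈ T2 → k ≤ M' ∧ q k = z (cls x r i) := by
          intro i
          by_cases hi : i ∈ T2
          · have h1 := hfact l i hi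
            have h2 : z (cls x r i) ∈ F'.image z := by
              refine Finset.mem_image_of_mem _ (Finset.mem_filter.2 ⟨hmemF i ?_, h1.2.1⟩)
              simp only [hT2, Finset.mem_filter, Finset.mem_range] at hi
              omega
            obtain ⟨k, hk1, hk2⟩ := hq3 _ h2
            exact ⟨k, fun _ => ⟨hk1, hk2⟩⟩
          · exact ⟨0, fun h => absurd h hi⟩
        choose κ hκ using hidx
        refine ⟨T2.image κ, ?_, ?_, ?_⟩
        · refine Finset.card_image_of_injOn ?_
          intro i hi i' hi' hii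
          by_contra hne
          have e1 := (hκ i hi).2
          have e2 := (hκ i' hi').2
          have hii' : κ i = κ i' := hii
          rw [hii'] at e1
          rcases lt_or_gt_of_ne hne with h' | h'
          · have := hlt i hi i' hi' h'
            linarith
          · have := hlt i' hi' i hi h'
            linarith
        · intro k hk
          obtain ⟨i, hi, rfl⟩ := Finset.mem_image.1 hk
          refine ⟨(hκ i hi).1, ?_⟩
          rw [(hκ i hi).2]
          exact (hfact l i hi).1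
        · intro k hk k' hk' hkk
          obtain ⟨i, hi, rfl⟩ := Finset.mem_image.1 hk
          obtain ⟨i', hi', rfl⟩ := Finset.mem_image.1 hk'
          have e1 := (hκ i hi).2
          have e2 := (hκ i' hi').2
          have hq' := hq1 _ _ hkk (hκ i' hi').1
          have hii : i < i' := by
            by_contra hcon
            rcases (not_lt.1 hcon).eq_or_lt with h' | h'
            · rw [h'] at hkk
              omega
            · have := hlt i' hi' i hi h'
              linarith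
          have h3 := hlt i hi i' hi' hii
          refine exists_winf_le h.bm h.pos hRne h.down q hq1 hkk (hκ i' hi').1
            (p := x (i + 1)) (by rw [e1]; exact h3.1) (by rw [e2]; exact h3.2) ?_
          simp only [hT2, Finset.mem_filter, Finset.mem_range] at hi
          exact hi.2.1.1
      -- the extreme values give the additional unit
      have hunit : ∀ l, ((Finset.range N).filter
          (fun i => IsT U (cls x r) t l i ∧ l < τ (cls x r i))).Nonempty →
            ind (U i₀) (U i₁) l = 1 := by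
        rintro l ⟨i, hi⟩
        simp only [Finset.mem_filter, Finset.mem_range] at hi
        obtain ⟨hiN, ⟨b1, b2, -⟩, -⟩ := hi
        unfold ind
        rw [if_pos ⟨(hab (i + 1) (by omega)).1.trans b1, b2.trans_le (hab i hiN.le).2⟩]
      rcases hgood with hg | hg
      · refine ⟨M', fun j => f (q j), winf f q, ?_, fun l => ?_⟩
        · have := sum_winf_dec q M' hq1 h.conn hqK hg
          refine le_trans (le_of_eq (Finset.sum_congr rfl fun j hj => ?_)) this
          exact max_eq_left (by linarith [hw2 j (Finset.mem_range.1 hj)])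
        · obtain ⟨Z, hZ1, hZ2, hZ3⟩ := hsepc l
          have h1 := sep_left M' (fun k => f (q k)) (winf f q) hw1 hw2 l Z hZ2 hZ3
          rw [hZ1] at h1
          rcases Finset.eq_empty_or_nonempty ((Finset.range N).filter
            (fun i => IsT U (cls x r) t l i ∧ l < τ (cls x r i))) with h2 | h2
          · rw [h2]
            simp only [Finset.card_empty, Nat.cast_zero]
            exact add_nonneg (ind_nonneg _ _ _) (Finset.sum_nonneg fun _ _ => ind_nonneg _ _ _)
          · rw [hunit l h2, ← card_filter_ind M' (winf f q) (fun j => f (q j)) l]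
            exact_mod_cast h1
      · refine ⟨M', fun j => f (q (j + 1)), winf f q, ?_, fun l => ?_⟩
        · have := sum_winf_inc q M' hq1 h.conn hqK hg
          refine le_trans (le_of_eq (Finset.sum_congr rfl fun j hj => ?_)) this
          exact max_eq_left (by linarith [hw1 j (Finset.mem_range.1 hj)])
        · obtain ⟨Z, hZ1, hZ2, hZ3⟩ := hsepc l
          have h1 := sep_right M' (fun k => f (q k)) (winf f q) hw1 hw2 l Z hZ2 hZ3
          rw [hZ1] at h1
          rcases Finset.eq_empty_or_nonempty ((Finset.range N).filter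
            (fun i => IsT U (cls x r) t l i ∧ l < τ (cls x r i))) with h2 | h2
          · rw [h2]
            simp only [Finset.card_empty, Nat.cast_zero]
            exact add_nonneg (ind_nonneg _ _ _) (Finset.sum_nonneg fun _ _ => ind_nonneg _ _ _)
          · rw [hunit l h2, ← card_filter_ind M' (winf f q) (fun j => f (q (j + 1))) l]
            exact_mod_cast h1
  obtain ⟨M', v', w', hvw, hTc⟩ := hTcount
  -- the inequality at each level
  have hlevel : ∀ l, ∑ i ∈ Finset.range N, ind (U (i + 1)) (U i) l ≤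
      2 * ind (U i₀) (U i₁) l + ∑ c ∈ F, ∑ k ∈ Finset.range (M c), ind (w c k) (v c k) l +
        ∑ c ∈ F, ind (τ c) (U (t c)) l + ∑ j ∈ Finset.range M', ind (w' j) (v' j) l := by
    intro l
    have h1 := level_count N U (cls x r) t l F (fun i hi => hmemF i hi.le) (U i₀) (U i₁) hab
    have h2 : ∑ c ∈ F, (((Finset.range N).filter (IsS U (cls x r) t l c)).card : ℝ) ≤
        ∑ c ∈ F, ∑ k ∈ Finset.range (M c), ind (w c k) (v c k) l := by
      refine Finset.sum_le_sum fun c hc => ?_
      refine (hS c hc).2.2.2.2 l _ fun i hi => ?_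
      simp only [Finset.mem_filter, Finset.mem_range] at hi
      exact hi
    have h3 : (((Finset.range N).filter (IsT U (cls x r) t l)).card : ℝ) ≤
        ∑ c ∈ F, ind (τ c) (U (t c)) l + (ind (U i₀) (U i₁) l +
          ∑ j ∈ Finset.range M', ind (w' j) (v' j) l) := by
      have hsplit : ((Finset.range N).filter (IsT U (cls x r) t l)).card ≤
          ((Finset.range N).filter (fun i => IsT U (cls x r) t l i ∧
            τ (cls x r i) ≤ l)).card + ((Finset.range N).filter (fun i =>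
              IsT U (cls x r) t l i ∧ l < τ (cls x r i))).card := by
        refine le_trans (Finset.card_le_card ?_) (Finset.card_union_le _ _)
        intro i hi
        simp only [Finset.mem_filter, Finset.mem_range, Finset.mem_union] at hi ⊢
        rcases le_or_gt (τ (cls x r i)) l with h' | h'
        · exact Or.inl ⟨hi.1, hi.2, h'⟩
        · exact Or.inr ⟨hi.1, hi.2, h'⟩
      have hfirst : ((Finset.range N).filter (fun i => IsT U (cls x r) t l i ∧
            τ (cls x r i) ≤ l)).card ≤ (F.filter (fun c => τ c ≤ l ∧ l < U (t c))).card := by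
        refine Finset.card_le_card_of_injOn (cls x r) ?_ ?_
        · intro i hi
          simp only [Finset.coe_filter, Finset.mem_range, mem_ofPred_eq] at hi ⊢
          obtain ⟨hiN, ⟨b1, b2, -⟩, b6⟩ := hi
          exact ⟨hmemF i hiN.le, b6, b2.trans_le ((ht _ (hmemF i hiN.le)).2.2 i hiN.le rfl)⟩
        · intro i hi i' hi' hii
          simp only [Finset.coe_filter, Finset.mem_range, mem_ofPred_eq] at hi hi'
          obtain ⟨hiN, ⟨b1, b2, b3, b4, b5⟩, -⟩ := hi
          obtain ⟨hiN', ⟨b1', b2', b3', b4', b5'⟩, -⟩ := hi'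
          have hii' : cls x r i = cls x r i' := hii
          by_contra hne
          rcases lt_or_gt_of_ne hne with h' | h'
          · have := b4' (i + 1) (by rw [← hii']; omega) (by omega)
            linarith
          · have := b4 (i' + 1) (by rw [hii']; omega) (by omega)
            linarith
      have hfirst' : ((F.filter (fun c => τ c ≤ l ∧ l < U (t c))).card : ℝ) =
          ∑ c ∈ F, ind (τ c) (U (t c)) l := by
        rw [Finset.card_filter]
        push_cast
        rfl
      have h4 := hTc l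
      have h5 : (((Finset.range N).filter (IsT U (cls x r) t l)).card : ℝ) ≤
          ((F.filter (fun c => τ c ≤ l ∧ l < U (t c))).card : ℝ) +
          (((Finset.range N).filter (fun i =>
              IsT U (cls x r) t l i ∧ l < τ (cls x r i))).card : ℝ) := by
        exact_mod_cast hsplit.trans (Nat.add_le_add_right hfirst _)
      rw [hfirst'] at h5
      linarith
    linarith
  -- integrate
  have hint : ∑ i ∈ Finset.range N, max (U i - U (i + 1)) 0 ≤
      2 * max (U i₁ - U i₀) 0 + ∑ c ∈ F, ∑ k ∈ Finset.range (M c), max (v c k - w c k) 0 +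
        ∑ c ∈ F, max (U (t c) - τ c) 0 + ∑ j ∈ Finset.range M', max (v' j - w' j) 0 := by
    have hI : ∀ (n : ℕ) (a b : ℕ → ℝ), Integrable (fun l => ∑ k ∈ Finset.range n,
        ind (a k) (b k) l) := fun n a b => integrable_finsetSum _ fun _ _ => integrable_ind _ _
    have hIs : ∀ (n : ℕ) (a b : ℕ → ℝ), ∫ l, (∑ k ∈ Finset.range n, ind (a k) (b k) l) =
        ∑ k ∈ Finset.range n, max (b k - a k) 0 := by
      intro n a b
      rw [integral_finsetSum _ fun _ _ => integrable_ind _ _]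
      exact Finset.sum_congr rfl fun _ _ => integral_ind _ _
    have hA : Integrable (fun l => 2 * ind (U i₀) (U i₁) l) := (integrable_ind _ _).const_mul _
    have hB : Integrable (fun l => ∑ c ∈ F, ∑ k ∈ Finset.range (M c), ind (w c k) (v c k) l) :=
      integrable_finsetSum _ fun c _ => hI (M c) (w c) (v c)
    have hC : Integrable (fun l => ∑ c ∈ F, ind (τ c) (U (t c)) l) :=
      integrable_finsetSum _ fun c _ => integrable_ind _ _
    have hmono := integral_mono (hI N (fun i => U (i + 1)) U)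
      (((hA.add hB).add hC).add (hI M' w' v')) (fun l => by
        simp only [Pi.add_apply]
        exact hlevel l)
    have e1 : ∫ l, (((fun l => 2 * ind (U i₀) (U i₁) l) +
        (fun l => ∑ c ∈ F, ∑ k ∈ Finset.range (M c), ind (w c k) (v c k) l) +
        (fun l => ∑ c ∈ F, ind (τ c) (U (t c)) l) +
        (fun l => ∑ j ∈ Finset.range M', ind (w' j) (v' j) l)) l) =
        2 * max (U i₁ - U i₀) 0 + ∑ c ∈ F, ∑ k ∈ Finset.range (M c), max (v c k - w c k) 0 +
        ∑ c ∈ F, max (U (t c) - τ c) 0 + ∑ j ∈ Finset.range M', max (v' j - w' j) 0 := by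
      rw [integral_add' ((hA.add hB).add hC) (hI M' w' v'), integral_add' (hA.add hB) hC,
        integral_add' hA hB, integral_const_mul, integral_ind, hIs M' w' v',
        integral_finsetSum _ (fun c _ => hI (M c) (w c) (v c)),
        integral_finsetSum _ (fun c _ => integrable_ind _ _)]
      simp only [hIs, integral_ind]
    rw [e1, hIs] at hmono
    exact hmono
  -- estimate each part
  have hp1 : max (U i₁ - U i₀) 0 ≤ ω := by
    have h1 := hω i₁ (by omega) i₀ (by omega)
    have h2 := hω i₀ (by omega) i₀ (by omega)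
    rw [sub_self] at h2
    exact max_le h1 h2
  have hcardR : (F.card : ℝ) ≤ N + 1 := by exact_mod_cast hFcard
  have hp2 : ∑ c ∈ F, ∑ k ∈ Finset.range (M c), max (v c k - w c k) 0 ≤
      (N + 1) * (N * η + 1 / 8 * η) + 1 / 8 * E := by
    calc ∑ c ∈ F, ∑ k ∈ Finset.range (M c), max (v c k - w c k) 0
        ≤ ∑ c ∈ F, ((N * η + 1 / 8 * η) +
            1 / 8 * max (min (f (s c)) (f (s' c)) - av f (m₁ c) (m₂ c)) 0) := by
          refine Finset.sum_le_sum fun c hc => ?_
          obtain ⟨-, -, a3, a4, -⟩ := hS c hc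
          have : (M c : ℝ) * η ≤ N * η :=
            mul_le_mul_of_nonneg_right (by exact_mod_cast a3) hη.le
          linarith
      _ = F.card * (N * η + 1 / 8 * η) +
            1 / 8 * ∑ c ∈ F, max (min (f (s c)) (f (s' c)) - av f (m₁ c) (m₂ c)) 0 := by
          rw [Finset.sum_add_distrib, Finset.sum_const, nsmul_eq_mul, Finset.mul_sum]
      _ ≤ (N + 1) * (N * η + 1 / 8 * η) + 1 / 8 * E := by
          have h1 := hpat F s m₁ m₂ s' fun c hc => ⟨(hS c hc).1, (hS c hc).2.1⟩
          have h2 : (F.card : ℝ) * (N * η + 1 / 8 * η) ≤ (N + 1) * (N * η + 1 / 8 * η) :=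
            mul_le_mul_of_nonneg_right hcardR (by positivity)
          linarith
  have hp3 : ∑ c ∈ F, max (U (t c) - τ c) 0 ≤ (N + 1) * (3 * η) + E := by
    set FT := F.filter (fun c => ¬ (U (t c) - τ c ≤ 3 * η)) with hFT
    have h1 := hpat FT sT m₁T m₂T sT' fun c hc => ⟨(hTp c hc).1, (hTp c hc).2.1⟩
    have h2 : ∑ c ∈ F, max (U (t c) - τ c) 0 ≤ ∑ c ∈ F, (3 * η + if c ∈ FT then
        max (min (f (sT c)) (f (sT' c)) - av f (m₁T c) (m₂T c)) 0 else 0) := by
      refine Finset.sum_le_sum fun c hc => ?_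
      by_cases hcT : c ∈ FT
      · rw [if_pos hcT]
        exact max_le (hTp c hcT).2.2 (add_nonneg (by positivity) (le_max_right _ _))
      · rw [if_neg hcT, add_zero]
        have : U (t c) - τ c ≤ 3 * η := by
          by_contra hcon
          exact hcT (Finset.mem_filter.2 ⟨hc, hcon⟩)
        exact max_le this (by positivity)
    have h3 : ∑ c ∈ F, (3 * η + if c ∈ FT then
        max (min (f (sT c)) (f (sT' c)) - av f (m₁T c) (m₂T c)) 0 else 0) = F.card * (3 * η) +
        ∑ c ∈ FT, max (min (f (sT c)) (f (sT' c)) - av f (m₁T c) (m₂T c)) 0 := by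
      rw [Finset.sum_add_distrib, Finset.sum_const, nsmul_eq_mul, ← Finset.sum_filter]
      congr 2
      ext c
      simp only [hFT, Finset.mem_filter]
      tauto
    have h4 : (F.card : ℝ) * (3 * η) ≤ (N + 1) * (3 * η) :=
      mul_le_mul_of_nonneg_right hcardR (by positivity)
    linarith
  have hN : (0 : ℝ) ≤ N := by positivity
  nlinarith [mul_nonneg hN hη.le]

theorem core : ∃ C : ℝ, 0 ≤ C ∧ ∀ (f : ℝ → ℝ) (B : ℝ), BM f B → ∀ (R : Set ℝ), R.Nonempty →
    R ⊆ Ioi 0 → (∀ r ∈ R, ∀ r', 0 < r' → r' ≤ r → r' ∈ R) → ∀ (K : Set ℝ), K.OrdConnected →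
    ∀ (ω e E : ℝ), (∀ x ∈ K, ∀ y ∈ K, Mx R f x - Mx R f y ≤ ω) → 0 ≤ ω →
      (DecLe f K e ∨ IncLe f K e) →
      (∀ (F : Finset (ℤ × ℤ)) (s m₁ m₂ t : ℤ × ℤ → ℝ),
        (∀ c ∈ F, IsPat c (s c) (m₁ c) (m₂ c) (t c) ∧ Seen R K c.1 (s c) (t c)) →
        ∑ c ∈ F, max (min (f (s c)) (f (t c)) - av f (m₁ c) (m₂ c)) 0 ≤ E) →
      eVariationOn (Mx R f) K ≤ ENNReal.ofReal (C * (ω + e + E)) := by
  refine ⟨5, by norm_num, ?_⟩
  intro f B hf R hRne hR hRd K hK ω e E hω hω0 hgood hpat
  have hE0 : 0 ≤ E := by simpa using hpat ∅ 0 0 0 0 (by simp)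
  have he0 : 0 ≤ e := by
    rcases hgood with hg | hg
    · simpa using hg 0 0 0 (by simp) (by simp)
    · simpa using hg 0 0 0 (by simp) (by simp)
  rw [eVariationOn.eVariationOn_eq_strictMonoOn]
  refine iSup_le ?_
  rintro ⟨N, x, hx1, hx2⟩
  have hx1' : ∀ i j, i < j → j ≤ N → x i < x j := fun i j hij hj =>
    hx1 (mem_Iic.2 (by omega)) (mem_Iic.2 hj) hij
  have hx2' : ∀ i ≤ N, x i ∈ K := fun i hi => hx2 i hi
  simp only [edist_dist, Real.dist_eq]
  rw [← ENNReal.ofReal_sum_of_nonneg fun _ _ => abs_nonneg _]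
  refine ENNReal.ofReal_le_ofReal ?_
  -- bound of the decreasing part
  have hdec : ∑ i ∈ Finset.range N, max (Mx R f (x i) - Mx R f (x (i + 1))) 0 ≤
      2 * ω + 2 * E + e := by
    refine le_of_forall_pos_le_add fun ε hε => ?_
    have hc : (0 : ℝ) < (N + 1) * (N + 4) := by positivity
    set η := ε / ((N + 1) * (N + 4)) with hη
    have hη0 : 0 < η := div_pos hε hc
    have hr : ∀ i, ∃ r ∈ R, Mx R f (x i) - η < avg f (x i) r := fun i =>
      exists_lt_avg hRne hη0 f (x i)
    choose r hr1 hr2 using hr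
    have hctx : Ctx f B R K x N η r := ⟨hf, hR, hRd, hK, hx1', hx2', hη0, hr1, hr2⟩
    have := core_finite hctx (ω := ω) (e := e) (E := E)
      (fun i hi j hj => hω _ (hx2' i hi) _ (hx2' j hj)) hgood hpat
    have h2 : (N + 1) * (N + 4) * η = ε := by
      rw [hη]; field_simp
    linarith
  have hpt : ∀ i ∈ Finset.range N, |Mx R f (x (i + 1)) - Mx R f (x i)| =
      (Mx R f (x (i + 1)) - Mx R f (x i)) + 2 * max (Mx R f (x i) - Mx R f (x (i + 1))) 0 := by
    intro i _
    rcases le_total (Mx R f (x i)) (Mx R f (x (i + 1))) with h' | h'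
    · rw [max_eq_right (by linarith), abs_of_nonneg (by linarith)]; ring
    · rw [max_eq_left (by linarith), abs_of_nonpos (by linarith)]; ring
  rw [Finset.sum_congr rfl hpt, Finset.sum_add_distrib, ← Finset.mul_sum,
    Finset.sum_range_sub (fun i => Mx R f (x i))]
  have h1 := hω _ (hx2' N le_rfl) _ (hx2' 0 (by omega))
  nlinarith

end Pool.Agent.Lib.MP_653dc2_an
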