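import Pool.Agent.Lib.MP_653dc2_an.Basic

set_option autoImplicit false
open Set MeasureTheory Filter Topology
open scoped ENNReal

namespace Pool.Agent.Lib.MP_653dc2_an

/-- geometric sums over finitely many integers -/
theorem cnt_geom (S : Finset ℤ) (n₀ : ℤ) (h : ∀ n ∈ S, n₀ ≤ n) :
    ∑ n ∈ S, ((2 : ℝ) ^ n)⁻¹ ≤ 2 * ((2 : ℝ) ^ n₀)⁻¹ := by
  have h1 : ∑ n ∈ S, ((2 : ℝ) ^ n)⁻¹ =
      ((2 : ℝ) ^ n₀)⁻¹ * ∑ n ∈ S, (1 / 2 : ℝ) ^ (n - n₀).toNat := by
    rw [Finset.mul_sum]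
    refine Finset.sum_congr rfl fun n hn => ?_
    obtain ⟨k, hk⟩ : ∃ k : ℕ, (n - n₀).toNat = k := ⟨_, rfl⟩
    have h3 : n = n₀ + (k : ℤ) := by have := h n hn; omega
    rw [hk, h3, zpow_add₀ (by norm_num), mul_inv, zpow_natCast, one_div, inv_pow]
  have h2 : ∑ n ∈ S, (1 / 2 : ℝ) ^ (n - n₀).toNat ≤ 2 := by
    have h4 : ∑ k ∈ S.image (fun n => (n - n₀).toNat), (1 / 2 : ℝ) ^ k =
        ∑ n ∈ S, (1 / 2 : ℝ) ^ (n - n₀).toNat := by
      refine Finset.sum_image fun x hx y hy hxy => ?_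
      have := h x hx
      have := h y hy
      have hxy' : (x - n₀).toNat = (y - n₀).toNat := hxy
      omega
    rw [← h4]
    refine (Summable.sum_le_tsum _ (fun _ _ => by positivity) summable_geometric_two).trans_eq
      tsum_geometric_two
  rw [h1, mul_comm]
  exact mul_le_mul_of_nonneg_right h2 (by positivity)

theorem cnt_scales {ι : Type*} (G : Finset ι) (κ : ι → ℤ × ℤ) (hκ : Set.InjOn κ G)
    (L x : ℝ) (hL : 0 ≤ L) (h1 : ∀ c ∈ G, L ≤ 8 * (2 : ℝ) ^ (κ c).1)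
    (h2 : ∀ c ∈ G, |x - (κ c).2 * ((2 : ℝ) ^ (κ c).1 / 8)| ≤ 24 * (2 : ℝ) ^ (κ c).1) :
    ∑ c ∈ G, L * ((2 : ℝ) ^ (κ c).1)⁻¹ ≤ 385 * 16 := by
  classical
  have e1 : ∑ k ∈ G.image κ, L * ((2 : ℝ) ^ k.1)⁻¹ = ∑ c ∈ G, L * ((2 : ℝ) ^ (κ c).1)⁻¹ :=
    Finset.sum_image hκ
  rw [← e1]
  set G' := G.image κ with hG'
  have h1' : ∀ k ∈ G', L ≤ 8 * (2 : ℝ) ^ k.1 := by
    intro k hk
    obtain ⟨c, hc, rfl⟩ := Finset.mem_image.1 hk
    exact h1 c hc
  have h2' : ∀ k ∈ G', |x - k.2 * ((2 : ℝ) ^ k.1 / 8)| ≤ 24 * (2 : ℝ) ^ k.1 := by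
    intro k hk
    obtain ⟨c, hc, rfl⟩ := Finset.mem_image.1 hk
    exact h2 c hc
  rcases G'.eq_empty_or_nonempty with h0 | hne
  · rw [h0]; norm_num
  set S := G'.image Prod.fst with hS
  have hSne : S.Nonempty := hne.image _
  have e2 : ∑ k ∈ G', L * ((2 : ℝ) ^ k.1)⁻¹ =
      ∑ n ∈ S, ∑ k ∈ G' with k.1 = n, L * ((2 : ℝ) ^ k.1)⁻¹ :=
    (Finset.sum_fiberwise_of_maps_to (fun k hk => Finset.mem_image_of_mem _ hk) _).symm
  rw [e2]
  have e3 : ∀ n ∈ S, ∑ k ∈ G' with k.1 = n, L * ((2 : ℝ) ^ k.1)⁻¹ ≤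
      385 * L * ((2 : ℝ) ^ n)⁻¹ := by
    intro n _
    have hc : ∑ k ∈ G' with k.1 = n, L * ((2 : ℝ) ^ k.1)⁻¹ =
        ((G'.filter fun k => k.1 = n).card : ℝ) * (L * ((2 : ℝ) ^ n)⁻¹) := by
      rw [← nsmul_eq_mul, ← Finset.sum_const]
      refine Finset.sum_congr rfl fun k hk => ?_
      rw [(Finset.mem_filter.1 hk).2]
    have hcard : (G'.filter fun k => k.1 = n).card ≤ 385 := by
      have h2n : (0 : ℝ) < 2 ^ n := by positivity
      have hmap : ∀ k ∈ G'.filter (fun k => k.1 = n), k.2 ∈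
          Finset.Icc ⌈8 * x / 2 ^ n - 192⌉ ⌊8 * x / 2 ^ n + 192⌋ := by
        intro k hk
        obtain ⟨hk1, hk2⟩ := Finset.mem_filter.1 hk
        have h5 := h2' k hk1
        rw [hk2, abs_le] at h5
        obtain ⟨h5, h6⟩ := h5
        rw [Finset.mem_Icc, Int.ceil_le, Int.le_floor]
        have h7 : 8 * x / (2 : ℝ) ^ n * 2 ^ n = 8 * x := by field_simp
        constructor
        · by_contra hcon
          push Not at hcon
          have := mul_lt_mul_of_pos_right hcon h2n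
          nlinarith
        · by_contra hcon
          push Not at hcon
          have := mul_lt_mul_of_pos_right hcon h2n
          nlinarith
      have h8 := Finset.card_le_card_of_injOn Prod.snd hmap (fun a ha b hb hab => by
        have ha := (Finset.mem_filter.1 ha).2
        have hb := (Finset.mem_filter.1 hb).2
        exact Prod.ext (ha.trans hb.symm) hab)
      refine h8.trans ?_
      rw [Int.card_Icc]
      have h9 : (⌊8 * x / 2 ^ n + 192⌋ : ℝ) ≤ 8 * x / 2 ^ n + 192 := Int.floor_le _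
      have h10 : 8 * x / 2 ^ n - 192 ≤ (⌈8 * x / 2 ^ n - 192⌉ : ℝ) := Int.le_ceil _
      have h11 : (⌊8 * x / 2 ^ n + 192⌋ : ℝ) ≤ ⌈8 * x / 2 ^ n - 192⌉ + 384 := by linarith
      have h12 : ⌊8 * x / 2 ^ n + 192⌋ ≤ ⌈8 * x / 2 ^ n - 192⌉ + 384 := by exact_mod_cast h11
      omega
    rw [hc, mul_assoc]
    refine mul_le_mul_of_nonneg_right ?_ (by positivity)
    exact_mod_cast hcard
  refine (Finset.sum_le_sum e3).trans ?_
  rw [← Finset.mul_sum]
  set n₀ := S.min' hSne with hn₀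
  have h3 := cnt_geom S n₀ (fun n hn => S.min'_le n hn)
  have h4 : L ≤ 8 * (2 : ℝ) ^ n₀ := by
    obtain ⟨k, hk, hk2⟩ := Finset.mem_image.1 (S.min'_mem hSne)
    have := h1' k hk
    rwa [hk2] at this
  have h5 : L * ((2 : ℝ) ^ n₀)⁻¹ ≤ 8 := by
    rw [← div_eq_mul_inv, div_le_iff₀ (by positivity)]
    exact h4
  calc 385 * L * ∑ n ∈ S, ((2 : ℝ) ^ n)⁻¹ ≤ 385 * L * (2 * ((2 : ℝ) ^ n₀)⁻¹) :=
        mul_le_mul_of_nonneg_left h3 (by positivity)
    _ = 385 * 2 * (L * ((2 : ℝ) ^ n₀)⁻¹) := by ring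
    _ ≤ 385 * 2 * 8 := by gcongr
    _ = 385 * 16 := by norm_num

/-- the count at one level -/
theorem cnt_level {ι : Type*} (N : ℕ) (p v w : ℕ → ℝ) (hp : MonotoneOn p (Iic N))
    (hw : ∀ i < N, w i ≤ v (i + 1))
    (F : Finset ι) (κ : ι → ℤ × ℤ) (hκ : Set.InjOn κ F) (θ : ι → ℝ) (i₀ i₁ i₂ i₃ : ι → ℕ)
    (hi : ∀ c ∈ F, i₀ c ≤ i₁ c ∧ i₁ c ≤ i₂ c ∧ i₂ c ≤ i₃ c ∧ i₃ c ≤ N)
    (hθ : ∀ c ∈ F, θ c ≤ v (i₀ c) ∧ θ c ≤ v (i₃ c))
    (hlong : ∀ c ∈ F, (2 : ℝ) ^ (κ c).1 / 4 ≤ p (i₂ c) - p (i₁ c))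
    (hshort : ∀ c ∈ F, p (i₃ c) - p (i₀ c) ≤ 8 * (2 : ℝ) ^ (κ c).1)
    (hloc : ∀ c ∈ F, |p (i₀ c) - (κ c).2 * ((2 : ℝ) ^ (κ c).1 / 8)| ≤ 16 * (2 : ℝ) ^ (κ c).1)
    (lam : ℝ) :
    ∑ c ∈ F, ∑ i ∈ Finset.Ico (i₁ c) (i₂ c),
        (p (i + 1) - p i) / (p (i₂ c) - p (i₁ c)) * (Ico (w i) (θ c)).indicator 1 lam ≤
      (4 * 385 * 16) * ∑ i ∈ Finset.range N, (Ico (w i) (v i)).indicator 1 lam := by
  classical
  set A : ℕ → ℕ := fun i => Nat.findGreatest (fun j => lam < v j) i with hA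
  set D := (Finset.range N).filter (fun i => lam ∈ Ico (w i) (v i)) with hD
  have hpiece : ∀ i < N, 0 ≤ p (i + 1) - p i := by
    intro i hi
    have := hp (mem_Iic.2 hi.le) (mem_Iic.2 (by omega : i + 1 ≤ N)) (by omega : i ≤ i + 1)
    linarith
  -- facts about A
  have hAfact : ∀ c ∈ F, ∀ i ∈ Finset.Ico (i₁ c) (i₂ c), lam ∈ Ico (w i) (θ c) →
      i₀ c ≤ A i ∧ A i ≤ i ∧ lam < v (A i) ∧ (∀ j, A i < j → j ≤ i → v j ≤ lam) ∧ A i ∈ D := by
    intro c hc i hi' hlam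
    rw [Finset.mem_Ico] at hi'
    obtain ⟨hi1, hi2, hi3, hi4⟩ := hi c hc
    have h1 : lam < v (i₀ c) := hlam.2.trans_le (hθ c hc).1
    have h2 : i₀ c ≤ i := by omega
    have h3 : i₀ c ≤ A i := Nat.le_findGreatest h2 h1
    have h4 : A i ≤ i := Nat.findGreatest_le i
    have h5 : lam < v (A i) := Nat.findGreatest_spec (P := fun j => lam < v j) h2 h1
    have h6 : ∀ j, A i < j → j ≤ i → v j ≤ lam := by
      intro j hj1 hj2
      have := Nat.findGreatest_is_greatest hj1 hj2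
      exact not_lt.1 this
    refine ⟨h3, h4, h5, h6, ?_⟩
    rw [hD, Finset.mem_filter, Finset.mem_range]
    refine ⟨by omega, ?_, h5⟩
    rcases h4.eq_or_lt with h7 | h7
    · rw [h7]; exact hlam.1
    · exact (hw (A i) (by omega)).trans (h6 _ (by omega) (by omega))
  have hR : ∑ i ∈ Finset.range N, (Ico (w i) (v i)).indicator (1 : ℝ → ℝ) lam = ∑ _i ∈ D, (1 : ℝ) := by
    rw [hD, Finset.sum_filter]
    refine Finset.sum_congr rfl fun i _ => ?_
    simp only [indicator_apply, Pi.one_apply]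
  rw [hR]
  set q : ι → ℕ → ℝ := fun c i => (p (i + 1) - p i) / (p (i₂ c) - p (i₁ c)) with hq
  have hL : ∑ c ∈ F, ∑ i ∈ Finset.Ico (i₁ c) (i₂ c),
        (p (i + 1) - p i) / (p (i₂ c) - p (i₁ c)) * (Ico (w i) (θ c)).indicator 1 lam =
      ∑ a ∈ D, ∑ c ∈ F, ∑ i ∈ Finset.Ico (i₁ c) (i₂ c),
        if lam ∈ Ico (w i) (θ c) ∧ A i = a then q c i else 0 := by
    rw [Finset.sum_comm]
    refine Finset.sum_congr rfl fun c hc => ?_
    rw [Finset.sum_comm]
    refine Finset.sum_congr rfl fun i hi' => ?_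
    by_cases hlam : lam ∈ Ico (w i) (θ c)
    · have h1 := (hAfact c hc i hi' hlam).2.2.2.2
      simp only [hlam, true_and, indicator_of_mem, Pi.one_apply, mul_one]
      rw [Finset.sum_ite_eq D (A i)]
      simp [h1, hq]
    · simp [hlam]
  rw [hL, Finset.mul_sum]
  refine Finset.sum_le_sum fun a ha => ?_
  rw [mul_one]
  obtain ⟨haN, haw, hav⟩ : a < N ∧ w a ≤ lam ∧ lam < v a := by
    rw [hD, Finset.mem_filter, Finset.mem_range] at ha
    exact ⟨ha.1, ha.2.1, ha.2.2⟩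
  set G := F.filter (fun c => ∃ i ∈ Finset.Ico (i₁ c) (i₂ c), lam ∈ Ico (w i) (θ c) ∧ A i = a)
    with hG
  have hzero : ∀ c ∈ F, c ∉ G → ∑ i ∈ Finset.Ico (i₁ c) (i₂ c),
      (if lam ∈ Ico (w i) (θ c) ∧ A i = a then q c i else 0) = 0 := by
    intro c hc hcG
    refine Finset.sum_eq_zero fun i hi' => ?_
    rw [if_neg]
    intro hcon
    exact hcG (Finset.mem_filter.2 ⟨hc, i, hi', hcon⟩)
  have hsubG : G ⊆ F := Finset.filter_subset _ F
  rw [← Finset.sum_subset hsubG hzero]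
  rcases G.eq_empty_or_nonempty with h0 | hGne
  · rw [h0]; norm_num
  -- the next point above the level
  have hex : ∃ b, a < b ∧ lam < v b := by
    obtain ⟨c, hc⟩ := hGne
    obtain ⟨hcF, i, hi', hlam, hAi⟩ := Finset.mem_filter.1 hc
    have hi'' := Finset.mem_Ico.1 hi'
    obtain ⟨h1, h2, h3, h4, h5⟩ := hAfact c hcF i hi' hlam
    obtain ⟨hi1, hi2, hi3, hi4⟩ := hi c hcF
    exact ⟨i₃ c, by omega, hlam.2.trans_le (hθ c hcF).2⟩
  set b := Nat.find hex with hb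
  obtain ⟨hb1, hb2⟩ : a < b ∧ lam < v b := Nat.find_spec hex
  have hbmin : ∀ j, a < j → lam < v j → b ≤ j := fun j h1 h2 => Nat.find_min' hex ⟨h1, h2⟩
  have hGfact : ∀ c ∈ G, i₀ c ≤ a ∧ b ≤ i₃ c := by
    intro c hc
    obtain ⟨hcF, i, hi', hlam, hAi⟩ := Finset.mem_filter.1 hc
    have hi'' := Finset.mem_Ico.1 hi'
    obtain ⟨h1, h2, h3, h4, h5⟩ := hAfact c hcF i hi' hlam
    obtain ⟨hi1, hi2, hi3, hi4⟩ := hi c hcF
    refine ⟨hAi ▸ h1, hbmin _ (by omega) (hlam.2.trans_le (hθ c hcF).2)⟩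
  have hbN : b ≤ N := by
    obtain ⟨c, hc⟩ := hGne
    have h1 := (hGfact c hc).2
    obtain ⟨hi1, hi2, hi3, hi4⟩ := hi c (Finset.mem_filter.1 hc).1
    omega
  have hLab : 0 ≤ p b - p a := by
    have := hp (mem_Iic.2 haN.le) (mem_Iic.2 hbN) hb1.le
    linarith
  have hinner : ∀ c ∈ G, ∑ i ∈ Finset.Ico (i₁ c) (i₂ c),
      (if lam ∈ Ico (w i) (θ c) ∧ A i = a then q c i else 0) ≤
      4 * ((p b - p a) * ((2 : ℝ) ^ (κ c).1)⁻¹) := by
    intro c hc
    have hcF := (Finset.mem_filter.1 hc).1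
    obtain ⟨hi1, hi2, hi3, hi4⟩ := hi c hcF
    have h2n : (0 : ℝ) < 2 ^ (κ c).1 := by positivity
    have hm : 0 < p (i₂ c) - p (i₁ c) := lt_of_lt_of_le (by positivity) (hlong c hcF)
    have hminv : (p (i₂ c) - p (i₁ c))⁻¹ ≤ 4 * ((2 : ℝ) ^ (κ c).1)⁻¹ := by
      have : 4 * ((2 : ℝ) ^ (κ c).1)⁻¹ = ((2 : ℝ) ^ (κ c).1 / 4)⁻¹ := by
        rw [inv_div]; ring
      rw [this]
      exact inv_anti₀ (by positivity) (hlong c hcF)
    have h1 : ∑ i ∈ Finset.Ico (i₁ c) (i₂ c),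
        (if lam ∈ Ico (w i) (θ c) ∧ A i = a then q c i else 0) ≤
        ∑ i ∈ Finset.Ico a b, (p (i + 1) - p i) * (4 * ((2 : ℝ) ^ (κ c).1)⁻¹) := by
      rw [← Finset.sum_filter]
      have hsub : (Finset.Ico (i₁ c) (i₂ c)).filter (fun i => lam ∈ Ico (w i) (θ c) ∧ A i = a) ⊆
          Finset.Ico a b := by
        intro i hi'
        obtain ⟨hi', hlam, hAi⟩ := Finset.mem_filter.1 hi'
        obtain ⟨h1, h2, h3, h4, h5⟩ := hAfact c hcF i hi' hlam
        rw [Finset.mem_Ico]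
        refine ⟨hAi ▸ h2, ?_⟩
        by_contra hcon
        push Not at hcon
        have := h4 b (hAi ▸ hb1) hcon
        linarith
      refine (Finset.sum_le_sum fun i hi' => ?_).trans
        (Finset.sum_le_sum_of_subset_of_nonneg hsub fun i hi' _ => ?_)
      · obtain ⟨hi', _⟩ := Finset.mem_filter.1 hi'
        have hi'' := Finset.mem_Ico.1 hi'
        simp only [hq]
        rw [div_eq_mul_inv]
        exact mul_le_mul_of_nonneg_left hminv (hpiece i (by omega))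
      · have hi'' := Finset.mem_Ico.1 hi'
        exact mul_nonneg (hpiece i (by omega)) (by positivity)
    refine h1.trans_eq ?_
    rw [← Finset.sum_mul, Finset.sum_Ico_eq_sub _ hb1.le, Finset.sum_range_sub,
      Finset.sum_range_sub]
    ring
  refine (Finset.sum_le_sum hinner).trans ?_
  rw [← Finset.mul_sum]
  have hfin := cnt_scales G κ (hκ.mono (Finset.coe_subset.2 (Finset.filter_subset _ _)))
    (p b - p a) (p a) hLab ?_ ?_
  · linarith
  · intro c hc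
    obtain ⟨h1, h2⟩ := hGfact c hc
    have hcF := (Finset.mem_filter.1 hc).1
    obtain ⟨hi1, hi2, hi3, hi4⟩ := hi c hcF
    have h3 := hp (mem_Iic.2 (by omega : i₀ c ≤ N)) (mem_Iic.2 haN.le) h1
    have h4 := hp (mem_Iic.2 hbN) (mem_Iic.2 hi4) h2
    linarith [hshort c hcF]
  · intro c hc
    obtain ⟨h1, h2⟩ := hGfact c hc
    have hcF := (Finset.mem_filter.1 hc).1
    obtain ⟨hi1, hi2, hi3, hi4⟩ := hi c hcF
    have h3 := hp (mem_Iic.2 (by omega : i₀ c ≤ N)) (mem_Iic.2 haN.le) h1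
    have h4 := hp (mem_Iic.2 hbN) (mem_Iic.2 hi4) h2
    have h5 := hshort c hcF
    have h6 := hloc c hcF
    rw [abs_le] at h6 ⊢
    constructor <;> linarith [h6.1, h6.2]

/-- enumeration of a finite set of reals -/
theorem cnt_enum (P : Finset ℝ) (hP : P.Nonempty) : ∃ (N : ℕ) (p : ℕ → ℝ),
    StrictMonoOn p (Iic N) ∧ (∀ i ≤ N, p i ∈ P) ∧ ∀ x ∈ P, ∃ i ≤ N, p i = x := by
  have hcard : 0 < P.card := hP.card_pos
  refine ⟨P.card - 1, fun i => if h : i < P.card then P.orderEmbOfFin rfl ⟨i, h⟩ else 0, ?_, ?_, ?_⟩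
  · intro i hi j hj hij
    have hi' : i < P.card := by have := mem_Iic.1 hi; omega
    have hj' : j < P.card := by have := mem_Iic.1 hj; omega
    simp only [hi', hj', dif_pos]
    exact (P.orderEmbOfFin rfl).strictMono (by simpa using hij)
  · intro i hi
    have hi' : i < P.card := by omega
    simp only [hi', dif_pos]
    exact P.orderEmbOfFin_mem rfl _
  · intro x hx
    have : x ∈ Set.range (P.orderEmbOfFin rfl) := by
      rw [P.range_orderEmbOfFin]; exact hx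
    obtain ⟨i, hi⟩ := this
    refine ⟨i, by have := i.2; omega, ?_⟩
    simp [hi]

theorem cnt_dec {ι : Type*} (f : ℝ → ℝ) (B : ℝ) (hf : BM f B) (J : Set ℝ) (e : ℝ)
    (hJ : J.OrdConnected) (hD : DecLe f J e) (F : Finset ι) (κ : ι → ℤ × ℤ)
    (hκ : Set.InjOn κ F) (s m₁ m₂ t : ι → ℝ)
    (h : ∀ c ∈ F, (s c < m₁ c ∧ m₁ c < m₂ c ∧ m₂ c < t c ∧
      (2 : ℝ) ^ (κ c).1 / 4 ≤ m₂ c - m₁ c ∧ t c - s c ≤ 8 * (2 : ℝ) ^ (κ c).1 ∧
      |s c - (κ c).2 * ((2 : ℝ) ^ (κ c).1 / 8)| ≤ 16 * (2 : ℝ) ^ (κ c).1) ∧ s c ∈ J ∧ t c ∈ J) :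
    ∑ c ∈ F, max (min (f (s c)) (f (t c)) - av f (m₁ c) (m₂ c)) 0 ≤ (4 * 385 * 16) * e := by
  classical
  rcases F.eq_empty_or_nonempty with h0 | hFne
  · have h1 := hD 0 (fun _ => 0) (fun _ => 0) (by simp) (by simp)
    rw [h0]
    simp only [Finset.range_zero, Finset.sum_empty] at h1 ⊢
    positivity
  set P := F.image s ∪ F.image m₁ ∪ F.image m₂ ∪ F.image t with hPdef
  have hsP : ∀ c ∈ F, s c ∈ P := fun c hc => by
    simp only [hPdef, Finset.mem_union, Finset.mem_image]; exact Or.inl (Or.inl (Or.inl ⟨c, hc, rfl⟩))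
  have hm1P : ∀ c ∈ F, m₁ c ∈ P := fun c hc => by
    simp only [hPdef, Finset.mem_union, Finset.mem_image]; exact Or.inl (Or.inl (Or.inr ⟨c, hc, rfl⟩))
  have hm2P : ∀ c ∈ F, m₂ c ∈ P := fun c hc => by
    simp only [hPdef, Finset.mem_union, Finset.mem_image]; exact Or.inl (Or.inr ⟨c, hc, rfl⟩)
  have htP : ∀ c ∈ F, t c ∈ P := fun c hc => by
    simp only [hPdef, Finset.mem_union, Finset.mem_image]; exact Or.inr ⟨c, hc, rfl⟩
  have hPJ : ∀ x ∈ P, x ∈ J := by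
    intro x hx
    simp only [hPdef, Finset.mem_union, Finset.mem_image] at hx
    rcases hx with ((⟨c, hc, rfl⟩ | ⟨c, hc, rfl⟩) | ⟨c, hc, rfl⟩) | ⟨c, hc, rfl⟩
    · exact (h c hc).2.1
    · obtain ⟨⟨a1, a2, a3, _⟩, b1, b2⟩ := h c hc
      exact hJ.out b1 b2 ⟨a1.le, (a2.trans a3).le⟩
    · obtain ⟨⟨a1, a2, a3, _⟩, b1, b2⟩ := h c hc
      exact hJ.out b1 b2 ⟨(a1.trans a2).le, a3.le⟩
    · exact (h c hc).2.2
  have hPne : P.Nonempty := by
    obtain ⟨c, hc⟩ := hFne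
    exact ⟨_, hsP c hc⟩
  obtain ⟨N, p, hpmono, hpP, hpsurj⟩ := cnt_enum P hPne
  -- indices
  have hidx : ∀ g : ι → ℝ, (∀ c ∈ F, g c ∈ P) → ∃ k : ι → ℕ, ∀ c ∈ F, k c ≤ N ∧ p (k c) = g c := by
    intro g hg
    choose! k hk using fun c (hc : c ∈ F) => hpsurj (g c) (hg c hc)
    exact ⟨k, hk⟩
  obtain ⟨i₀, hi₀⟩ := hidx s hsP
  obtain ⟨i₁, hi₁⟩ := hidx m₁ hm1P
  obtain ⟨i₂, hi₂⟩ := hidx m₂ hm2P
  obtain ⟨i₃, hi₃⟩ := hidx t htP
  have hle : ∀ i j, i ≤ N → j ≤ N → p i < p j → i ≤ j := by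
    intro i j hi hj hij
    by_contra hcon
    push Not at hcon
    have := hpmono (mem_Iic.2 hj) (mem_Iic.2 hi) hcon
    linarith
  set v : ℕ → ℝ := fun i => f (p i) with hv
  set w : ℕ → ℝ := fun i => sInf (f '' Icc (p i) (p (i + 1))) with hw
  have hbdd : ∀ E : Set ℝ, BddBelow (f '' E) := by
    intro E
    refine ⟨-B, ?_⟩
    rintro _ ⟨x, _, rfl⟩
    exact (abs_le.1 (hf.bdd x)).1
  have hwle : ∀ i x, x ∈ Icc (p i) (p (i + 1)) → w i ≤ f x := fun i x hx =>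
    csInf_le (hbdd _) ⟨x, hx, rfl⟩
  have hplt : ∀ i < N, p i < p (i + 1) := fun i hi =>
    hpmono (mem_Iic.2 hi.le) (mem_Iic.2 (by omega : i + 1 ≤ N)) (by omega)
  -- total decrease
  have htot : ∑ i ∈ Finset.range N, (v i - w i) ≤ e := by
    refine le_of_forall_pos_le_add fun η hη => ?_
    have hη' : 0 < η / (N + 1) := by positivity
    have hy : ∀ i, i < N → ∃ y ∈ Icc (p i) (p (i + 1)), f y < w i + η / (N + 1) := by
      intro i hi
      have hne : (f '' Icc (p i) (p (i + 1))).Nonempty :=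
        ⟨_, p i, left_mem_Icc.2 (hplt i hi).le, rfl⟩
      obtain ⟨_, ⟨y, hy, rfl⟩, hlt⟩ := exists_lt_of_csInf_lt hne
        (show sInf (f '' Icc (p i) (p (i + 1))) < w i + η / (N + 1) by simp only [hw]; linarith)
      exact ⟨y, hy, hlt⟩
    choose! y hy using hy
    have h1 := hD N p y ?_ ?_
    · have h2 : ∑ i ∈ Finset.range N, (v i - w i) ≤
          ∑ i ∈ Finset.range N, ((f (p i) - f (y i)) + η / (N + 1)) := by
        refine Finset.sum_le_sum fun i hi => ?_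
        have := (hy i (Finset.mem_range.1 hi)).2
        simp only [hv]
        linarith
      rw [Finset.sum_add_distrib, Finset.sum_const, Finset.card_range, nsmul_eq_mul] at h2
      have h3 : (N : ℝ) * (η / (N + 1)) ≤ η := by
        rw [mul_div_assoc', div_le_iff₀ (by positivity)]
        nlinarith
      linarith
    · intro i hi
      have h1 := hPJ _ (hpP i hi.le)
      have h2 := hPJ _ (hpP (i + 1) (by omega))
      exact ⟨h1, hJ.out h1 h2 (hy i hi).1, (hy i hi).1.1⟩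
    · intro i hi
      exact (hy i (by omega)).1.2
  have hvw : ∀ i < N, w i ≤ v i := fun i hi => hwle i _ (left_mem_Icc.2 (hplt i hi).le)
  have hvw' : ∀ i < N, w i ≤ v (i + 1) := fun i hi => hwle i _ (right_mem_Icc.2 (hplt i hi).le)
  set θ : ι → ℝ := fun c => min (f (s c)) (f (t c)) with hθ
  -- each term
  have hterm : ∀ c ∈ F, max (θ c - av f (m₁ c) (m₂ c)) 0 ≤
      ∑ i ∈ Finset.Ico (i₁ c) (i₂ c), (p (i + 1) - p i) / (p (i₂ c) - p (i₁ c)) *
        max (θ c - w i) 0 := by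
    intro c hc
    obtain ⟨⟨a1, a2, a3, a4, a5, a6⟩, b1, b2⟩ := h c hc
    have hi12 : i₁ c ≤ i₂ c := hle _ _ (hi₁ c hc).1 (hi₂ c hc).1 (by
      rw [(hi₁ c hc).2, (hi₂ c hc).2]; exact a2)
    have hN2 := (hi₂ c hc).1
    have hlen : 0 < m₂ c - m₁ c := by linarith
    have hnn : 0 ≤ ∑ i ∈ Finset.Ico (i₁ c) (i₂ c), (p (i + 1) - p i) / (p (i₂ c) - p (i₁ c)) *
        max (θ c - w i) 0 := by
      refine Finset.sum_nonneg fun i hi => ?_
      have := Finset.mem_Ico.1 hi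
      have h2 := hplt i (by omega)
      rw [(hi₁ c hc).2, (hi₂ c hc).2]
      have h3 : 0 ≤ p (i + 1) - p i := by linarith
      positivity
    refine max_le ?_ hnn
    have h1 : θ c - av f (m₁ c) (m₂ c) = (m₂ c - m₁ c)⁻¹ * ∫ x in (m₁ c)..(m₂ c), (θ c - f x) := by
      rw [intervalIntegral.integral_sub (by simp) (hf.intervalIntegrable _ _),
        intervalIntegral.integral_const, smul_eq_mul]
      unfold av
      field_simp
    have h2 : ∫ x in (m₁ c)..(m₂ c), (θ c - f x) =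
        ∑ i ∈ Finset.Ico (i₁ c) (i₂ c), ∫ x in (p i)..(p (i + 1)), (θ c - f x) := by
      rw [intervalIntegral.sum_integral_adjacent_intervals_Ico hi12, (hi₁ c hc).2, (hi₂ c hc).2]
      intro k _
      exact (intervalIntegrable_const).sub (hf.intervalIntegrable _ _)
    have h3 : ∀ i ∈ Finset.Ico (i₁ c) (i₂ c), ∫ x in (p i)..(p (i + 1)), (θ c - f x) ≤
        (p (i + 1) - p i) * max (θ c - w i) 0 := by
      intro i hi
      have := Finset.mem_Ico.1 hi
      have h4 := hplt i (by omega)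
      have h5 : ∫ x in (p i)..(p (i + 1)), (θ c - f x) ≤
          ∫ _x in (p i)..(p (i + 1)), max (θ c - w i) 0 := by
        refine intervalIntegral.integral_mono_on h4.le
          ((intervalIntegrable_const).sub (hf.intervalIntegrable _ _)) intervalIntegrable_const ?_
        intro x hx
        exact (by linarith [hwle i x hx] : θ c - f x ≤ θ c - w i).trans (le_max_left _ _)
      rwa [intervalIntegral.integral_const, smul_eq_mul] at h5
    rw [h1, h2, Finset.mul_sum]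
    refine Finset.sum_le_sum fun i hi => ?_
    rw [(hi₁ c hc).2, (hi₂ c hc).2, div_eq_mul_inv, mul_comm (p (i + 1) - p i), mul_assoc]
    exact mul_le_mul_of_nonneg_left (h3 i hi) (by positivity)
  -- layer cake
  have hcake : ∀ a b : ℝ, max (b - a) 0 = ∫ lam, (Ico a b).indicator (1 : ℝ → ℝ) lam := by
    intro a b
    rw [integral_indicator_one measurableSet_Ico, Real.volume_real_Ico]
  have hint : ∀ a b : ℝ, Integrable ((Ico a b).indicator (1 : ℝ → ℝ)) := by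
    intro a b
    exact (integrable_indicator_iff measurableSet_Ico).2
      (integrableOn_const (by simp) (by simp))
  have hlevel := fun lam => cnt_level N p v w hpmono.monotoneOn hvw' F κ hκ θ i₀ i₁ i₂ i₃
    (by
      intro c hc
      obtain ⟨⟨a1, a2, a3, a4, a5, a6⟩, b1, b2⟩ := h c hc
      refine ⟨hle _ _ (hi₀ c hc).1 (hi₁ c hc).1 ?_, hle _ _ (hi₁ c hc).1 (hi₂ c hc).1 ?_,
        hle _ _ (hi₂ c hc).1 (hi₃ c hc).1 ?_, (hi₃ c hc).1⟩
      · rw [(hi₀ c hc).2, (hi₁ c hc).2]; exact a1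
      · rw [(hi₁ c hc).2, (hi₂ c hc).2]; exact a2
      · rw [(hi₂ c hc).2, (hi₃ c hc).2]; exact a3)
    (by
      intro c hc
      simp only [hθ, hv]
      rw [(hi₀ c hc).2, (hi₃ c hc).2]
      exact ⟨min_le_left _ _, min_le_right _ _⟩)
    (by
      intro c hc
      rw [(hi₁ c hc).2, (hi₂ c hc).2]
      exact (h c hc).1.2.2.2.1)
    (by
      intro c hc
      rw [(hi₀ c hc).2, (hi₃ c hc).2]
      exact (h c hc).1.2.2.2.2.1)
    (by
      intro c hc
      rw [(hi₀ c hc).2]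
      exact (h c hc).1.2.2.2.2.2)
    lam
  calc ∑ c ∈ F, max (min (f (s c)) (f (t c)) - av f (m₁ c) (m₂ c)) 0
      ≤ ∑ c ∈ F, ∑ i ∈ Finset.Ico (i₁ c) (i₂ c), (p (i + 1) - p i) / (p (i₂ c) - p (i₁ c)) *
        max (θ c - w i) 0 := Finset.sum_le_sum hterm
    _ = ∫ lam, ∑ c ∈ F, ∑ i ∈ Finset.Ico (i₁ c) (i₂ c),
        (p (i + 1) - p i) / (p (i₂ c) - p (i₁ c)) * (Ico (w i) (θ c)).indicator 1 lam := by
        rw [integral_finsetSum _ fun c _ => integrable_finsetSum _ fun i _ =>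
          (hint _ _).const_mul _]
        refine Finset.sum_congr rfl fun c _ => ?_
        rw [integral_finsetSum _ fun i _ => (hint _ _).const_mul _]
        refine Finset.sum_congr rfl fun i _ => ?_
        rw [integral_const_mul, hcake]
    _ ≤ ∫ lam, (4 * 385 * 16) * ∑ i ∈ Finset.range N, (Ico (w i) (v i)).indicator 1 lam := by
        refine integral_mono (integrable_finsetSum _ fun c _ => integrable_finsetSum _ fun i _ =>
          (hint _ _).const_mul _) ((integrable_finsetSum _ fun i _ => hint _ _).const_mul _) ?_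
        exact hlevel
    _ = (4 * 385 * 16) * ∑ i ∈ Finset.range N, (v i - w i) := by
        rw [integral_const_mul, integral_finsetSum _ fun i _ => hint _ _]
        congr 1
        refine Finset.sum_congr rfl fun i hi => ?_
        rw [← hcake, max_eq_left]
        linarith [hvw i (Finset.mem_range.1 hi)]
    _ ≤ (4 * 385 * 16) * e := by gcongr

theorem IncLe.cnt_comp_neg {f : ℝ → ℝ} {J : Set ℝ} {e : ℝ} (h : IncLe f J e) :
    DecLe (fun x => f (-x)) (-J) e := by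
  intro n x y hxy hstep
  have h1 := h n (fun i => - y (n - 1 - i)) (fun i => - x (n - 1 - i)) ?_ ?_
  · refine le_trans (le_of_eq ?_) h1
    rw [← Finset.sum_range_reflect]
  · intro i hi
    obtain ⟨h1, h2, h3⟩ := hxy (n - 1 - i) (by omega)
    exact ⟨h2, h1, by simpa using h3⟩
  · intro i hi
    have h1 := hstep (n - 1 - (i + 1)) (by omega)
    have h2 : n - 1 - (i + 1) + 1 = n - 1 - i := by omega
    rw [h2] at h1
    simpa using h1

theorem cnt_av_comp_neg (f : ℝ → ℝ) (a b : ℝ) : av (fun x => f (-x)) (-b) (-a) = av f a b := by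
  unfold av
  rw [intervalIntegral.integral_comp_neg]
  congr 2
  · ring
  · rw [neg_neg]
  · rw [neg_neg]

theorem count_patterns : ∃ C : ℝ, 0 ≤ C ∧ ∀ (f : ℝ → ℝ) (B : ℝ), BM f B → ∀ (J : Set ℝ) (e : ℝ),
    J.OrdConnected → (DecLe f J e ∨ IncLe f J e) →
    ∀ (F : Finset (ℤ × ℤ)) (s m₁ m₂ t : ℤ × ℤ → ℝ),
      (∀ c ∈ F, IsPat c (s c) (m₁ c) (m₂ c) (t c) ∧ s c ∈ J ∧ t c ∈ J) →
      ∑ c ∈ F, max (min (f (s c)) (f (t c)) - av f (m₁ c) (m₂ c)) 0 ≤ C * e := by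
  refine ⟨4 * 385 * 16, by norm_num, ?_⟩
  intro f B hf J e hJ hDI F s m₁ m₂ t h
  rcases hDI with hD | hI
  · refine cnt_dec f B hf J e hJ hD F id (Set.injOn_id _) s m₁ m₂ t ?_
    intro c hc
    obtain ⟨hp, h1, h2⟩ := h c hc
    refine ⟨⟨hp.lt1, hp.lt2, hp.lt3, hp.long, hp.short, ?_⟩, h1, h2⟩
    have a1 := hp.lt1
    have a2 := hp.lt2
    have a3 := hp.lt3
    have a5 := hp.short
    have a6 := hp.loc
    simp only [id]
    rw [abs_le] at a6 ⊢
    constructor <;> linarith [a6.1, a6.2]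
  · have hJ' : (-J).OrdConnected := by
      constructor
      intro x hx y hy z hz
      rw [Set.mem_neg] at hx hy ⊢
      exact hJ.out hy hx ⟨by linarith [hz.2], by linarith [hz.1]⟩
    have h3 := cnt_dec (fun x => f (-x)) B hf.comp_neg (-J) e hJ' hI.cnt_comp_neg F
      (fun c => (c.1, -c.2)) (by
        intro a _ b _ hab
        simp only [Prod.mk.injEq, neg_inj] at hab
        exact Prod.ext hab.1 hab.2)
      (fun c => - t c) (fun c => - m₂ c) (fun c => - m₁ c) (fun c => - s c) (by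
        intro c hc
        obtain ⟨hp, h1, h2⟩ := h c hc
        have a1 := hp.lt1
        have a2 := hp.lt2
        have a3 := hp.lt3
        have a4 := hp.long
        have a5 := hp.short
        have a6 := hp.loc
        refine ⟨⟨by linarith, by linarith, by linarith, by simpa using (by linarith), by
          simpa using (by linarith), ?_⟩, by simpa using h2, by simpa using h1⟩
        push_cast
        rw [abs_le] at a6 ⊢
        constructor <;> linarith [a6.1, a6.2])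
    refine le_trans (le_of_eq ?_) h3
    refine Finset.sum_congr rfl fun c _ => ?_
    simp only [neg_neg, cnt_av_comp_neg]
    rw [min_comm]

end Pool.Agent.Lib.MP_653dc2_an
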