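import Mathlib

set_option autoImplicit false
open Set MeasureTheory Filter Topology
open scoped ENNReal

namespace Pool.Agent.Lib.MP_653dc2_an

/-- centred average of `f` over the interval of radius `r` about `x` -/
noncomputable def avg (f : ℝ → ℝ) (x r : ℝ) : ℝ := (2 * r)⁻¹ * ∫ t in (x - r)..(x + r), f t

/-- average of `f` over the interval from `a` to `b` -/
noncomputable def av (f : ℝ → ℝ) (a b : ℝ) : ℝ := (b - a)⁻¹ * ∫ t in a..b, f t

/-- largest centred average with radius in `R` -/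
noncomputable def Mx (R : Set ℝ) (f : ℝ → ℝ) (x : ℝ) : ℝ := ⨆ r : R, avg f x r

/-- measurable and bounded by `B` -/
structure BM (f : ℝ → ℝ) (B : ℝ) : Prop where
  meas : Measurable f
  bdd : ∀ x, |f x| ≤ B

/-- the total decrease of `f` over non-overlapping intervals with end points in `J` is at most `e` -/
def DecLe (f : ℝ → ℝ) (J : Set ℝ) (e : ℝ) : Prop :=
  ∀ (n : ℕ) (x y : ℕ → ℝ), (∀ i < n, x i ∈ J ∧ y i ∈ J ∧ x i ≤ y i) →
    (∀ i, i + 1 < n → y i ≤ x (i + 1)) → ∑ i ∈ Finset.range n, (f (x i) - f (y i)) ≤ e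

/-- the total increase of `f` over non-overlapping intervals with end points in `J` is at most `e` -/
def IncLe (f : ℝ → ℝ) (J : Set ℝ) (e : ℝ) : Prop :=
  ∀ (n : ℕ) (x y : ℕ → ℝ), (∀ i < n, x i ∈ J ∧ y i ∈ J ∧ x i ≤ y i) →
    (∀ i, i + 1 < n → y i ≤ x (i + 1)) → ∑ i ∈ Finset.range n, (f (y i) - f (x i)) ≤ e

/-- a pattern of scale `2 ^ c.1` near the place `c.2 * 2 ^ c.1 / 8`: two outer points `s`, `t` and a middle
interval `(m₁, m₂)` between them, all of size comparable to `2 ^ c.1` -/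
structure IsPat (c : ℤ × ℤ) (s m₁ m₂ t : ℝ) : Prop where
  lt1 : s < m₁
  lt2 : m₁ < m₂
  lt3 : m₂ < t
  long : (2 : ℝ) ^ c.1 / 4 ≤ m₂ - m₁
  short : t - s ≤ 8 * (2 : ℝ) ^ c.1
  loc : |m₁ - c.2 * ((2 : ℝ) ^ c.1 / 8)| ≤ 8 * (2 : ℝ) ^ c.1

/-- a pattern whose end points are seen from `K` with radii in `R` -/
structure Seen (R K : Set ℝ) (n : ℤ) (s t : ℝ) : Prop where
  mid : ∃ x ∈ K, s < x ∧ x < t
  left : ∃ x ∈ K, ∃ r ∈ R, r < 2 * (2 : ℝ) ^ n ∧ x - r < s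
  right : ∃ x ∈ K, ∃ r ∈ R, r < 2 * (2 : ℝ) ^ n ∧ t < x + r

/-- the largest value of `g` on `E` to the left of `x` (and `0`) -/
noncomputable def Lf (g : ℝ → ℝ) (E : Set ℝ) (x : ℝ) : ℝ := sSup (insert 0 (g '' (E ∩ Iio x)))

/-- the largest `N`-Lipschitz minorant of `Lf g E` -/
noncomputable def Ff (g : ℝ → ℝ) (E : Set ℝ) (N : ℝ) (x : ℝ) : ℝ :=
  ⨅ y : Iic x, (Lf g E y + N * (x - y))

/-- the standing assumptions in the proof of Theorem A, in normalised form -/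
structure CHyp (g : ℝ → ℝ) (m : Measure ℝ) (E : Set ℝ) (ε : ℝ) : Prop where
  mono : Monotone g
  g_left : g (-8) = 0
  g_right : g 8 = 1
  g_eq : ∀ x y, -8 ≤ x → x ≤ y → y ≤ 8 → g y - g x = (m (Ioc x y)).toReal
  comp : IsCompact E
  sub : E ⊆ Ioo (-8) 8
  null : volume E = 0
  noatom : ∀ e ∈ E, m {e} = 0
  gap : (m (Ioc (-8) 8 \ E)).toReal ≤ ε
  sup : ∀ x ∈ E, ∀ ρ > 0, -8 ≤ x - ρ → x + ρ ≤ 8 → avg g x ρ ≤ g x

end Pool.Agent.Lib.MP_653dc2_an
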