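import Pool.Agent.Lib.MP_653dc2_an.Assembly

set_option autoImplicit false
open Set MeasureTheory Filter Topology
open scoped ENNReal

namespace Pool.Agent.Lib.MP_653dc2_an

theorem var_sub_comm (u v : ℝ → ℝ) (S : Set ℝ) :
    eVariationOn (fun x => u x - v x) S ≤ eVariationOn (fun x => v x - u x) S := by
  have h := var_le_add (w := fun x => u x - v x) (u := fun x => v x - u x) (v := fun _ => (0:ℝ))
    (S := S) fun x _ y _ => by
      rw [show u x - v x - (u y - v y) = -((v x - u x) - (v y - u y)) by ring, abs_neg]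
      simp
  rwa [var_const, add_zero] at h

/-- a function of bounded variation is bounded by its limit at `-∞` and its variation -/
theorem abs_le_of_norm {h : ℝ → ℝ} (hbv : BoundedVariationOn h univ) {δ : ℝ}
    (hδ : ENNReal.ofReal |limUnder atBot h| + eVariationOn h univ < ENNReal.ofReal δ) (x : ℝ) :
    |h x| ≤ δ := by
  set l := limUnder atBot h with hl
  have hlim : Tendsto h atBot (𝓝 l) := hbv.tendsto_atBot_limUnder
  set V := (eVariationOn h univ).toReal with hV
  have h1 : |h x - l| ≤ V := by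
    have h2 : Tendsto (fun y => |h x - h y|) atBot (𝓝 |h x - l|) := (tendsto_const_nhds.sub hlim).abs
    refine le_of_tendsto h2 (Eventually.of_forall fun y => ?_)
    have := hbv.dist_le (mem_univ x) (mem_univ y)
    rwa [Real.dist_eq] at this
  have h3 : ENNReal.ofReal (|l| + V) < ENNReal.ofReal δ := by
    rw [ENNReal.ofReal_add (abs_nonneg _) ENNReal.toReal_nonneg, ENNReal.ofReal_toReal hbv]
    exact hδ
  have h4 : |l| + V < δ := (ENNReal.ofReal_lt_ofReal_iff_of_nonneg
    (add_nonneg (abs_nonneg _) ENNReal.toReal_nonneg)).1 h3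
  have h5 : |h x| ≤ |h x - l| + |l| := by
    have := abs_add_le (h x - l) l
    rwa [sub_add_cancel] at this
  linarith

theorem bv_abs {f : ℝ → ℝ} (hf : BoundedVariationOn f univ) :
    BoundedVariationOn (fun x => |f x|) univ := by
  have h := var_le_add (w := fun x => |f x|) (u := f) (v := fun _ => (0:ℝ))
    (S := univ) fun x _ y _ => by
      simpa using abs_abs_sub_abs_le_abs_sub (f x) (f y)
  rw [var_const, add_zero] at h
  exact ne_top_of_le_ne_top hf h

theorem rightLim_ae {f : ℝ → ℝ} (hf : BoundedVariationOn f univ) :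
    f.rightLim =ᵐ[volume] f := by
  have hcount : {x | ¬ ContinuousAt f x}.Countable := by
    obtain ⟨p, q, hp, hq, hfpq⟩ :=
      hf.locallyBoundedVariationOn.exists_monotoneOn_sub_monotoneOn
    have h1 := (monotoneOn_univ.1 hp).countable_not_continuousAt
    have h2 := (monotoneOn_univ.1 hq).countable_not_continuousAt
    refine (h1.union h2).mono fun x hx => ?_
    by_contra hcon
    simp only [mem_union, mem_ofPred_eq, not_or, not_not] at hcon
    exact hx (by rw [hfpq]; exact hcon.1.sub hcon.2)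
  have h0 : ∀ᵐ x ∂(volume : Measure ℝ), x ∉ {x | ¬ ContinuousAt f x} :=
    hcount.ae_notMem _
  filter_upwards [h0] with x hx
  have hc : ContinuousAt f x := by
    by_contra hcon
    exact hx hcon
  exact tendsto_nhds_unique (hf.tendsto_rightLim x) (hc.tendsto.mono_left nhdsWithin_le_nhds)

theorem final (f : ℝ → ℝ) (hf : BoundedVariationOn f univ) (ε : ℝ) (hε : 0 < ε) :
    ∃ δ : ℝ, 0 < δ ∧ ∀ g : ℝ → ℝ, BoundedVariationOn g univ →
      ENNReal.ofReal |limUnder atBot (f - g)| + eVariationOn (f - g) univ < ENNReal.ofReal δ →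
      ENNReal.ofReal |limUnder atBot (fun x => Mx (Ioi 0) (fun t => |f t|) x -
          Mx (Ioi 0) (fun t => |g t|) x)| +
        eVariationOn (fun x => Mx (Ioi 0) (fun t => |f t|) x -
          Mx (Ioi 0) (fun t => |g t|) x) univ < ENNReal.ofReal ε := by
  by_contra hcon
  push Not at hcon
  have hex : ∀ j : ℕ, ∃ g : ℝ → ℝ, BoundedVariationOn g univ ∧
      ENNReal.ofReal |limUnder atBot (f - g)| + eVariationOn (f - g) univ <
        ENNReal.ofReal (1 / ((j : ℝ) + 1)) ∧ ENNReal.ofReal ε ≤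
      ENNReal.ofReal |limUnder atBot (fun x => Mx (Ioi 0) (fun t => |f t|) x -
          Mx (Ioi 0) (fun t => |g t|) x)| +
        eVariationOn (fun x => Mx (Ioi 0) (fun t => |f t|) x -
          Mx (Ioi 0) (fun t => |g t|) x) univ := fun j => hcon _ (by positivity)
  choose g hg1 hg2 hg3 using hex
  -- uniform closeness
  have hsub : ∀ j, BoundedVariationOn (f - g j) univ := fun j =>
    ne_top_of_le_ne_top (ENNReal.add_ne_top.2 ⟨hf, hg1 j⟩) (var_sub_le f (g j) univ)
  have hsup : ∀ j x, |g j x - f x| ≤ 1 / ((j : ℝ) + 1) := by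
    intro j x
    have := abs_le_of_norm (hsub j) (hg2 j) x
    rw [Pi.sub_apply, abs_sub_comm] at this
    exact this
  -- variation of the difference
  have hvar0 : ∀ j, eVariationOn (fun x => g j x - f x) univ ≤ ENNReal.ofReal (1 / ((j : ℝ) + 1)) := by
    intro j
    refine (var_sub_comm _ _ _).trans ?_
    exact le_trans le_add_self (hg2 j).le
  have hlim0 : Tendsto (fun j : ℕ => 1 / ((j : ℝ) + 1)) atTop (𝓝 0) :=
    tendsto_one_div_add_atTop_nhds_zero_nat
  set a : ℝ → ℝ := fun x => |f x| with ha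
  set aj : ℕ → ℝ → ℝ := fun j x => |g j x| with haj
  have habv : BoundedVariationOn a univ := bv_abs hf
  have hajbv : ∀ j, BoundedVariationOn (aj j) univ := fun j => bv_abs (hg1 j)
  have hvara : Tendsto (fun j => eVariationOn (fun x => aj j x - a x) univ) atTop (𝓝 0) := by
    rw [ENNReal.tendsto_nhds_zero]
    intro ε₀ hε₀
    obtain ⟨e, he, hele⟩ : ∃ e : ℝ, 0 < e ∧ ENNReal.ofReal e ≤ ε₀ := by
      rcases eq_or_ne ε₀ ⊤ with htop | htop
      · exact ⟨1, one_pos, by rw [htop]; exact le_top⟩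
      · exact ⟨ε₀.toReal, ENNReal.toReal_pos hε₀.ne' htop, by rw [ENNReal.ofReal_toReal htop]⟩
    obtain ⟨η₀, hη₀, hab⟩ := abs_cont f univ hf (e / 2) (by linarith)
    filter_upwards [(tendsto_order.1 hlim0).2 _ hη₀,
      (tendsto_order.1 hlim0).2 _ (show 0 < e / 6 by linarith)] with j hj1 hj2
    have h1 := hab (g j) fun x _ => (hsup j x).trans hj1.le
    refine le_trans (h1.trans ?_) hele
    calc 3 * eVariationOn (fun x => g j x - f x) univ + ENNReal.ofReal (e / 2)
        ≤ 3 * ENNReal.ofReal (e / 6) + ENNReal.ofReal (e / 2) := by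
          gcongr
          exact (hvar0 j).trans (ENNReal.ofReal_le_ofReal hj2.le)
      _ = ENNReal.ofReal e := by
          rw [← ENNReal.ofReal_ofNat 3, ← ENNReal.ofReal_mul (by norm_num),
            ← ENNReal.ofReal_add (by positivity) (by positivity)]
          congr 1; ring
  -- right-continuous versions
  set F : ℝ → ℝ := a.rightLim with hF
  set Fj : ℕ → ℝ → ℝ := fun j => (aj j).rightLim with hFj
  have hFbv : BoundedVariationOn F univ := habv.rightLim
  have hFjbv : ∀ j, BoundedVariationOn (Fj j) univ := fun j => (hajbv j).rightLim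
  have hlimF : ∀ x, Tendsto a (𝓝[>] x) (𝓝 (F x)) := fun x => habv.tendsto_rightLim x
  have hlimFj : ∀ j x, Tendsto (aj j) (𝓝[>] x) (𝓝 (Fj j x)) := fun j x =>
    (hajbv j).tendsto_rightLim x
  have hasup : ∀ j x, |aj j x - a x| ≤ 1 / ((j : ℝ) + 1) := fun j x =>
    (abs_abs_sub_abs_le_abs_sub _ _).trans (hsup j x)
  have hFsup : ∀ j x, |Fj j x - F x| ≤ 1 / ((j : ℝ) + 1) := fun j x =>
    le_of_tendsto ((hlimFj j x).sub (hlimF x)).abs (Eventually.of_forall fun y => hasup j y)
  obtain ⟨B, hB⟩ := exists_BM hFbv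
  have hctx : SeqCtx F Fj (B + 1) (fun j => 1 / ((j : ℝ) + 1)) := by
    refine ⟨hB.mono (by linarith), fun j => ⟨?_, fun x => ?_⟩, hFbv, ?_, hlim0, hFsup⟩
    · exact (exists_BM (hFjbv j)).choose_spec.meas
    · have h1 := hFsup j x
      have h2 : (1 : ℝ) / ((j : ℝ) + 1) ≤ 1 := by
        rw [div_le_one (by positivity)]
        have : (0:ℝ) ≤ j := by positivity
        linarith
      have h3 := abs_add_le (Fj j x - F x) (F x)
      rw [sub_add_cancel] at h3
      linarith [hB.bdd x]
    · refine tendsto_of_tendsto_of_tendsto_of_le_of_le tendsto_const_nhds hvara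
        (fun j => zero_le) fun j => ?_
      have h1 : (fun x => Fj j x - F x) = (fun x => aj j x - a x).rightLim := by
        ext x
        have hd : BoundedVariationOn (fun x => aj j x - a x) univ :=
          ne_top_of_le_ne_top (ENNReal.add_ne_top.2 ⟨hajbv j, habv⟩) (var_sub_le _ _ _)
        exact tendsto_nhds_unique ((hlimFj j x).sub (hlimF x)) (hd.tendsto_rightLim x)
      rw [h1]
      exact eVariationOn.eVariationOn_rightLim_le isOpen_univ
  have hmain := main_seq hctx hFjbv fun x => habv.continuousWithinAt_rightLim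
  -- back to the original functions
  have hMF : ∀ x, Mx (Ioi 0) F x = Mx (Ioi 0) a x := fun x => Mx_congr_ae _ (rightLim_ae habv) x
  have hMFj : ∀ j x, Mx (Ioi 0) (Fj j) x = Mx (Ioi 0) (aj j) x := fun j x =>
    Mx_congr_ae _ (rightLim_ae (hajbv j)) x
  simp only [hMF, hMFj] at hmain
  have e1 := (tendsto_order.1 hmain).2 _ (ENNReal.ofReal_pos.2 (show 0 < ε / 2 by linarith))
  have e2 := (tendsto_order.1 hlim0).2 _ (show 0 < ε / 2 by linarith)
  obtain ⟨j, hj1, hj2⟩ := (e1.and e2).exists
  refine absurd (hg3 j) (not_le.2 ?_)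
  obtain ⟨B₁, hB₁⟩ := exists_BM habv
  obtain ⟨B₂, hB₂⟩ := exists_BM (hajbv j)
  have hDη : ∀ x, |Mx (Ioi 0) a x - Mx (Ioi 0) (aj j) x| ≤ 1 / ((j : ℝ) + 1) := fun x =>
    abs_Mx_sub_le hB₁ hB₂ (subset_refl _) hne1 fun t => by
      rw [abs_sub_comm]; exact hasup j t
  have hDbv : BoundedVariationOn (fun x => Mx (Ioi 0) a x - Mx (Ioi 0) (aj j) x) univ :=
    ne_top_of_le_ne_top (ENNReal.add_ne_top.2
      ⟨bv_Mx hB₁ habv (subset_refl _) hne1 down_Ioi,
        bv_Mx hB₂ (hajbv j) (subset_refl _) hne1 down_Ioi⟩) (var_sub_le _ _ _)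
  have hl : |limUnder atBot (fun x => Mx (Ioi 0) a x - Mx (Ioi 0) (aj j) x)| ≤ 1 / ((j : ℝ) + 1) :=
    le_of_tendsto hDbv.tendsto_atBot_limUnder.abs (Eventually.of_forall hDη)
  calc ENNReal.ofReal |limUnder atBot (fun x => Mx (Ioi 0) a x - Mx (Ioi 0) (aj j) x)| +
        eVariationOn (fun x => Mx (Ioi 0) a x - Mx (Ioi 0) (aj j) x) univ
      ≤ ENNReal.ofReal (ε / 2) +
          eVariationOn (fun x => Mx (Ioi 0) (aj j) x - Mx (Ioi 0) a x) univ :=
        add_le_add (ENNReal.ofReal_le_ofReal (hl.trans hj2.le)) (var_sub_comm _ _ _)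
    _ < ENNReal.ofReal (ε / 2) + ENNReal.ofReal (ε / 2) :=
        ENNReal.add_lt_add_left ENNReal.ofReal_ne_top hj1
    _ = ENNReal.ofReal ε := by
        rw [← ENNReal.ofReal_add (by linarith) (by linarith)]; congr 1; ring

end Pool.Agent.Lib.MP_653dc2_an
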