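import Pool.Agent.Lib.MP_653dc2_an.Sep

set_option autoImplicit false
open Set MeasureTheory Filter Topology
open scoped ENNReal

namespace Pool.Agent.Lib.MP_653dc2_an

theorem exists_step (q : ℕ → ℕ) {k k' z : ℕ} (hk : k < k') (h1 : q k ≤ z) (h2 : z ≤ q k') :
    ∃ a, k ≤ a ∧ a < k' ∧ q a ≤ z ∧ z ≤ q (a + 1) := by
  induction k' with
  | zero => omega
  | succ n ih =>
    rcases (show k ≤ n by omega).eq_or_lt with h | h
    · exact ⟨n, by omega, by omega, by rw [← h]; exact h1, h2⟩
    · by_cases h3 : z ≤ q n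
      · obtain ⟨a, ha1, ha2, ha3, ha4⟩ := ih h h3
        exact ⟨a, ha1, by omega, ha3, ha4⟩
      · exact ⟨n, by omega, by omega, by omega, h2⟩

/-- indices of class `c` going down through the level `l`, whose run does not contain the top `t` -/
def IsS {ι : Type*} (U : ℕ → ℝ) (cl : ℕ → ι) (t : ι → ℕ) (l : ℝ) (c : ι) (i : ℕ) : Prop :=
  cl i = c ∧ U (i + 1) ≤ l ∧ l < U i ∧ (∃ k < i, U k ≤ l) ∧
    ¬ (t c ≤ i ∧ ∀ k, t c ≤ k → k ≤ i → l < U k)

/-- indices going down through the level `l`, whose run contains the top of their class -/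
def IsT {ι : Type*} (U : ℕ → ℝ) (cl : ℕ → ι) (t : ι → ℕ) (l : ℝ) (i : ℕ) : Prop :=
  U (i + 1) ≤ l ∧ l < U i ∧ t (cl i) ≤ i ∧ (∀ k, t (cl i) ≤ k → k ≤ i → l < U k) ∧
    ∃ k < t (cl i), U k ≤ l

open Classical in
theorem level_count {ι : Type*} (N : ℕ) (U : ℕ → ℝ) (cl : ℕ → ι) (t : ι → ℕ) (l : ℝ)
    (F : Finset ι) (hF : ∀ i < N, cl i ∈ F) (a₀ b₀ : ℝ) (hU : ∀ i ≤ N, a₀ ≤ U i ∧ U i ≤ b₀) :
    ∑ i ∈ Finset.range N, ind (U (i + 1)) (U i) l ≤ ind a₀ b₀ l +
      ∑ c ∈ F, (((Finset.range N).filter (IsS U cl t l c)).card : ℝ) +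
        (((Finset.range N).filter (IsT U cl t l)).card : ℝ) := by
  have h0 := card_filter_ind N (fun k => U (k + 1)) U l
  rw [← h0]
  -- the exceptional set
  set A := (Finset.range N).filter (fun k => U (k + 1) ≤ l ∧ l < U k) with hA
  set X := A.filter (fun i => ∀ k < i, l < U k) with hX
  set S := fun c => (Finset.range N).filter (IsS U cl t l c) with hS
  set T := (Finset.range N).filter (IsT U cl t l) with hT
  have hsub : A ⊆ X ∪ (F.biUnion S ∪ T) := by
    intro i hi
    have hi' := hi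
    simp only [hA, Finset.mem_filter, Finset.mem_range] at hi'
    obtain ⟨hiN, hi1, hi2⟩ := hi'
    by_cases hx : ∀ k < i, l < U k
    · exact Finset.mem_union_left _ (by simp only [hX, Finset.mem_filter]; exact ⟨hi, hx⟩)
    · push Not at hx
      refine Finset.mem_union_right _ ?_
      by_cases ht : t (cl i) ≤ i ∧ ∀ k, t (cl i) ≤ k → k ≤ i → l < U k
      · refine Finset.mem_union_right _ ?_
        simp only [hT, Finset.mem_filter, Finset.mem_range]
        refine ⟨hiN, hi1, hi2, ht.1, ht.2, ?_⟩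
        obtain ⟨k, hk1, hk2⟩ := hx
        refine ⟨k, ?_, hk2⟩
        by_contra hcon
        exact absurd (ht.2 k (not_lt.1 hcon) hk1.le) (not_lt.2 hk2)
      · refine Finset.mem_union_left _ ?_
        simp only [Finset.mem_biUnion]
        refine ⟨cl i, hF i hiN, ?_⟩
        simp only [hS, Finset.mem_filter, Finset.mem_range]
        exact ⟨hiN, rfl, hi1, hi2, hx, ht⟩
  have hcard : A.card ≤ X.card + (∑ c ∈ F, (S c).card + T.card) := by
    calc A.card ≤ (X ∪ (F.biUnion S ∪ T)).card := Finset.card_le_card hsub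
      _ ≤ X.card + (F.biUnion S ∪ T).card := Finset.card_union_le _ _
      _ ≤ X.card + ((F.biUnion S).card + T.card) := by
          have := Finset.card_union_le (F.biUnion S) T
          omega
      _ ≤ _ := by
          have := Finset.card_biUnion_le (s := F) (t := S)
          omega
  have hXcard : (X.card : ℝ) ≤ ind a₀ b₀ l := by
    rcases X.eq_empty_or_nonempty with h | ⟨i, hi⟩
    · rw [h]; simpa using ind_nonneg a₀ b₀ l
    · have hone : X.card ≤ 1 := by
        rw [Finset.card_le_one]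
        intro i hi j hj
        simp only [hX, hA, Finset.mem_filter, Finset.mem_range] at hi hj
        by_contra hne
        rcases lt_or_gt_of_ne hne with h | h
        · rcases (show i + 1 ≤ j from h).eq_or_lt with h' | h'
          · rw [← h'] at hj
            linarith [hi.1.2.1, hj.1.2.2]
          · linarith [hj.2 (i + 1) h', hi.1.2.1]
        · rcases (show j + 1 ≤ i from h).eq_or_lt with h' | h'
          · rw [← h'] at hi
            linarith [hj.1.2.1, hi.1.2.2]
          · linarith [hi.2 (j + 1) h', hj.1.2.1]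
      simp only [hX, hA, Finset.mem_filter, Finset.mem_range] at hi
      have h1 := hU (i + 1) (by omega)
      have h2 := hU i (by omega)
      have : ind a₀ b₀ l = 1 := by
        unfold ind
        rw [if_pos ⟨by linarith [hi.1.2.1], by linarith [hi.1.2.2]⟩]
      rw [this]
      exact_mod_cast hone
  have hcard' : (A.card : ℝ) ≤ X.card + (∑ c ∈ F, ((S c).card : ℝ) + T.card) := by
    exact_mod_cast hcard
  linarith

/-- number of indices of type S in one class -/
theorem S_count (U : ℕ → ℝ) (X : Finset ℕ) (M : ℕ) (q : ℕ → ℕ)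
    (hq1 : ∀ a b, a < b → b ≤ M → q a < q b) (hq2 : ∀ k ≤ M, q k ∈ X)
    (hq3 : ∀ y ∈ X, ∃ k ≤ M, q k = y) (t : ℕ) (ht : t ∈ X) (htop : ∀ i ∈ X, U i ≤ U t)
    (w : ℕ → ℝ) (hw : ∀ k < M, ∀ z, q k ≤ z → z ≤ q (k + 1) → w k ≤ U z) (l : ℝ) (Y : Finset ℕ)
    (hY : ∀ i ∈ Y, i ∈ X ∧ U (i + 1) ≤ l ∧ l < U i ∧
      ¬ (t ≤ i ∧ ∀ k, t ≤ k → k ≤ i → l < U k)) :
    (Y.card : ℝ) ≤ ∑ k ∈ Finset.range M, ind (w k) (U (q k)) l ∧
      (Y.card : ℝ) ≤ ∑ k ∈ Finset.range M, ind (w k) (U (q (k + 1))) l := by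
  classical
  rcases Y.eq_empty_or_nonempty with rfl | ⟨i₀, hi₀⟩
  · simp only [Finset.card_empty, Nat.cast_zero]
    exact ⟨Finset.sum_nonneg fun _ _ => ind_nonneg _ _ _,
      Finset.sum_nonneg fun _ _ => ind_nonneg _ _ _⟩
  have hlt : l < U t := (hY i₀ hi₀).2.2.1.trans_le (htop i₀ (hY i₀ hi₀).1)
  have htY : t ∉ Y := by
    intro h
    refine (hY t h).2.2.2 ⟨le_rfl, fun k h1 h2 => ?_⟩
    have : k = t := le_antisymm h2 h1
    rw [this]; exact hlt
  set Y' := insert t Y with hY'
  have hY'card : Y'.card = Y.card + 1 := Finset.card_insert_of_notMem htY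
  have hY'X : ∀ i ∈ Y', i ∈ X ∧ l < U i := by
    intro i hi
    rcases Finset.mem_insert.1 hi with rfl | hi
    · exact ⟨ht, hlt⟩
    · exact ⟨(hY i hi).1, (hY i hi).2.2.1⟩
  set Z := (Finset.range (M + 1)).filter (fun k => q k ∈ Y') with hZ
  have hZcard : Z.card = Y'.card := by
    refine Finset.card_bij (fun k _ => q k) ?_ ?_ ?_
    · intro k hk
      simp only [hZ, Finset.mem_filter] at hk
      exact hk.2
    · intro k hk k' hk' hkk
      simp only [hZ, Finset.mem_filter, Finset.mem_range] at hk hk'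
      by_contra hne
      rcases lt_or_gt_of_ne hne with h | h
      · have := hq1 k k' h (by omega)
        omega
      · have := hq1 k' k h (by omega)
        omega
    · intro y hy
      obtain ⟨k, hk, hky⟩ := hq3 y (hY'X y hy).1
      refine ⟨k, ?_, hky⟩
      simp only [hZ, Finset.mem_filter, Finset.mem_range]
      exact ⟨by omega, by rw [hky]; exact hy⟩
  have hZ1 : ∀ k ∈ Z, k ≤ M ∧ l < U (q k) := by
    intro k hk
    simp only [hZ, Finset.mem_filter, Finset.mem_range] at hk
    exact ⟨by omega, (hY'X _ hk.2).2⟩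
  have hZsep : ∀ k ∈ Z, ∀ k' ∈ Z, k < k' → ∃ a, k ≤ a ∧ a < k' ∧ w a ≤ l := by
    intro k hk k' hk' hkk
    have hk'M := (hZ1 k' hk').1
    simp only [hZ, Finset.mem_filter, Finset.mem_range] at hk hk'
    have hqlt : q k < q k' := hq1 k k' hkk hk'M
    -- a point below the level between
    have hz : ∃ z, q k ≤ z ∧ z ≤ q k' ∧ U z ≤ l := by
      rcases Finset.mem_insert.1 hk.2 with h | h
      · -- q k = t, so q k' ∈ Y
        have hk'Y : q k' ∈ Y := by
          rcases Finset.mem_insert.1 hk'.2 with h' | h'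
          · omega
          · exact h'
        have h3 := (hY _ hk'Y).2.2.2
        by_contra hcon
        push Not at hcon
        exact h3 ⟨by omega, fun z hz1 hz2 => hcon z (by omega) hz2⟩
      · exact ⟨q k + 1, by omega, by omega, (hY _ h).2.1⟩
    obtain ⟨z, hz1, hz2, hz3⟩ := hz
    obtain ⟨a, ha1, ha2, ha3, ha4⟩ := exists_step q hkk hz1 hz2
    exact ⟨a, ha1, ha2, (hw a (by omega) z ha3 ha4).trans hz3⟩
  have hw1 : ∀ k < M, w k ≤ U (q (k + 1)) := fun k hk =>
    hw k hk _ (hq1 k (k + 1) (by omega) (by omega)).le le_rfl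
  have hw2 : ∀ k < M, w k ≤ U (q k) := fun k hk =>
    hw k hk _ le_rfl (hq1 k (k + 1) (by omega) (by omega)).le
  have h1 := sep_left M (fun k => U (q k)) w hw1 hw2 l Z hZ1 hZsep
  have h2 := sep_right M (fun k => U (q k)) w hw1 hw2 l Z hZ1 hZsep
  have h3 := card_filter_ind M w (fun k => U (q k)) l
  have h4 := card_filter_ind M w (fun k => U (q (k + 1))) l
  rw [← h3, ← h4]
  constructor
  · exact_mod_cast (by omega : Y.card ≤ _)
  · exact_mod_cast (by omega : Y.card ≤ _)

end Pool.Agent.Lib.MP_653dc2_an
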