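import Pool.Agent.Lib.MP_653dc2_an.Core
import Pool.Agent.Lib.MP_653dc2_an.Count

set_option autoImplicit false
open Set MeasureTheory Filter Topology
open scoped ENNReal

namespace Pool.Agent.Lib.MP_653dc2_an

variable {f g : ℝ → ℝ} {B : ℝ} {J K R : Set ℝ}

/-! ### decrease, increase and variation -/

theorem edist_eq (a b : ℝ) : edist a b = ENNReal.ofReal |a - b| := by
  rw [edist_dist, Real.dist_eq]

theorem sum_edist_le (f : ℝ → ℝ) (J : Set ℝ) (n : ℕ) (x y : ℕ → ℝ)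
    (h1 : ∀ i < n, x i ∈ J ∧ y i ∈ J ∧ x i ≤ y i) (h2 : ∀ i, i + 1 < n → y i ≤ x (i + 1)) :
    ∑ i ∈ Finset.range n, edist (f (x i)) (f (y i)) ≤ eVariationOn f J := by
  have key : ∀ m ≤ n, ∑ i ∈ Finset.range m, edist (f (x i)) (f (y i)) ≤
      eVariationOn f {z | ∃ i < m, z = x i ∨ z = y i} := by
    intro m
    induction m with
    | zero => intro _; simp
    | succ m ih =>
      intro hm
      have hle : ∀ i < m, y i ≤ x m := by
        intro i hi
        have : ∀ k, i + k + 1 ≤ m → y i ≤ x (i + k + 1) := by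
          intro k
          induction k with
          | zero => intro hk; exact h2 i (by omega)
          | succ k ihk =>
            intro hk
            exact (ihk (by omega)).trans ((h1 _ (by omega)).2.2.trans (h2 _ (by omega)))
        have h3 := this (m - i - 1) (by omega)
        rwa [show i + (m - i - 1) + 1 = m by omega] at h3
      have hsub : {z | ∃ i < m, z = x i ∨ z = y i} ∪ {x m, y m} ⊆
          {z | ∃ i < m + 1, z = x i ∨ z = y i} := by
        rintro z (⟨i, hi, hz⟩ | hz)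
        · exact ⟨i, by omega, hz⟩
        · exact ⟨m, by omega, hz⟩
      rw [Finset.sum_range_succ]
      calc _ ≤ eVariationOn f {z | ∃ i < m, z = x i ∨ z = y i} + eVariationOn f {x m, y m} := by
            rw [eVariationOn.pair]
            exact add_le_add (ih (by omega)) le_rfl
        _ ≤ eVariationOn f ({z | ∃ i < m, z = x i ∨ z = y i} ∪ {x m, y m}) := by
            refine eVariationOn.add_le_union f ?_
            rintro z ⟨i, hi, hz⟩ w hw
            have hxy := (h1 i (by omega)).2.2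
            have hxy' := (h1 m (by omega)).2.2
            have := hle i hi
            rcases hz with rfl | rfl <;> rcases hw with rfl | rfl <;> linarith
        _ ≤ _ := eVariationOn.mono _ hsub
  refine (key n le_rfl).trans (eVariationOn.mono _ ?_)
  rintro z ⟨i, hi, rfl | rfl⟩
  · exact (h1 i hi).1
  · exact (h1 i hi).2.1

theorem sum_abs_le {e : ℝ} (he : 0 ≤ e) (h : eVariationOn f J ≤ ENNReal.ofReal e) (n : ℕ)
    (x y : ℕ → ℝ) (h1 : ∀ i < n, x i ∈ J ∧ y i ∈ J ∧ x i ≤ y i)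
    (h2 : ∀ i, i + 1 < n → y i ≤ x (i + 1)) :
    ∑ i ∈ Finset.range n, |f (x i) - f (y i)| ≤ e := by
  have h3 := (sum_edist_le f J n x y h1 h2).trans h
  simp only [edist_eq] at h3
  rw [← ENNReal.ofReal_sum_of_nonneg fun _ _ => abs_nonneg _] at h3
  exact (ENNReal.ofReal_le_ofReal_iff he).1 h3

theorem decLe_of_var {e : ℝ} (he : 0 ≤ e) (h : eVariationOn f J ≤ ENNReal.ofReal e) :
    DecLe f J e := fun n x y h1 h2 =>
  (Finset.sum_le_sum fun _ _ => le_abs_self _).trans (sum_abs_le he h n x y h1 h2)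

theorem incLe_of_var {e : ℝ} (he : 0 ≤ e) (h : eVariationOn f J ≤ ENNReal.ofReal e) :
    IncLe f J e := fun n x y h1 h2 =>
  (Finset.sum_le_sum fun _ _ => by
    rw [← neg_sub]; exact neg_le_abs _).trans (sum_abs_le he h n x y h1 h2)

theorem DecLe.add {e e' : ℝ} (hf : DecLe f J e) (hg : DecLe g J e') :
    DecLe (fun x => f x + g x) J (e + e') := by
  intro n x y h1 h2
  have := add_le_add (hf n x y h1 h2) (hg n x y h1 h2)
  rw [← Finset.sum_add_distrib] at this
  refine le_trans (le_of_eq (Finset.sum_congr rfl fun _ _ => by ring)) this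

theorem IncLe.add {e e' : ℝ} (hf : IncLe f J e) (hg : IncLe g J e') :
    IncLe (fun x => f x + g x) J (e + e') := by
  intro n x y h1 h2
  have := add_le_add (hf n x y h1 h2) (hg n x y h1 h2)
  rw [← Finset.sum_add_distrib] at this
  refine le_trans (le_of_eq (Finset.sum_congr rfl fun _ _ => by ring)) this

theorem DecLe.mono {e : ℝ} {J' : Set ℝ} (hf : DecLe f J e) (h : J' ⊆ J) : DecLe f J' e :=
  fun n x y h1 h2 => hf n x y (fun i hi => ⟨h (h1 i hi).1, h (h1 i hi).2.1, (h1 i hi).2.2⟩) h2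

theorem IncLe.mono {e : ℝ} {J' : Set ℝ} (hf : IncLe f J e) (h : J' ⊆ J) : IncLe f J' e :=
  fun n x y h1 h2 => hf n x y (fun i hi => ⟨h (h1 i hi).1, h (h1 i hi).2.1, (h1 i hi).2.2⟩) h2

theorem or_perturb {e e' : ℝ} (he' : 0 ≤ e') (h : DecLe f J e ∨ IncLe f J e)
    (hg : eVariationOn (fun x => g x - f x) J ≤ ENNReal.ofReal e') :
    DecLe g J (e + e') ∨ IncLe g J (e + e') := by
  rcases h with h | h
  · left
    have := h.add (decLe_of_var he' hg)
    simpa using this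
  · right
    have := h.add (incLe_of_var he' hg)
    simpa using this

theorem nonneg_of_or {e : ℝ} (h : DecLe f J e ∨ IncLe f J e) : 0 ≤ e := by
  rcases h with hg | hg
  · simpa using hg 0 0 0 (by simp) (by simp)
  · simpa using hg 0 0 0 (by simp) (by simp)

/-! ### neighbourhoods -/

/-- the open `δ`-neighbourhood -/
def thick (K : Set ℝ) (δ : ℝ) : Set ℝ := {y | ∃ x ∈ K, |y - x| < δ}

theorem subset_thick {δ : ℝ} (hδ : 0 < δ) : K ⊆ thick K δ := fun x hx => ⟨x, hx, by simpa using hδ⟩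

theorem ordConnected_thick (hK : K.OrdConnected) (δ : ℝ) (hδ : 0 < δ) :
    (thick K δ).OrdConnected := by
  refine ⟨?_⟩
  rintro y₁ ⟨x₁, hx₁, h1⟩ y₂ ⟨x₂, hx₂, h2⟩ y ⟨hy1, hy2⟩
  rw [abs_lt] at h1 h2
  by_cases c1 : y ≤ x₁
  · exact ⟨x₁, hx₁, by rw [abs_lt]; constructor <;> linarith⟩
  · by_cases c2 : x₂ ≤ y
    · exact ⟨x₂, hx₂, by rw [abs_lt]; constructor <;> linarith⟩
    · exact ⟨y, hK.out hx₁ hx₂ ⟨by linarith, by linarith⟩, by simpa using hδ⟩

theorem mem_thick_of_seen {δ : ℝ} {n : ℤ} {s t : ℝ} (hK : K.OrdConnected)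
    (h : Seen (Ioo 0 δ) K n s t) : s ∈ thick K δ ∧ t ∈ thick K δ := by
  obtain ⟨⟨x, hx, hx1, hx2⟩, ⟨y, hy, r, hr, -, hy1⟩, ⟨z, hz, r', hr', -, hz1⟩⟩ := h
  have hδ : 0 < δ := hr.1.trans hr.2
  constructor
  · by_cases c : y ≤ s
    · exact subset_thick hδ (hK.out hy hx ⟨c, hx1.le⟩)
    · exact ⟨y, hy, by rw [abs_lt]; constructor <;> linarith [hr.2]⟩
  · by_cases c : t ≤ z
    · exact subset_thick hδ (hK.out hx hz ⟨hx2.le, c⟩)
    · exact ⟨z, hz, by rw [abs_lt]; constructor <;> linarith [hr'.2]⟩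

/-! ### small radii -/

theorem down_Ioo (δ : ℝ) : ∀ r ∈ Ioo (0 : ℝ) δ, ∀ r', 0 < r' → r' ≤ r → r' ∈ Ioo (0 : ℝ) δ :=
  fun _ hr _ h1 h2 => ⟨h1, h2.trans_lt hr.2⟩

theorem down_Ioi : ∀ r ∈ Ioi (0 : ℝ), ∀ r', 0 < r' → r' ≤ r → r' ∈ Ioi (0 : ℝ) :=
  fun _ _ _ h1 _ => h1

/-- estimate for the maximal function over small radii -/
theorem small_radii : ∃ C : ℝ, 0 ≤ C ∧ ∀ (f : ℝ → ℝ) (B : ℝ), BM f B → ∀ (δ : ℝ), 0 < δ →
    ∀ (K : Set ℝ), K.OrdConnected → ∀ (ω e : ℝ), 0 ≤ ω →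
      (∀ x ∈ K, ∀ y ∈ K, Mx (Ioo 0 δ) f x - Mx (Ioo 0 δ) f y ≤ ω) →
      (DecLe f (thick K δ) e ∨ IncLe f (thick K δ) e) →
      eVariationOn (Mx (Ioo 0 δ) f) K ≤ ENNReal.ofReal (C * (ω + e)) := by
  obtain ⟨C₁, hC₁, hcore⟩ := core
  obtain ⟨C₂, hC₂, hcount⟩ := count_patterns
  refine ⟨C₁ * (1 + (1 + C₂)), by positivity, ?_⟩
  intro f B hf δ hδ K hK ω e hω hosc hde
  have he := nonneg_of_or hde
  have h1 := hcore f B hf (Ioo 0 δ) ⟨δ / 2, by constructor <;> linarith⟩
    (fun r hr => hr.1) (down_Ioo δ) K hK ω e (C₂ * e) hosc hω ?_ ?_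
  · refine h1.trans (ENNReal.ofReal_le_ofReal ?_)
    have h2 : 0 ≤ C₁ * (C₂ * ω) := by positivity
    have h3 : 0 ≤ C₁ * ω := by positivity
    have h4 : 0 ≤ C₁ * e := by positivity
    nlinarith
  · rcases hde with h | h
    · exact Or.inl (h.mono (subset_thick hδ))
    · exact Or.inr (h.mono (subset_thick hδ))
  · intro F s m₁ m₂ t hF
    refine hcount f B hf (thick K δ) e (ordConnected_thick hK δ hδ) hde F s m₁ m₂ t fun c hc => ?_
    obtain ⟨h2, h3⟩ := hF c hc
    have h4 := mem_thick_of_seen hK h3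
    exact ⟨h2, h4.1, h4.2⟩

/-- V1 -/
theorem small_radii_var : ∃ C : ℝ, 0 ≤ C ∧ ∀ (f : ℝ → ℝ) (B : ℝ), BM f B → ∀ (δ : ℝ), 0 < δ →
    ∀ (K : Set ℝ), K.OrdConnected → ∀ (e : ℝ), 0 ≤ e →
      eVariationOn f (thick K δ) ≤ ENNReal.ofReal e →
      eVariationOn (Mx (Ioo 0 δ) f) K ≤ ENNReal.ofReal (C * e) := by
  obtain ⟨C, hC, h⟩ := small_radii
  refine ⟨2 * C, by positivity, ?_⟩
  intro f B hf δ hδ K hK e he hvar
  have hne : (Ioo (0 : ℝ) δ).Nonempty := ⟨δ / 2, by constructor <;> linarith⟩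
  have hosc : ∀ a ∈ thick K δ, ∀ b ∈ thick K δ, f a - f b ≤ e := by
    intro a ha b hb
    have h1 := (eVariationOn.edist_le f ha hb).trans hvar
    rw [edist_eq, ENNReal.ofReal_le_ofReal_iff he] at h1
    exact (le_abs_self _).trans h1
  have h1 := h f B hf δ hδ K hK e e he ?_ (Or.inl (decLe_of_var he hvar))
  · refine h1.trans (ENNReal.ofReal_le_ofReal (by linarith))
  · intro x hx y hy
    rw [sub_le_iff_le_add]
    refine Mx_le hne fun r hr => ?_
    have h2 : avg f x r - e ≤ avg f y (δ / 2) := by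
      refine le_avg hf (by linarith) fun t ht => ?_
      have htK : t ∈ thick K δ := ⟨y, hy, by rw [abs_lt]; constructor <;> linarith [ht.1, ht.2]⟩
      have : avg f x r ≤ f t + e := by
        refine avg_le hf hr.1 fun s hs => ?_
        have hsK : s ∈ thick K δ :=
          ⟨x, hx, by rw [abs_lt]; constructor <;> linarith [hs.1, hs.2, hr.2]⟩
        linarith [hosc s hsK t htK]
      linarith
    have h3 := le_Mx (x := y) hf (fun r hr => hr.1 : Ioo (0 : ℝ) δ ⊆ Ioi 0)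
      (show δ / 2 ∈ Ioo (0 : ℝ) δ by constructor <;> linarith)
    linarith

/-- maximal functions of functions of bounded variation have bounded variation -/
theorem bv_Mx (hf : BM f B) (hbv : BoundedVariationOn f univ) (hR : R ⊆ Ioi 0)
    (hne : R.Nonempty) (hRd : ∀ r ∈ R, ∀ r', 0 < r' → r' ≤ r → r' ∈ R) :
    BoundedVariationOn (Mx R f) univ := by
  obtain ⟨C₁, hC₁, hcore⟩ := core
  obtain ⟨C₂, hC₂, hcount⟩ := count_patterns
  set e := (eVariationOn f univ).toReal with he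
  have he0 : 0 ≤ e := ENNReal.toReal_nonneg
  have hvar : eVariationOn f univ ≤ ENNReal.ofReal e := by
    rw [he, ENNReal.ofReal_toReal hbv]
  have h1 := hcore f B hf R hne hR hRd univ ordConnected_univ (2 * B) e (C₂ * e)
    (fun x _ y _ => by
      have h1 := abs_le.1 (abs_Mx_le (x := x) hf hR hne)
      have h2 := abs_le.1 (abs_Mx_le (x := y) hf hR hne)
      linarith) (by linarith [hf.nonneg]) (Or.inl (decLe_of_var he0 hvar))
    (fun F s m₁ m₂ t hF => hcount f B hf univ e ordConnected_univ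
      (Or.inl (decLe_of_var he0 hvar)) F s m₁ m₂ t fun c hc => ⟨(hF c hc).1, trivial, trivial⟩)
  exact ne_top_of_le_ne_top ENNReal.ofReal_ne_top h1

end Pool.Agent.Lib.MP_653dc2_an
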