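import Pool.Agent.Lib.MP_653dc2_an.Local
import Pool.Agent.Lib.MP_653dc2_an.Band

set_option autoImplicit false
open Set MeasureTheory Filter Topology
open scoped ENNReal

namespace Pool.Agent.Lib.MP_653dc2_an

variable {f g : ℝ → ℝ} {B : ℝ} {J K R S : Set ℝ}

/-! ### subadditivity of the variation -/

theorem var_le_add {w u v : ℝ → ℝ} {S : Set ℝ}
    (h : ∀ x ∈ S, ∀ y ∈ S, |w x - w y| ≤ |u x - u y| + |v x - v y|) :
    eVariationOn w S ≤ eVariationOn u S + eVariationOn v S := by
  have := band_var_le w u v S 1 1 fun x hx y hy => by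
    simp only [edist_eq, ENNReal.coe_one, one_mul]
    rw [← ENNReal.ofReal_add (abs_nonneg _) (abs_nonneg _)]
    exact ENNReal.ofReal_le_ofReal (h x hx y hy)
  simpa using this

theorem var_add_le (u v : ℝ → ℝ) (S : Set ℝ) :
    eVariationOn (fun x => u x + v x) S ≤ eVariationOn u S + eVariationOn v S :=
  var_le_add fun x _ y _ => by
    rw [show u x + v x - (u y + v y) = (u x - u y) + (v x - v y) by ring]
    exact abs_add_le _ _

theorem var_sub_le (u v : ℝ → ℝ) (S : Set ℝ) :
    eVariationOn (fun x => u x - v x) S ≤ eVariationOn u S + eVariationOn v S :=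
  var_le_add fun x _ y _ => by
    rw [show u x - v x - (u y - v y) = (u x - u y) - (v x - v y) by ring]
    exact abs_sub _ _

theorem var_max_le (u v : ℝ → ℝ) (S : Set ℝ) :
    eVariationOn (fun x => max (u x) (v x)) S ≤ eVariationOn u S + eVariationOn v S :=
  var_le_add fun x _ y _ => (abs_max_sub_max_le_max _ _ _ _).trans
    (max_le (by linarith [abs_nonneg (v x - v y)]) (by linarith [abs_nonneg (u x - u y)]))

theorem var_le_of_sub (u v : ℝ → ℝ) (S : Set ℝ) :
    eVariationOn u S ≤ eVariationOn v S + eVariationOn (fun x => u x - v x) S := by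
  refine var_le_add fun x _ y _ => ?_
  rw [show u x - u y = (v x - v y) + ((u x - v x) - (u y - v y)) by ring]
  exact abs_add_le _ _

theorem var_const (c : ℝ) (S : Set ℝ) : eVariationOn (fun _ : ℝ => c) S = 0 :=
  eVariationOn.constant_on (f := fun _ : ℝ => c) (by
    rintro _ ⟨x, -, rfl⟩ _ ⟨y, -, rfl⟩; rfl)

theorem var_lip (hf : BM f B) {δ : ℝ} (hδ : 0 < δ) (hR : R ⊆ Ici δ) (hne : R.Nonempty) {c d : ℝ}
    (hcd : c ≤ d) (hS : S ⊆ Icc c d) :
    eVariationOn (Mx R f) S ≤ ENNReal.ofReal (B / δ * (d - c)) := by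
  have h1 := (Mx_lipschitz hf hδ hR hne).lipschitzOnWith (s := univ)
  have h2 := h1.comp_eVariationOn_le (f := Mx R f) (g := id) (s := Icc c d) (mapsTo_univ _ _)
  rw [eVariationOn_id_Icc] at h2
  refine (eVariationOn.mono _ hS).trans (h2.trans (le_of_eq ?_))
  rw [ENNReal.ofReal_mul (div_nonneg hf.nonneg hδ.le)]
  rfl

/-! ### near a point the function is almost monotone -/

theorem bv_step (z J : ℝ) (S : Set ℝ) :
    BoundedVariationOn (fun x : ℝ => if z ≤ x then J else 0) S := by
  rcases le_total 0 J with h | h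
  · refine MonotoneOn.boundedVariationOn (C := |J|) ?_ ?_
    · intro x _ y _ hxy
      show (if z ≤ x then J else 0) ≤ if z ≤ y then J else 0
      split_ifs with h1 h2
      · exact le_rfl
      · exact absurd (h1.trans hxy) h2
      · exact h
      · exact le_rfl
    · intro x _
      show |if z ≤ x then J else 0| ≤ |J|
      split_ifs <;> simp
  · have h1 : BoundedVariationOn (fun x : ℝ => if z ≤ x then -J else 0) S := by
      refine MonotoneOn.boundedVariationOn (C := |J|) ?_ ?_
      · intro x _ y _ hxy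
        show (if z ≤ x then -J else 0) ≤ if z ≤ y then -J else 0
        split_ifs with h1 h2
        · exact le_rfl
        · exact absurd (h1.trans hxy) h2
        · linarith
        · exact le_rfl
      · intro x _
        show |if z ≤ x then -J else 0| ≤ |J|
        split_ifs <;> simp
    have h2 : eVariationOn (fun x : ℝ => if z ≤ x then J else 0) S ≤
        eVariationOn (fun _ : ℝ => (0:ℝ)) S +
          eVariationOn (fun x : ℝ => if z ≤ x then -J else 0) S := by
      refine var_le_add fun x _ y _ => ?_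
      split_ifs <;> simp
    rw [var_const, zero_add] at h2
    exact ne_top_of_le_ne_top h1 h2

theorem node_local (hbv : BoundedVariationOn f univ)
    (hrc : ∀ x, ContinuousWithinAt f (Ici x) x) (z e : ℝ) (he : 0 < e) :
    ∃ δ > 0, DecLe f (Ioo (z - δ) (z + δ)) e ∨ IncLe f (Ioo (z - δ) (z + δ)) e := by
  set J := f z - f.leftLim z with hJ
  set s : ℝ → ℝ := fun x => if z ≤ x then J else 0 with hs
  set h : ℝ → ℝ := fun x => f x - s x with hh
  have hhbv : BoundedVariationOn h univ :=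
    ne_top_of_le_ne_top (ENNReal.add_ne_top.2 ⟨hbv, bv_step z J univ⟩) (var_sub_le f s univ)
  have hhz : h z = f.leftLim z := by
    simp only [hh, hs, le_refl, if_true, hJ]; ring
  have hleft : ContinuousWithinAt h (univ ∩ Iic z) z := by
    rw [univ_inter, ← Iio_union_right]
    refine ContinuousWithinAt.union ?_ (by simp [ContinuousWithinAt, tendsto_pure_nhds])
    show Tendsto h (𝓝[<] z) (𝓝 (h z))
    rw [hhz]
    refine (hbv.tendsto_leftLim z).congr' ?_
    filter_upwards [self_mem_nhdsWithin] with x hx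
    have : ¬ z ≤ x := not_le.2 hx
    simp [hh, hs, this]
  have hright : ContinuousWithinAt h (univ ∩ Ici z) z := by
    rw [univ_inter]
    have h1 : ContinuousWithinAt (fun x => f x - J) (Ici z) z :=
      (hrc z).sub continuousWithinAt_const
    refine h1.congr (fun x hx => ?_) ?_
    · have : z ≤ x := hx
      simp [hh, hs, this]
    · simp [hh, hs]
  have t1 := hhbv.tendsto_eVariationOn_Icc_zero_left hleft
  have t2 := hhbv.tendsto_eVariationOn_Icc_zero_right z hright
  simp only [univ_inter, nhdsWithin_univ] at t1 t2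
  have hpos : (0 : ℝ≥0∞) < ENNReal.ofReal (e / 2) := ENNReal.ofReal_pos.2 (by linarith)
  have e1 := (tendsto_order.1 t1).2 _ hpos
  have e2 := (tendsto_order.1 t2).2 _ hpos
  obtain ⟨δ, hδ, hδ'⟩ := Metric.eventually_nhds_iff.1 (e1.and e2)
  refine ⟨δ / 2, by linarith, ?_⟩
  have h1 := (hδ' (y := z - δ / 2) (by rw [Real.dist_eq, abs_lt]; constructor <;> linarith)).1
  have h2 := (hδ' (y := z + δ / 2) (by rw [Real.dist_eq, abs_lt]; constructor <;> linarith)).2
  have hvar : eVariationOn h (Ioo (z - δ / 2) (z + δ / 2)) ≤ ENNReal.ofReal e := by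
    have h3 := eVariationOn.Icc_add_Icc h (s := univ) (a := z - δ / 2) (b := z) (c := z + δ / 2)
      (by linarith) (by linarith) trivial
    simp only [univ_inter] at h3
    calc eVariationOn h (Ioo (z - δ / 2) (z + δ / 2))
        ≤ eVariationOn h (Icc (z - δ / 2) (z + δ / 2)) := eVariationOn.mono _ Ioo_subset_Icc_self
      _ ≤ ENNReal.ofReal (e / 2) + ENNReal.ofReal (e / 2) := by
          rw [← h3]; exact add_le_add h1.le h2.le
      _ = ENNReal.ofReal e := by
          rw [← ENNReal.ofReal_add (by linarith) (by linarith)]; congr 1; ring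
  have hf : f = fun x => h x + s x := by
    ext x; simp [hh]
  rcases le_total 0 J with hJ0 | hJ0
  · left
    have hsdec : DecLe s (Ioo (z - δ / 2) (z + δ / 2)) 0 := by
      intro n x y hxy _
      refine Finset.sum_nonpos fun i hi => ?_
      have := (hxy i (Finset.mem_range.1 hi)).2.2
      simp only [hs]
      split_ifs with a b
      · linarith
      · exact absurd (a.trans this) b
      · linarith
      · linarith
    have := (decLe_of_var he.le hvar).add hsdec
    rw [add_zero, ← hf] at this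
    exact this
  · right
    have hsinc : IncLe s (Ioo (z - δ / 2) (z + δ / 2)) 0 := by
      intro n x y hxy _
      refine Finset.sum_nonpos fun i hi => ?_
      have := (hxy i (Finset.mem_range.1 hi)).2.2
      simp only [hs]
      split_ifs with a b b
      · linarith
      · linarith
      · exact absurd (b.trans this) a
      · linarith
    have := (incLe_of_var he.le hvar).add hsinc
    rw [add_zero, ← hf] at this
    exact this

/-! ### the sequences considered -/

/-- `fj` converges to `f` in variation and uniformly -/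
structure SeqCtx (f : ℝ → ℝ) (fj : ℕ → ℝ → ℝ) (B : ℝ) (η : ℕ → ℝ) : Prop where
  bm : BM f B
  bmj : ∀ j, BM (fj j) B
  bv : BoundedVariationOn f univ
  var : Tendsto (fun j => eVariationOn (fun x => fj j x - f x) univ) atTop (𝓝 0)
  eta : Tendsto η atTop (𝓝 0)
  sup : ∀ j x, |fj j x - f x| ≤ η j

theorem SeqCtx.eventually {fj : ℕ → ℝ → ℝ} {η : ℕ → ℝ} (h : SeqCtx f fj B η) {e : ℝ} (he : 0 < e) :
    ∀ᶠ j in atTop, eVariationOn (fun x => fj j x - f x) univ ≤ ENNReal.ofReal e ∧ η j ≤ e := by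
  have h1 := (tendsto_order.1 h.var).2 _ (ENNReal.ofReal_pos.2 he)
  have h2 := (tendsto_order.1 h.eta).2 _ he
  filter_upwards [h1, h2] with j h3 h4
  exact ⟨h3.le, h4.le⟩

/-- oscillation of `Mx R (fj j)` from the variation of `Mx R f` -/
theorem osc_le {fj : ℝ → ℝ} (hf : BM f B) (hfj : BM fj B) (hR : R ⊆ Ioi 0) (hne : R.Nonempty)
    {e η : ℝ} (he : 0 ≤ e) (hη : ∀ x, |fj x - f x| ≤ η) (h : eVariationOn (Mx R f) K ≤ ENNReal.ofReal e)
    {x y : ℝ} (hx : x ∈ K) (hy : y ∈ K) : Mx R fj x - Mx R fj y ≤ e + 2 * η := by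
  have h1 := (eVariationOn.edist_le _ hx hy).trans h
  rw [edist_eq, ENNReal.ofReal_le_ofReal_iff he] at h1
  have h2 := abs_le.1 h1
  have h3 := abs_le.1 (abs_Mx_sub_le (x := x) hfj hf hR hne hη)
  have h4 := abs_le.1 (abs_Mx_sub_le (x := y) hfj hf hR hne hη)
  linarith

theorem node_aux : ∃ C : ℝ, 0 < C ∧ ∀ (f fj : ℝ → ℝ) (B : ℝ), BM f B → BM fj B →
    ∀ (δ : ℝ), 0 < δ → ∀ (K : Set ℝ), K.OrdConnected → ∀ (e c d : ℝ), 0 ≤ e → c ≤ d → K ⊆ Icc c d →
      (DecLe f (thick K δ) e ∨ IncLe f (thick K δ) e) →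
      eVariationOn (Mx (Ioo 0 δ) f) K ≤ ENNReal.ofReal e → B / δ * (d - c) ≤ e →
      (∀ x, |fj x - f x| ≤ e) → eVariationOn (fun x => fj x - f x) univ ≤ ENNReal.ofReal e →
      eVariationOn (Mx (Ioi 0) fj) K ≤ ENNReal.ofReal (C * e) := by
  obtain ⟨C, hC, hsmall⟩ := small_radii
  refine ⟨5 * C + 1, by positivity, ?_⟩
  intro f fj B hf hfj δ hδ K hK e c d he hcd hKcd hde hvar hlip hη hjvar
  have hne : (Ioo (0 : ℝ) δ).Nonempty := ⟨δ / 2, by constructor <;> linarith⟩
  have hsub : Ioo (0 : ℝ) δ ⊆ Ioi 0 := fun r hr => hr.1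
  have hsub2 : Ici δ ⊆ Ioi (0:ℝ) := fun r hr => lt_of_lt_of_le hδ hr
  have h1 := hsmall fj B hfj δ hδ K hK (3 * e) (2 * e) (by linarith)
    (fun x hx y hy => (osc_le hf hfj hsub hne he hη hvar hx hy).trans (by linarith)) (by
      have := or_perturb (g := fj) he hde ((eVariationOn.mono _ (subset_univ _)).trans hjvar)
      rw [two_mul]; exact this)
  have h2 := var_lip hfj hδ (subset_refl (Ici δ)) ⟨δ, self_mem_Ici⟩ hcd hKcd
  have h3 : Mx (Ioi 0) fj = fun x => max (Mx (Ioo 0 δ) fj x) (Mx (Ici δ) fj x) := by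
    ext x
    rw [← Mx_union hfj hsub hsub2 hne ⟨δ, self_mem_Ici⟩, Ioo_union_Ici_eq_Ioi hδ]
  rw [h3]
  refine (var_max_le _ _ _).trans ((add_le_add h1 h2).trans ?_)
  rw [← ENNReal.ofReal_add (by positivity) (mul_nonneg (div_nonneg hf.nonneg hδ.le) (by linarith))]
  exact ENNReal.ofReal_le_ofReal (by linarith)

/-- V2: small variation on both sides of every point, uniformly for large `j` -/
theorem node {fj : ℕ → ℝ → ℝ} {η : ℕ → ℝ} (h : SeqCtx f fj B η)
    (hrc : ∀ x, ContinuousWithinAt f (Ici x) x) (z ε : ℝ) (hε : 0 < ε) :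
    ∃ ρ > 0, ∀ᶠ j in atTop,
      eVariationOn (Mx (Ioi 0) (fj j)) (Ioc z (z + ρ)) ≤ ENNReal.ofReal ε ∧
      eVariationOn (Mx (Ioi 0) (fj j)) (Ico (z - ρ) z) ≤ ENNReal.ofReal ε := by
  obtain ⟨C, hC, haux⟩ := node_aux
  set e := ε / C with he
  have he0 : 0 < e := div_pos hε hC
  obtain ⟨δ, hδ, hloc⟩ := node_local h.bv hrc z e he0
  set δ₁ := δ / 2 with hδ₁
  have hδ₁0 : 0 < δ₁ := by linarith
  have hne : (Ioo (0 : ℝ) δ₁).Nonempty := ⟨δ₁ / 2, by constructor <;> linarith⟩
  have hubv := bv_Mx h.bm h.bv (fun r hr => hr.1 : Ioo (0 : ℝ) δ₁ ⊆ Ioi 0) hne (down_Ioo δ₁)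
  have t1 := hubv.tendsto_eVariationOn_Ioc_zero z
  have t2 := hubv.tendsto_eVariationOn_Ico_zero z
  simp only [univ_inter, nhdsWithin_univ] at t1 t2
  have hpos : (0 : ℝ≥0∞) < ENNReal.ofReal e := ENNReal.ofReal_pos.2 he0
  obtain ⟨ρ₀, hρ₀, hρ₀'⟩ := Metric.eventually_nhds_iff.1
    (((tendsto_order.1 t1).2 _ hpos).and ((tendsto_order.1 t2).2 _ hpos))
  have hB := h.bm.nonneg
  set ρ := min (ρ₀ / 2) (min δ₁ (e * δ₁ / (B + 1))) with hρ
  have hρ0 : 0 < ρ := by
    refine lt_min (by linarith) (lt_min hδ₁0 (by positivity))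
  have hρ1 : ρ ≤ ρ₀ / 2 := min_le_left _ _
  have hρ2 : ρ ≤ δ₁ := (min_le_right _ _).trans (min_le_left _ _)
  have hρ3 : ρ ≤ e * δ₁ / (B + 1) := (min_le_right _ _).trans (min_le_right _ _)
  have hlip : B / δ₁ * ρ ≤ e := by
    calc B / δ₁ * ρ ≤ B / δ₁ * (e * δ₁ / (B + 1)) :=
          mul_le_mul_of_nonneg_left hρ3 (div_nonneg hB hδ₁0.le)
      _ = B / (B + 1) * e := by field_simp
      _ ≤ 1 * e := by
          refine mul_le_mul_of_nonneg_right ?_ he0.le
          rw [div_le_one (by linarith)]; linarith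
      _ = e := one_mul e
  refine ⟨ρ, hρ0, ?_⟩
  filter_upwards [h.eventually he0] with j hj
  have hCe : C * e = ε := by rw [he]; field_simp
  rw [← hCe]
  constructor
  · refine haux f (fj j) B h.bm (h.bmj j) δ₁ hδ₁0 _ ordConnected_Ioc e z (z + ρ) he0.le
      (by linarith) Ioc_subset_Icc_self ?_
      ((hρ₀' (y := z + ρ) (by rw [Real.dist_eq, abs_lt]; constructor <;> linarith)).1).le
      (by rw [add_sub_cancel_left]; exact hlip) (fun x => (h.sup j x).trans hj.2) hj.1
    have hsub : thick (Ioc z (z + ρ)) δ₁ ⊆ Ioo (z - δ) (z + δ) := by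
      rintro y ⟨x, hx, hy⟩
      rw [abs_lt] at hy
      constructor <;> linarith [hx.1, hx.2]
    rcases hloc with h' | h'
    · exact Or.inl (h'.mono hsub)
    · exact Or.inr (h'.mono hsub)
  · refine haux f (fj j) B h.bm (h.bmj j) δ₁ hδ₁0 _ ordConnected_Ico e (z - ρ) z he0.le
      (by linarith) Ico_subset_Icc_self ?_
      ((hρ₀' (y := z - ρ) (by rw [Real.dist_eq, abs_lt]; constructor <;> linarith)).2).le
      (by rw [sub_sub_cancel]; exact hlip) (fun x => (h.sup j x).trans hj.2) hj.1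
    have hsub : thick (Ico (z - ρ) z) δ₁ ⊆ Ioo (z - δ) (z + δ) := by
      rintro y ⟨x, hx, hy⟩
      rw [abs_lt] at hy
      constructor <;> linarith [hx.1, hx.2]
    rcases hloc with h' | h'
    · exact Or.inl (h'.mono hsub)
    · exact Or.inr (h'.mono hsub)

end Pool.Agent.Lib.MP_653dc2_an
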