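import Pool.Agent.Lib.MP_653dc2_an.Basic

set_option autoImplicit false
open Set MeasureTheory Filter Topology
open scoped ENNReal

namespace Pool.Agent.Lib.MP_653dc2_an

/-! ### enumeration of finite sets -/

theorem exists_enum {α : Type*} [LinearOrder α] (X : Finset α) (hX : X.Nonempty) :
    ∃ (M : ℕ) (q : ℕ → α), (∀ a b, a < b → b ≤ M → q a < q b) ∧ (∀ k ≤ M, q k ∈ X) ∧
      ∀ y ∈ X, ∃ k ≤ M, q k = y := by
  have hc : 0 < X.card := Finset.card_pos.2 hX
  let e := X.orderEmbOfFin rfl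
  let q : ℕ → α := fun k => if h : k < X.card then e ⟨k, h⟩ else e ⟨0, hc⟩
  refine ⟨X.card - 1, q, ?_, ?_, ?_⟩
  · intro a b hab hb
    have hb' : b < X.card := by omega
    have ha' : a < X.card := by omega
    simp only [q, hb', ha', dif_pos]
    exact e.strictMono hab
  · intro k hk
    have hk' : k < X.card := by omega
    simp only [q, hk', dif_pos]
    exact X.orderEmbOfFin_mem rfl _
  · intro y hy
    have : y ∈ Set.range e := by
      rw [Finset.range_orderEmbOfFin]; exact hy
    obtain ⟨k, hk⟩ := this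
    refine ⟨k, by have := k.2; omega, ?_⟩
    simp only [q, k.2, dif_pos]
    exact hk

/-! ### separated indices -/

theorem sep_left (n : ℕ) (v w : ℕ → ℝ) (hw : ∀ k < n, w k ≤ v (k + 1)) (hw' : ∀ k < n, w k ≤ v k)
    (l : ℝ) (Y : Finset ℕ) (hY : ∀ i ∈ Y, i ≤ n ∧ l < v i)
    (hsep : ∀ i ∈ Y, ∀ i' ∈ Y, i < i' → ∃ k, i ≤ k ∧ k < i' ∧ w k ≤ l) :
    Y.card ≤ 1 + ((Finset.range n).filter (fun k => w k ≤ l ∧ l < v k)).card := by
  classical
  rcases Y.eq_empty_or_nonempty with rfl | hne
  · simp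
  set m := Y.max' hne with hm
  have hmY : m ∈ Y := Y.max'_mem hne
  -- map each other element to the first small place after it
  have hlt : ∀ i ∈ Y.erase m, i < m := fun i hi =>
    lt_of_le_of_ne (Y.le_max' i (Finset.mem_of_mem_erase hi)) (Finset.ne_of_mem_erase hi)
  have hex : ∀ i ∈ Y.erase m, ∃ k, i ≤ k ∧ k < m ∧ w k ≤ l := fun i hi =>
    hsep i (Finset.mem_of_mem_erase hi) m hmY (hlt i hi)
  let φ : ℕ → ℕ := fun i => if h : ∃ k, i ≤ k ∧ w k ≤ l then Nat.find h else 0
  have hφ : ∀ i ∈ Y.erase m, i ≤ φ i ∧ w (φ i) ≤ l ∧ φ i < m ∧ ∀ k, i ≤ k → k < φ i → l < w k := by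
    intro i hi
    obtain ⟨k, hk1, hk2, hk3⟩ := hex i hi
    have h : ∃ k, i ≤ k ∧ w k ≤ l := ⟨k, hk1, hk3⟩
    have hφi : φ i = Nat.find h := by simp only [φ, h, dif_pos]
    rw [hφi]
    refine ⟨(Nat.find_spec h).1, (Nat.find_spec h).2,
      lt_of_le_of_lt (Nat.find_min' h ⟨hk1, hk3⟩) hk2, ?_⟩
    intro k' hk' hk''
    by_contra hcon
    exact Nat.find_min h hk'' ⟨hk', not_lt.1 hcon⟩
  have hcard : (Y.erase m).card ≤
      ((Finset.range n).filter (fun k => w k ≤ l ∧ l < v k)).card := by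
    refine Finset.card_le_card_of_injOn φ ?_ ?_
    · intro i hi
      obtain ⟨h1, h2, h3, h4⟩ := hφ i hi
      have hmn : m ≤ n := (hY m hmY).1
      simp only [Finset.coe_filter, Finset.mem_range, mem_ofPred_eq]
      refine ⟨by omega, h2, ?_⟩
      rcases h1.eq_or_lt with h | h
      · rw [← h]; exact (hY i (Finset.mem_of_mem_erase hi)).2
      · have h5 := h4 (φ i - 1) (by omega) (by omega)
        have h6 := hw (φ i - 1) (by omega)
        have h7 : φ i - 1 + 1 = φ i := by omega
        rw [h7] at h6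
        linarith
    · intro i hi i' hi' hii
      by_contra hne'
      wlog hlt' : i < i' generalizing i i'
      · exact this hi' hi hii.symm (Ne.symm hne') (lt_of_le_of_ne (not_lt.1 hlt') (Ne.symm hne'))
      obtain ⟨k, hk1, hk2, hk3⟩ := hsep i (Finset.mem_of_mem_erase hi) i'
        (Finset.mem_of_mem_erase hi') hlt'
      obtain ⟨h1, h2, h3, h4⟩ := hφ i hi
      obtain ⟨h1', -, -, -⟩ := hφ i' hi'
      have : φ i ≤ k := by
        by_contra hcon
        exact absurd hk3 (not_le.2 (h4 k hk1 (not_le.1 hcon)))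
      have hii' : φ i = φ i' := hii
      omega
  have := Finset.card_erase_of_mem hmY
  omega

theorem sep_right (n : ℕ) (v w : ℕ → ℝ) (hw : ∀ k < n, w k ≤ v (k + 1)) (hw' : ∀ k < n, w k ≤ v k)
    (l : ℝ) (Y : Finset ℕ) (hY : ∀ i ∈ Y, i ≤ n ∧ l < v i)
    (hsep : ∀ i ∈ Y, ∀ i' ∈ Y, i < i' → ∃ k, i ≤ k ∧ k < i' ∧ w k ≤ l) :
    Y.card ≤ 1 + ((Finset.range n).filter (fun k => w k ≤ l ∧ l < v (k + 1))).card := by
  classical
  rcases Y.eq_empty_or_nonempty with rfl | hne
  · simp
  set m := Y.min' hne with hm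
  have hmY : m ∈ Y := Y.min'_mem hne
  have hlt : ∀ i ∈ Y.erase m, m < i := fun i hi =>
    lt_of_le_of_ne (Y.min'_le i (Finset.mem_of_mem_erase hi)) (Ne.symm (Finset.ne_of_mem_erase hi))
  -- map each other element to the last small place before it
  have hex : ∀ i ∈ Y.erase m, ∃ k, m ≤ k ∧ k < i ∧ w k ≤ l ∧ ∀ k', k < k' → k' < i → l < w k' := by
    intro i hi
    obtain ⟨k, hk1, hk2, hk3⟩ := hsep m hmY i (Finset.mem_of_mem_erase hi) (hlt i hi)
    have hne2 : ((Finset.range i).filter (fun k => m ≤ k ∧ w k ≤ l)).Nonempty :=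
      ⟨k, by simp [hk1, hk2, hk3]⟩
    set k0 := ((Finset.range i).filter (fun k => m ≤ k ∧ w k ≤ l)).max' hne2 with hk0
    have hk0m := ((Finset.range i).filter (fun k => m ≤ k ∧ w k ≤ l)).max'_mem hne2
    rw [← hk0] at hk0m
    simp only [Finset.mem_filter, Finset.mem_range] at hk0m
    refine ⟨k0, hk0m.2.1, hk0m.1, hk0m.2.2, ?_⟩
    intro k' h1 h2
    by_contra hcon
    have : k' ≤ k0 := Finset.le_max' _ _ (by
      simp only [Finset.mem_filter, Finset.mem_range]
      exact ⟨h2, by omega, not_lt.1 hcon⟩)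
    omega
  choose! φ hφ1 hφ2 hφ3 hφ4 using hex
  have hcard : (Y.erase m).card ≤
      ((Finset.range n).filter (fun k => w k ≤ l ∧ l < v (k + 1))).card := by
    refine Finset.card_le_card_of_injOn φ ?_ ?_
    · intro i hi
      have h1 := hφ1 i hi
      have h2 := hφ2 i hi
      have h3 := hφ3 i hi
      have h4 := hφ4 i hi
      have hin : i ≤ n := (hY i (Finset.mem_of_mem_erase hi)).1
      simp only [Finset.coe_filter, Finset.mem_range, mem_ofPred_eq]
      refine ⟨by omega, h3, ?_⟩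
      rcases (show φ i + 1 ≤ i from h2).eq_or_lt with h | h
      · rw [h]; exact (hY i (Finset.mem_of_mem_erase hi)).2
      · have h5 := h4 (φ i + 1) (by omega) h
        have h6 := hw' (φ i + 1) (by omega)
        linarith
    · intro i hi i' hi' hii
      by_contra hne'
      wlog hlt' : i < i' generalizing i i'
      · exact this hi' hi hii.symm (Ne.symm hne') (lt_of_le_of_ne (not_lt.1 hlt') (Ne.symm hne'))
      obtain ⟨k, hk1, hk2, hk3⟩ := hsep i (Finset.mem_of_mem_erase hi) i'
        (Finset.mem_of_mem_erase hi') hlt'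
      have h4 := hφ4 i' hi'
      have h2 := hφ2 i hi
      have : k ≤ φ i' := by
        by_contra hcon
        exact absurd hk3 (not_le.2 (h4 k (not_le.1 hcon) hk2))
      have hii' : φ i = φ i' := hii
      omega
  have := Finset.card_erase_of_mem hmY
  omega

/-! ### levels -/

/-- indicator of the half-open interval from `a` to `b` -/
noncomputable def ind (a b l : ℝ) : ℝ := if a ≤ l ∧ l < b then 1 else 0

theorem ind_nonneg (a b l : ℝ) : 0 ≤ ind a b l := by unfold ind; split_ifs <;> norm_num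

theorem ind_eq_indicator (a b : ℝ) : ind a b = (Ico a b).indicator (fun _ => (1 : ℝ)) := by
  ext l
  unfold ind
  by_cases h : a ≤ l ∧ l < b
  · rw [if_pos h, indicator_of_mem (show l ∈ Ico a b from h)]
  · rw [if_neg h, indicator_of_notMem (show l ∉ Ico a b from h)]

theorem integrable_ind (a b : ℝ) : Integrable (ind a b) := by
  rw [ind_eq_indicator, integrable_indicator_iff measurableSet_Ico]
  exact integrableOn_const (by simp) (by simp)

theorem integral_ind (a b : ℝ) : ∫ l, ind a b l = max (b - a) 0 := by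
  rw [ind_eq_indicator, integral_indicator measurableSet_Ico]
  simp [measureReal_def, Real.volume_Ico, ENNReal.toReal_ofReal']

theorem card_filter_ind (n : ℕ) (w v : ℕ → ℝ) (l : ℝ) :
    (((Finset.range n).filter (fun k => w k ≤ l ∧ l < v k)).card : ℝ) =
      ∑ k ∈ Finset.range n, ind (w k) (v k) l := by
  rw [Finset.card_filter]
  push_cast
  rfl

end Pool.Agent.Lib.MP_653dc2_an
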