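import Pool.Agent.Lib.MP_653dc2_an.Node

set_option autoImplicit false
open Set MeasureTheory Filter Topology
open scoped ENNReal

namespace Pool.Agent.Lib.MP_653dc2_an

variable {f g : ℝ → ℝ} {B : ℝ} {J K R S : Set ℝ}

theorem DecLe.congr {e : ℝ} (h : DecLe f J e) (hfg : ∀ x ∈ J, g x = f x) : DecLe g J e := by
  intro n x y h1 h2
  have := h n x y h1 h2
  refine le_trans (le_of_eq (Finset.sum_congr rfl fun i hi => ?_)) this
  have h3 := h1 i (Finset.mem_range.1 hi)
  rw [hfg _ h3.1, hfg _ h3.2.1]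

theorem IncLe.congr {e : ℝ} (h : IncLe f J e) (hfg : ∀ x ∈ J, g x = f x) : IncLe g J e := by
  intro n x y h1 h2
  have := h n x y h1 h2
  refine le_trans (le_of_eq (Finset.sum_congr rfl fun i hi => ?_)) this
  have h3 := h1 i (Finset.mem_range.1 hi)
  rw [hfg _ h3.1, hfg _ h3.2.1]

/-- changing a bounded function on `[-T₀, T₀]` changes averages over long intervals little -/
theorem av_change {h : ℝ → ℝ} (hg : BM g B) (hh : BM h B) {T₀ : ℝ} (hT₀ : 0 < T₀)
    (hout : ∀ x, T₀ < |x| → h x = g x) {m₁ m₂ L : ℝ} (hL : 0 < L) (hm : L / 4 ≤ m₂ - m₁) :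
    av h m₁ m₂ ≤ av g m₁ m₂ + if m₁ < T₀ ∧ -T₀ < m₂ then 16 * B * T₀ * L⁻¹ else 0 := by
  have hlt : m₁ < m₂ := by linarith
  have hB := hg.nonneg
  split_ifs with hc
  · have h1 : av h m₁ m₂ - av g m₁ m₂ ≤ 16 * B * T₀ * L⁻¹ := by
      rw [← av_sub hh hg]
      unfold av
      have h2 : ∫ t in m₁..m₂, (h t - g t) ≤ ∫ t in m₁..m₂, (Icc (-T₀) T₀).indicator
          (fun _ => 2 * B) t := by
        refine intervalIntegral.integral_mono_on hlt.le
          ((hh.sub hg).intervalIntegrable _ _) ?_ ?_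
        · rw [intervalIntegrable_iff]
          exact (integrable_indicator_iff measurableSet_Icc).2
            (integrableOn_const (by simp) (by finiteness)) |>.integrableOn
        · intro t _
          by_cases ht : t ∈ Icc (-T₀) T₀
          · rw [indicator_of_mem ht]
            have h3 := abs_le.1 (hh.bdd t)
            have h4 := abs_le.1 (hg.bdd t)
            linarith
          · rw [indicator_of_notMem ht]
            have : T₀ < |t| := by
              by_contra hcon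
              exact ht (abs_le.1 (not_lt.1 hcon))
            rw [hout t this, sub_self]
      have h3 : ∫ t in m₁..m₂, (Icc (-T₀) T₀).indicator (fun _ => 2 * B) t ≤ 4 * B * T₀ := by
        rw [intervalIntegral.integral_of_le hlt.le]
        calc ∫ t in Ioc m₁ m₂, (Icc (-T₀) T₀).indicator (fun _ => 2 * B) t
            ≤ ∫ t, (Icc (-T₀) T₀).indicator (fun _ => 2 * B) t := by
              refine setIntegral_le_integral ?_ ?_
              · exact (integrable_indicator_iff measurableSet_Icc).2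
                  (integrableOn_const (by simp) (by finiteness))
              · exact Eventually.of_forall fun t => indicator_nonneg (fun _ _ => by positivity) t
          _ = 4 * B * T₀ := by
              rw [integral_indicator measurableSet_Icc]
              simp only [integral_const, MeasurableSet.univ, measureReal_restrict_apply,
                univ_inter, smul_eq_mul]
              rw [measureReal_def, Real.volume_Icc, ENNReal.toReal_ofReal (by linarith)]
              ring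
      have h4 : (m₂ - m₁)⁻¹ ≤ 4 * L⁻¹ := by
        rw [show 4 * L⁻¹ = (L / 4)⁻¹ by field_simp]
        exact inv_anti₀ (by positivity) hm
      have h5 : (0:ℝ) ≤ (m₂ - m₁)⁻¹ := inv_nonneg.2 (by linarith)
      calc (m₂ - m₁)⁻¹ * ∫ t in m₁..m₂, (h t - g t)
          ≤ (m₂ - m₁)⁻¹ * (4 * B * T₀) := mul_le_mul_of_nonneg_left (h2.trans h3) h5
        _ ≤ 4 * L⁻¹ * (4 * B * T₀) := mul_le_mul_of_nonneg_right h4 (by positivity)
        _ = 16 * B * T₀ * L⁻¹ := by ring
    linarith
  · rw [add_zero]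
    refine av_mono_on hh hg hlt fun t ht => le_of_eq (hout t ?_)
    by_contra hcon
    have h1 := abs_le.1 (not_lt.1 hcon)
    apply hc
    exact ⟨by linarith [ht.1], by linarith [ht.2]⟩

theorem far_sum : ∃ C : ℝ, 0 ≤ C ∧ ∀ (g h : ℝ → ℝ) (B : ℝ), BM g B → BM h B → ∀ (T₀ a : ℝ),
    0 < T₀ → T₀ ≤ a → (∀ x, T₀ < |x| → h x = g x) → ∀ (J : Set ℝ) (e : ℝ), J.OrdConnected →
    (DecLe h J e ∨ IncLe h J e) → ∀ (F : Finset (ℤ × ℤ)) (s m₁ m₂ t : ℤ × ℤ → ℝ),
    (∀ c ∈ F, IsPat c (s c) (m₁ c) (m₂ c) (t c) ∧ s c ∈ J ∧ t c ∈ J ∧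
      min (g (s c)) (g (t c)) ≤ min (h (s c)) (h (t c)) ∧ a < (2 : ℝ) ^ c.1) →
    ∑ c ∈ F, max (min (g (s c)) (g (t c)) - av g (m₁ c) (m₂ c)) 0 ≤ C * (e + B * T₀ / a) := by
  obtain ⟨C, hC, hcount⟩ := count_patterns
  refine ⟨C + 12320, by positivity, ?_⟩
  intro g h B hg hh T₀ a hT₀ ha hout J e hJ hde F s m₁ m₂ t hF
  have ha0 : 0 < a := hT₀.trans_le ha
  have he := nonneg_of_or hde
  have hB := hg.nonneg
  have h1 := hcount h B hh J e hJ hde F s m₁ m₂ t fun c hc =>
    ⟨(hF c hc).1, (hF c hc).2.1, (hF c hc).2.2.1⟩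
  set F' := F.filter (fun c => m₁ c < T₀ ∧ -T₀ < m₂ c) with hF'
  have h2 : ∑ c ∈ F, max (min (g (s c)) (g (t c)) - av g (m₁ c) (m₂ c)) 0 ≤
      ∑ c ∈ F, max (min (h (s c)) (h (t c)) - av h (m₁ c) (m₂ c)) 0 +
        ∑ c ∈ F', 16 * B * T₀ * ((2 : ℝ) ^ c.1)⁻¹ := by
    rw [hF', Finset.sum_filter, ← Finset.sum_add_distrib]
    refine Finset.sum_le_sum fun c hc => ?_
    obtain ⟨a1, a2, a3, a4, a5⟩ := hF c hc
    have h3 := av_change hg hh hT₀ hout (L := (2 : ℝ) ^ c.1) (by positivity) a1.long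
    have h4 : 0 ≤ (if m₁ c < T₀ ∧ -T₀ < m₂ c then 16 * B * T₀ * ((2 : ℝ) ^ c.1)⁻¹ else 0) := by
      split_ifs <;> positivity
    refine max_le ?_ (add_nonneg (le_max_right _ _) h4)
    have h5 := le_max_left (min (h (s c)) (h (t c)) - av h (m₁ c) (m₂ c)) 0
    linarith
  have h3 : ∑ c ∈ F', (8 * a) * ((2 : ℝ) ^ c.1)⁻¹ ≤ 385 * 16 := by
    refine cnt_scales F' id (injOn_id _) (8 * a) 0 (by positivity) ?_ ?_
    · intro c hc
      have := (hF c (Finset.mem_filter.1 hc).1).2.2.2.2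
      simp only [id]
      linarith
    · intro c hc
      obtain ⟨hc1, hc2, hc3⟩ := Finset.mem_filter.1 hc
      obtain ⟨a1, a2, a3, a4, a5⟩ := hF c hc1
      have b1 := abs_le.1 a1.loc
      have b2 := a1.lt1
      have b3 := a1.lt2
      have b4 := a1.lt3
      have b5 := a1.short
      have hp : (0:ℝ) < (2 : ℝ) ^ c.1 := by positivity
      simp only [id]
      rw [abs_le]
      constructor <;> linarith
  have h4 : ∑ c ∈ F', 16 * B * T₀ * ((2 : ℝ) ^ c.1)⁻¹ =
      2 * (B * T₀ / a) * ∑ c ∈ F', (8 * a) * ((2 : ℝ) ^ c.1)⁻¹ := by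
    rw [Finset.mul_sum]
    refine Finset.sum_congr rfl fun c _ => ?_
    field_simp
    ring
  have h5 : 0 ≤ B * T₀ / a := by positivity
  rw [h4] at h2
  nlinarith [mul_nonneg hC h5]

theorem tail_aux : ∃ C : ℝ, 0 < C ∧ ∀ (f fj : ℝ → ℝ) (B : ℝ), BM f B → BM fj B →
    ∀ (e T₀ T : ℝ), 0 ≤ e → 0 < T₀ → 3 * T₀ ≤ T → B * T₀ ≤ e * T →
      eVariationOn f (Ici T₀) ≤ ENNReal.ofReal e → eVariationOn f (Iic (-T₀)) ≤ ENNReal.ofReal e →
      eVariationOn (Mx (Ioi 0) f) (Ici T) ≤ ENNReal.ofReal e →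
      (∀ x, |fj x - f x| ≤ e) → eVariationOn (fun x => fj x - f x) univ ≤ ENNReal.ofReal e →
      eVariationOn (Mx (Ioi 0) fj) (Ici T) ≤ ENNReal.ofReal (C * e) := by
  obtain ⟨C₁, hC₁, hcore⟩ := core
  obtain ⟨C₂, hC₂, hcount⟩ := count_patterns
  obtain ⟨C₃, hC₃, hfar⟩ := far_sum
  refine ⟨C₁ * (5 + 2 * C₂ + 12 * C₃) + 1, by positivity, ?_⟩
  intro f fj B hf hfj e T₀ T he hT₀ hT hBT hvr hvl hu hη hjvar
  have hB := hf.nonneg
  have hTpos : 0 < T := by linarith
  -- variation of fj outside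
  have hjr : eVariationOn fj (Ici T₀) ≤ ENNReal.ofReal (2 * e) := by
    refine (var_le_of_sub fj f _).trans ((add_le_add hvr
      ((eVariationOn.mono _ (subset_univ _)).trans hjvar)).trans (le_of_eq ?_))
    rw [← ENNReal.ofReal_add he he]; congr 1; ring
  have hjl : eVariationOn fj (Iic (-T₀)) ≤ ENNReal.ofReal (2 * e) := by
    refine (var_le_of_sub fj f _).trans ((add_le_add hvl
      ((eVariationOn.mono _ (subset_univ _)).trans hjvar)).trans (le_of_eq ?_))
    rw [← ENNReal.ofReal_add he he]; congr 1; ring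
  set g₁ : ℝ → ℝ := fun x => fj (max x T₀) with hg₁
  set g₃ : ℝ → ℝ := fun x => fj (min x (-T₀)) with hg₃
  have hg₁var : ∀ S : Set ℝ, eVariationOn g₁ S ≤ ENNReal.ofReal (2 * e) := fun S => by
    refine le_trans (eVariationOn.comp_le_of_monotoneOn fj (t := S) (s := Ici T₀)
      (fun x => max x T₀) ?_ ?_) hjr
    · intro x _ y _ hxy
      exact max_le_max hxy le_rfl
    · intro x _
      exact mem_Ici.2 (le_max_right x T₀)
  have hg₃var : ∀ S : Set ℝ, eVariationOn g₃ S ≤ ENNReal.ofReal (2 * e) := fun S => by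
    refine le_trans (eVariationOn.comp_le_of_monotoneOn fj (t := S) (s := Iic (-T₀))
      (fun x => min x (-T₀)) ?_ ?_) hjl
    · intro x _ y _ hxy
      exact min_le_min hxy le_rfl
    · intro x _
      exact mem_Iic.2 (min_le_right x (-T₀))
  set f₂ : ℝ → ℝ := fun x => if |x| ≤ T₀ then B else fj x with hf₂
  set f₃ : ℝ → ℝ := fun x => if |x| ≤ T₀ then fj (-T₀) else fj x with hf₃
  have hmeas : MeasurableSet {x : ℝ | |x| ≤ T₀} := measurableSet_le measurable_abs measurable_const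
  have hf₂B : BM f₂ B := by
    refine ⟨Measurable.ite hmeas measurable_const hfj.meas, fun x => ?_⟩
    simp only [hf₂]
    split_ifs
    · rw [abs_of_nonneg hB]
    · exact hfj.bdd x
  have hf₃B : BM f₃ B := by
    refine ⟨Measurable.ite hmeas measurable_const hfj.meas, fun x => ?_⟩
    simp only [hf₃]
    split_ifs
    · exact hfj.bdd _
    · exact hfj.bdd x
  have hout₂ : ∀ x, T₀ < |x| → f₂ x = fj x := fun x hx => by
    simp only [hf₂, not_le.2 hx, if_false]
  have hout₃ : ∀ x, T₀ < |x| → f₃ x = fj x := fun x hx => by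
    simp only [hf₃, not_le.2 hx, if_false]
  have he2 : 0 ≤ 2 * e := by linarith
  -- increase of f₂ to the right of -T₀
  have hinc₂ : IncLe f₂ (Ici (-T₀)) (2 * e) := by
    set st : ℝ → ℝ := fun x => if x ≤ T₀ then B - fj T₀ else 0 with hst
    have hst0 : IncLe st (Ici (-T₀)) 0 := by
      intro n x y hxy _
      refine Finset.sum_nonpos fun i hi => ?_
      have h1 := (hxy i (Finset.mem_range.1 hi)).2.2
      have h2 := (abs_le.1 (hfj.bdd T₀)).2
      simp only [hst]
      split_ifs with a b b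
      · linarith
      · exact absurd (h1.trans a) b
      · linarith
      · linarith
    have h1 := (incLe_of_var (J := Ici (-T₀)) he2 (hg₁var _)).add hst0
    rw [add_zero] at h1
    refine h1.congr fun x hx => ?_
    have hx' : -T₀ ≤ x := hx
    simp only [hf₂, hg₁, hst]
    by_cases hxT : x ≤ T₀
    · rw [if_pos (abs_le.2 ⟨hx', hxT⟩), if_pos hxT, max_eq_right hxT]; ring
    · rw [if_neg (fun h => hxT (abs_le.1 h).2), if_neg hxT, max_eq_left (not_le.1 hxT).le, add_zero]
  have hde₃ : DecLe f₃ univ (4 * e) ∨ IncLe f₃ univ (4 * e) := by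
    set J₀ := fj T₀ - fj (-T₀) with hJ₀
    set st : ℝ → ℝ := fun x => -fj T₀ + if T₀ < x then J₀ else 0 with hst
    have hcongr : ∀ x ∈ (univ : Set ℝ), f₃ x = g₃ x + g₁ x + st x := by
      intro x _
      simp only [hf₃, hg₃, hg₁, hst]
      by_cases h1 : T₀ < x
      · rw [if_neg (fun h => absurd (abs_le.1 h).2 (not_le.2 h1)), if_pos h1,
          min_eq_right (by linarith), max_eq_left h1.le]
        rw [hJ₀]; ring
      · by_cases h2 : x < -T₀
        · rw [if_neg (fun h => absurd (abs_le.1 h).1 (not_le.2 h2)), if_neg h1,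
            min_eq_left h2.le, max_eq_right (by linarith)]
          ring
        · rw [if_pos (abs_le.2 ⟨by linarith, by linarith⟩), if_neg h1,
            min_eq_right (by linarith), max_eq_right (by linarith)]
          ring
    rcases le_total 0 J₀ with hJ | hJ
    · left
      have hst0 : DecLe st univ 0 := by
        intro n x y hxy _
        refine Finset.sum_nonpos fun i hi => ?_
        have h1 := (hxy i (Finset.mem_range.1 hi)).2.2
        simp only [hst]
        split_ifs with a b b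
        · linarith
        · exact absurd (a.trans_le h1) b
        · linarith
        · linarith
      have h1 := ((decLe_of_var (J := univ) he2 (hg₃var _)).add
        (decLe_of_var (J := univ) he2 (hg₁var _))).add hst0
      have h2 : 2 * e + 2 * e + 0 = 4 * e := by ring
      rw [h2] at h1
      exact h1.congr hcongr
    · right
      have hst0 : IncLe st univ 0 := by
        intro n x y hxy _
        refine Finset.sum_nonpos fun i hi => ?_
        have h1 := (hxy i (Finset.mem_range.1 hi)).2.2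
        simp only [hst]
        split_ifs with a b b
        · linarith
        · linarith
        · exact absurd (b.trans_le h1) a
        · linarith
      have h1 := ((incLe_of_var (J := univ) he2 (hg₃var _)).add
        (incLe_of_var (J := univ) he2 (hg₁var _))).add hst0
      have h2 : 2 * e + 2 * e + 0 = 4 * e := by ring
      rw [h2] at h1
      exact h1.congr hcongr
  -- apply the core estimate
  have hne : (Ioi (0:ℝ)).Nonempty := ⟨1, mem_Ioi.2 one_pos⟩
  have hquot : B * T₀ / (T / 3) ≤ 3 * e := by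
    rw [div_le_iff₀ (by linarith)]; linarith
  have hq0 : 0 ≤ B * T₀ / (T / 3) := by positivity
  have h1 := hcore fj B hfj (Ioi 0) hne (subset_refl _) down_Ioi (Ici T) ordConnected_Ici
    (3 * e) (2 * e) ((2 * C₂ + 12 * C₃) * e)
    (fun x hx y hy => (osc_le hf hfj (subset_refl _) hne he hη hu hx hy).trans (by linarith))
    (by linarith) (Or.inl ((decLe_of_var he2 hjr).mono (Ici_subset_Ici.2 (by linarith)))) ?_
  · refine h1.trans (ENNReal.ofReal_le_ofReal ?_)
    have : C₁ * (3 * e + 2 * e + (2 * C₂ + 12 * C₃) * e) = C₁ * (5 + 2 * C₂ + 12 * C₃) * e := by ring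
    rw [this]
    nlinarith
  · intro F s m₁ m₂ t hF
    have htT : ∀ c ∈ F, T < t c := by
      intro c hc
      obtain ⟨x, hx, -, hx2⟩ := (hF c hc).2.mid
      exact lt_of_le_of_lt hx hx2
    have hscale : ∀ c ∈ F, s c ≤ T₀ → T / 3 < (2 : ℝ) ^ c.1 := by
      intro c hc hs
      obtain ⟨x, hx, r, hr, hr2, hxr⟩ := (hF c hc).2.left
      have hx' : T ≤ x := hx
      linarith
    -- split
    have hG1 : ∑ c ∈ F.filter (fun c => T₀ < s c),
        max (min (fj (s c)) (fj (t c)) - av fj (m₁ c) (m₂ c)) 0 ≤ C₂ * (2 * e) := by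
      refine hcount fj B hfj (Ici T₀) (2 * e) ordConnected_Ici (Or.inl (decLe_of_var he2 hjr))
        _ s m₁ m₂ t fun c hc => ?_
      obtain ⟨hc1, hc2⟩ := Finset.mem_filter.1 hc
      exact ⟨(hF c hc1).1, hc2.le, show T₀ ≤ t c by linarith [htT c hc1]⟩
    have hG2 : ∑ c ∈ (F.filter (fun c => ¬ T₀ < s c)).filter (fun c => -T₀ ≤ s c),
        max (min (fj (s c)) (fj (t c)) - av fj (m₁ c) (m₂ c)) 0 ≤
          C₃ * (2 * e + B * T₀ / (T / 3)) := by
      refine hfar fj f₂ B hfj hf₂B T₀ (T / 3) hT₀ (by linarith) hout₂ (Ici (-T₀)) (2 * e)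
        ordConnected_Ici (Or.inr hinc₂) _ s m₁ m₂ t fun c hc => ?_
      obtain ⟨hc1, hc2⟩ := Finset.mem_filter.1 hc
      obtain ⟨hc3, hc4⟩ := Finset.mem_filter.1 hc1
      have ht := htT c hc3
      refine ⟨(hF c hc3).1, hc2, show -T₀ ≤ t c by linarith, ?_, hscale c hc3 (not_lt.1 hc4)⟩
      have e1 : f₂ (s c) = B := by
        simp only [hf₂]
        rw [if_pos (abs_le.2 ⟨hc2, not_lt.1 hc4⟩)]
      have e2 : f₂ (t c) = fj (t c) := hout₂ _ (lt_abs.2 (Or.inl (by linarith)))
      rw [e1, e2]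
      exact min_le_min (abs_le.1 (hfj.bdd _)).2 le_rfl
    have hG3 : ∑ c ∈ (F.filter (fun c => ¬ T₀ < s c)).filter (fun c => ¬ -T₀ ≤ s c),
        max (min (fj (s c)) (fj (t c)) - av fj (m₁ c) (m₂ c)) 0 ≤
          C₃ * (4 * e + B * T₀ / (T / 3)) := by
      refine hfar fj f₃ B hfj hf₃B T₀ (T / 3) hT₀ (by linarith) hout₃ univ (4 * e)
        ordConnected_univ hde₃ _ s m₁ m₂ t fun c hc => ?_
      obtain ⟨hc1, hc2⟩ := Finset.mem_filter.1 hc
      obtain ⟨hc3, hc4⟩ := Finset.mem_filter.1 hc1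
      have ht := htT c hc3
      refine ⟨(hF c hc3).1, trivial, trivial, ?_, hscale c hc3 (not_lt.1 hc4)⟩
      have e1 : f₃ (s c) = fj (s c) := hout₃ _ (lt_abs.2 (Or.inr (by linarith)))
      have e2 : f₃ (t c) = fj (t c) := hout₃ _ (lt_abs.2 (Or.inl (by linarith)))
      rw [e1, e2]
    rw [← Finset.sum_filter_add_sum_filter_not F (fun c => T₀ < s c),
      ← Finset.sum_filter_add_sum_filter_not (F.filter (fun c => ¬ T₀ < s c))
        (fun c => -T₀ ≤ s c)]
    have h5 : C₃ * (B * T₀ / (T / 3)) ≤ C₃ * (3 * e) := mul_le_mul_of_nonneg_left hquot hC₃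
    nlinarith

/-- V3, right tail -/
theorem tail_right {fj : ℕ → ℝ → ℝ} {η : ℕ → ℝ} (h : SeqCtx f fj B η) (ε : ℝ) (hε : 0 < ε) :
    ∃ T > 0, ∀ᶠ j in atTop,
      eVariationOn (Mx (Ioi 0) (fj j)) (Ici T) ≤ ENNReal.ofReal ε := by
  obtain ⟨C, hC, haux⟩ := tail_aux
  set e := ε / C with he
  have he0 : 0 < e := div_pos hε hC
  have hpos : (0 : ℝ≥0∞) < ENNReal.ofReal e := ENNReal.ofReal_pos.2 he0
  have hB := h.bm.nonneg
  have hne : (Ioi (0:ℝ)).Nonempty := ⟨1, mem_Ioi.2 one_pos⟩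
  have hubv := bv_Mx h.bm h.bv (subset_refl _) hne down_Ioi
  have t1 := h.bv.tendsto_eVariationOn_Ici_zero
  have t2 := h.bv.tendsto_eVariationOn_Iic_zero
  have t3 := hubv.tendsto_eVariationOn_Ici_zero
  simp only [univ_inter, principal_univ, top_inf_eq] at t1 t2 t3
  obtain ⟨a₁, ha₁⟩ := eventually_atTop.1 ((tendsto_order.1 t1).2 _ hpos)
  obtain ⟨a₂, ha₂⟩ := eventually_atBot.1 ((tendsto_order.1 t2).2 _ hpos)
  obtain ⟨a₃, ha₃⟩ := eventually_atTop.1 ((tendsto_order.1 t3).2 _ hpos)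
  set T₀ := max 1 (max a₁ (-a₂)) with hT₀
  have hT₀1 : 1 ≤ T₀ := le_max_left _ _
  have hT₀2 : a₁ ≤ T₀ := (le_max_left _ _).trans (le_max_right _ _)
  have hT₀3 : -a₂ ≤ T₀ := (le_max_right _ _).trans (le_max_right _ _)
  set T := max (3 * T₀) (max a₃ (B * T₀ / e)) with hT
  have hT1 : 3 * T₀ ≤ T := le_max_left _ _
  have hT2 : a₃ ≤ T := (le_max_left _ _).trans (le_max_right _ _)
  have hT3 : B * T₀ / e ≤ T := (le_max_right _ _).trans (le_max_right _ _)
  refine ⟨T, by linarith, ?_⟩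
  filter_upwards [h.eventually he0] with j hj
  have hCe : C * e = ε := by rw [he]; field_simp
  rw [← hCe]
  refine haux f (fj j) B h.bm (h.bmj j) e T₀ T he0.le (by linarith) hT1 ?_ (ha₁ _ hT₀2).le
    (ha₂ _ (by linarith)).le (ha₃ _ hT2).le (fun x => (h.sup j x).trans hj.2) hj.1
  rw [div_le_iff₀ he0] at hT3
  linarith

theorem var_comp_neg (u : ℝ → ℝ) (S : Set ℝ) :
    eVariationOn (fun x => u (-x)) S ≤ eVariationOn u ((fun x => -x) '' S) :=
  eVariationOn.comp_le_of_antitoneOn u (fun x : ℝ => -x) (fun x _ y _ hxy => neg_le_neg hxy)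
    (fun x hx => ⟨x, hx, rfl⟩)

theorem SeqCtx.reflect {fj : ℕ → ℝ → ℝ} {η : ℕ → ℝ} (h : SeqCtx f fj B η) :
    SeqCtx (fun x => f (-x)) (fun j x => fj j (-x)) B η := by
  refine ⟨h.bm.comp_neg, fun j => (h.bmj j).comp_neg, ?_, ?_, h.eta, fun j x => h.sup j (-x)⟩
  · exact ne_top_of_le_ne_top h.bv ((var_comp_neg f univ).trans
      (eVariationOn.mono _ (subset_univ _)))
  · refine tendsto_of_tendsto_of_tendsto_of_le_of_le tendsto_const_nhds h.var
      (fun j => zero_le) fun j => ?_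
    exact (var_comp_neg (fun x => fj j x - f x) univ).trans (eVariationOn.mono _ (subset_univ _))

/-- V3, left tail -/
theorem tail_left {fj : ℕ → ℝ → ℝ} {η : ℕ → ℝ} (h : SeqCtx f fj B η) (ε : ℝ) (hε : 0 < ε) :
    ∃ T > 0, ∀ᶠ j in atTop,
      eVariationOn (Mx (Ioi 0) (fj j)) (Iic (-T)) ≤ ENNReal.ofReal ε := by
  obtain ⟨T, hT, hev⟩ := tail_right h.reflect ε hε
  refine ⟨T, hT, ?_⟩
  filter_upwards [hev] with j hj
  have h1 : Mx (Ioi 0) (fun x => fj j (-x)) = fun x => Mx (Ioi 0) (fj j) (-x) := by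
    ext x; exact Mx_comp_neg _ _ _
  rw [h1] at hj
  have h2 := var_comp_neg (fun x => Mx (Ioi 0) (fj j) (-x)) (Iic (-T))
  simp only [neg_neg] at h2
  refine h2.trans (le_trans (eVariationOn.mono _ ?_) hj)
  rintro _ ⟨x, hx, rfl⟩
  have : x ≤ -T := hx
  show T ≤ -x
  linarith

end Pool.Agent.Lib.MP_653dc2_an
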